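import Mathlib

/-!
# Module ASM: from a norm on finitely supported sequences to the frozen statement S03934

Abstract: `N` is a norm on `ℕ →₀ ℝ` for which the unit vectors are a monotone Schauder basis of the completion.
(F1): every normalized block sequence has, beyond every index, `k` terms that are `ε`-close to `ℓ_2^k`
on the given coefficients. (F2): no seminormalized block sequence has an upper `ℓ_2` estimate.
Then the completion is a counterexample: spreading models are `ℓ_2` (F1), and a sequence `y` in the completion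
with two-sided `ℓ_2` estimates has coordinates tending to `0`
(`∑ |e_i^*(y_n)|² < ∞`), so by a gliding hump argument one gets a seminormalized
block sequence with an upper `ℓ_2` estimate.
-/

set_option autoImplicit false

namespace Pool.Agent.H51.SM

open Finset Filter

theorem asm_completion (N : (ℕ →₀ ℝ) → ℝ)
    (hadd : ∀ x y, N (x + y) ≤ N x + N y)
    (hsmul : ∀ (c : ℝ) x, N (c • x) = |c| * N x)
    (hcoord : ∀ x n, |x n| ≤ N x) :
    ∃ (X : Type) (_ : NormedAddCommGroup X) (_ : NormedSpace ℝ X) (_ : CompleteSpace X)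
      (ι : (ℕ →₀ ℝ) →ₗ[ℝ] X) (f : ℕ → X →L[ℝ] ℝ), (∀ x, ‖ι x‖ = N x) ∧ DenseRange ι ∧
      (∀ n x, f n (ι x) = x n) := by
  have h0 : N 0 = 0 := by
    have := hsmul 0 0
    simpa using this
  let A : AddGroupNorm (ℕ →₀ ℝ) :=
    { toFun := N
      map_zero' := h0
      add_le' := hadd
      neg' := fun x => by
        have := hsmul (-1) x
        simpa using this
      eq_zero_of_map_eq_zero' := fun x hx => by
        ext n
        have := hcoord x n
        rw [hx] at this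
        simpa using this }
  let i1 : NormedAddCommGroup (ℕ →₀ ℝ) := A.toNormedAddCommGroup
  let i2 : NormedSpace ℝ (ℕ →₀ ℝ) :=
    { norm_smul_le := fun c x => le_of_eq (hsmul c x) }
  have hn : ∀ x : ℕ →₀ ℝ, ‖x‖ = N x := fun x => rfl
  let f0 : ∀ n : ℕ, (ℕ →₀ ℝ) →L[ℝ] ℝ := fun n =>
    (Finsupp.lapply n : (ℕ →₀ ℝ) →ₗ[ℝ] ℝ).mkContinuous 1 (fun x => by
      rw [one_mul, hn]
      exact hcoord x n)
  refine ⟨UniformSpace.Completion (ℕ →₀ ℝ), inferInstance, inferInstance, inferInstance,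
    (UniformSpace.Completion.toComplL (𝕜 := ℝ) (E := ℕ →₀ ℝ)).toLinearMap,
    fun n => (f0 n).extend (UniformSpace.Completion.toComplL (𝕜 := ℝ) (E := ℕ →₀ ℝ)), ?_, ?_, ?_⟩
  · intro x
    exact UniformSpace.Completion.norm_coe x
  · exact UniformSpace.Completion.denseRange_coe
  · intro n x
    exact ContinuousLinearMap.extend_eq (f0 n) UniformSpace.Completion.denseRange_coe
      (UniformSpace.Completion.isUniformInducing_coe _) x


section abs

variable {X : Type} [NormedAddCommGroup X] [NormedSpace ℝ X]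
  {ι : (ℕ →₀ ℝ) →ₗ[ℝ] X} {f : ℕ → X →L[ℝ] ℝ} {N : (ℕ →₀ ℝ) → ℝ}

theorem asm_sum_single (y : ℕ →₀ ℝ) (s : Finset ℕ) :
    ∑ i ∈ s, y i • ι (Finsupp.single i 1) = ι (y.filter (fun i => i ∈ s)) := by
  have h : y.filter (fun i => i ∈ s) = ∑ i ∈ s, y i • Finsupp.single i (1 : ℝ) := by
    ext j
    rw [Finsupp.filter_apply, Finsupp.finsetSum_apply]
    simp [Finsupp.single_apply]
  rw [h, map_sum]
  exact Finset.sum_congr rfl fun i _ => (map_smul ι _ _).symm

theorem asm_S (hf : ∀ n x, f n (ι x) = x n) (y : ℕ →₀ ℝ) (n : ℕ) :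
    ∑ i ∈ range n, f i (ι y) • ι (Finsupp.single i 1) = ι (y.filter (fun i => i < n)) := by
  simp only [hf]
  rw [asm_sum_single]
  simp only [Finset.mem_range]

theorem asm_norm_S (hN : ∀ x, ‖ι x‖ = N x) (hd : DenseRange ι) (hf : ∀ n x, f n (ι x) = x n)
    (hproj : ∀ x (m : ℕ), N (x.filter (fun i => i < m)) ≤ N x) (n : ℕ) (x : X) :
    ‖∑ i ∈ range n, f i x • ι (Finsupp.single i 1)‖ ≤ ‖x‖ := by
  refine hd.induction_on x ?_ fun y => ?_
  · exact isClosed_le (by fun_prop) (by fun_prop)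
  · rw [asm_S hf, hN, hN]
    exact hproj y n

theorem asm_tendsto (hN : ∀ x, ‖ι x‖ = N x) (hd : DenseRange ι) (hf : ∀ n x, f n (ι x) = x n)
    (hproj : ∀ x (m : ℕ), N (x.filter (fun i => i < m)) ≤ N x) (x : X) :
    Tendsto (fun n => ∑ i ∈ range n, f i x • ι (Finsupp.single i 1)) atTop (nhds x) := by
  rw [Metric.tendsto_atTop]
  intro ε hε
  obtain ⟨y, hy⟩ := hd.exists_dist_lt x (show 0 < ε / 2 by positivity)
  obtain ⟨n0, hn0⟩ : ∃ n0, ∀ i ∈ y.support, i < n0 := by
    refine ⟨y.support.sup id + 1, fun i hi => ?_⟩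
    exact Nat.lt_succ_of_le (Finset.le_sup (f := id) hi)
  refine ⟨n0, fun n hn => ?_⟩
  have h1 : ∑ i ∈ range n, f i (ι y) • ι (Finsupp.single i 1) = ι y := by
    rw [asm_S hf]
    congr 1
    rw [Finsupp.filter_eq_self_iff]
    intro i hi
    exact (hn0 i (Finsupp.mem_support_iff.2 hi)).trans_le hn
  have h2 : ∑ i ∈ range n, f i x • ι (Finsupp.single i 1) - ι y =
      ∑ i ∈ range n, f i (x - ι y) • ι (Finsupp.single i 1) := by
    rw [← h1, ← Finset.sum_sub_distrib]
    refine Finset.sum_congr rfl fun i _ => ?_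
    rw [h1, map_sub, sub_smul]
  have h3 := asm_norm_S hN hd hf hproj n (x - ι y)
  rw [← h2] at h3
  rw [dist_eq_norm] at hy ⊢
  calc ‖∑ i ∈ range n, f i x • ι (Finsupp.single i 1) - x‖
      = ‖(∑ i ∈ range n, f i x • ι (Finsupp.single i 1) - ι y) - (x - ι y)‖ := by congr 1; abel
    _ ≤ ‖∑ i ∈ range n, f i x • ι (Finsupp.single i 1) - ι y‖ + ‖x - ι y‖ := norm_sub_le _ _
    _ < ε := by linarith

theorem asm_l2 {α : Type*} (s : Finset α) (a : α → ℝ) :
    (∑ i ∈ s, |a i| ^ (2 : ℝ)) ^ (1 / (2 : ℝ)) = √(∑ i ∈ s, a i ^ 2) := by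
  rw [Real.sqrt_eq_rpow]
  congr 1
  refine Finset.sum_congr rfl fun i _ => ?_
  rw [Real.rpow_two, sq_abs]

/-- Upper estimate along a subsequence. -/
theorem asm_subseq (y : ℕ → X) (C : ℝ)
    (h : ∀ (n : ℕ) (a : ℕ → ℝ), ‖∑ i ∈ range n, a i • y i‖ ≤ C * √(∑ i ∈ range n, a i ^ 2))
    (n : ℕ → ℕ) (hn : StrictMono n) (m : ℕ) (a : ℕ → ℝ) :
    ‖∑ j ∈ range m, a j • y (n j)‖ ≤ C * √(∑ j ∈ range m, a j ^ 2) := by
  classical
  let b : ℕ → ℝ := fun i => if h : ∃ j, j < m ∧ n j = i then a h.choose else 0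
  have hb : ∀ j, j < m → b (n j) = a j := by
    intro j hj
    have hex : ∃ j', j' < m ∧ n j' = n j := ⟨j, hj, rfl⟩
    simp only [b, dif_pos hex]
    have := hn.injective hex.choose_spec.2
    rw [this]
  have hb0 : ∀ i, i ∉ (range m).image n → b i = 0 := by
    intro i hi
    simp only [b]
    rw [dif_neg]
    rintro ⟨j, hj, rfl⟩
    exact hi (Finset.mem_image_of_mem _ (Finset.mem_range.2 hj))
  have hsub : (range m).image n ⊆ range (n m) := by
    intro i hi
    obtain ⟨j, hj, rfl⟩ := Finset.mem_image.1 hi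
    exact Finset.mem_range.2 (hn (Finset.mem_range.1 hj))
  have h1 := h (n m) b
  have e1 : ∑ i ∈ range (n m), b i • y i = ∑ j ∈ range m, a j • y (n j) := by
    rw [← Finset.sum_subset hsub fun i _ hi => by rw [hb0 i hi, zero_smul],
      Finset.sum_image fun i _ j _ hij => hn.injective hij]
    exact Finset.sum_congr rfl fun j hj => by rw [hb j (Finset.mem_range.1 hj)]
  have e2 : ∑ i ∈ range (n m), b i ^ 2 = ∑ j ∈ range m, a j ^ 2 := by
    rw [← Finset.sum_subset hsub fun i _ hi => by rw [hb0 i hi]; ring,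
      Finset.sum_image fun i _ j _ hij => hn.injective hij]
    exact Finset.sum_congr rfl fun j hj => by rw [hb j (Finset.mem_range.1 hj)]
  rwa [e1, e2] at h1

/-- Coordinates of a sequence with an upper `ℓ_2` estimate tend to zero. -/
theorem asm_coord (g : X →L[ℝ] ℝ) (y : ℕ → X) (C : ℝ)
    (h : ∀ (n : ℕ) (a : ℕ → ℝ), ‖∑ i ∈ range n, a i • y i‖ ≤ C * √(∑ i ∈ range n, a i ^ 2)) :
    Tendsto (fun n => g (y n)) atTop (nhds 0) := by
  have h1 : ∀ n, ∑ i ∈ range n, (g (y i)) ^ 2 ≤ (‖g‖ * C) ^ 2 := by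
    intro n
    have h2 := h n fun i => g (y i)
    set s := ∑ i ∈ range n, (g (y i)) ^ 2 with hs
    have hs0 : 0 ≤ s := Finset.sum_nonneg fun i _ => sq_nonneg _
    have h3 : s = g (∑ i ∈ range n, g (y i) • y i) := by
      rw [map_sum, hs]
      refine Finset.sum_congr rfl fun i _ => ?_
      rw [map_smul, smul_eq_mul, sq]
    have h4 : s ≤ ‖g‖ * (C * √s) := by
      calc s = g (∑ i ∈ range n, g (y i) • y i) := h3
        _ ≤ ‖g (∑ i ∈ range n, g (y i) • y i)‖ := Real.le_norm_self _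
        _ ≤ ‖g‖ * ‖∑ i ∈ range n, g (y i) • y i‖ := g.le_opNorm _
        _ ≤ ‖g‖ * (C * √s) := mul_le_mul_of_nonneg_left h2 (norm_nonneg _)
    have h5 : √s * √s = s := Real.mul_self_sqrt hs0
    rcases hs0.eq_or_lt with h0 | h0
    · rw [← h0]; positivity
    · have h6 : 0 < √s := Real.sqrt_pos.2 h0
      have h7 : √s ≤ ‖g‖ * C := by
        by_contra hcon
        have := not_le.1 hcon
        nlinarith
      nlinarith
  have h2 : Summable fun i => (g (y i)) ^ 2 :=
    summable_of_sum_range_le (fun i => sq_nonneg _) h1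
  have h3 := h2.tendsto_atTop_zero
  have h4 : Tendsto (fun n => √((g (y n)) ^ 2)) atTop (nhds (√0)) :=
    (Real.continuous_sqrt.tendsto 0).comp h3
  rw [Real.sqrt_zero] at h4
  simp only [Real.sqrt_sq_eq_abs] at h4
  exact (tendsto_zero_iff_abs_tendsto_zero _).2 h4

/-- One step of the gliding hump. -/
theorem asm_step (hN : ∀ x, ‖ι x‖ = N x) (hd : DenseRange ι) (hf : ∀ n x, f n (ι x) = x n)
    (hproj : ∀ x (m : ℕ), N (x.filter (fun i => i < m)) ≤ N x) (y : ℕ → X)
    (hy : ∀ i, Tendsto (fun n => f i (y n)) atTop (nhds 0)) (p M : ℕ) (ε : ℝ) (hε : 0 < ε) :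
    ∃ (n M' : ℕ) (z : ℕ →₀ ℝ), p < n ∧ M < M' ∧ (∀ i ∈ z.support, M ≤ i ∧ i < M') ∧
      ‖ι z - y n‖ ≤ ε := by
  have h1 : Tendsto (fun n => ∑ i ∈ range M, f i (y n) • ι (Finsupp.single i 1)) atTop
      (nhds 0) := by
    have : Tendsto (fun n => ∑ i ∈ range M, f i (y n) • ι (Finsupp.single i 1)) atTop
      (nhds (∑ i ∈ range M, (0 : ℝ) • ι (Finsupp.single i 1))) :=
      tendsto_finsetSum _ fun i _ => (hy i).smul_const _
    simpa using this
  have h2 : ∀ᶠ n in atTop, ‖∑ i ∈ range M, f i (y n) • ι (Finsupp.single i 1)‖ < ε / 2 := by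
    have := h1.norm
    rw [norm_zero] at this
    exact this.eventually_lt_const (by positivity)
  obtain ⟨n, hn, hpn⟩ := (h2.and (eventually_gt_atTop p)).exists
  have h3 := Metric.tendsto_atTop.1 (asm_tendsto hN hd hf hproj (y n)) (ε / 2) (by positivity)
  obtain ⟨M0, hM0⟩ := h3
  set M' := max M0 (M + 1) with hM'
  have h4 := hM0 M' (le_max_left _ _)
  have hMM : M < M' := lt_of_lt_of_le (Nat.lt_succ_self M) (le_max_right _ _)
  refine ⟨n, M', ∑ i ∈ Ico M M', f i (y n) • Finsupp.single i 1, hpn, hMM, ?_, ?_⟩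
  · intro i hi
    by_contra hcon
    have : i ∉ Ico M M' := by rw [Finset.mem_Ico]; exact hcon
    apply Finsupp.mem_support_iff.1 hi
    rw [Finsupp.finsetSum_apply]
    apply Finset.sum_eq_zero
    intro j hj
    have hij : j ≠ i := fun h => this (h ▸ hj)
    simp [Finsupp.single_apply, hij]
  · rw [dist_eq_norm] at h4
    have e1 : ι (∑ i ∈ Ico M M', f i (y n) • Finsupp.single i 1) =
        ∑ i ∈ range M', f i (y n) • ι (Finsupp.single i 1) -
          ∑ i ∈ range M, f i (y n) • ι (Finsupp.single i 1) := by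
      rw [Finset.range_eq_Ico, Finset.range_eq_Ico, ← Finset.sum_Ico_consecutive _ (Nat.zero_le M)
        hMM.le, add_sub_cancel_left, map_sum]
      exact Finset.sum_congr rfl fun i _ => map_smul ι _ _
    rw [e1]
    have e2 : ∑ i ∈ range M', f i (y n) • ι (Finsupp.single i 1) -
          ∑ i ∈ range M, f i (y n) • ι (Finsupp.single i 1) - y n =
        (∑ i ∈ range M', f i (y n) • ι (Finsupp.single i 1) - y n) -
          ∑ i ∈ range M, f i (y n) • ι (Finsupp.single i 1) := by abel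
    rw [e2]
    refine (norm_sub_le _ _).trans ?_
    linarith

end abs


theorem eq_of_abs_sub_le_all {u v : ℝ} (h : ∀ ε > 0, |u - v| ≤ ε) : u = v := by
  have h1 : |u - v| ≤ 0 := le_of_forall_pos_le_add fun ε hε => by
    rw [zero_add]; exact h ε hε
  have h2 := abs_nonpos_iff.1 h1
  linarith

theorem assemble (N : (ℕ →₀ ℝ) → ℝ)
    (hadd : ∀ x y, N (x + y) ≤ N x + N y)
    (hsmul : ∀ (c : ℝ) x, N (c • x) = |c| * N x)
    (hcoord : ∀ x n, |x n| ≤ N x)
    (hproj : ∀ x (m : ℕ), N (x.filter (fun i => i < m)) ≤ N x)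
    (F1 : ∀ x : ℕ → (ℕ →₀ ℝ), (∀ s t, s < t → ∀ i ∈ (x s).support, ∀ j ∈ (x t).support, i < j) →
      (∀ n, N (x n) = 1) → ∀ (k : ℕ) (a : Fin k → ℝ) (ε : ℝ), 0 < ε → ∀ N0 : ℕ,
        ∃ n : Fin k → ℕ, StrictMono n ∧ (∀ i, N0 ≤ n i) ∧
          |N (∑ i, a i • x (n i)) - (∑ i, |a i| ^ (2 : ℝ)) ^ (1 / (2 : ℝ))| ≤ ε)
    (F2 : ∀ z : ℕ → (ℕ →₀ ℝ), (∀ s t, s < t → ∀ i ∈ (z s).support, ∀ j ∈ (z t).support, i < j) →
      ∀ c C : ℝ, 0 < c → (∀ j, c ≤ N (z j)) →
        ¬ (∀ (m : ℕ) (a : ℕ → ℝ), N (∑ j ∈ range m, a j • z j) ≤ C * Real.sqrt (∑ j ∈ range m, a j ^ 2))) :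
    ¬ (∀ (X : Type) [NormedAddCommGroup X] [NormedSpace ℝ X] [CompleteSpace X] (p : ℝ), 1 < p →
  ∀ (e : ℕ → X) (f : ℕ → X →L[ℝ] ℝ),
    (∀ i j, f i (e j) = if i = j then 1 else 0) →
    (∀ x : X, Filter.Tendsto (fun n => ∑ i ∈ Finset.range n, f i x • e i) Filter.atTop (nhds x)) →
    (∀ (x : ℕ → X),
      (∃ m : ℕ → ℕ, StrictMono m ∧ ∃ c : ℕ → ℝ,
        ∀ n, x n = ∑ i ∈ Finset.Ico (m n) (m (n + 1)), c i • e i) →
      (∀ n, ‖x n‖ = 1) →
      ∀ L : (k : ℕ) → (Fin k → ℝ) → ℝ,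
        (∀ (k : ℕ) (a : Fin k → ℝ), ∀ ε > 0, ∃ N : ℕ, ∀ n : Fin k → ℕ, StrictMono n →
          (∀ i, N ≤ n i) → |‖∑ i, a i • x (n i)‖ - L k a| < ε) →
        ∀ (k : ℕ) (a : Fin k → ℝ), L k a = (∑ i, |a i| ^ p) ^ (1 / p)) →
    ∃ (y : ℕ → X) (C : ℝ), 0 < C ∧ ∀ (n : ℕ) (a : ℕ → ℝ),
      (∑ i ∈ Finset.range n, |a i| ^ p) ^ (1 / p) ≤ C * ‖∑ i ∈ Finset.range n, a i • y i‖ ∧
      ‖∑ i ∈ Finset.range n, a i • y i‖ ≤ C * (∑ i ∈ Finset.range n, |a i| ^ p) ^ (1 / p)) := by
  intro hall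
  obtain ⟨X, i1, i2, i3, ι, f, hN, hd, hf⟩ := asm_completion N hadd hsmul hcoord
  obtain ⟨y, C, hC, hyC⟩ := hall X 2 one_lt_two (fun i => ι (Finsupp.single i 1)) f
    (fun i j => by rw [hf, Finsupp.single_apply]; simp only [eq_comm])
    (asm_tendsto hN hd hf hproj) (by
      rintro x ⟨m, hm, c, hxc⟩ hx1 L hL k a
      -- the block sequence in the original space
      set x' : ℕ → (ℕ →₀ ℝ) := fun n => ∑ i ∈ Ico (m n) (m (n + 1)), c i • Finsupp.single i 1
        with hx'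
      have hιx : ∀ n, ι (x' n) = x n := by
        intro n
        rw [hxc, hx', map_sum]
        exact Finset.sum_congr rfl fun i _ => map_smul ι _ _
      have hsup : ∀ n, ∀ i ∈ (x' n).support, m n ≤ i ∧ i < m (n + 1) := by
        intro n i hi
        by_contra hcon
        have : i ∉ Ico (m n) (m (n + 1)) := by rw [Finset.mem_Ico]; exact hcon
        apply Finsupp.mem_support_iff.1 hi
        rw [hx', Finsupp.finsetSum_apply]
        apply Finset.sum_eq_zero
        intro j hj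
        have hij : j ≠ i := fun h => this (h ▸ hj)
        simp [Finsupp.single_apply, hij]
      have hF := F1 x' (fun s t hst i hi j hj => by
        have h1 := (hsup s i hi).2
        have h2 := (hsup t j hj).1
        have h3 : m (s + 1) ≤ m t := hm.monotone hst
        omega) (fun n => by rw [← hN, hιx, hx1]) k a
      apply eq_of_abs_sub_le_all
      intro ε hε
      obtain ⟨N1, hN1⟩ := hL k a (ε / 2) (by positivity)
      obtain ⟨n, hn1, hn2, hn3⟩ := hF (ε / 2) (by positivity) N1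
      have h1 := hN1 n hn1 hn2
      have h2 : N (∑ i, a i • x' (n i)) = ‖∑ i, a i • x (n i)‖ := by
        rw [← hN, map_sum]
        congr 1
        exact Finset.sum_congr rfl fun i _ => by rw [map_smul, hιx]
      rw [h2] at hn3
      rw [abs_le] at hn3 ⊢
      rw [abs_lt] at h1
      constructor <;> linarith [h1.1, h1.2, hn3.1, hn3.2])
  -- the upper and lower estimates
  have hup : ∀ (n : ℕ) (a : ℕ → ℝ),
      ‖∑ i ∈ range n, a i • y i‖ ≤ C * √(∑ i ∈ range n, a i ^ 2) := by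
    intro n a
    have := (hyC n a).2
    rwa [asm_l2] at this
  have hlow : ∀ n, 1 ≤ C * ‖y n‖ := by
    intro n
    have h1 := (hyC (n + 1) (fun i => if i = n then 1 else 0)).1
    rw [asm_l2] at h1
    simpa [Finset.sum_ite_eq] using h1
  have hcoord0 : ∀ i, Tendsto (fun n => f i (y n)) atTop (nhds 0) := fun i =>
    asm_coord (f i) y C hup
  have hstep := asm_step hN hd hf hproj y hcoord0
  -- the gliding hump
  set q : ℝ := min 1 (1 / (2 * C)) with hq
  have hq0 : 0 < q := by rw [hq]; positivity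
  have hq1 : q ≤ 1 := min_le_left _ _
  have hq2 : q ≤ 1 / (2 * C) := min_le_right _ _
  choose! nn MM zz hz1 hz2 hz3 hz4 using fun (p M j : ℕ) =>
    hstep p M (q * (1 / 2) ^ (j + 1)) (by positivity)
  let st : ℕ → ℕ × ℕ := fun j => Nat.rec (0, 0) (fun j s => (nn s.1 s.2 j, MM s.1 s.2 j)) j
  have hst : ∀ j, st (j + 1) = (nn (st j).1 (st j).2 j, MM (st j).1 (st j).2 j) := fun j => rfl
  let n : ℕ → ℕ := fun j => (st (j + 1)).1
  let M : ℕ → ℕ := fun j => (st j).2
  let z : ℕ → (ℕ →₀ ℝ) := fun j => zz (st j).1 (st j).2 j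
  have hnn : StrictMono n := strictMono_nat_of_lt_succ fun j => by
    have := hz1 (st (j + 1)).1 (st (j + 1)).2 (j + 1)
    simpa only [n, hst (j + 1)] using this
  have hMM : StrictMono M := strictMono_nat_of_lt_succ fun j => by
    have := hz2 (st j).1 (st j).2 j
    simpa only [M, hst j] using this
  have hzs : ∀ j, ∀ i ∈ (z j).support, M j ≤ i ∧ i < M (j + 1) := by
    intro j i hi
    have := hz3 (st j).1 (st j).2 j i hi
    simpa only [M, hst j] using this
  have hzy : ∀ j, ‖ι (z j) - y (n j)‖ ≤ q * (1 / 2) ^ (j + 1) := by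
    intro j
    have := hz4 (st j).1 (st j).2 j
    simpa only [z, n, hst j] using this
  refine F2 z (fun s t hst i hi j hj => ?_) (1 / (2 * C)) (C + 1) (by positivity) (fun j => ?_) ?_
  · have h1 := (hzs s i hi).2
    have h2 := (hzs t j hj).1
    have h3 : M (s + 1) ≤ M t := hMM.monotone hst
    omega
  · rw [← hN]
    have h1 := hzy j
    have h2 : (1 / 2 : ℝ) ^ (j + 1) ≤ 1 := pow_le_one₀ (by norm_num) (by norm_num)
    have h3 : q * (1 / 2) ^ (j + 1) ≤ q * 1 := mul_le_mul_of_nonneg_left h2 hq0.le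
    have h4 : ‖y (n j)‖ - ‖ι (z j)‖ ≤ ‖ι (z j) - y (n j)‖ := by
      rw [norm_sub_rev]
      exact norm_sub_norm_le _ _
    have h5 : 1 / C ≤ ‖y (n j)‖ := by
      rw [div_le_iff₀ hC]
      linarith [hlow (n j)]
    have h6 : 1 / C = 1 / (2 * C) + 1 / (2 * C) := by field_simp; norm_num
    linarith
  · intro m a
    have hsum : N (∑ j ∈ range m, a j • z j) = ‖∑ j ∈ range m, a j • ι (z j)‖ := by
      rw [← hN, map_sum]
      congr 1
      exact Finset.sum_congr rfl fun i _ => map_smul ι _ _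
    rw [hsum]
    have h1 := asm_subseq y C hup n hnn m a
    have e1 : ∑ j ∈ range m, a j • ι (z j) = ∑ j ∈ range m, a j • y (n j) +
        ∑ j ∈ range m, a j • (ι (z j) - y (n j)) := by
      rw [← Finset.sum_add_distrib]
      refine Finset.sum_congr rfl fun j _ => ?_
      rw [← smul_add, add_sub_cancel]
    have h2 : ‖∑ j ∈ range m, a j • (ι (z j) - y (n j))‖ ≤ √(∑ j ∈ range m, a j ^ 2) := by
      set s := √(∑ j ∈ range m, a j ^ 2) with hs
      have hs0 : 0 ≤ s := Real.sqrt_nonneg _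
      have h3 : ∀ j ∈ range m, ‖a j • (ι (z j) - y (n j))‖ ≤ s * (1 / 2) ^ (j + 1) := by
        intro j hj
        rw [norm_smul]
        have h4 : ‖a j‖ ≤ s := by
          rw [Real.norm_eq_abs, hs]
          apply Real.abs_le_sqrt
          exact Finset.single_le_sum (f := fun j => a j ^ 2) (fun i _ => sq_nonneg _) hj
        have h5 : ‖ι (z j) - y (n j)‖ ≤ (1 / 2) ^ (j + 1) := by
          refine (hzy j).trans ?_
          have : (0:ℝ) ≤ (1 / 2) ^ (j + 1) := by positivity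
          nlinarith
        exact mul_le_mul h4 h5 (norm_nonneg _) hs0
      refine (norm_sum_le _ _).trans ((Finset.sum_le_sum h3).trans ?_)
      rw [← Finset.mul_sum]
      have h6 : ∑ j ∈ range m, (1 / 2 : ℝ) ^ (j + 1) ≤ 1 := by
        have h7 : ∀ m : ℕ, ∑ j ∈ range m, (1 / 2 : ℝ) ^ (j + 1) = 1 - (1 / 2) ^ m := by
          intro m
          induction m with
          | zero => simp
          | succ m ih => rw [Finset.sum_range_succ, ih]; ring
        rw [h7]
        have : (0:ℝ) ≤ (1 / 2) ^ m := by positivity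
        linarith
      nlinarith
    rw [e1]
    refine (norm_add_le _ _).trans ?_
    rw [add_mul, one_mul]
    exact add_le_add h1 h2

end Pool.Agent.H51.SM
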