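import Pool.Agent.H51.SM.Norm

/-!
# Module LEMN: Lemma N (paper proof, section 3)
-/

set_option autoImplicit false

namespace Pool.Agent.H51.SM

open Finset

variable {L : LS dm}

theorem cs2 (u1 u2 v1 v2 : ℝ) : (u1 * v1 + u2 * v2) ^ 2 ≤ (u1 ^ 2 + u2 ^ 2) * (v1 ^ 2 + v2 ^ 2) := by
  nlinarith [sq_nonneg (u1 * v2 - u2 * v1)]

theorem cs4 (a1 a2 b1 b2 c1 c2 d1 d2 : ℝ) :
    (a1 * b1 * c1 * d1 + a2 * b2 * c2 * d2) ^ 4 ≤
      (a1 ^ 4 + a2 ^ 4) * (b1 ^ 4 + b2 ^ 4) * (c1 ^ 4 + c2 ^ 4) * (d1 ^ 4 + d2 ^ 4) := by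
  have h1 := cs2 (a1 * b1) (a2 * b2) (c1 * d1) (c2 * d2)
  have h2 := cs2 (a1 ^ 2) (a2 ^ 2) (b1 ^ 2) (b2 ^ 2)
  have h3 := cs2 (c1 ^ 2) (c2 ^ 2) (d1 ^ 2) (d2 ^ 2)
  have h4 : 0 ≤ (a1 * b1 * (c1 * d1) + a2 * b2 * (c2 * d2)) ^ 2 := sq_nonneg _
  calc (a1 * b1 * c1 * d1 + a2 * b2 * c2 * d2) ^ 4 = ((a1 * b1 * (c1 * d1) + a2 * b2 * (c2 * d2)) ^ 2) ^ 2 := by ring
    _ ≤ (((a1 * b1) ^ 2 + (a2 * b2) ^ 2) * ((c1 * d1) ^ 2 + (c2 * d2) ^ 2)) ^ 2 := pow_le_pow_left₀ h4 h1 2
    _ = (a1 ^ 2 * b1 ^ 2 + a2 ^ 2 * b2 ^ 2) ^ 2 * (c1 ^ 2 * d1 ^ 2 + c2 ^ 2 * d2 ^ 2) ^ 2 := by ring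
    _ ≤ (((a1 ^ 2) ^ 2 + (a2 ^ 2) ^ 2) * ((b1 ^ 2) ^ 2 + (b2 ^ 2) ^ 2)) *
        (((c1 ^ 2) ^ 2 + (c2 ^ 2) ^ 2) * ((d1 ^ 2) ^ 2 + (d2 ^ 2) ^ 2)) :=
        mul_le_mul h2 h3 (sq_nonneg _) (by positivity)
    _ = _ := by ring

theorem nm_empty {x : ℕ → ℝ} (hx : ∀ n, 0 ≤ x n) : nm L ∅ x = 0 := by
  apply le_antisymm
  · refine (nm_le_sum ∅ hx).trans ?_
    simp
  · exact nm_nonneg _ hx

/-- trivial bound -/
theorem trivial_bound {T : Tr} (hT : Valid L T) {E : Finset ℕ} {x : ℕ → ℝ} (hx : ∀ n, 0 ≤ x n) {ι : Type}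
    (s : Finset ι) (B : ι → Finset ℕ) (hB : ∀ l ∈ s, B l ⊆ E)
    (hd : ∀ l ∈ s, ∀ l' ∈ s, l ≠ l' → Disjoint (B l) (B l')) :
    ∑ l ∈ s, pr (B l) (R T (B l)) x ^ 4 ≤ nm L (E ∩ sp T) x ^ 4 := by
  refine le_trans ?_ (nm_four_sum s (A := fun l => B l ∩ B l ∩ sp T) (L := L) (U := E ∩ sp T) ?_ ?_ hx)
  · apply sum_le_sum
    intro l _
    exact pow_le_pow_left₀ (pr_nonneg (fun n _ => R_nonneg hT _ n) (fun n _ => hx n)) (pr_R_le hT _ _ hx) 4
  · intro i hi j hj hij
    exact Disjoint.mono (subset_trans inter_subset_left inter_subset_left)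
      (subset_trans inter_subset_left inter_subset_left) (hd i hi j hj hij)
  · intro i hi
    exact inter_subset_inter_right (subset_trans inter_subset_left (hB i hi))

/-- restriction of a vector to the support of a subtree -/
noncomputable def rs (A : Finset ℕ) (x : ℕ → ℝ) (n : ℕ) : ℝ := if n ∈ A then x n else 0

theorem rs_nonneg {A : Finset ℕ} {x : ℕ → ℝ} (hx : ∀ n, 0 ≤ x n) (n : ℕ) : 0 ≤ rs A x n := by
  unfold rs; split_ifs
  · exact hx n
  · exact le_rfl

theorem pr_rs {T : Tr} (hT : Valid L T) (A B : Finset ℕ) (x : ℕ → ℝ) :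
    pr A (R T B) (rs (sp T) x) = pr A (R T B) x := by
  unfold pr rs
  apply sum_congr rfl
  intro n _
  split_ifs with hn
  · rfl
  · rw [R_eq_zero hT (fun hh => hn (mem_inter.1 hh).2)]; ring

theorem nm_rs (A E : Finset ℕ) (x : ℕ → ℝ) : nm L E (rs A x) = nm L (E ∩ A) x := by
  rw [nm_inter (F := A) (fun n hn => by unfold rs; rw [if_neg hn])]
  apply nm_congr
  intro n hn
  unfold rs
  rw [if_pos (mem_inter.1 hn).2]

theorem lemN {T : Tr} (hT : Valid L T) (J : Finset ℕ) (E : ℕ → Finset ℕ)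
    (hE : ∀ i ∈ J, ∀ j ∈ J, i < j → Lt (E i) (E j)) :
    ∃ q : ℕ → ℝ, (∀ j, 0 ≤ q j) ∧ ∑ j ∈ J, q j ^ 8 ≤ 8 ∧
      ∀ j ∈ J, ∀ x : ℕ → ℝ, (∀ n, 0 ≤ x n) → ∀ (ι : Type) (s : Finset ι) (B : ι → Finset ℕ),
        (∀ l ∈ s, B l ⊆ E j) → (∀ l ∈ s, ∀ l' ∈ s, l ≠ l' → Disjoint (B l) (B l')) →
        ∑ l ∈ s, pr (B l) (R T (B l)) x ^ 4 ≤ q j ^ 4 * nm L (E j) x ^ 4 := by
  induction T with
  | leaf m =>
    classical
    refine ⟨fun j => if m ∈ E j then 1 else 0, fun j => by positivity, ?_, ?_⟩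
    · have h1 : ∑ j ∈ J, (if m ∈ E j then (1 : ℝ) else 0) ^ 8 = ((J.filter fun j => m ∈ E j).card : ℝ) := by
        rw [card_filter]
        push_cast
        apply sum_congr rfl
        intro j _
        split_ifs <;> norm_num
      rw [h1]
      have h2 : (J.filter fun j => m ∈ E j).card ≤ 1 := by
        rw [card_le_one]
        intro a ha b hb
        rw [mem_filter] at ha hb
        by_contra hab
        rcases lt_or_gt_of_ne hab with h | h
        · exact lt_irrefl _ (hE a ha.1 b hb.1 h m ha.2 m hb.2)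
        · exact lt_irrefl _ (hE b hb.1 a ha.1 h m hb.2 m ha.2)
      have : ((J.filter fun j => m ∈ E j).card : ℝ) ≤ 1 := by exact_mod_cast h2
      linarith
    · intro j hj x hx ι s B hB hd
      have h1 := trivial_bound hT (E := E j) hx s B hB hd
      by_cases hm : m ∈ E j
      · simp only [if_pos hm, one_pow, one_mul]
        exact h1.trans (pow_le_pow_left₀ (nm_nonneg _ hx) (nm_mono_set inter_subset_left hx) 4)
      · have h2 : E j ∩ sp (Tr.leaf m) = ∅ := by
          ext n
          simp only [sp, mem_inter, mem_singleton, notMem_empty, iff_false, not_and]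
          intro hn hnm
          exact hm (hnm ▸ hn)
        rw [h2, nm_empty hx] at h1
        simp only [if_neg hm]
        simpa using h1
  | gen q s t ihs iht =>
    obtain ⟨⟨hq0, hq1⟩, hs, ht, hlt⟩ := id hT
    have hq0' : (0 : ℝ) < q := by exact_mod_cast hq0
    have hq1' : (q : ℝ) < 1 := by exact_mod_cast hq1
    have h1q : (0 : ℝ) < 1 - q := by linarith
    obtain ⟨qs, qs0, qs8, Hs⟩ := ihs hs
    obtain ⟨qt, qt0, qt8, Ht⟩ := iht ht
    set Q : ℕ → ℝ := fun j => Real.sqrt (Real.sqrt (q * qs j ^ 4 + (1 - q) * qt j ^ 4)) with hQ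
    have hQ4 : ∀ j, Q j ^ 4 = q * qs j ^ 4 + (1 - q) * qt j ^ 4 := by
      intro j
      have := qs0 j
      have := qt0 j
      have h0 : 0 ≤ q * qs j ^ 4 + (1 - q) * qt j ^ 4 := by positivity
      simp only [hQ]
      rw [show Real.sqrt (Real.sqrt (q * qs j ^ 4 + (1 - q) * qt j ^ 4)) ^ 4 =
        (Real.sqrt (Real.sqrt (q * qs j ^ 4 + (1 - q) * qt j ^ 4)) ^ 2) ^ 2 by ring,
        Real.sq_sqrt (Real.sqrt_nonneg _), Real.sq_sqrt h0]
    refine ⟨Q, fun j => Real.sqrt_nonneg _, ?_, ?_⟩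
    · have h1 : ∑ j ∈ J, Q j ^ 8 ≤ ∑ j ∈ J, (q * qs j ^ 8 + (1 - q) * qt j ^ 8) := by
        apply sum_le_sum
        intro j _
        rw [show Q j ^ 8 = (Q j ^ 4) ^ 2 by ring, hQ4]
        nlinarith [mul_nonneg (mul_nonneg hq0'.le h1q.le) (sq_nonneg (qs j ^ 4 - qt j ^ 4))]
      refine h1.trans ?_
      rw [sum_add_distrib, ← mul_sum, ← mul_sum]
      nlinarith
    · intro j hj x hx ι S B hB hd
      rw [hQ4]
      set Xs := nm L (E j ∩ sp s) x with hXs
      set Xt := nm L (E j ∩ sp t) x with hXt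
      have hXs0 : 0 ≤ Xs := nm_nonneg _ hx
      have hXt0 : 0 ≤ Xt := nm_nonneg _ hx
      have hX : Xs ^ 2 + Xt ^ 2 ≤ nm L (E j) x ^ 2 := by
        refine (nm_sq_add ?_ hx).trans ?_
        · intro a ha b hb
          exact hlt a (mem_inter.1 ha).2 b (mem_inter.1 hb).2
        · exact pow_le_pow_left₀ (nm_nonneg _ hx)
            (nm_mono_set (union_subset inter_subset_left inter_subset_left) hx) 2
      have h1 := Hs j hj (rs (sp s) x) (rs_nonneg hx) ι S B hB hd
      have h2 := Ht j hj (rs (sp t) x) (rs_nonneg hx) ι S B hB hd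
      simp only [nm_rs, pr_rs hs, pr_rs ht] at h1 h2
      set r : ι → ℝ := fun l => pr (B l) (R s (B l)) x with hr
      set r' : ι → ℝ := fun l => pr (B l) (R t (B l)) x with hr'
      have hr0 : ∀ l, 0 ≤ r l := fun l => pr_nonneg (fun n _ => R_nonneg hs _ n) (fun n _ => hx n)
      have hr0' : ∀ l, 0 ≤ r' l := fun l => pr_nonneg (fun n _ => R_nonneg ht _ n) (fun n _ => hx n)
      have hqs := qs0 j
      have hqt := qt0 j
      set ys := Real.sqrt Xs with hys
      set yt := Real.sqrt Xt with hyt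
      have hys4 : ys ^ 4 = Xs ^ 2 := by
        rw [show ys ^ 4 = (ys ^ 2) ^ 2 by ring, hys, Real.sq_sqrt hXs0]
      have hyt4 : yt ^ 4 = Xt ^ 2 := by
        rw [show yt ^ 4 = (yt ^ 2) ^ 2 by ring, hyt, Real.sq_sqrt hXt0]
      have key : ∀ l ∈ S, pr (B l) (R (Tr.gen q s t) (B l)) x ^ 4 ≤
          (q * qs j ^ 4 + (1 - q) * qt j ^ 4) * (Xs ^ 2 + Xt ^ 2) *
            ((r l / (qs j * ys)) ^ 4 + (r' l / (qt j * yt)) ^ 4) := by
        intro l hl
        obtain ⟨a, b, ha, hb, hab, hR⟩ := R_gen hT (B l)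
        have e1 : pr (B l) (R (Tr.gen q s t) (B l)) x = Real.sqrt q * a * r l + Real.sqrt (1 - q) * b * r' l := by
          simp only [hr, hr']
          unfold pr
          rw [mul_sum, mul_sum, ← sum_add_distrib]
          apply sum_congr rfl
          intro n _
          rw [hR]; ring
        have z1 : r l = qs j * ys * (r l / (qs j * ys)) := by
          by_cases h0 : qs j * ys = 0
          · have h3 : r l ^ 4 ≤ 0 := by
              refine (single_le_sum (f := fun l => r l ^ 4) (fun l _ => by positivity) hl).trans (h1.trans ?_)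
              have : qs j ^ 4 * Xs ^ 4 = 0 := by
                rcases mul_eq_zero.1 h0 with h | h
                · rw [h]; ring
                · have : Xs ^ 2 = 0 := by rw [← hys4, h]; ring
                  rw [show Xs ^ 4 = (Xs ^ 2) ^ 2 by ring, this]; ring
              exact this.le
            have h4 : r l = 0 := by
              have := pow_eq_zero_iff (n := 4) (by norm_num) |>.1 (le_antisymm h3 (by positivity))
              exact this
            rw [h4, h0]; ring
          · rw [← mul_div_assoc, mul_div_cancel_left₀ _ h0]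
        have z2 : r' l = qt j * yt * (r' l / (qt j * yt)) := by
          by_cases h0 : qt j * yt = 0
          · have h3 : r' l ^ 4 ≤ 0 := by
              refine (single_le_sum (f := fun l => r' l ^ 4) (fun l _ => by positivity) hl).trans (h2.trans ?_)
              have : qt j ^ 4 * Xt ^ 4 = 0 := by
                rcases mul_eq_zero.1 h0 with h | h
                · rw [h]; ring
                · have : Xt ^ 2 = 0 := by rw [← hyt4, h]; ring
                  rw [show Xt ^ 4 = (Xt ^ 2) ^ 2 by ring, this]; ring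
              exact this.le
            have h4 : r' l = 0 := by
              have := pow_eq_zero_iff (n := 4) (by norm_num) |>.1 (le_antisymm h3 (by positivity))
              exact this
            rw [h4, h0]; ring
          · rw [← mul_div_assoc, mul_div_cancel_left₀ _ h0]
        set w := Real.sqrt (Real.sqrt (q : ℝ)) with hw
        set v := Real.sqrt (Real.sqrt (1 - (q : ℝ))) with hv
        have hw2 : w ^ 2 = Real.sqrt (q : ℝ) := Real.sq_sqrt (Real.sqrt_nonneg _)
        have hv2 : v ^ 2 = Real.sqrt (1 - (q : ℝ)) := Real.sq_sqrt (Real.sqrt_nonneg _)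
        have hw4 : w ^ 4 = q := by
          rw [show w ^ 4 = (w ^ 2) ^ 2 by ring, hw2, Real.sq_sqrt hq0'.le]
        have hv4 : v ^ 4 = 1 - q := by
          rw [show v ^ 4 = (v ^ 2) ^ 2 by ring, hv2, Real.sq_sqrt h1q.le]
        have h5 := cs4 (w * a) (v * b) (w * qs j) (v * qt j) ys yt (r l / (qs j * ys)) (r' l / (qt j * yt))
        have e2 : pr (B l) (R (Tr.gen q s t) (B l)) x =
            w * a * (w * qs j) * ys * (r l / (qs j * ys)) + v * b * (v * qt j) * yt * (r' l / (qt j * yt)) := by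
          rw [e1, ← hw2, ← hv2]
          conv_lhs => rw [z1, z2]
          ring
        rw [e2]
        refine h5.trans ?_
        rw [mul_pow, mul_pow, mul_pow, mul_pow, hw4, hv4, hys4, hyt4]
        have h6 : 0 ≤ (q * qs j ^ 4 + (1 - q) * qt j ^ 4) * (Xs ^ 2 + Xt ^ 2) *
            ((r l / (qs j * ys)) ^ 4 + (r' l / (qt j * yt)) ^ 4) := by positivity
        calc (q * a ^ 4 + (1 - q) * b ^ 4) * (q * qs j ^ 4 + (1 - q) * qt j ^ 4) * (Xs ^ 2 + Xt ^ 2) *
              ((r l / (qs j * ys)) ^ 4 + (r' l / (qt j * yt)) ^ 4) =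
              (q * a ^ 4 + (1 - q) * b ^ 4) * ((q * qs j ^ 4 + (1 - q) * qt j ^ 4) * (Xs ^ 2 + Xt ^ 2) *
              ((r l / (qs j * ys)) ^ 4 + (r' l / (qt j * yt)) ^ 4)) := by ring
          _ ≤ 1 * ((q * qs j ^ 4 + (1 - q) * qt j ^ 4) * (Xs ^ 2 + Xt ^ 2) *
              ((r l / (qs j * ys)) ^ 4 + (r' l / (qt j * yt)) ^ 4)) := mul_le_mul_of_nonneg_right hab h6
          _ = _ := by ring
      have hsum1 : ∑ l ∈ S, (r l / (qs j * ys)) ^ 4 ≤ Xs ^ 2 := by
        by_cases h0 : qs j * ys = 0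
        · rw [h0]; simp; positivity
        · simp only [div_pow, ← sum_div]
          have hpos : 0 < (qs j * ys) ^ 4 := by
            have : 0 < qs j * ys := lt_of_le_of_ne (by positivity) (Ne.symm h0)
            positivity
          rw [div_le_iff₀ hpos]
          refine h1.trans (le_of_eq ?_)
          rw [mul_pow, hys4]; ring
      have hsum2 : ∑ l ∈ S, (r' l / (qt j * yt)) ^ 4 ≤ Xt ^ 2 := by
        by_cases h0 : qt j * yt = 0
        · rw [h0]; simp; positivity
        · simp only [div_pow, ← sum_div]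
          have hpos : 0 < (qt j * yt) ^ 4 := by
            have : 0 < qt j * yt := lt_of_le_of_ne (by positivity) (Ne.symm h0)
            positivity
          rw [div_le_iff₀ hpos]
          refine h2.trans (le_of_eq ?_)
          rw [mul_pow, hyt4]; ring
      calc ∑ l ∈ S, pr (B l) (R (Tr.gen q s t) (B l)) x ^ 4 ≤ ∑ l ∈ S,
            (q * qs j ^ 4 + (1 - q) * qt j ^ 4) * (Xs ^ 2 + Xt ^ 2) *
            ((r l / (qs j * ys)) ^ 4 + (r' l / (qt j * yt)) ^ 4) := sum_le_sum key
        _ = (q * qs j ^ 4 + (1 - q) * qt j ^ 4) * (Xs ^ 2 + Xt ^ 2) *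
            (∑ l ∈ S, (r l / (qs j * ys)) ^ 4 + ∑ l ∈ S, (r' l / (qt j * yt)) ^ 4) := by
            rw [← mul_sum, sum_add_distrib]
        _ ≤ (q * qs j ^ 4 + (1 - q) * qt j ^ 4) * (Xs ^ 2 + Xt ^ 2) * (Xs ^ 2 + Xt ^ 2) := by
            apply mul_le_mul_of_nonneg_left (add_le_add hsum1 hsum2)
            positivity
        _ ≤ (q * qs j ^ 4 + (1 - q) * qt j ^ 4) * (nm L (E j) x ^ 2 * nm L (E j) x ^ 2) := by
            rw [mul_assoc]
            apply mul_le_mul_of_nonneg_left (mul_le_mul hX hX (by positivity) (by positivity))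
            positivity
        _ = _ := by ring
  | cop q s t ihs iht =>
    obtain ⟨⟨hq0, hq1⟩, hs, ht, hdis⟩ := id hT
    have hq0' : (0 : ℝ) < q := by exact_mod_cast hq0
    have hq1' : (q : ℝ) < 1 := by exact_mod_cast hq1
    have h1q : (0 : ℝ) < 1 - q := by linarith
    obtain ⟨qs, qs0, qs8, Hs⟩ := ihs hs
    obtain ⟨qt, qt0, qt8, Ht⟩ := iht ht
    set Q : ℕ → ℝ := fun j => Real.sqrt (Real.sqrt (q * qs j ^ 4 + (1 - q) * qt j ^ 4)) with hQ
    have hQ4 : ∀ j, Q j ^ 4 = q * qs j ^ 4 + (1 - q) * qt j ^ 4 := by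
      intro j
      have := qs0 j
      have := qt0 j
      have h0 : 0 ≤ q * qs j ^ 4 + (1 - q) * qt j ^ 4 := by positivity
      simp only [hQ]
      rw [show Real.sqrt (Real.sqrt (q * qs j ^ 4 + (1 - q) * qt j ^ 4)) ^ 4 =
        (Real.sqrt (Real.sqrt (q * qs j ^ 4 + (1 - q) * qt j ^ 4)) ^ 2) ^ 2 by ring,
        Real.sq_sqrt (Real.sqrt_nonneg _), Real.sq_sqrt h0]
    refine ⟨Q, fun j => Real.sqrt_nonneg _, ?_, ?_⟩
    · have h1 : ∑ j ∈ J, Q j ^ 8 ≤ ∑ j ∈ J, (q * qs j ^ 8 + (1 - q) * qt j ^ 8) := by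
        apply sum_le_sum
        intro j _
        rw [show Q j ^ 8 = (Q j ^ 4) ^ 2 by ring, hQ4]
        nlinarith [mul_nonneg (mul_nonneg hq0'.le h1q.le) (sq_nonneg (qs j ^ 4 - qt j ^ 4))]
      refine h1.trans ?_
      rw [sum_add_distrib, ← mul_sum, ← mul_sum]
      nlinarith
    · intro j hj x hx ι S B hB hd
      rw [hQ4]
      set Xs := nm L (E j ∩ sp s) x with hXs
      set Xt := nm L (E j ∩ sp t) x with hXt
      have hXs0 : 0 ≤ Xs := nm_nonneg _ hx
      have hXt0 : 0 ≤ Xt := nm_nonneg _ hx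
      have hX : Xs ^ 4 + Xt ^ 4 ≤ nm L (E j) x ^ 4 := by
        refine (nm_four_add ?_ hx).trans ?_
        · exact Disjoint.mono inter_subset_right inter_subset_right hdis
        · exact pow_le_pow_left₀ (nm_nonneg _ hx)
            (nm_mono_set (union_subset inter_subset_left inter_subset_left) hx) 4
      have h1 := Hs j hj (rs (sp s) x) (rs_nonneg hx) ι S B hB hd
      have h2 := Ht j hj (rs (sp t) x) (rs_nonneg hx) ι S B hB hd
      simp only [nm_rs, pr_rs hs, pr_rs ht] at h1 h2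
      set r : ι → ℝ := fun l => pr (B l) (R s (B l)) x with hr
      set r' : ι → ℝ := fun l => pr (B l) (R t (B l)) x with hr'
      have hr0 : ∀ l, 0 ≤ r l := fun l => pr_nonneg (fun n _ => R_nonneg hs _ n) (fun n _ => hx n)
      have hr0' : ∀ l, 0 ≤ r' l := fun l => pr_nonneg (fun n _ => R_nonneg ht _ n) (fun n _ => hx n)
      have hqs := qs0 j
      have hqt := qt0 j
      have key : ∀ l ∈ S, pr (B l) (R (Tr.cop q s t) (B l)) x ^ 4 ≤
          (q * qs j ^ 4 + (1 - q) * qt j ^ 4) *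
            ((r l / qs j) ^ 4 + (r' l / qt j) ^ 4) := by
        intro l hl
        obtain ⟨a, b, ha, hb, hab, hR⟩ := R_cop hT (B l)
        have e1 : pr (B l) (R (Tr.cop q s t) (B l)) x = Real.sqrt q * Real.sqrt (Real.sqrt q) * a * r l +
            Real.sqrt (1 - q) * Real.sqrt (Real.sqrt (1 - q)) * b * r' l := by
          simp only [hr, hr']
          unfold pr
          rw [mul_sum, mul_sum, ← sum_add_distrib]
          apply sum_congr rfl
          intro n _
          rw [hR]; ring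
        have z1 : r l = qs j * (r l / qs j) := by
          by_cases h0 : qs j = 0
          · have h3 : r l ^ 4 ≤ 0 := by
              refine (single_le_sum (f := fun l => r l ^ 4) (fun l _ => by positivity) hl).trans (h1.trans ?_)
              rw [h0]; simp
            have h4 : r l = 0 := by
              have := pow_eq_zero_iff (n := 4) (by norm_num) |>.1 (le_antisymm h3 (by positivity))
              exact this
            rw [h4, h0]; ring
          · field_simp
        have z2 : r' l = qt j * (r' l / qt j) := by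
          by_cases h0 : qt j = 0
          · have h3 : r' l ^ 4 ≤ 0 := by
              refine (single_le_sum (f := fun l => r' l ^ 4) (fun l _ => by positivity) hl).trans (h2.trans ?_)
              rw [h0]; simp
            have h4 : r' l = 0 := by
              have := pow_eq_zero_iff (n := 4) (by norm_num) |>.1 (le_antisymm h3 (by positivity))
              exact this
            rw [h4, h0]; ring
          · field_simp
        set w := Real.sqrt (Real.sqrt (q : ℝ)) with hw
        set v := Real.sqrt (Real.sqrt (1 - (q : ℝ))) with hv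
        have hw2 : w ^ 2 = Real.sqrt (q : ℝ) := Real.sq_sqrt (Real.sqrt_nonneg _)
        have hv2 : v ^ 2 = Real.sqrt (1 - (q : ℝ)) := Real.sq_sqrt (Real.sqrt_nonneg _)
        have hw4 : w ^ 4 = q := by
          rw [show w ^ 4 = (w ^ 2) ^ 2 by ring, hw2, Real.sq_sqrt hq0'.le]
        have hv4 : v ^ 4 = 1 - q := by
          rw [show v ^ 4 = (v ^ 2) ^ 2 by ring, hv2, Real.sq_sqrt h1q.le]
        have h5 := cs4 (w * a) (v * b) (w * qs j) (v * qt j) w v (r l / qs j) (r' l / qt j)
        have e2 : pr (B l) (R (Tr.cop q s t) (B l)) x =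
            w * a * (w * qs j) * w * (r l / qs j) + v * b * (v * qt j) * v * (r' l / qt j) := by
          rw [e1, ← hw2, ← hv2]
          conv_lhs => rw [z1, z2]
          ring
        rw [e2]
        refine h5.trans ?_
        rw [mul_pow, mul_pow, mul_pow, mul_pow, hw4, hv4]
        have h6 : 0 ≤ (q * qs j ^ 4 + (1 - q) * qt j ^ 4) *
            ((r l / qs j) ^ 4 + (r' l / qt j) ^ 4) := by positivity
        calc (q * a ^ 4 + (1 - q) * b ^ 4) * (q * qs j ^ 4 + (1 - q) * qt j ^ 4) * (q + (1 - q)) *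
              ((r l / qs j) ^ 4 + (r' l / qt j) ^ 4) =
              (q * a ^ 4 + (1 - q) * b ^ 4) * ((q * qs j ^ 4 + (1 - q) * qt j ^ 4) *
              ((r l / qs j) ^ 4 + (r' l / qt j) ^ 4)) := by ring
          _ ≤ 1 * ((q * qs j ^ 4 + (1 - q) * qt j ^ 4) *
              ((r l / qs j) ^ 4 + (r' l / qt j) ^ 4)) := mul_le_mul_of_nonneg_right hab h6
          _ = _ := by ring
      have hsum1 : ∑ l ∈ S, (r l / qs j) ^ 4 ≤ Xs ^ 4 := by
        by_cases h0 : qs j = 0
        · rw [h0]; simp; positivity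
        · simp only [div_pow, ← sum_div]
          have hpos : 0 < qs j ^ 4 := by
            have : 0 < qs j := lt_of_le_of_ne hqs (Ne.symm h0)
            positivity
          rw [div_le_iff₀ hpos]
          refine h1.trans (le_of_eq ?_)
          ring
      have hsum2 : ∑ l ∈ S, (r' l / qt j) ^ 4 ≤ Xt ^ 4 := by
        by_cases h0 : qt j = 0
        · rw [h0]; simp; positivity
        · simp only [div_pow, ← sum_div]
          have hpos : 0 < qt j ^ 4 := by
            have : 0 < qt j := lt_of_le_of_ne hqt (Ne.symm h0)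
            positivity
          rw [div_le_iff₀ hpos]
          refine h2.trans (le_of_eq ?_)
          ring
      calc ∑ l ∈ S, pr (B l) (R (Tr.cop q s t) (B l)) x ^ 4 ≤ ∑ l ∈ S,
            (q * qs j ^ 4 + (1 - q) * qt j ^ 4) *
            ((r l / qs j) ^ 4 + (r' l / qt j) ^ 4) := sum_le_sum key
        _ = (q * qs j ^ 4 + (1 - q) * qt j ^ 4) *
            (∑ l ∈ S, (r l / qs j) ^ 4 + ∑ l ∈ S, (r' l / qt j) ^ 4) := by
            rw [← mul_sum, sum_add_distrib]
        _ ≤ (q * qs j ^ 4 + (1 - q) * qt j ^ 4) * (Xs ^ 4 + Xt ^ 4) := by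
            apply mul_le_mul_of_nonneg_left (add_le_add hsum1 hsum2)
            positivity
        _ ≤ (q * qs j ^ 4 + (1 - q) * qt j ^ 4) * nm L (E j) x ^ 4 := by
            apply mul_le_mul_of_nonneg_left hX
            positivity
  | spec s t ihs iht =>
    classical
    have hlt := spec_lt hT
    obtain ⟨hs, ht, -, -⟩ := id hT
    obtain ⟨qs, qs0, qs8, Hs⟩ := ihs hs
    obtain ⟨qt, qt0, qt8, Ht⟩ := iht ht
    set both : ℕ → Prop := fun j => (E j ∩ sp s).Nonempty ∧ (E j ∩ sp t).Nonempty with hboth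
    refine ⟨fun j => if both j then 1 else if (E j ∩ sp t).Nonempty then 9 / 10 * qt j else 9 / 10 * qs j,
      fun j => ?_, ?_, ?_⟩
    · have := qs0 j
      have := qt0 j
      dsimp only
      split_ifs <;> positivity
    · have h1 : ∑ j ∈ J, (if both j then 1 else if (E j ∩ sp t).Nonempty then 9 / 10 * qt j else 9 / 10 * qs j) ^ 8 ≤
          ∑ j ∈ J, ((if both j then (1 : ℝ) else 0) + (9 / 10) ^ 8 * (qs j ^ 8 + qt j ^ 8)) := by
        apply sum_le_sum
        intro j _
        have h3 : 0 ≤ qs j ^ 8 := by have := qs0 j; positivity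
        have h4 : 0 ≤ qt j ^ 8 := by have := qt0 j; positivity
        split_ifs with h5 h6
        · rw [one_pow]
          have : 0 ≤ (9 / 10 : ℝ) ^ 8 * (qs j ^ 8 + qt j ^ 8) := by positivity
          linarith
        · rw [mul_pow]
          have : 0 ≤ (9 / 10 : ℝ) ^ 8 * qs j ^ 8 := by positivity
          linarith
        · rw [mul_pow]
          have : 0 ≤ (9 / 10 : ℝ) ^ 8 * qt j ^ 8 := by positivity
          linarith
      refine h1.trans ?_
      rw [sum_add_distrib, ← mul_sum, sum_add_distrib]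
      have h2 : ∑ j ∈ J, (if both j then (1 : ℝ) else 0) ≤ 1 := by
        rw [← Finset.sum_filter, sum_const, nsmul_eq_mul, mul_one]
        have h7 : (J.filter both).card ≤ 1 := by
          rw [card_le_one]
          have h8 : ∀ a ∈ J, ∀ b ∈ J, both a → both b → ¬ a < b := by
            intro a ha b hb hba hbb hab
            obtain ⟨u, hu⟩ := hba.2
            obtain ⟨v, hv⟩ := hbb.1
            rw [mem_inter] at hu hv
            have e1 := hE a ha b hb hab u hu.1 v hv.1
            have e2 := hlt v hv.2 u hu.2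
            omega
          intro a ha b hb
          rw [mem_filter] at ha hb
          have e1 := h8 a ha.1 b hb.1 ha.2 hb.2
          have e2 := h8 b hb.1 a ha.1 hb.2 ha.2
          omega
        exact_mod_cast h7
      have h9 : (9 / 10 : ℝ) ^ 8 * (∑ j ∈ J, qs j ^ 8 + ∑ j ∈ J, qt j ^ 8) ≤ (9 / 10 : ℝ) ^ 8 * (8 + 8) :=
        mul_le_mul_of_nonneg_left (add_le_add qs8 qt8) (by norm_num)
      have h10 : (9 / 10 : ℝ) ^ 8 * (8 + 8) ≤ 7 := by norm_num
      linarith
    · intro j hj x hx ι S B hB hd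
      by_cases hb : both j
      · simp only [if_pos hb, one_pow, one_mul]
        exact (trivial_bound hT hx S B hB hd).trans
          (pow_le_pow_left₀ (nm_nonneg _ hx) (nm_mono_set inter_subset_left hx) 4)
      · by_cases ht' : (E j ∩ sp t).Nonempty
        · have hs' : ¬ (E j ∩ sp s).Nonempty := fun hh => hb ⟨hh, ht'⟩
          simp only [if_neg hb, if_pos ht']
          have h1 := Ht j hj x hx ι S B hB hd
          have key : ∀ l ∈ S, pr (B l) (R (Tr.spec s t) (B l)) x ^ 4 ≤ (9 / 10) ^ 4 * pr (B l) (R t (B l)) x ^ 4 := by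
            intro l hl
            obtain ⟨a, b, ha, hb', ha9, hb9, -, hR⟩ := R_spec hT (B l)
            have h0 : 0 ≤ pr (B l) (R t (B l)) x := pr_nonneg (fun n _ => R_nonneg ht _ n) (fun n _ => hx n)
            have e1 : pr (B l) (R (Tr.spec s t) (B l)) x = b * pr (B l) (R t (B l)) x := by
              unfold pr
              rw [mul_sum]
              apply sum_congr rfl
              intro n hn
              rw [hR, R_eq_zero hs (fun hh => hs' ⟨n, mem_inter.2 ⟨hB l hl hn, (mem_inter.1 hh).2⟩⟩)]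
              ring
            rw [e1, mul_pow]
            exact mul_le_mul_of_nonneg_right (pow_le_pow_left₀ hb' hb9 4) (by positivity)
          calc ∑ l ∈ S, pr (B l) (R (Tr.spec s t) (B l)) x ^ 4 ≤ ∑ l ∈ S, (9 / 10) ^ 4 * pr (B l) (R t (B l)) x ^ 4 :=
                sum_le_sum key
            _ = (9 / 10) ^ 4 * ∑ l ∈ S, pr (B l) (R t (B l)) x ^ 4 := by rw [mul_sum]
            _ ≤ (9 / 10) ^ 4 * (qt j ^ 4 * nm L (E j) x ^ 4) := mul_le_mul_of_nonneg_left h1 (by norm_num)
            _ = _ := by ring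
        · simp only [if_neg hb, if_neg ht']
          have h1 := Hs j hj x hx ι S B hB hd
          have key : ∀ l ∈ S, pr (B l) (R (Tr.spec s t) (B l)) x ^ 4 ≤ (9 / 10) ^ 4 * pr (B l) (R s (B l)) x ^ 4 := by
            intro l hl
            obtain ⟨a, b, ha, hb', ha9, hb9, -, hR⟩ := R_spec hT (B l)
            have h0 : 0 ≤ pr (B l) (R s (B l)) x := pr_nonneg (fun n _ => R_nonneg hs _ n) (fun n _ => hx n)
            have e1 : pr (B l) (R (Tr.spec s t) (B l)) x = a * pr (B l) (R s (B l)) x := by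
              unfold pr
              rw [mul_sum]
              apply sum_congr rfl
              intro n hn
              rw [hR, R_eq_zero ht (fun hh => ht' ⟨n, mem_inter.2 ⟨hB l hl hn, (mem_inter.1 hh).2⟩⟩)]
              ring
            rw [e1, mul_pow]
            exact mul_le_mul_of_nonneg_right (pow_le_pow_left₀ ha ha9 4) (by positivity)
          calc ∑ l ∈ S, pr (B l) (R (Tr.spec s t) (B l)) x ^ 4 ≤ ∑ l ∈ S, (9 / 10) ^ 4 * pr (B l) (R s (B l)) x ^ 4 :=
                sum_le_sum key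
            _ = (9 / 10) ^ 4 * ∑ l ∈ S, pr (B l) (R s (B l)) x ^ 4 := by rw [mul_sum]
            _ ≤ (9 / 10) ^ 4 * (qs j ^ 4 * nm L (E j) x ^ 4) := mul_le_mul_of_nonneg_left h1 (by norm_num)
            _ = _ := by ring
  | rest B0 t ih =>
    obtain ⟨ht, hB0, hne⟩ := id hT
    obtain ⟨q, q0, q8, H⟩ := ih ht
    refine ⟨q, q0, q8, ?_⟩
    intro j hj x hx ι S B hB hd
    refine le_trans ?_ (H j hj x hx ι S (fun l => B l ∩ B0) (fun l hl => subset_trans inter_subset_left (hB l hl))
      (fun l hl l' hl' hll => Disjoint.mono inter_subset_left inter_subset_left (hd l hl l' hl' hll)))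
    apply sum_le_sum
    intro l hl
    apply pow_le_pow_left₀ (pr_nonneg (fun n _ => R_nonneg hT _ n) (fun n _ => hx n))
    have h1 : pr (B l ∩ B0) (R t (B l ∩ B0)) x = pr (B l) (R t (B l ∩ B0)) x := by
      unfold pr
      apply sum_subset inter_subset_left
      intro n _ hn
      rw [R_eq_zero ht (fun hh => hn (mem_inter.1 hh).1), zero_mul]
    show pr (B l) (R (Tr.rest B0 t) (B l)) x ≤ pr (B l ∩ B0) (R t (B l ∩ B0)) x
    rw [h1]
    exact pr_mono (fun n _ => R_nonneg hT _ n) (fun n _ => R_rest hT (B l) n) (fun n _ => hx n) (fun n _ => le_rfl)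

end Pool.Agent.H51.SM
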