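import Pool.Agent.H51.SM.EDefs

/-!
# Module OVERLAP: the overlap lemma (paper proof, section 5)
-/

set_option autoImplicit false

namespace Pool.Agent.H51.SM

open Finset

variable {L : LS dm}

/-! ### Elementary inequalities -/

theorem ov_pow_le {m K e : ℝ} {k : ℕ} (hm : 0 ≤ m) (hK : K = 2 ^ (14 * k) / e ^ 2) (he : 0 < e)
    {t t' u : ℝ} (ht : 0 ≤ t) (h1 : m * t ≤ t') (h2 : t' ^ 8 ≤ u) (h3 : K * u ≤ m)
    (h4 : e ≤ t ^ 4) : m ≤ (1 / 4) ^ k := by
  by_contra hcon
  have hcon := not_le.1 hcon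
  have hm0 : 0 < m := lt_of_le_of_lt (by positivity) hcon
  have hKe : K * e ^ 2 = 2 ^ (14 * k) := by rw [hK]; field_simp
  have hK0 : 0 < K := by rw [hK]; positivity
  have h5 : (m * t) ^ 8 ≤ u := (pow_le_pow_left₀ (by positivity) h1 8).trans h2
  have h6 : m ^ 8 * e ^ 2 ≤ u := by
    calc m ^ 8 * e ^ 2 ≤ m ^ 8 * (t ^ 4) ^ 2 := by gcongr
      _ = (m * t) ^ 8 := by ring
      _ ≤ u := h5
  have h7 : m ^ 8 * 2 ^ (14 * k) ≤ m := by
    calc m ^ 8 * 2 ^ (14 * k) = K * (m ^ 8 * e ^ 2) := by rw [← hKe]; ring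
      _ ≤ K * u := mul_le_mul_of_nonneg_left h6 hK0.le
      _ ≤ m := h3
  have h8 : m ^ 7 * 2 ^ (14 * k) ≤ 1 := by
    have : m * (m ^ 7 * 2 ^ (14 * k)) ≤ m * 1 := by
      calc m * (m ^ 7 * 2 ^ (14 * k)) = m ^ 8 * 2 ^ (14 * k) := by ring
        _ ≤ m * 1 := by linarith
    exact le_of_mul_le_mul_left this hm0
  have h9 : ((1 / 4 : ℝ) ^ k) ^ 7 < m ^ 7 := pow_lt_pow_left₀ hcon (by positivity) (by norm_num)
  have h10 : ((1 / 4 : ℝ) ^ k) ^ 7 * 2 ^ (14 * k) = 1 := by
    have : (2 : ℝ) ^ (14 * k) = ((4 : ℝ) ^ k) ^ 7 := by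
      rw [← pow_mul, show (4:ℝ) = 2 ^ 2 by norm_num, ← pow_mul]
      congr 1; ring
    rw [this, ← mul_pow, ← mul_pow]
    norm_num
  have h11 : (0:ℝ) < 2 ^ (14 * k) := by positivity
  nlinarith

theorem ov_claim {e X β : ℝ} {k : ℕ} (he : 0 ≤ e) (hX : 0 ≤ X) (hβ : 0 ≤ β)
    (h1 : e ≤ (1 / 2) ^ (10 * k)) (h2 : e ^ 4 ≤ X ^ 3 * β ^ 4) :
    e ≤ (1 / 4) ^ k * (X + 2 * β ^ 2) := by
  have hk : (0:ℝ) < (1 / 4) ^ k := by positivity
  have hα : (0:ℝ) < (1 / 16) ^ k := by positivity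
  rcases le_total ((1 / 16 : ℝ) ^ k) β with h | h
  · have h3 : ((1 / 16 : ℝ) ^ k) ^ 2 ≤ β ^ 2 := pow_le_pow_left₀ hα.le h 2
    have h4 : ((1 / 2 : ℝ)) ^ (10 * k) = (1 / 4) ^ k * ((1 / 16) ^ k) ^ 2 := by
      rw [← pow_mul, show (1 / 4 : ℝ) = (1 / 2) ^ 2 by norm_num,
        show (1 / 16 : ℝ) = (1 / 2) ^ 4 by norm_num, ← pow_mul, ← pow_mul, ← pow_add]
      congr 1; ring
    rw [h4] at h1
    refine h1.trans (mul_le_mul_of_nonneg_left ?_ hk.le)
    have : 0 ≤ β ^ 2 := by positivity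
    linarith
  · have h3 : β ^ 2 ≤ ((1 / 16 : ℝ) ^ k) ^ 2 := pow_le_pow_left₀ hβ h 2
    have hb : 0 ≤ β ^ 2 := by positivity
    have h4 : e ^ 4 ≤ ((1 / 4) ^ k * (X + β ^ 2)) ^ 4 := by
      calc e ^ 4 ≤ X ^ 3 * β ^ 4 := h2
        _ = X ^ 3 * β ^ 2 * β ^ 2 := by ring
        _ ≤ X ^ 3 * β ^ 2 * ((1 / 16 : ℝ) ^ k) ^ 2 := mul_le_mul_of_nonneg_left h3 (by positivity)
        _ ≤ (X + β ^ 2) ^ 3 * (X + β ^ 2) * ((1 / 16 : ℝ) ^ k) ^ 2 := by
          apply mul_le_mul_of_nonneg_right _ (by positivity)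
          apply mul_le_mul _ (by linarith) hb (by positivity)
          exact pow_le_pow_left₀ hX (by linarith) 3
        _ = ((1 / 4) ^ k * (X + β ^ 2)) ^ 4 := by
          have : (1 / 16 : ℝ) ^ k = ((1 / 4) ^ k) ^ 2 := by
            rw [← pow_mul, show (1 / 16 : ℝ) = (1 / 4) ^ 2 by norm_num, ← pow_mul]
            congr 1; ring
          rw [this]; ring
    have h5 : e ≤ (1 / 4) ^ k * (X + β ^ 2) :=
      le_of_pow_le_pow_left₀ (by norm_num) (by positivity) h4
    refine h5.trans (mul_le_mul_of_nonneg_left ?_ hk.le)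
    linarith

/-- Hölder with exponents `4/3` and `4`. -/
theorem ov_holder {α : Type*} (s : Finset α) (w y : α → ℝ) :
    (∑ i ∈ s, w i ^ 3 * y i) ^ 4 ≤ (∑ i ∈ s, w i ^ 4) ^ 3 * ∑ i ∈ s, y i ^ 4 := by
  have h1 : (∑ i ∈ s, w i ^ 3 * y i) ^ 2 ≤ (∑ i ∈ s, w i ^ 4) * ∑ i ∈ s, (w i * y i) ^ 2 := by
    have := Finset.sum_mul_sq_le_sq_mul_sq s (fun i => w i ^ 2) (fun i => w i * y i)
    calc (∑ i ∈ s, w i ^ 3 * y i) ^ 2 = (∑ i ∈ s, w i ^ 2 * (w i * y i)) ^ 2 := by
          congr 1; exact Finset.sum_congr rfl fun i _ => by ring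
      _ ≤ (∑ i ∈ s, (w i ^ 2) ^ 2) * ∑ i ∈ s, (w i * y i) ^ 2 := this
      _ = _ := by
          congr 1; exact Finset.sum_congr rfl fun i _ => by ring
  have h2 : (∑ i ∈ s, (w i * y i) ^ 2) ^ 2 ≤ (∑ i ∈ s, w i ^ 4) * ∑ i ∈ s, y i ^ 4 := by
    have := Finset.sum_mul_sq_le_sq_mul_sq s (fun i => w i ^ 2) (fun i => y i ^ 2)
    calc (∑ i ∈ s, (w i * y i) ^ 2) ^ 2 = (∑ i ∈ s, w i ^ 2 * y i ^ 2) ^ 2 := by
          congr 1; exact Finset.sum_congr rfl fun i _ => by ring
      _ ≤ (∑ i ∈ s, (w i ^ 2) ^ 2) * ∑ i ∈ s, (y i ^ 2) ^ 2 := this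
      _ = _ := by
          congr 1 <;> exact Finset.sum_congr rfl fun i _ => by ring
  have hA : 0 ≤ ∑ i ∈ s, w i ^ 4 := Finset.sum_nonneg fun i _ => by positivity
  have hB : 0 ≤ ∑ i ∈ s, (w i * y i) ^ 2 := Finset.sum_nonneg fun i _ => by positivity
  calc (∑ i ∈ s, w i ^ 3 * y i) ^ 4 = ((∑ i ∈ s, w i ^ 3 * y i) ^ 2) ^ 2 := by ring
    _ ≤ ((∑ i ∈ s, w i ^ 4) * ∑ i ∈ s, (w i * y i) ^ 2) ^ 2 :=
        pow_le_pow_left₀ (by positivity) h1 2
    _ = (∑ i ∈ s, w i ^ 4) ^ 2 * (∑ i ∈ s, (w i * y i) ^ 2) ^ 2 := by ring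
    _ ≤ (∑ i ∈ s, w i ^ 4) ^ 2 * ((∑ i ∈ s, w i ^ 4) * ∑ i ∈ s, y i ^ 4) :=
        mul_le_mul_of_nonneg_left h2 (by positivity)
    _ = _ := by ring

/-- Counting labels. -/
theorem ov_count {α : Type*} [Fintype α] (s : α → ℕ) (k0 : ℕ) (h0 : ∀ i, k0 ≤ s i)
    (hc : ∀ k, (univ.filter fun i => s i = k).card ≤ k) :
    ∑ i, (1 / 4 : ℝ) ^ s i ≤ 2 * (1 / 2) ^ k0 := by
  classical
  rw [Finset.sum_comp (fun k => (1 / 4 : ℝ) ^ k) s]
  have h1 : ∀ k ∈ univ.image s, (univ.filter fun i => s i = k).card • (1 / 4 : ℝ) ^ k ≤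
      (1 / 2) ^ k := by
    intro k _
    rw [nsmul_eq_mul]
    have h2 : ((univ.filter fun i => s i = k).card : ℝ) ≤ 2 ^ k := by
      have h3 := (hc k).trans (Nat.lt_two_pow_self).le
      exact_mod_cast h3
    calc ((univ.filter fun i => s i = k).card : ℝ) * (1 / 4) ^ k ≤ 2 ^ k * (1 / 4) ^ k :=
          mul_le_mul_of_nonneg_right h2 (by positivity)
      _ = (1 / 2) ^ k := by rw [← mul_pow]; norm_num
  refine (Finset.sum_le_sum h1).trans ?_
  have hsub : univ.image s ⊆ (Ico k0 (k0 + ((univ.image s).sup id + 1))) := by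
    intro k hk
    obtain ⟨i, _, rfl⟩ := Finset.mem_image.1 hk
    rw [Finset.mem_Ico]
    have : s i ≤ (univ.image s).sup id := Finset.le_sup (f := id) hk
    exact ⟨h0 i, by omega⟩
  refine (Finset.sum_le_sum_of_subset_of_nonneg hsub fun k _ _ => by positivity).trans ?_
  have h4 : ∀ m : ℕ, ∑ k ∈ Ico k0 (k0 + m), (1 / 2 : ℝ) ^ k =
      2 * (1 / 2) ^ k0 - 2 * (1 / 2) ^ (k0 + m) := by
    intro m
    induction m with
    | zero => simp
    | succ m ih =>
      rw [← add_assoc, Finset.sum_Ico_succ_top (by omega), ih, pow_succ]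
      ring
  rw [h4]
  have : (0:ℝ) ≤ (1 / 2) ^ (k0 + ((univ.image s).sup id + 1)) := by positivity
  linarith

theorem ov_min_sum {α : Type*} (s : Finset α) (a : α → ℝ) (y : ℝ) (ha : ∀ i ∈ s, 0 ≤ a i)
    (hy : 0 ≤ y) : min (∑ i ∈ s, a i) y ≤ ∑ i ∈ s, min (a i) y := by
  classical
  induction s using Finset.induction_on with
  | empty => simp [hy]
  | insert j s hj ih =>
    rw [Finset.sum_insert hj, Finset.sum_insert hj]
    have ih := ih fun i hi => ha i (Finset.mem_insert_of_mem hi)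
    have h1 := ha j (Finset.mem_insert_self j s)
    have h2 : 0 ≤ ∑ i ∈ s, a i := Finset.sum_nonneg fun i hi => ha i (Finset.mem_insert_of_mem hi)
    refine le_trans ?_ (add_le_add le_rfl ih)
    rcases le_total (a j) y with h3 | h3 <;> rcases le_total (∑ i ∈ s, a i) y with h4 | h4
    · rw [min_eq_left h3, min_eq_left h4]; exact min_le_left _ _
    · rw [min_eq_left h3, min_eq_right h4]; exact (min_le_right _ _).trans (by linarith)
    · rw [min_eq_right h3, min_eq_left h4]; exact (min_le_right _ _).trans (by linarith)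
    · rw [min_eq_right h3, min_eq_right h4]; exact (min_le_right _ _).trans (by linarith)

/-! ### Label systems -/

theorem ov_v_lower {D : ℕ → ℝ} (L : LS D) {j : ℕ} {F : Finset ℕ} {w g : ℕ → ℝ} {c : ℝ} (hc : 0 ≤ c)
    (hw : ∀ n ∈ F, 0 ≤ w n) (hwc : ∀ n ∈ F, w n ≤ c * g n) (hg : ∀ n ∈ F, 0 ≤ g n)
    (hg1 : ∑ n ∈ F, g n = 1) (hv : 1 - L.ep j ≤ L.v j F g) :
    ∑ n ∈ F, w n ≤ L.v j F w + 2 * c * L.ep j := by
  have h1 := L.v_add j F w (fun n => c * g n - w n) hw (fun n hn => sub_nonneg.2 (hwc n hn))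
  have h2 := L.v_le j F (fun n => c * g n - w n) (fun n hn => sub_nonneg.2 (hwc n hn))
  have e1 : (fun n => w n + (c * g n - w n)) = fun n => c * g n := by funext n; ring
  have e2 : ∑ n ∈ F, (c * g n - w n) = c - ∑ n ∈ F, w n := by
    rw [Finset.sum_sub_distrib, ← Finset.mul_sum, hg1, mul_one]
  rw [e1, L.v_smul j F g c hc hg, e2] at h1
  rw [e2] at h2
  have h3 := (abs_le.1 h1).2
  have h4 := mul_le_mul_of_nonneg_left hv hc
  have e3 : ∑ n ∈ F, w n + (c - ∑ n ∈ F, w n) = c := by ring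
  rw [e3] at h3
  nlinarith

theorem ov_v_upper {D : ℕ → ℝ} (L : LS D) {j : ℕ} {F : Finset ℕ} {w g : ℕ → ℝ} {c : ℝ} (hc : 0 ≤ c)
    (hw : ∀ n ∈ F, 0 ≤ w n) (hwc : ∀ n ∈ F, w n ≤ c * g n) (hg : ∀ n ∈ F, 0 ≤ g n)
    (hg1 : ∑ n ∈ F, g n = 1) :
    L.v j F w ≤ c * L.v j F g + c * L.ep j := by
  have h1 := L.v_add j F w (fun n => c * g n - w n) hw (fun n hn => sub_nonneg.2 (hwc n hn))
  have h2 := L.v_nonneg j F (fun n => c * g n - w n) (fun n hn => sub_nonneg.2 (hwc n hn))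
  have e1 : (fun n => w n + (c * g n - w n)) = fun n => c * g n := by funext n; ring
  have e2 : ∑ n ∈ F, (c * g n - w n) = c - ∑ n ∈ F, w n := by
    rw [Finset.sum_sub_distrib, ← Finset.mul_sum, hg1, mul_one]
  rw [e1, L.v_smul j F g c hc hg, e2] at h1
  have h3 := (abs_le.1 h1).1
  have e3 : ∑ n ∈ F, w n + (c - ∑ n ∈ F, w n) = c := by ring
  rw [e3] at h3
  nlinarith

theorem KK_pos (k : ℕ) : 0 < KK k := by
  have := eta_pos k
  unfold KK; positivity

theorem KK_mono {j k : ℕ} (h : j ≤ k) : KK j ≤ KK k := by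
  unfold KK
  have h1 := eta_pos k
  have h2 := eta_anti h
  apply div_le_div₀ (by positivity) _ (by positivity) _
  · exact pow_le_pow_right₀ (by norm_num) (by omega)
  · exact pow_le_pow_left₀ h1.le h2 2

/-- Non exceptional pieces. -/
theorem ov_pieces {k j : ℕ} (hkj : k < j) {T T' : Tr} (hT : Valid L T) (hT' : Valid L T')
    {P : ℕ → Tr} (hP : T = comb P (L.N k)) {p : ℕ}
    (hp : ∀ i ≤ L.N k, i ≠ p → L.v j (sp (P i)) (h (P i)) ≤ tol k * (1 / 4) ^ j)
    (hv : 1 - L.ep j ≤ L.v j (sp T') (h T')) {w : ℕ → ℝ} (hw : ∀ n, 0 ≤ w n)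
    (h1 : ∀ n, w n ≤ KK k * h T n) (h2 : ∀ n, w n ≤ KK j * h T' n) (V : Finset ℕ)
    (hV : ∀ n ∈ V, p ≤ L.N k → n ∉ sp (P p)) :
    ∑ n ∈ V, w n ≤ 2 * ((1 / 4) ^ k * (1 / 4) ^ j) := by
  classical
  have hKk := KK_pos k
  have hKj := KK_pos j
  have hKkj := KK_mono hkj.le
  have hep := L.ep_pos j
  have hvP := (valid_comb P (L.N k)).1 (hP ▸ hT)
  have w0 : ∀ n, n ∉ sp T → w n = 0 := fun n hn => by
    have := h1 n
    rw [h_eq_zero hT hn, mul_zero] at this
    exact le_antisymm this (hw n)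
  have w0' : ∀ n, n ∉ sp T' → w n = 0 := fun n hn => by
    have := h2 n
    rw [h_eq_zero hT' hn, mul_zero] at this
    exact le_antisymm this (hw n)
  -- one piece
  have hone : ∀ i ≤ L.N k, i ≠ p → ∑ n ∈ sp (P i), w n ≤
      KK k / (L.N k + 1) * (tol k * (1 / 4) ^ j + L.ep j) + 2 * KK j * L.ep j := by
    intro i hi hip
    set wi : ℕ → ℝ := fun n => if n ∈ sp (P i) then w n else 0 with hwi
    have hwi0 : ∀ n, 0 ≤ wi n := fun n => by simp only [hwi]; split_ifs; exacts [hw n, le_rfl]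
    have hwile : ∀ n, wi n ≤ w n := fun n => by
      simp only [hwi]; split_ifs; exacts [le_rfl, hw n]
    have a1 := ov_v_lower L (j := j) hKj.le (F := sp T') (w := wi) (g := h T')
      (fun n _ => hwi0 n) (fun n _ => (hwile n).trans (h2 n)) (fun n _ => h_nonneg hT' n)
      (sum_h hT') hv
    have a2 : L.v j (sp T') wi = L.v j (sp T' ∩ sp (P i)) wi :=
      L.v_sub j _ _ _ Finset.inter_subset_left (fun n _ => hwi0 n) (fun n hn hn' => by
        simp only [hwi]
        rw [if_neg]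
        intro hh
        exact hn' (mem_inter.2 ⟨hn, hh⟩))
    have a3 : L.v j (sp (P i)) wi = L.v j (sp T' ∩ sp (P i)) wi :=
      L.v_sub j _ _ _ Finset.inter_subset_right (fun n _ => hwi0 n) (fun n hn hn' => by
        simp only [hwi]
        rw [if_pos hn]
        apply w0'
        intro hh
        exact hn' (mem_inter.2 ⟨hh, hn⟩))
    have hPi := hvP.1 i hi
    have a4 : ∀ n ∈ sp (P i), h T n = ((L.N k : ℝ) + 1)⁻¹ * h (P i) n := by
      intro n hn
      rw [hP, h_comb]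
      congr 1
      apply Finset.sum_eq_single_of_mem i (Finset.mem_range.2 (by omega))
      intro i' hi' hne
      apply h_eq_zero (hvP.1 i' (by have := Finset.mem_range.1 hi'; omega))
      intro hn'
      have hi'2 : i' ≤ L.N k := by have := Finset.mem_range.1 hi'; omega
      rcases lt_or_gt_of_ne hne with hlt | hlt
      · exact lt_irrefl _ (hvP.2 i' i hlt hi n hn' n hn)
      · exact lt_irrefl _ (hvP.2 i i' hlt hi'2 n hn n hn')
    have a5 := ov_v_upper L (j := j) (c := KK k / (L.N k + 1)) (by positivity) (F := sp (P i))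
      (w := wi) (g := h (P i)) (fun n _ => hwi0 n) (fun n hn => by
        refine (hwile n).trans ((h1 n).trans (le_of_eq ?_))
        rw [a4 n hn, div_eq_mul_inv]; ring) (fun n _ => h_nonneg hPi n) (sum_h hPi)
    have a6 := hp i hi hip
    have a7 : ∑ n ∈ sp (P i), w n ≤ ∑ n ∈ sp T', wi n := by
      have e1 : ∑ n ∈ sp (P i), w n = ∑ n ∈ sp (P i), wi n :=
        Finset.sum_congr rfl fun n hn => by simp only [hwi]; rw [if_pos hn]
      have e2 : ∑ n ∈ sp (P i), wi n = ∑ n ∈ sp T' ∩ sp (P i), wi n := by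
        symm
        apply Finset.sum_subset Finset.inter_subset_right
        intro n hn hn'
        simp only [hwi]
        rw [if_pos hn]
        apply w0'
        intro hh
        exact hn' (mem_inter.2 ⟨hh, hn⟩)
      rw [e1, e2]
      exact Finset.sum_le_sum_of_subset_of_nonneg Finset.inter_subset_left fun n _ _ => hwi0 n
    have hc0 : 0 ≤ KK k / ((L.N k : ℝ) + 1) := by positivity
    have a8 := mul_le_mul_of_nonneg_left a6 hc0
    rw [mul_add]
    linarith
  -- sum of the pieces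
  have hV1 : ∑ n ∈ V, w n ≤ ∑ n ∈ ((range (L.N k + 1)).erase p).biUnion fun i => sp (P i), w n := by
    have e1 : ∑ n ∈ V, w n = ∑ n ∈ V ∩ sp T, w n := by
      symm
      apply Finset.sum_subset Finset.inter_subset_left
      intro n hn hn'
      apply w0
      intro hh
      exact hn' (mem_inter.2 ⟨hn, hh⟩)
    rw [e1]
    apply Finset.sum_le_sum_of_subset_of_nonneg _ fun n _ _ => hw n
    intro n hn
    obtain ⟨hn1, hn2⟩ := mem_inter.1 hn
    rw [hP, sp_comb, mem_biUnion] at hn2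
    obtain ⟨i, hi, hni⟩ := hn2
    rw [mem_biUnion]
    refine ⟨i, mem_erase.2 ⟨?_, hi⟩, hni⟩
    rintro rfl
    exact hV n hn1 (by have := mem_range.1 hi; omega) hni
  have hdis : Set.PairwiseDisjoint (↑((range (L.N k + 1)).erase p) : Set ℕ) fun i => sp (P i) := by
    intro i hi i' hi' hne
    have hi1 : i ≤ L.N k := by
      have := mem_range.1 (mem_of_mem_erase (mem_coe.1 hi)); omega
    have hi2 : i' ≤ L.N k := by
      have := mem_range.1 (mem_of_mem_erase (mem_coe.1 hi')); omega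
    change Disjoint (sp (P i)) (sp (P i'))
    rw [Finset.disjoint_left]
    intro n hn hn'
    rcases lt_or_gt_of_ne hne with hlt | hlt
    · exact lt_irrefl _ (hvP.2 i i' hlt hi2 n hn n hn')
    · exact lt_irrefl _ (hvP.2 i' i hlt hi1 n hn' n hn)
  rw [Finset.sum_biUnion hdis] at hV1
  have hN0 : (0:ℝ) < (L.N k : ℝ) + 1 := by positivity
  set Q := KK k / (L.N k + 1) * (tol k * (1 / 4) ^ j + L.ep j) + 2 * KK j * L.ep j with hQ
  have htol : KK k * tol k = (1 / 4) ^ k := by unfold tol; field_simp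
  have htol0 : 0 < tol k := by unfold tol; positivity
  have hQ0 : 0 ≤ Q := by rw [hQ]; positivity
  have hV2 : ∑ i ∈ (range (L.N k + 1)).erase p, ∑ n ∈ sp (P i), w n ≤ ((L.N k : ℝ) + 1) * Q := by
    calc ∑ i ∈ (range (L.N k + 1)).erase p, ∑ n ∈ sp (P i), w n
        ≤ ∑ i ∈ (range (L.N k + 1)).erase p, Q := Finset.sum_le_sum fun i hi => by
          have h3 := mem_erase.1 hi
          exact hone i (by have := mem_range.1 h3.2; omega) h3.1
      _ ≤ ∑ i ∈ range (L.N k + 1), Q :=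
          Finset.sum_le_sum_of_subset_of_nonneg (Finset.erase_subset _ _) fun _ _ _ => hQ0
      _ = ((L.N k : ℝ) + 1) * Q := by
          rw [Finset.sum_const, Finset.card_range, nsmul_eq_mul]; push_cast; ring
  have e3 : ((L.N k : ℝ) + 1) * Q = (1 / 4) ^ k * (1 / 4) ^ j + KK k * L.ep j +
      2 * ((L.N k : ℝ) + 1) * KK j * L.ep j := by
    rw [hQ, ← htol]
    field_simp
  have h5 := L.N_ep_le k j hkj
  have h6 : 3 * KK j * 16 ^ j ≤ dm j := by
    unfold dm
    have := eta_pos j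
    have : (0:ℝ) ≤ 2 ^ (20 * j) / eta j := by positivity
    linarith
  have h7 : ((L.N k : ℝ) + 1) * (3 * KK j * L.ep j) * 16 ^ j ≤ 1 := by
    refine le_trans ?_ h5
    have := mul_le_mul_of_nonneg_right h6 (mul_nonneg hN0.le hep.le)
    nlinarith
  have h8 : ((L.N k : ℝ) + 1) * (3 * KK j * L.ep j) ≤ (1 / 16) ^ j := by
    have h9 : (0:ℝ) < 16 ^ j := by positivity
    rw [one_div, inv_pow, ← one_div, le_div_iff₀ h9]
    exact h7
  have h9 : (1 / 16 : ℝ) ^ j ≤ (1 / 4) ^ k * (1 / 4) ^ j := by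
    have : (1 / 16 : ℝ) ^ j = (1 / 4) ^ j * (1 / 4) ^ j := by rw [← mul_pow]; norm_num
    rw [this]
    apply mul_le_mul_of_nonneg_right _ (by positivity)
    exact pow_le_pow_of_le_one (by norm_num) (by norm_num) hkj.le
  have h10 : KK k * L.ep j ≤ ((L.N k : ℝ) + 1) * (KK j * L.ep j) := by
    have h11 : KK k * L.ep j ≤ KK j * L.ep j := mul_le_mul_of_nonneg_right hKkj hep.le
    have h12 : 0 ≤ KK j * L.ep j := by positivity
    have h13 : (0:ℝ) ≤ L.N k := Nat.cast_nonneg _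
    nlinarith
  calc ∑ n ∈ V, w n ≤ ((L.N k : ℝ) + 1) * Q := hV1.trans hV2
    _ = (1 / 4) ^ k * (1 / 4) ^ j + KK k * L.ep j + 2 * ((L.N k : ℝ) + 1) * KK j * L.ep j := e3
    _ ≤ 2 * ((1 / 4) ^ k * (1 / 4) ^ j) := by linarith

/-- Truncation. -/
theorem ov_trunc {U : Finset ℕ} {x : ℕ → ℝ} (hx : ∀ n, 0 ≤ x n) (hx1 : nm L U x ≤ 1) {k : ℕ}
    {T : Tr} (hT : Valid L T) {B : Finset ℕ} (hB : eta k ≤ ms T B) {Z : Finset ℕ} (hZU : Z ⊆ U)
    (hZ : ∀ n ∈ Z, KK k * h T n < R T B n * x n) :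
    ∑ n ∈ Z, R T B n * x n ≤ (1 / 4) ^ k := by
  have hKk := KK_pos k
  have hZB : Z ⊆ B := by
    intro n hn
    by_contra hcon
    have h1 := hZ n hn
    rw [R_eq_zero hT (fun hh => hcon (mem_inter.1 hh).1), zero_mul] at h1
    have := h_nonneg hT n
    have := mul_nonneg hKk.le this
    linarith
  have hm0 : 0 ≤ ∑ n ∈ Z, R T B n * x n :=
    Finset.sum_nonneg fun n _ => mul_nonneg (R_nonneg hT B n) (hx n)
  refine ov_pow_le (m := ∑ n ∈ Z, R T B n * x n) (K := KK k) (e := eta k) (t := Th T B)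
    (t' := Th T Z) (u := ms T Z) hm0 rfl (eta_pos k) (Th_nonneg _ _) ?_ (Th_pow_eight_le hT Z) ?_
    (hB.trans (ms_le_Th_pow_four hT B))
  · have h1 : (∑ n ∈ Z, R T B n * x n) * Th T B = Th T Z * pr Z (R T Z) x := by
      unfold pr
      rw [Finset.sum_mul, Finset.mul_sum]
      refine Finset.sum_congr rfl fun n hn => ?_
      have := R_eq_R hT hZB hn
      linear_combination x n * this
    rw [h1]
    have h2 : pr Z (R T Z) x ≤ 1 := by
      refine (pr_R_le hT Z Z hx).trans (le_trans ?_ hx1)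
      apply nm_mono_set _ hx
      exact (inter_subset_left.trans inter_subset_left).trans hZU
    have := Th_nonneg T Z
    nlinarith
  · unfold ms
    rw [Finset.mul_sum]
    exact Finset.sum_le_sum fun n hn => (hZ n hn).le

/-- A single piece carries little mass. -/
theorem ov_piece_small {U : Finset ℕ} {x : ℕ → ℝ} (hx : ∀ n, 0 ≤ x n) (hx1 : nm L U x ≤ 1) {k : ℕ}
    {T : Tr} (hT : Valid L T) {B : Finset ℕ} (hB : eta k ≤ ms T B) {P : ℕ → Tr}
    (hP : T = comb P (L.N k)) {p : ℕ} (hp : p ≤ L.N k) :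
    ∑ n ∈ U ∩ sp (P p), R T B n * x n ≤ (1 / 2) ^ (10 * k) := by
  have hvP := (valid_comb P (L.N k)).1 (hP ▸ hT)
  have hek := eta_pos k
  have hTh4 : eta k ≤ Th T B ^ 4 := hB.trans (ms_le_Th_pow_four hT B)
  have hTh0 : 0 < Th T B := by
    rcases (Th_nonneg T B).eq_or_lt with h0 | h0
    · rw [← h0] at hTh4; norm_num at hTh4; linarith
    · exact h0
  have hN0 : (0:ℝ) < (L.N k : ℝ) + 1 := by positivity
  set s := Real.sqrt ((L.N k : ℝ) + 1) with hs
  have hs0 : 0 < s := Real.sqrt_pos.2 hN0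
  have hs2 : s ^ 2 = (L.N k : ℝ) + 1 := Real.sq_sqrt hN0.le
  have h1 : ∀ n ∈ U ∩ sp (P p), R T B n * x n ≤ (s * Th T B)⁻¹ * (f (P p) n * x n) := by
    intro n hn
    have hn2 := (mem_inter.1 hn).2
    rw [← mul_assoc]
    apply mul_le_mul_of_nonneg_right _ (hx n)
    have hf : f T n = s⁻¹ * f (P p) n := by
      rw [hP, f_comb]
      congr 1
      apply Finset.sum_eq_single_of_mem p (Finset.mem_range.2 (by omega))
      intro i' hi' hne
      have hi'2 : i' ≤ L.N k := by have := Finset.mem_range.1 hi'; omega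
      apply f_eq_zero (hvP.1 i' hi'2)
      intro hn'
      rcases lt_or_gt_of_ne hne with hlt | hlt
      · exact lt_irrefl _ (hvP.2 i' p hlt hp n hn' n hn2)
      · exact lt_irrefl _ (hvP.2 p i' hlt hi'2 n hn2 n hn')
    unfold R
    split_ifs
    · rw [hf, mul_inv, div_eq_mul_inv]
      apply le_of_eq
      ring
    · have := f_nonneg (hvP.1 p hp) n
      positivity
  refine (Finset.sum_le_sum h1).trans ?_
  rw [← Finset.mul_sum]
  have h2 : ∑ n ∈ U ∩ sp (P p), f (P p) n * x n ≤ 1 := by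
    have h3 : pr (U ∩ sp (P p)) (f (P p)) x ≤ nm L (U ∩ sp (P p)) x := le_nm (hvP.1 p hp) _ hx
    exact h3.trans ((nm_mono_set inter_subset_left hx).trans hx1)
  have h3 : (s * Th T B)⁻¹ * ∑ n ∈ U ∩ sp (P p), f (P p) n * x n ≤ (s * Th T B)⁻¹ * 1 :=
    mul_le_mul_of_nonneg_left h2 (by positivity)
  refine h3.trans ?_
  rw [mul_one, one_div, inv_pow]
  apply inv_anti₀ (by positivity)
  -- `2 ^ (10 k) ≤ s * Th`
  have h4 : ((2:ℝ) ^ (10 * k)) ^ 4 ≤ (s * Th T B) ^ 4 := by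
    have h5 : (2:ℝ) ^ (20 * k) / eta k ≤ (L.N k : ℝ) + 1 := by
      have h6 := L.N_ge k
      have h7 : (2:ℝ) ^ (20 * k) / eta k ≤ dm k := by
        unfold dm
        have := KK_pos k
        have : (0:ℝ) ≤ 3 * KK k * 16 ^ k := by positivity
        linarith
      linarith
    have h6 : ((2:ℝ) ^ (20 * k) / eta k) ^ 2 * eta k ≤ ((L.N k : ℝ) + 1) ^ 2 * Th T B ^ 4 := by
      gcongr
    calc ((2:ℝ) ^ (10 * k)) ^ 4 = (2 ^ (20 * k)) ^ 2 := by
          rw [← pow_mul, ← pow_mul]; congr 1; ring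
      _ ≤ (2 ^ (20 * k)) ^ 2 / eta k := by
          rw [le_div_iff₀ hek]
          have := eta_le_one k
          have h8 : (0:ℝ) ≤ (2 ^ (20 * k)) ^ 2 := by positivity
          nlinarith
      _ = ((2:ℝ) ^ (20 * k) / eta k) ^ 2 * eta k := by field_simp
      _ ≤ ((L.N k : ℝ) + 1) ^ 2 * Th T B ^ 4 := h6
      _ = (s * Th T B) ^ 4 := by rw [← hs2]; ring
  exact le_of_pow_le_pow_left₀ (by norm_num) (by positivity) h4

/-- the mass function of a family, with weights `w i ^ 3` -/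
noncomputable def Fam.mass {U : Finset ℕ} (F : Fam L U) (w : F.ι → ℝ) (x : ℕ → ℝ) (n : ℕ) : ℝ :=
  ∑ i, if n ∈ F.A i then w i ^ 3 * (R (F.T1 i) (F.B i) n * x n) else 0

/-- the element of the mass function -/
noncomputable def Fam.el {U : Finset ℕ} (F : Fam L U) (w : F.ι → ℝ) (x : ℕ → ℝ) (i : F.ι) (n : ℕ) :
    ℝ :=
  if n ∈ F.A i then w i ^ 3 * (R (F.T1 i) (F.B i) n * x n) else 0

/-- the truncated set -/
def Fam.zz {U : Finset ℕ} (F : Fam L U) (x : ℕ → ℝ) (i : F.ι) (n : ℕ) : Prop :=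
  KK (sig (F.T0 i)) * h (F.T1 i) n < R (F.T1 i) (F.B i) n * x n

section fam

variable {U : Finset ℕ} {x : ℕ → ℝ}

theorem Fam.el_nonneg (F : Fam L U) {w : F.ι → ℝ} (hx : ∀ n, 0 ≤ x n) (hw : ∀ i, 0 ≤ w i)
    (i : F.ι) (n : ℕ) : 0 ≤ F.el w x i n := by
  unfold Fam.el
  split_ifs
  · have h1 := R_nonneg (F.valid i).2.1 (F.B i) n
    have := hx n
    have := hw i
    positivity
  · exact le_rfl

theorem Fam.sum_el_le (F : Fam L U) {w : F.ι → ℝ} (hx : ∀ n, 0 ≤ x n) (hw : ∀ i, 0 ≤ w i)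
    (s : Finset F.ι) (n : ℕ) {y : ℝ} (hy : 0 ≤ y) :
    ∑ i ∈ s, min y (F.el w x i n) ≤ y := by
  classical
  by_cases hex : ∃ i ∈ s, n ∈ F.A i
  · obtain ⟨i, hi, hni⟩ := hex
    rw [Finset.sum_eq_single_of_mem i hi]
    · exact min_le_left _ _
    · intro j _ hji
      have : n ∉ F.A j := fun hnj => Finset.disjoint_left.1 (F.disj j i hji) hnj hni
      unfold Fam.el
      rw [if_neg this]
      exact min_eq_right hy
  · rw [Finset.sum_eq_zero]
    · exact hy
    · intro i hi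
      have : n ∉ F.A i := fun hn => hex ⟨i, hi, hn⟩
      unfold Fam.el
      rw [if_neg this]
      exact min_eq_right hy

theorem Fam.w_le_one (F : Fam L U) {w : F.ι → ℝ} (hw : ∀ i, 0 ≤ w i) (hw1 : ∑ i, w i ^ 4 ≤ 1)
    (i : F.ι) : w i ^ 3 ≤ 1 := by
  have h1 : w i ^ 4 ≤ ∑ i, w i ^ 4 :=
    Finset.single_le_sum (f := fun i => w i ^ 4) (fun j _ => by positivity) (Finset.mem_univ i)
  have h2 : w i ≤ 1 := by
    by_contra hcon
    have h3 := not_le.1 hcon
    have h4 := one_lt_pow₀ h3 (by norm_num : 4 ≠ 0)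
    linarith
  exact pow_le_one₀ (hw i) h2

/-- mass on the truncated set -/
theorem Fam.sum_zz (F : Fam L U) {w : F.ι → ℝ} (hx : ∀ n, 0 ≤ x n) (hx1 : nm L U x ≤ 1)
    (hw : ∀ i, 0 ≤ w i) (hw1 : ∑ i, w i ^ 4 ≤ 1) (i : F.ι) (V : Finset ℕ) (hVU : V ⊆ U)
    (hV : ∀ n ∈ V, F.zz x i n) :
    ∑ n ∈ V, F.el w x i n ≤ (1 / 4) ^ sig (F.T0 i) := by
  have h1 := ov_trunc hx hx1 (F.valid i).2.1 (F.good i) hVU hV
  refine le_trans (Finset.sum_le_sum fun n _ => ?_) h1
  have h2 := mul_nonneg (R_nonneg (F.valid i).2.1 (F.B i) n) (hx n)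
  have h3 := F.w_le_one hw hw1 i
  unfold Fam.el
  split_ifs
  · exact mul_le_of_le_one_left h2 h3
  · exact h2

/-- Row estimate. -/
theorem Fam.row (F F' : Fam L U) {w : F.ι → ℝ} {w' : F'.ι → ℝ} (hx : ∀ n, 0 ≤ x n)
    (hx1 : nm L U x ≤ 1) (hw : ∀ i, 0 ≤ w i) (hw1 : ∑ i, w i ^ 4 ≤ 1) (hw' : ∀ i, 0 ≤ w' i)
    (hw1' : ∑ i, w' i ^ 4 ≤ 1) (i : F.ι) :
    ∑ i' ∈ univ.filter (fun i' => sig (F.T0 i) < sig (F'.T0 i')),
      ∑ n ∈ U, min (F.el w x i n) (F'.el w' x i' n) ≤
    4 * (1 / 4) ^ sig (F.T0 i) +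
      (∑ i', open Classical in ∑ n ∈ U, if n ∈ F.A i ∧ F'.zz x i' n then F'.el w' x i' n else 0) +
      2 * (1 / 4) ^ sig (F.T0 i) * ∑ i', (1 / 4) ^ sig (F'.T0 i') := by
  classical
  set k := sig (F.T0 i) with hk
  set T := F.T1 i with hTdef
  have hTv : Valid L T := (F.valid i).2.1
  obtain ⟨P, hP, hv, ii, hii⟩ : Lab L k T := (F.valid i).2.2.2
  have hvP := (valid_comb P (L.N k)).1 (hP ▸ hTv)
  set S := univ.filter (fun i' => k < sig (F'.T0 i')) with hS
  set a := F.el w x i with ha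
  set a' := F'.el w' x with ha'
  have ha0 : ∀ n, 0 ≤ a n := F.el_nonneg hx hw i
  have ha0' : ∀ i' n, 0 ≤ a' i' n := F'.el_nonneg hx hw'
  have hm0 : ∀ i' n, 0 ≤ min (a n) (a' i' n) := fun i' n => le_min (ha0 n) (ha0' i' n)
  -- the exceptional piece
  set Q : F'.ι → Finset ℕ := fun i' =>
    if ii (sig (F'.T0 i')) ≤ L.N k then sp (P (ii (sig (F'.T0 i')))) else ∅ with hQ
  -- pointwise decomposition
  have hpt : ∀ i' n, min (a n) (a' i' n) ≤
      (if F.zz x i n then min (a n) (a' i' n) else 0) +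
      (if n ∈ F.A i ∧ F'.zz x i' n then a' i' n else 0) +
      (if ¬ F.zz x i n ∧ ¬ F'.zz x i' n ∧ n ∉ Q i' then min (a n) (a' i' n) else 0) +
      (if n ∈ Q i' then min (a n) (a' i' n) else 0) := by
    intro i' n
    have h0 := hm0 i' n
    by_cases h1 : F.zz x i n
    · have h2 : 0 ≤ (if n ∈ F.A i ∧ F'.zz x i' n then a' i' n else 0) := by
        split_ifs; exacts [ha0' i' n, le_rfl]
      have h3 : 0 ≤ (if ¬ F.zz x i n ∧ ¬ F'.zz x i' n ∧ n ∉ Q i' then min (a n) (a' i' n) else 0) := by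
        split_ifs; exacts [h0, le_rfl]
      have h4 : 0 ≤ (if n ∈ Q i' then min (a n) (a' i' n) else 0) := by
        split_ifs; exacts [h0, le_rfl]
      rw [if_pos h1]
      linarith
    · by_cases h2 : F'.zz x i' n
      · have h4 : 0 ≤ (if n ∈ Q i' then min (a n) (a' i' n) else 0) := by
          split_ifs; exacts [h0, le_rfl]
        by_cases hA : n ∈ F.A i
        · rw [if_neg h1, if_pos ⟨hA, h2⟩, if_neg (fun hh => hh.2.1 h2)]
          have := min_le_right (a n) (a' i' n)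
          linarith
        · have : a n = 0 := by
            rw [ha]; unfold Fam.el; rw [if_neg hA]
          rw [if_neg h1, if_neg (fun hh => hA hh.1), if_neg (fun hh => hh.2.1 h2), this,
            min_eq_left (ha0' i' n)]
          simp
      · rw [if_neg h1, if_neg (fun hh => h2 hh.2)]
        by_cases h3 : n ∈ Q i'
        · rw [if_neg (fun hh => hh.2.2 h3), if_pos h3]
          linarith
        · rw [if_pos ⟨h1, h2, h3⟩, if_neg h3]
          linarith
  -- first part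
  have p1 : ∑ i' ∈ S, ∑ n ∈ U, (if F.zz x i n then min (a n) (a' i' n) else 0) ≤ (1 / 4) ^ k := by
    rw [Finset.sum_comm]
    have h1 : ∀ n ∈ U, ∑ i' ∈ S, (if F.zz x i n then min (a n) (a' i' n) else 0) ≤
        if F.zz x i n then a n else 0 := by
      intro n _
      by_cases h2 : F.zz x i n
      · simp only [if_pos h2]
        exact F'.sum_el_le hx hw' S n (ha0 n)
      · simp only [if_neg h2, Finset.sum_const_zero, le_refl]
    refine (Finset.sum_le_sum h1).trans ?_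
    rw [← Finset.sum_filter]
    exact F.sum_zz hx hx1 hw hw1 i _ (Finset.filter_subset _ _) fun n hn => (mem_filter.1 hn).2
  -- second part
  have p2 : ∑ i' ∈ S, ∑ n ∈ U, (if n ∈ F.A i ∧ F'.zz x i' n then a' i' n else 0) ≤
      ∑ i', ∑ n ∈ U, (if n ∈ F.A i ∧ F'.zz x i' n then a' i' n else 0) := by
    apply Finset.sum_le_sum_of_subset_of_nonneg (Finset.filter_subset _ _)
    intro i' _ _
    apply Finset.sum_nonneg
    intro n _
    split_ifs
    exacts [ha0' i' n, le_rfl]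
  -- third part
  have p3 : ∑ i' ∈ S, ∑ n ∈ U, (if ¬ F.zz x i n ∧ ¬ F'.zz x i' n ∧ n ∉ Q i' then
      min (a n) (a' i' n) else 0) ≤ 2 * (1 / 4) ^ k * ∑ i', (1 / 4) ^ sig (F'.T0 i') := by
    have h1 : ∀ i' ∈ S, ∑ n ∈ U, (if ¬ F.zz x i n ∧ ¬ F'.zz x i' n ∧ n ∉ Q i' then
      min (a n) (a' i' n) else 0) ≤ 2 * (1 / 4) ^ k * (1 / 4) ^ sig (F'.T0 i') := by
      intro i' hi'
      have hkj : k < sig (F'.T0 i') := (mem_filter.1 hi').2
      set j := sig (F'.T0 i') with hj
      have hTv' : Valid L (F'.T1 i') := (F'.valid i').2.1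
      obtain ⟨P', hP', hv', -⟩ : Lab L j (F'.T1 i') := (F'.valid i').2.2.2
      have hpc := ov_pieces (w := fun n => if ¬ F.zz x i n ∧ ¬ F'.zz x i' n ∧ n ∉ Q i' then
        min (a n) (a' i' n) else 0) hkj hTv hTv' hP (p := ii j) (fun i hi hne => hii j hkj i hi hne)
        hv' (fun n => by split_ifs; exacts [hm0 i' n, le_rfl]) (fun n => by
          have h0 := mul_nonneg (KK_pos k).le (h_nonneg hTv n)
          split_ifs with hc
          · refine (min_le_left _ _).trans ?_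
            rw [ha]
            unfold Fam.el
            split_ifs
            · have h2 := not_lt.1 hc.1
              have h3 := mul_nonneg (R_nonneg hTv (F.B i) n) (hx n)
              exact (mul_le_of_le_one_left h3 (F.w_le_one hw hw1 i)).trans h2
            · exact h0
          · exact h0) (fun n => by
          have h0 := mul_nonneg (KK_pos j).le (h_nonneg hTv' n)
          split_ifs with hc
          · refine (min_le_right _ _).trans ?_
            rw [ha']
            unfold Fam.el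
            split_ifs
            · have h2 := not_lt.1 hc.2.1
              have h3 := mul_nonneg (R_nonneg hTv' (F'.B i') n) (hx n)
              exact (mul_le_of_le_one_left h3 (F'.w_le_one hw' hw1' i')).trans h2
            · exact h0
          · exact h0) (U.filter fun n => n ∉ Q i') (fun n hn hle hmem => by
            apply (mem_filter.1 hn).2
            rw [hQ]
            dsimp only
            rw [if_pos hle]
            exact hmem)
      have e1 : ∑ n ∈ U, (if ¬ F.zz x i n ∧ ¬ F'.zz x i' n ∧ n ∉ Q i' then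
          min (a n) (a' i' n) else 0) = ∑ n ∈ U.filter (fun n => n ∉ Q i'),
          (if ¬ F.zz x i n ∧ ¬ F'.zz x i' n ∧ n ∉ Q i' then min (a n) (a' i' n) else 0) := by
        symm
        apply Finset.sum_subset (Finset.filter_subset _ _)
        intro n hn hn'
        rw [if_neg]
        intro hc
        exact hn' (mem_filter.2 ⟨hn, hc.2.2⟩)
      rw [e1]
      refine hpc.trans (le_of_eq ?_)
      ring
    refine (Finset.sum_le_sum h1).trans ?_
    rw [← Finset.mul_sum]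
    apply mul_le_mul_of_nonneg_left _ (by positivity)
    exact Finset.sum_le_sum_of_subset_of_nonneg (Finset.filter_subset _ _) fun _ _ _ => by positivity
  -- fourth part
  have p4 : ∑ i' ∈ S, ∑ n ∈ U, (if n ∈ Q i' then min (a n) (a' i' n) else 0) ≤
      3 * (1 / 4) ^ k := by
    -- group by the piece
    set J : ℕ → Finset F'.ι := fun p => S.filter fun i' => ii (sig (F'.T0 i')) = p with hJ
    set e : ℕ → ℝ := fun p => ∑ i' ∈ J p, ∑ n ∈ U ∩ sp (P p), min (a n) (a' i' n) with he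
    have h1 : ∑ i' ∈ S, ∑ n ∈ U, (if n ∈ Q i' then min (a n) (a' i' n) else 0) ≤
        ∑ p ∈ range (L.N k + 1), e p := by
      have h2 : ∀ i' ∈ S, ∑ n ∈ U, (if n ∈ Q i' then min (a n) (a' i' n) else 0) =
          ∑ p ∈ range (L.N k + 1), if ii (sig (F'.T0 i')) = p then
            ∑ n ∈ U ∩ sp (P p), min (a n) (a' i' n) else 0 := by
        intro i' _
        rw [Finset.sum_ite_eq]
        by_cases hle : ii (sig (F'.T0 i')) ≤ L.N k
        · rw [if_pos (mem_range.2 (by omega)), ← Finset.sum_filter]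
          apply Finset.sum_congr _ fun _ _ => rfl
          ext n
          rw [mem_filter, mem_inter, hQ]
          dsimp only
          rw [if_pos hle]
        · rw [if_neg (fun hh => hle (by have := mem_range.1 hh; omega))]
          apply Finset.sum_eq_zero
          intro n _
          rw [if_neg]
          rw [hQ]
          dsimp only
          rw [if_neg hle]
          exact Finset.notMem_empty n
      rw [Finset.sum_congr rfl h2, Finset.sum_comm]
      apply le_of_eq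
      refine Finset.sum_congr rfl fun p _ => ?_
      rw [he, hJ]
      dsimp only
      exact (Finset.sum_filter _ _).symm
    refine h1.trans ?_
    set X : ℕ → ℝ := fun p => ∑ i' ∈ J p, w' i' ^ 4 with hX
    set β : ℕ → ℝ := fun p => nm L (U ∩ sp (P p)) x with hβ
    have h3 : ∀ p ∈ range (L.N k + 1), e p ≤ (1 / 4) ^ k * (X p + 2 * β p ^ 2) := by
      intro p hp
      have hp' : p ≤ L.N k := by have := mem_range.1 hp; omega
      apply ov_claim
      · exact Finset.sum_nonneg fun i' _ => Finset.sum_nonneg fun n _ => hm0 i' n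
      · exact Finset.sum_nonneg fun i' _ => by positivity
      · exact nm_nonneg _ hx
      · -- small
        rw [he]
        dsimp only
        rw [Finset.sum_comm]
        have h4 : ∀ n ∈ U ∩ sp (P p), ∑ i' ∈ J p, min (a n) (a' i' n) ≤ R T (F.B i) n * x n := by
          intro n _
          refine (F'.sum_el_le hx hw' (J p) n (ha0 n)).trans ?_
          rw [ha]
          unfold Fam.el
          have h3 := mul_nonneg (R_nonneg hTv (F.B i) n) (hx n)
          split_ifs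
          · exact mul_le_of_le_one_left h3 (F.w_le_one hw hw1 i)
          · exact h3
        exact (Finset.sum_le_sum h4).trans (ov_piece_small hx hx1 hTv (F.good i) hP hp')
      · -- Hölder
        have h4 : e p ≤ ∑ i' ∈ J p, w' i' ^ 3 * nm L (U ∩ sp (P p) ∩ F'.A i') x := by
          rw [he]
          dsimp only
          apply Finset.sum_le_sum
          intro i' _
          have h5 : ∑ n ∈ U ∩ sp (P p), min (a n) (a' i' n) ≤
              ∑ n ∈ U ∩ sp (P p), a' i' n := Finset.sum_le_sum fun n _ => min_le_right _ _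
          refine h5.trans ?_
          have h6 : ∑ n ∈ U ∩ sp (P p), a' i' n =
              w' i' ^ 3 * pr (U ∩ sp (P p) ∩ F'.A i') (R (F'.T1 i') (F'.B i')) x := by
            unfold pr
            rw [Finset.mul_sum, ha']
            unfold Fam.el
            rw [← Finset.sum_filter, Finset.filter_mem_eq_inter]
          rw [h6]
          apply mul_le_mul_of_nonneg_left _ (by have := hw' i'; positivity)
          refine (pr_R_le (F'.valid i').2.1 _ _ hx).trans ?_
          exact nm_mono_set (inter_subset_left.trans inter_subset_left) hx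
        have h5 : 0 ≤ e p :=
          Finset.sum_nonneg fun i' _ => Finset.sum_nonneg fun n _ => hm0 i' n
        refine (pow_le_pow_left₀ h5 h4 4).trans ((ov_holder _ _ _).trans ?_)
        apply mul_le_mul_of_nonneg_left _ (by
          have : 0 ≤ X p := Finset.sum_nonneg fun i' _ => by positivity
          positivity)
        exact nm_four_sum (J p) (fun i1 _ i2 _ hne =>
          Disjoint.mono inter_subset_right inter_subset_right (F'.disj i1 i2 hne))
          (fun i' _ => inter_subset_left) hx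
    refine (Finset.sum_le_sum h3).trans ?_
    rw [← Finset.mul_sum, Finset.sum_add_distrib, ← Finset.mul_sum]
    have h4 : ∑ p ∈ range (L.N k + 1), X p ≤ 1 := by
      have h5 : ∑ p ∈ range (L.N k + 1), X p ≤ ∑ i' ∈ S, w' i' ^ 4 := by
        have h6 : ∑ p ∈ range (L.N k + 1), X p = ∑ i' ∈ S, ∑ p ∈ range (L.N k + 1),
            if ii (sig (F'.T0 i')) = p then w' i' ^ 4 else 0 := by
          rw [Finset.sum_comm]
          refine Finset.sum_congr rfl fun p _ => ?_
          rw [hX, hJ]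
          dsimp only
          exact Finset.sum_filter _ _
        rw [h6]
        apply Finset.sum_le_sum
        intro i' _
        rw [Finset.sum_ite_eq]
        split_ifs
        · exact le_rfl
        · positivity
      refine h5.trans (le_trans ?_ hw1')
      exact Finset.sum_le_sum_of_subset_of_nonneg (Finset.filter_subset _ _) fun _ _ _ => by
        positivity
    have h5 : ∑ p ∈ range (L.N k + 1), β p ^ 2 ≤ 1 := by
      have h6 := nm_sq_sum (L := L) (A := fun p => U ∩ sp (P p)) (m := L.N k + 1) (U := U)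
        (fun i j hij hj a ha b hb => hvP.2 i j hij (by omega) a (mem_inter.1 ha).2 b
          (mem_inter.1 hb).2) (fun i _ => inter_subset_left) hx
      have h7 : nm L U x ^ 2 ≤ 1 := pow_le_one₀ (nm_nonneg U hx) hx1
      exact h6.trans h7
    have h6 : (0:ℝ) ≤ (1 / 4) ^ k := by positivity
    nlinarith
  -- conclusion
  have hsum : ∑ i' ∈ S, ∑ n ∈ U, min (a n) (a' i' n) ≤
      ∑ i' ∈ S, ∑ n ∈ U, ((if F.zz x i n then min (a n) (a' i' n) else 0) +
      (if n ∈ F.A i ∧ F'.zz x i' n then a' i' n else 0) +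
      (if ¬ F.zz x i n ∧ ¬ F'.zz x i' n ∧ n ∉ Q i' then min (a n) (a' i' n) else 0) +
      (if n ∈ Q i' then min (a n) (a' i' n) else 0)) :=
    Finset.sum_le_sum fun i' _ => Finset.sum_le_sum fun n _ => hpt i' n
  simp only [Finset.sum_add_distrib] at hsum
  linarith

theorem Fam.half (F F' : Fam L U) {w : F.ι → ℝ} {w' : F'.ι → ℝ} (hx : ∀ n, 0 ≤ x n)
    (hx1 : nm L U x ≤ 1) (k0 : ℕ) (hw : ∀ i, 0 ≤ w i) (hw1 : ∑ i, w i ^ 4 ≤ 1)
    (hw' : ∀ i, 0 ≤ w' i) (hw1' : ∑ i, w' i ^ 4 ≤ 1)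
    (hlab : ∀ i, k0 ≤ sig (F.T0 i)) (hlab' : ∀ i, k0 ≤ sig (F'.T0 i))
    (hcount : ∀ k, (univ.filter fun i => sig (F.T0 i) = k).card ≤ k)
    (hcount' : ∀ k, (univ.filter fun i => sig (F'.T0 i) = k).card ≤ k) :
    ∑ i, ∑ i' ∈ univ.filter (fun i' => sig (F.T0 i) < sig (F'.T0 i')),
      ∑ n ∈ U, min (F.el w x i n) (F'.el w' x i' n) ≤ 32 * (1 / 2) ^ k0 := by
  classical
  have h1 := Finset.sum_le_sum fun i (_ : i ∈ (univ : Finset F.ι)) =>
    F.row F' hx hx1 hw hw1 hw' hw1' i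
  refine h1.trans ?_
  rw [Finset.sum_add_distrib, Finset.sum_add_distrib, ← Finset.mul_sum, ← Finset.sum_mul,
    ← Finset.mul_sum]
  have c1 := ov_count (fun i => sig (F.T0 i)) k0 hlab hcount
  have c2 := ov_count (fun i => sig (F'.T0 i)) k0 hlab' hcount'
  have hp : (0:ℝ) < (1 / 2) ^ k0 := by positivity
  have hp1 : (1 / 2 : ℝ) ^ k0 ≤ 1 := pow_le_one₀ (by norm_num) (by norm_num)
  set A1 := ∑ i, (1 / 4 : ℝ) ^ sig (F.T0 i) with hA1
  set A2 := ∑ i, (1 / 4 : ℝ) ^ sig (F'.T0 i) with hA2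
  have hA10 : 0 ≤ A1 := Finset.sum_nonneg fun _ _ => by positivity
  have hA20 : 0 ≤ A2 := Finset.sum_nonneg fun _ _ => by positivity
  have h2 : ∑ i, ∑ i', ∑ n ∈ U, (if n ∈ F.A i ∧ F'.zz x i' n then F'.el w' x i' n else 0) ≤ A2 := by
    rw [Finset.sum_comm]
    apply Finset.sum_le_sum
    intro i' _
    rw [Finset.sum_comm]
    have h3 : ∀ n ∈ U, ∑ i, (if n ∈ F.A i ∧ F'.zz x i' n then F'.el w' x i' n else 0) ≤
        if F'.zz x i' n then F'.el w' x i' n else 0 := by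
      intro n _
      have hn0 := F'.el_nonneg hx hw' i' n
      by_cases hz : F'.zz x i' n
      · rw [if_pos hz]
        by_cases hex : ∃ i, n ∈ F.A i
        · obtain ⟨i, hi⟩ := hex
          rw [Finset.sum_eq_single_of_mem i (Finset.mem_univ i)]
          · rw [if_pos ⟨hi, hz⟩]
          · intro j _ hji
            rw [if_neg]
            intro hc
            exact Finset.disjoint_left.1 (F.disj j i hji) hc.1 hi
        · rw [Finset.sum_eq_zero]
          · exact hn0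
          · intro i _
            rw [if_neg]
            intro hc
            exact hex ⟨i, hc.1⟩
      · rw [if_neg hz, Finset.sum_eq_zero]
        intro i _
        rw [if_neg (fun hc => hz hc.2)]
    refine (Finset.sum_le_sum h3).trans ?_
    rw [← Finset.sum_filter]
    exact F'.sum_zz hx hx1 hw' hw1' i' _ (Finset.filter_subset _ _) fun n hn => (mem_filter.1 hn).2
  have h3 : A1 * A2 ≤ 4 * (1 / 2) ^ k0 := by nlinarith
  have e1 : 2 * A1 * A2 = 2 * (A1 * A2) := by ring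
  rw [e1]
  linarith

end fam

theorem overlap {U : Finset ℕ} {x : ℕ → ℝ} (hx : ∀ n, 0 ≤ x n) (hx1 : nm L U x ≤ 1) (k0 : ℕ)
    (F F' : Fam L U) (w : F.ι → ℝ) (w' : F'.ι → ℝ) (hw : ∀ i, 0 ≤ w i) (hw1 : ∑ i, w i ^ 4 ≤ 1)
    (hw' : ∀ i, 0 ≤ w' i) (hw1' : ∑ i, w' i ^ 4 ≤ 1)
    (hlab : ∀ i, k0 ≤ sig (F.T0 i)) (hlab' : ∀ i, k0 ≤ sig (F'.T0 i))
    (hcount : ∀ k, (univ.filter fun i => sig (F.T0 i) = k).card ≤ k)
    (hcount' : ∀ k, (univ.filter fun i => sig (F'.T0 i) = k).card ≤ k)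
    (hdisj : ∀ i i', sig (F.T0 i) ≠ sig (F'.T0 i')) :
    ∑ n ∈ U, min (F.mass w x n) (F'.mass w' x n) ≤ 64 * (1 / 2) ^ k0 := by
  classical
  have hmass : ∀ n, F.mass w x n = ∑ i, F.el w x i n := fun n => rfl
  have hmass' : ∀ n, F'.mass w' x n = ∑ i, F'.el w' x i n := fun n => rfl
  have h0 := F.el_nonneg hx hw
  have h0' := F'.el_nonneg hx hw'
  have h1 : ∀ n, min (F.mass w x n) (F'.mass w' x n) ≤
      ∑ i, ∑ i', min (F.el w x i n) (F'.el w' x i' n) := by
    intro n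
    rw [hmass, hmass']
    refine (ov_min_sum _ _ _ (fun i _ => h0 i n) (Finset.sum_nonneg fun i _ => h0' i n)).trans ?_
    apply Finset.sum_le_sum
    intro i _
    rw [min_comm]
    refine (ov_min_sum _ _ _ (fun i' _ => h0' i' n) (h0 i n)).trans ?_
    exact Finset.sum_le_sum fun i' _ => (min_comm _ _).le
  refine (Finset.sum_le_sum fun n _ => h1 n).trans ?_
  have h2 : ∑ n ∈ U, ∑ i, ∑ i', min (F.el w x i n) (F'.el w' x i' n) =
      ∑ i, ∑ i', ∑ n ∈ U, min (F.el w x i n) (F'.el w' x i' n) := by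
    rw [Finset.sum_comm]
    exact Finset.sum_congr rfl fun i _ => Finset.sum_comm
  rw [h2]
  have h3 : ∀ i, ∑ i', ∑ n ∈ U, min (F.el w x i n) (F'.el w' x i' n) =
      ∑ i' ∈ univ.filter (fun i' => sig (F.T0 i) < sig (F'.T0 i')),
        ∑ n ∈ U, min (F.el w x i n) (F'.el w' x i' n) +
      ∑ i' ∈ univ.filter (fun i' => sig (F'.T0 i') < sig (F.T0 i)),
        ∑ n ∈ U, min (F.el w x i n) (F'.el w' x i' n) := by
    intro i
    rw [← Finset.sum_filter_add_sum_filter_not univ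
      (fun i' => sig (F.T0 i) < sig (F'.T0 i'))]
    congr 1
    apply Finset.sum_congr _ fun _ _ => rfl
    ext i'
    simp only [mem_filter, mem_univ, true_and, not_lt]
    constructor
    · intro hle
      exact lt_of_le_of_ne hle fun he => hdisj i i' he.symm
    · exact le_of_lt
  rw [Finset.sum_congr rfl fun i _ => h3 i, Finset.sum_add_distrib]
  have h4 := F.half F' hx hx1 k0 hw hw1 hw' hw1' hlab hlab' hcount hcount'
  have h5 := F'.half F hx hx1 k0 hw' hw1' hw hw1 hlab' hlab hcount' hcount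
  have h6 : ∑ i, ∑ i' ∈ univ.filter (fun i' => sig (F'.T0 i') < sig (F.T0 i)),
        ∑ n ∈ U, min (F.el w x i n) (F'.el w' x i' n) =
      ∑ i', ∑ i ∈ univ.filter (fun i => sig (F'.T0 i') < sig (F.T0 i)),
        ∑ n ∈ U, min (F'.el w' x i' n) (F.el w x i n) := by
    simp only [Finset.sum_filter]
    rw [Finset.sum_comm]
    refine Finset.sum_congr rfl fun i' _ => Finset.sum_congr rfl fun i _ => ?_
    simp only [min_comm]
  rw [h6]
  linarith

end Pool.Agent.H51.SM
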