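import Pool.Agent.H51.SM.Est
import Pool.Agent.H51.SM.Overlap
import Pool.Agent.H51.SM.LemN

/-!
# Module CLAIMP: vanishing of the interactions (paper proof, section 6)
-/

set_option autoImplicit false

namespace Pool.Agent.H51.SM

open Finset

variable {L : LS dm}

/-! ### pairings -/

theorem cp_pr_le {T : Tr} (hT : Valid L T) (A B F0 : Finset ℕ) {x : ℕ → ℝ} (hx : ∀ n, 0 ≤ x n)
    (hF : ∀ n, n ∉ F0 → x n = 0) :
    pr A (R T B) x ≤ pr (A ∩ B ∩ F0) (R T (A ∩ B ∩ F0)) x := by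
  have h1 : pr A (R T B) x = pr (A ∩ B ∩ F0) (R T B) x := by
    unfold pr
    symm
    apply sum_subset
    · exact inter_subset_left.trans inter_subset_left
    · intro n hn hn'
      by_cases hB : n ∈ B
      · have : n ∉ F0 := fun hf => hn' (mem_inter.2 ⟨mem_inter.2 ⟨hn, hB⟩, hf⟩)
        rw [hF n this, mul_zero]
      · rw [R_eq_zero hT (fun hh => hB (mem_inter.1 hh).1), zero_mul]
  rw [h1]
  unfold pr
  refine sum_le_sum fun n hn => ?_
  refine mul_le_mul_of_nonneg_right ?_ (hx n)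
  exact R_le_R hT (inter_subset_left.trans inter_subset_right) hn

theorem cp_pr_nm {T : Tr} (hT : Valid L T) (A B : Finset ℕ) {x : ℕ → ℝ} (hx : ∀ n, 0 ≤ x n) :
    pr A (R T B) x ≤ nm L A x :=
  (pr_R_le hT A B hx).trans (nm_mono_set (inter_subset_left.trans inter_subset_left) hx)

theorem cp_pr_nonneg {T : Tr} (hT : Valid L T) (A B : Finset ℕ) {x : ℕ → ℝ} (hx : ∀ n, 0 ≤ x n) :
    0 ≤ pr A (R T B) x :=
  sum_nonneg fun n _ => mul_nonneg (R_nonneg hT B n) (hx n)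

theorem cp_mm_nonneg {U : Finset ℕ} (G : Fam L U) {x x' : ℕ → ℝ} (hx : ∀ n, 0 ≤ x n)
    (hx' : ∀ n, 0 ≤ x' n) (i : G.ι) : 0 ≤ G.mm x x' i :=
  le_min (cp_pr_nonneg (G.valid i).1 _ _ hx) (cp_pr_nonneg (G.valid i).2.1 _ _ hx')

/-! ### bad indices -/

def cpBad (x : ℕ → ℕ → ℝ) (F : ℕ → Finset ℕ) (T : Tr) (ρ : ℝ) (j : ℕ) : Prop :=
  ∃ (ι : Type) (s : Finset ι) (C : ι → Finset ℕ), (∀ l ∈ s, C l ⊆ F j) ∧
    (∀ l ∈ s, ∀ l' ∈ s, l ≠ l' → Disjoint (C l) (C l')) ∧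
    ρ < ∑ l ∈ s, pr (C l) (R T (C l)) (x j) ^ 4

theorem cpBad_card (x : ℕ → ℕ → ℝ) (F : ℕ → Finset ℕ) (hx : ∀ j n, 0 ≤ x j n)
    (hlt : ∀ i j, i < j → Lt (F i) (F j)) (hnm : ∀ j, nm L (F j) (x j) ≤ 1)
    {T : Tr} (hT : Valid L T) {ρ : ℝ} (hρ : 0 ≤ ρ) (J : Finset ℕ)
    (hJ : ∀ j ∈ J, cpBad x F T ρ j) : ρ ^ 2 * J.card ≤ 8 := by
  obtain ⟨q, hq0, hq8, hq⟩ := lemN hT J F (fun i _ j _ hij => hlt i j hij)
  have h1 : ∀ j ∈ J, ρ ^ 2 ≤ q j ^ 8 := by
    intro j hj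
    obtain ⟨ι, s, C, hC, hCd, hlt'⟩ := hJ j hj
    have h2 := hq j hj (x j) (hx j) ι s C hC hCd
    have h3 : nm L (F j) (x j) ^ 4 ≤ 1 := pow_le_one₀ (nm_nonneg _ (hx j)) (hnm j)
    have h4 : ρ ≤ q j ^ 4 := by
      have : q j ^ 4 * nm L (F j) (x j) ^ 4 ≤ q j ^ 4 * 1 :=
        mul_le_mul_of_nonneg_left h3 (by have := hq0 j; positivity)
      linarith
    calc ρ ^ 2 ≤ (q j ^ 4) ^ 2 := pow_le_pow_left₀ hρ h4 2
      _ = q j ^ 8 := by ring
  calc ρ ^ 2 * J.card = ∑ j ∈ J, ρ ^ 2 := by rw [sum_const, nsmul_eq_mul, mul_comm]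
    _ ≤ ∑ j ∈ J, q j ^ 8 := sum_le_sum h1
    _ ≤ 8 := hq8

/-! ### families -/

/-- subfamily, with the sets intersected with `U'` -/
noncomputable def Fam.cpsub {U : Finset ℕ} (G : Fam L U) (p : G.ι → Prop) (U' : Finset ℕ) :
    Fam L U' where
  ι := {i // p i}
  fι := Fintype.ofFinite _
  T0 i := G.T0 i.1
  T1 i := G.T1 i.1
  B i := G.B i.1
  A i := G.A i.1 ∩ U'
  valid i := G.valid i.1
  good i := G.good i.1
  disj i j hij := (G.disj i.1 j.1 (fun h => hij (Subtype.ext h))).mono inter_subset_left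
    inter_subset_left
  sub _ := inter_subset_right

theorem cp_sum_sub {ι : Type} [Fintype ι] (p : ι → Prop) [DecidablePred p] (I : Fintype {i // p i})
    (g : ι → ℝ) : ∑ i : {i // p i}, g i.1 = ∑ i ∈ univ.filter p, g i :=
  (Finset.sum_subtype (univ.filter p) (fun x => by simp) g).symm

theorem cp_exists {x x' : ℕ → ℝ} (hx : ∀ n, 0 ≤ x n) (hx' : ∀ n, 0 ≤ x' n) {S : Finset ℕ} {ε : ℝ}
    (h : ε < e4 L S x x') :
    ∃ G : Fam L S, (∀ i, 0 < G.mm x x' i) ∧ ε < ∑ i, G.mm x x' i ^ 4 := by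
  classical
  have hne : Nonempty (Fam L S) := ⟨{
    ι := Empty
    fι := inferInstance
    T0 := fun i => i.elim
    T1 := fun i => i.elim
    B := fun i => i.elim
    A := fun i => i.elim
    valid := fun i => i.elim
    good := fun i => i.elim
    disj := fun i => i.elim
    sub := fun i => i.elim }⟩
  obtain ⟨G, hG⟩ := exists_lt_of_lt_ciSup h
  have hmm : ∀ i : {i // 0 < G.mm x x' i},
      (G.cpsub (fun i => 0 < G.mm x x' i) S).mm x x' i = G.mm x x' i.1 := by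
    intro i
    show min (pr (G.A i.1 ∩ S) _ x) (pr (G.A i.1 ∩ S) _ x') = min (pr (G.A i.1) _ x) (pr (G.A i.1) _ x')
    rw [inter_eq_left.2 (G.sub i.1)]
    rfl
  refine ⟨G.cpsub (fun i => 0 < G.mm x x' i) S, ?_, ?_⟩
  · intro i
    rw [hmm i]
    exact i.2
  · refine lt_of_lt_of_eq hG ?_
    have h1 : ∑ i, (G.cpsub (fun i => 0 < G.mm x x' i) S).mm x x' i ^ 4 =
        ∑ i ∈ univ.filter (fun i => 0 < G.mm x x' i), G.mm x x' i ^ 4 := by
      rw [← cp_sum_sub (fun i => 0 < G.mm x x' i) (Fintype.ofFinite _) (fun i => G.mm x x' i ^ 4)]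
      refine sum_congr rfl fun i _ => ?_
      rw [hmm i]
    rw [h1]
    symm
    apply sum_subset (filter_subset _ _)
    intro i _ hi
    have h2 : ¬ 0 < G.mm x x' i := fun hh => hi (mem_filter.2 ⟨mem_univ _, hh⟩)
    have h3 : G.mm x x' i = 0 := le_antisymm (not_lt.1 h2) (cp_mm_nonneg G hx hx' i)
    rw [h3]
    norm_num

theorem cp_witness {U : Finset ℕ} (G : Fam L U) {x x' : ℕ → ℝ} {F0 : Finset ℕ}
    (hF : ∀ n, n ∉ F0 → x n = 0) (i : G.ι) (hi : 0 < G.mm x x' i) :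
    ∃ a, a ∈ G.A i ∧ a ∈ sp (G.T0 i) ∧ a ∈ F0 := by
  have h1 : 0 < pr (G.A i) (R (G.T0 i) (G.B i)) x := (lt_min_iff.1 hi).1
  by_contra hcon
  push Not at hcon
  have h2 : pr (G.A i) (R (G.T0 i) (G.B i)) x = 0 := by
    unfold pr
    refine sum_eq_zero fun n hn => ?_
    by_cases hs : n ∈ sp (G.T0 i)
    · rw [hF n (hcon n hn hs), mul_zero]
    · rw [R_eq_zero (G.valid i).1 (fun hh => hs (mem_inter.1 hh).2), zero_mul]
  linarith

theorem cp_card {U : Finset ℕ} (G : Fam L U) {x x' : ℕ → ℝ} {F0 : Finset ℕ}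
    (hF : ∀ n, n ∉ F0 → x n = 0) (hact : ∀ i, 0 < G.mm x x' i) :
    Fintype.card G.ι ≤ F0.card := by
  choose a ha1 ha2 ha3 using fun i => cp_witness G hF i (hact i)
  have hinj : Function.Injective a := by
    intro i j hij
    by_contra hne
    exact Finset.disjoint_left.1 (G.disj i j hne) (ha1 i) (hij ▸ ha1 j)
  rw [← Finset.card_univ]
  exact Finset.card_le_card_of_injOn a (fun i _ => ha3 i) hinj.injOn

theorem cp_count {U : Finset ℕ} (G : Fam L U) {x x' : ℕ → ℝ} {F0 : Finset ℕ}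
    (hF : ∀ n, n ∉ F0 → x n = 0) (hact : ∀ i, 0 < G.mm x x' i) (k : ℕ) :
    (univ.filter fun i => sig (G.T0 i) = k).card ≤ k := by
  choose a ha1 ha2 ha3 using fun i => cp_witness G hF i (hact i)
  have hinj : Function.Injective a := by
    intro i j hij
    by_contra hne
    exact Finset.disjoint_left.1 (G.disj i j hne) (ha1 i) (hij ▸ ha1 j)
  calc (univ.filter fun i => sig (G.T0 i) = k).card ≤ (range k).card := by
        refine Finset.card_le_card_of_injOn a (fun i hi => ?_) hinj.injOn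
        have h1 : sig (G.T0 i) = k := (mem_filter.1 hi).2
        have h2 := sig_gt_sp (ha2 i)
        rw [h1] at h2
        exact mem_coe.2 (mem_range.2 h2)
    _ = k := card_range k

theorem cp_loss (x : ℕ → ℕ → ℝ) (F : ℕ → Finset ℕ) (hx : ∀ j n, 0 ≤ x j n)
    (hF : ∀ j n, n ∉ F j → x j n = 0) {U : Finset ℕ} (G : Fam L U) (m' : ℕ) {x' : ℕ → ℝ}
    (hx' : ∀ n, 0 ≤ x' n) (s : Finset G.ι) (T : Tr) (hs : ∀ ν ∈ s, G.T0 ν = T) (ρ : ℝ)
    (hb : ¬ cpBad x F T ρ m') :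
    ∑ ν ∈ s, G.mm (x m') x' ν ^ 4 ≤ ρ := by
  by_contra hcon
  push Not at hcon
  apply hb
  refine ⟨G.ι, s, fun ν => G.A ν ∩ G.B ν ∩ F m', ?_, ?_, ?_⟩
  · intro l _; exact inter_subset_right
  · intro l _ l' _ hne
    exact (G.disj l l' hne).mono (inter_subset_left.trans inter_subset_left)
      (inter_subset_left.trans inter_subset_left)
  · refine lt_of_lt_of_le hcon (sum_le_sum fun ν hν => ?_)
    have hT : G.T0 ν = T := hs ν hν
    refine pow_le_pow_left₀ (cp_mm_nonneg G (hx m') hx' ν) ?_ 4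
    refine (min_le_left _ _).trans ?_
    rw [hT]
    exact cp_pr_le (hT ▸ (G.valid ν).1) _ _ _ (hx m') (hF m')

/-! ### the mass function -/

theorem cp_young {w b : ℝ} (hw : 0 ≤ w) (hb : 0 ≤ b) : w ^ 3 * b ≤ 3 / 4 * w ^ 4 + 1 / 4 * b ^ 4 := by
  have h1 : 0 ≤ (w - b) ^ 2 * (3 * w ^ 2 + 2 * (w * b) + b ^ 2) := by positivity
  nlinarith [h1]

theorem cp_mass_sum {U : Finset ℕ} (G : Fam L U) (w : G.ι → ℝ) (x : ℕ → ℝ) (C : Finset ℕ) :
    ∑ n ∈ C, G.mass w x n = ∑ i, w i ^ 3 * pr (G.A i ∩ C) (R (G.T1 i) (G.B i)) x := by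
  unfold Fam.mass
  rw [sum_comm]
  refine sum_congr rfl fun i _ => ?_
  unfold pr
  rw [mul_sum, inter_comm, ← sum_filter, filter_mem_eq_inter]

theorem cp_mass_nonneg {U : Finset ℕ} (G : Fam L U) {w : G.ι → ℝ} (hw : ∀ i, 0 ≤ w i) {x : ℕ → ℝ}
    (hx : ∀ n, 0 ≤ x n) (n : ℕ) : 0 ≤ G.mass w x n := by
  refine sum_nonneg fun i _ => ?_
  split_ifs
  · exact mul_nonneg (pow_nonneg (hw i) 3) (mul_nonneg (R_nonneg (G.valid i).2.1 _ _) (hx n))
  · exact le_rfl

theorem cp_mass_le {U : Finset ℕ} (G : Fam L U) {w : G.ι → ℝ} (hw : ∀ i, 0 ≤ w i)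
    (hw1 : ∑ i, w i ^ 4 ≤ 1) {x : ℕ → ℝ} (hx : ∀ n, 0 ≤ x n) (C : Finset ℕ) :
    ∑ n ∈ C, G.mass w x n ≤ nm L C x := by
  classical
  rw [cp_mass_sum]
  set N := nm L C x with hN
  have hN0 : 0 ≤ N := nm_nonneg _ hx
  have h4 : ∑ i, nm L (G.A i ∩ C) x ^ 4 ≤ N ^ 4 :=
    nm_four_sum univ (fun i _ j _ hij => (G.disj i j hij).mono inter_subset_left inter_subset_left)
      (fun i _ => inter_subset_right) hx
  have h5 : ∀ i, 0 ≤ nm L (G.A i ∩ C) x := fun i => nm_nonneg _ hx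
  have h1 : ∑ i, w i ^ 3 * pr (G.A i ∩ C) (R (G.T1 i) (G.B i)) x ≤
      ∑ i, w i ^ 3 * nm L (G.A i ∩ C) x :=
    sum_le_sum fun i _ => mul_le_mul_of_nonneg_left (cp_pr_nm (G.valid i).2.1 _ _ hx)
      (pow_nonneg (hw i) 3)
  refine h1.trans ?_
  rcases hN0.eq_or_lt with h0 | hpos
  · have h6 : ∀ i, nm L (G.A i ∩ C) x = 0 := by
      intro i
      exact le_antisymm ((nm_mono_set inter_subset_right hx).trans (by rw [← hN, ← h0])) (h5 i)
    rw [← h0]
    refine le_of_eq (sum_eq_zero fun i _ => ?_)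
    rw [h6 i, mul_zero]
  · have h7 : ∀ i, w i ^ 3 * nm L (G.A i ∩ C) x ≤
        N * (3 / 4 * w i ^ 4 + 1 / 4 * (nm L (G.A i ∩ C) x / N) ^ 4) := by
      intro i
      have h8 := cp_young (hw i) (div_nonneg (h5 i) hN0)
      calc w i ^ 3 * nm L (G.A i ∩ C) x = N * (w i ^ 3 * (nm L (G.A i ∩ C) x / N)) := by
            field_simp
        _ ≤ _ := mul_le_mul_of_nonneg_left h8 hN0
    refine (sum_le_sum fun i _ => h7 i).trans ?_
    rw [← mul_sum, sum_add_distrib, ← mul_sum, ← mul_sum]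
    have h9 : ∑ i, (nm L (G.A i ∩ C) x / N) ^ 4 ≤ 1 := by
      simp_rw [div_pow]
      rw [← sum_div, div_le_one (by positivity)]
      exact h4
    calc N * (3 / 4 * ∑ i, w i ^ 4 + 1 / 4 * ∑ i, (nm L (G.A i ∩ C) x / N) ^ 4)
        ≤ N * (3 / 4 * 1 + 1 / 4 * 1) := by gcongr
      _ = N := by ring

/-! ### the finite part of the argument -/

theorem cp_final {U : Finset ℕ} {x : ℕ → ℝ} (hx : ∀ n, 0 ≤ x n) (hx1 : nm L U x ≤ 1) (k0 r : ℕ)
    (W : Fin r → Fam L U) (w : ∀ j, (W j).ι → ℝ) (hw : ∀ j i, 0 ≤ w j i)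
    (hw1 : ∀ j, ∑ i, w j i ^ 4 ≤ 1) (hlab : ∀ j i, k0 ≤ sig ((W j).T0 i))
    (hcount : ∀ j k, (univ.filter fun i => sig ((W j).T0 i) = k).card ≤ k)
    (hdisj : ∀ j j', j ≠ j' → ∀ i i', sig ((W j).T0 i) ≠ sig ((W j').T0 i')) {ε : ℝ} (hε : 0 < ε)
    (hmass : ∀ j, ε / 2 ≤ ∑ n ∈ U, (W j).mass (w j) x n)
    (hr : (r : ℝ) * (64 * (1 / 2) ^ k0) ≤ ε / 4) : (r : ℝ) * (ε / 4) ^ 4 ≤ 1 := by
  classical
  set M : Fin r → ℕ → ℝ := fun j n => (W j).mass (w j) x n with hM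
  have hM0 : ∀ j n, 0 ≤ M j n := fun j n => cp_mass_nonneg (W j) (hw j) hx n
  let C : Fin r → Finset ℕ := fun j =>
    U.filter (fun n => ∀ i, i ≠ j → M i n < M j n ∨ (M i n = M j n ∧ j < i))
  have hCd : ∀ i j, i ≠ j → Disjoint (C i) (C j) := by
    intro i j hij
    rw [Finset.disjoint_left]
    intro n hni hnj
    have h1 := (mem_filter.1 hni).2 j hij.symm
    have h2 := (mem_filter.1 hnj).2 i hij
    rcases h1 with h1 | ⟨h1, h1'⟩ <;> rcases h2 with h2 | ⟨h2, h2'⟩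
    · linarith
    · linarith
    · linarith
    · exact lt_asymm h1' h2'
  have hCU : ∀ j, C j ⊆ U := fun j => filter_subset _ _
  have hlow : ∀ j, ε / 4 ≤ nm L (C j) x := by
    intro j
    refine le_trans ?_ (cp_mass_le (W j) (hw j) (hw1 j) hx (C j))
    have h1 : ∑ n ∈ U, M j n = ∑ n ∈ C j, M j n + ∑ n ∈ U \ C j, M j n := by
      rw [add_comm, sum_sdiff (hCU j)]
    have h2 : ∑ n ∈ U \ C j, M j n ≤ ∑ i : Fin r, 64 * (1 / 2 : ℝ) ^ k0 := by
      calc ∑ n ∈ U \ C j, M j n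
          ≤ ∑ n ∈ U \ C j, ∑ i ∈ univ.filter (fun i => i ≠ j), min (M j n) (M i n) := by
            refine sum_le_sum fun n hn => ?_
            have hn' := mem_sdiff.1 hn
            have h3 : ∃ i, i ≠ j ∧ M j n ≤ M i n := by
              by_contra hcon
              push Not at hcon
              exact hn'.2 (mem_filter.2 ⟨hn'.1, fun i hi => Or.inl (hcon i hi)⟩)
            obtain ⟨i, hi, hle⟩ := h3
            calc M j n = min (M j n) (M i n) := (min_eq_left hle).symm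
              _ ≤ _ := single_le_sum (f := fun i => min (M j n) (M i n))
                  (fun i _ => le_min (hM0 j n) (hM0 i n)) (mem_filter.2 ⟨mem_univ _, hi⟩)
        _ ≤ ∑ n ∈ U, ∑ i ∈ univ.filter (fun i => i ≠ j), min (M j n) (M i n) :=
            sum_le_sum_of_subset_of_nonneg sdiff_subset fun n _ _ =>
              sum_nonneg fun i _ => le_min (hM0 j n) (hM0 i n)
        _ = ∑ i ∈ univ.filter (fun i => i ≠ j), ∑ n ∈ U, min (M j n) (M i n) := sum_comm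
        _ ≤ ∑ i ∈ univ.filter (fun i => i ≠ j), 64 * (1 / 2 : ℝ) ^ k0 := by
            refine sum_le_sum fun i hi => ?_
            have hij := (mem_filter.1 hi).2
            exact overlap hx hx1 k0 (W j) (W i) (w j) (w i) (hw j) (hw1 j) (hw i) (hw1 i) (hlab j)
              (hlab i) (hcount j) (hcount i) (hdisj j i hij.symm)
        _ ≤ ∑ i, 64 * (1 / 2 : ℝ) ^ k0 :=
            sum_le_sum_of_subset_of_nonneg (filter_subset _ _) fun i _ _ => by positivity
    rw [sum_const, card_univ, Fintype.card_fin, nsmul_eq_mul] at h2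
    have h3 := hmass j
    have h4 : ∑ n ∈ U, (W j).mass (w j) x n = ∑ n ∈ U, M j n := rfl
    show ε / 4 ≤ ∑ n ∈ C j, M j n
    linarith
  have h4 : ∑ j, nm L (C j) x ^ 4 ≤ nm L U x ^ 4 :=
    nm_four_sum univ (fun i _ j _ hij => hCd i j hij) (fun i _ => hCU i) hx
  calc (r : ℝ) * (ε / 4) ^ 4 = ∑ j : Fin r, (ε / 4) ^ 4 := by
        rw [sum_const, card_univ, Fintype.card_fin, nsmul_eq_mul]
    _ ≤ ∑ j, nm L (C j) x ^ 4 :=
        sum_le_sum fun j _ => pow_le_pow_left₀ (by positivity) (hlow j) 4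
    _ ≤ nm L U x ^ 4 := h4
    _ ≤ 1 := pow_le_one₀ (nm_nonneg _ hx) hx1

/-- blocks move to infinity -/
theorem cp_far (F : ℕ → Finset ℕ) (hlt : ∀ i j, i < j → Lt (F i) (F j)) (k0 : ℕ) :
    {m | ∃ a ∈ F m, a < k0}.Finite := by
  classical
  have hinj : ∀ m m' a, a ∈ F m → a ∈ F m' → m = m' := by
    intro m m' a h1 h2
    by_contra hne
    rcases lt_or_gt_of_ne hne with h | h
    · exact lt_irrefl _ (hlt m m' h a h1 a h2)
    · exact lt_irrefl _ (hlt m' m h a h2 a h1)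
  have hsub : {m | ∃ a ∈ F m, a < k0} ⊆ ⋃ a ∈ (Set.Iio k0), {m | a ∈ F m} := by
    rintro m ⟨a, ha, hak⟩
    simp only [Set.mem_iUnion]
    exact ⟨a, hak, ha⟩
  refine Set.Finite.subset ?_ hsub
  refine Set.Finite.biUnion (Set.finite_Iio k0) fun a _ => ?_
  refine Set.Subsingleton.finite ?_
  intro m hm m' hm'
  exact hinj m m' a hm hm'

theorem cp_mm_sum {U F0 : Finset ℕ} (G : Fam L U) {x x' : ℕ → ℝ} (hx : ∀ n, 0 ≤ x n)
    (hx' : ∀ n, 0 ≤ x' n) (hF : ∀ n, n ∉ F0 → x' n = 0) (h1 : nm L F0 x' ≤ 1) :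
    ∑ i, G.mm x x' i ^ 4 ≤ 1 := by
  classical
  calc ∑ i, G.mm x x' i ^ 4 ≤ ∑ i, nm L (G.A i ∩ F0) x' ^ 4 := by
        refine sum_le_sum fun i _ => pow_le_pow_left₀ (cp_mm_nonneg G hx hx' i) ?_ 4
        refine (min_le_right _ _).trans ((cp_pr_nm (G.valid i).2.1 _ _ hx').trans ?_)
        rw [nm_inter hF]
    _ ≤ nm L F0 x' ^ 4 :=
        nm_four_sum univ (fun i _ j _ hij => (G.disj i j hij).mono inter_subset_left
          inter_subset_left) (fun i _ => inter_subset_right) hx'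
    _ ≤ 1 := pow_le_one₀ (nm_nonneg _ hx') h1

noncomputable def cpEmpty (L : LS dm) (S : Finset ℕ) : Fam L S where
  ι := Empty
  fι := inferInstance
  T0 := fun i => i.elim
  T1 := fun i => i.elim
  B := fun i => i.elim
  A := fun i => i.elim
  valid := fun i => i.elim
  good := fun i => i.elim
  disj := fun i => i.elim
  sub := fun i => i.elim

theorem claimP (x : ℕ → ℕ → ℝ) (F : ℕ → Finset ℕ) (hx : ∀ j n, 0 ≤ x j n)
    (hF : ∀ j n, n ∉ F j → x j n = 0) (hlt : ∀ i j, i < j → Lt (F i) (F j))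
    (hnm : ∀ j, nm L (F j) (x j) ≤ 1) (ε : ℝ) (hε : 0 < ε) :
    ∀ᶠ m in (Filter.hyperfilter ℕ : Filter ℕ), ∀ᶠ n in (Filter.hyperfilter ℕ : Filter ℕ),
      ∀ U, e4 L U (x m) (x n) ≤ ε := by
  classical
  by_contra hcon
  have h0 : ∀ᶠ m in (Filter.hyperfilter ℕ : Filter ℕ), ∀ᶠ n in (Filter.hyperfilter ℕ : Filter ℕ),
      ∃ S, ε < e4 L S (x m) (x n) := by
    rw [← Ultrafilter.eventually_not] at hcon
    filter_upwards [hcon] with m hm
    rw [← Ultrafilter.eventually_not] at hm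
    filter_upwards [hm] with n hn
    push Not at hn
    exact hn
  have hV : ∀ m n, ∃ p : (Σ S, Fam L S), (∃ S, ε < e4 L S (x m) (x n)) →
      (∀ i, 0 < p.2.mm (x m) (x n) i) ∧ ε < ∑ i, p.2.mm (x m) (x n) i ^ 4 := by
    intro m n
    by_cases h : ∃ S, ε < e4 L S (x m) (x n)
    · obtain ⟨S, hS⟩ := h
      obtain ⟨G, hG⟩ := cp_exists (hx m) (hx n) hS
      exact ⟨⟨S, G⟩, fun _ => hG⟩
    · exact ⟨⟨∅, cpEmpty L ∅⟩, fun hh => absurd hh h⟩
  choose V hV using hV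
  obtain ⟨r, hr⟩ := exists_nat_gt (1 / (ε / 4) ^ 4)
  obtain ⟨k0, hk0⟩ := exists_pow_lt_of_lt_one (show 0 < ε / 4 / (64 * ((r : ℝ) + 1)) by positivity)
    (by norm_num : (1 / 2 : ℝ) < 1)
  let ρ : ℕ → ℝ := fun m => ε / (2 * ((r : ℝ) + 1) * ((F m).card + 1))
  have hρ : ∀ m, 0 < ρ m := fun m => by show 0 < ε / _; positivity
  let Conf : ℕ → ℕ → ℕ → Prop := fun m n m' =>
    ∃ i : (V m n).2.ι, cpBad x F ((V m n).2.T0 i) (ρ m) m'
  have hconf : ∀ m n, (∃ S, ε < e4 L S (x m) (x n)) → ∀ J : Finset ℕ, (∀ m' ∈ J, Conf m n m') →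
      ρ m ^ 2 * J.card ≤ 8 * (F m).card := by
    intro m n hg J hJ
    have hact := (hV m n hg).1
    have hcard := cp_card (V m n).2 (hF m) hact
    have h1 : J ⊆ univ.biUnion fun i : (V m n).2.ι =>
        J.filter (fun m' => cpBad x F ((V m n).2.T0 i) (ρ m) m') := by
      intro m' hm'
      obtain ⟨i, hi⟩ := hJ m' hm'
      exact mem_biUnion.2 ⟨i, mem_univ _, mem_filter.2 ⟨hm', hi⟩⟩
    have h2 : (J.card : ℝ) ≤ ∑ i : (V m n).2.ι,
        ((J.filter (fun m' => cpBad x F ((V m n).2.T0 i) (ρ m) m')).card : ℝ) := by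
      exact_mod_cast (card_le_card h1).trans card_biUnion_le
    calc ρ m ^ 2 * J.card ≤ ρ m ^ 2 * ∑ i : (V m n).2.ι,
        ((J.filter (fun m' => cpBad x F ((V m n).2.T0 i) (ρ m) m')).card : ℝ) :=
          mul_le_mul_of_nonneg_left h2 (by positivity)
      _ = ∑ i : (V m n).2.ι, ρ m ^ 2 *
        ((J.filter (fun m' => cpBad x F ((V m n).2.T0 i) (ρ m) m')).card : ℝ) := mul_sum _ _ _
      _ ≤ ∑ i : (V m n).2.ι, 8 := by
          refine sum_le_sum fun i _ => ?_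
          exact cpBad_card x F hx hlt hnm ((V m n).2.valid i).1 (hρ m).le _
            (fun j hj => (mem_filter.1 hj).2)
      _ = 8 * Fintype.card (V m n).2.ι := by
          rw [sum_const, card_univ, nsmul_eq_mul, mul_comm]
      _ ≤ 8 * (F m).card := by
          have : (Fintype.card (V m n).2.ι : ℝ) ≤ (F m).card := by exact_mod_cast hcard
          linarith
  have hfin : ∀ m, (∀ᶠ n in (Filter.hyperfilter ℕ : Filter ℕ), ∃ S, ε < e4 L S (x m) (x n)) →
      ∀ᶠ m' in (Filter.hyperfilter ℕ : Filter ℕ), ∀ᶠ n in (Filter.hyperfilter ℕ : Filter ℕ),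
        ¬ Conf m n m' := by
    intro m hg
    have hK : {m' | ∀ᶠ n in (Filter.hyperfilter ℕ : Filter ℕ), Conf m n m'}.Finite := by
      by_contra hinf
      obtain ⟨N, hN⟩ := exists_nat_gt (8 * ((F m).card : ℝ) / ρ m ^ 2)
      obtain ⟨J, hJ, hJc⟩ := Set.Infinite.exists_subset_card_eq hinf N
      have h1 : ∀ᶠ n in (Filter.hyperfilter ℕ : Filter ℕ), ∀ m' ∈ J, Conf m n m' :=
        (Filter.eventually_all_finset J).2 fun m' hm' => hJ hm'
      obtain ⟨n, hn1, hn2⟩ := (h1.and hg).exists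
      have h2 := hconf m n hn2 J hn1
      rw [hJc] at h2
      rw [div_lt_iff₀ (by have := hρ m; positivity)] at hN
      linarith
    have h1 : ∀ᶠ m' in (Filter.hyperfilter ℕ : Filter ℕ),
        m' ∉ {m' | ∀ᶠ n in (Filter.hyperfilter ℕ : Filter ℕ), Conf m n m'} :=
      Filter.hyperfilter_le_cofinite hK.compl_mem_cofinite
    filter_upwards [h1] with m' hm'
    exact Ultrafilter.eventually_not.2 hm'
  have hfar : ∀ᶠ m in (Filter.hyperfilter ℕ : Filter ℕ), ∀ a ∈ F m, k0 ≤ a := by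
    have h1 := Filter.hyperfilter_le_cofinite (cp_far F hlt k0).compl_mem_cofinite
    filter_upwards [h1] with m hm a ha
    by_contra hlt'
    exact hm ⟨a, ha, not_le.1 hlt'⟩
  obtain ⟨s, hsP, hsr⟩ := exists_seq_of_forall_finset_exists
    (fun m => (∀ᶠ n in (Filter.hyperfilter ℕ : Filter ℕ), ∃ S, ε < e4 L S (x m) (x n)) ∧
      ∀ a ∈ F m, k0 ≤ a)
    (fun m m' => ∀ᶠ n in (Filter.hyperfilter ℕ : Filter ℕ), ¬ Conf m n m') (by
      intro S hS
      have h1 : ∀ᶠ y in (Filter.hyperfilter ℕ : Filter ℕ), ∀ m ∈ S,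
          ∀ᶠ n in (Filter.hyperfilter ℕ : Filter ℕ), ¬ Conf m n y :=
        (Filter.eventually_all_finset S).2 fun m hm => hfin m (hS m hm).1
      exact ((h0.and hfar).and h1).exists)
  obtain ⟨n, hn1, hn2⟩ : ∃ n, (∀ i ∈ range r, ∃ S, ε < e4 L S (x (s i)) (x n)) ∧
      ∀ j ∈ range r, ∀ i ∈ range r, i < j → ¬ Conf (s i) n (s j) := by
    have h1 : ∀ᶠ n in (Filter.hyperfilter ℕ : Filter ℕ), ∀ i ∈ range r,
        ∃ S, ε < e4 L S (x (s i)) (x n) :=
      (Filter.eventually_all_finset _).2 fun i _ => (hsP i).1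
    have h2 : ∀ᶠ n in (Filter.hyperfilter ℕ : Filter ℕ), ∀ j ∈ range r, ∀ i ∈ range r, i < j →
        ¬ Conf (s i) n (s j) := by
      refine (Filter.eventually_all_finset _).2 fun j _ =>
        (Filter.eventually_all_finset _).2 fun i _ => ?_
      by_cases hij : i < j
      · filter_upwards [hsr i j hij] with n hn _ using hn
      · exact Filter.Eventually.of_forall fun n hh => absurd hh hij
    exact (h1.and h2).exists
  let G : ∀ j : Fin r, Fam L (V (s j) n).1 := fun j => (V (s j) n).2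
  have hG : ∀ j : Fin r, (∀ i, 0 < (G j).mm (x (s j)) (x n) i) ∧
      ε < ∑ i, (G j).mm (x (s j)) (x n) i ^ 4 := fun j =>
    hV (s j) n (hn1 j (mem_range.2 j.2))
  let p : ∀ j : Fin r, (G j).ι → Prop := fun j ν =>
    ∀ i : Fin r, i < j → ∀ ν' : (G i).ι, (G i).T0 ν' ≠ (G j).T0 ν
  let W : Fin r → Fam L (F n) := fun j => (G j).cpsub (p j) (F n)
  let w : ∀ j, (W j).ι → ℝ := fun j ν => (G j).mm (x (s j)) (x n) ν.1
  have hw4 : ∀ j, ∑ i, w j i ^ 4 = ∑ i ∈ univ.filter (p j), (G j).mm (x (s j)) (x n) i ^ 4 := by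
    intro j
    exact cp_sum_sub (p j) (W j).fι (fun i => (G j).mm (x (s j)) (x n) i ^ 4)
  have hdel : ∀ j, ε / 2 ≤ ∑ i ∈ univ.filter (p j), (G j).mm (x (s j)) (x n) i ^ 4 := by
    intro j
    have h1 : ∑ i, (G j).mm (x (s j)) (x n) i ^ 4 =
        ∑ i ∈ univ.filter (p j), (G j).mm (x (s j)) (x n) i ^ 4 +
        ∑ i ∈ univ.filter (fun i => ¬ p j i), (G j).mm (x (s j)) (x n) i ^ 4 :=
      (sum_filter_add_sum_filter_not _ _ _).symm
    have h2 : ∑ ν ∈ univ.filter (fun i => ¬ p j i), (G j).mm (x (s j)) (x n) ν ^ 4 ≤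
        ∑ ν ∈ univ.filter (fun i => ¬ p j i), ∑ i ∈ univ.filter (fun i => i < j), ∑ ν' : (G i).ι,
          if (G j).T0 ν = (G i).T0 ν' then (G j).mm (x (s j)) (x n) ν ^ 4 else 0 := by
      refine sum_le_sum fun ν hν => ?_
      have h3 := (mem_filter.1 hν).2
      have h4 : ∃ i : Fin r, i < j ∧ ∃ ν' : (G i).ι, (G i).T0 ν' = (G j).T0 ν := by
        by_contra hcon'
        push Not at hcon'
        exact h3 hcon'
      obtain ⟨i, hij, ν', hν'⟩ := h4
      have h5 : ∀ i : Fin r, ∀ ν' : (G i).ι,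
          0 ≤ if (G j).T0 ν = (G i).T0 ν' then (G j).mm (x (s j)) (x n) ν ^ 4 else 0 := by
        intro i ν'
        split_ifs
        · have := (hG j).1 ν
          positivity
        · exact le_rfl
      calc (G j).mm (x (s j)) (x n) ν ^ 4 =
          if (G j).T0 ν = (G i).T0 ν' then (G j).mm (x (s j)) (x n) ν ^ 4 else 0 := by
            rw [if_pos hν'.symm]
        _ ≤ ∑ ν' : (G i).ι,
            if (G j).T0 ν = (G i).T0 ν' then (G j).mm (x (s j)) (x n) ν ^ 4 else 0 :=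
            single_le_sum (f := fun ν' => if (G j).T0 ν = (G i).T0 ν' then
              (G j).mm (x (s j)) (x n) ν ^ 4 else 0) (fun ν' _ => h5 i ν') (mem_univ ν')
        _ ≤ _ := single_le_sum (f := fun i => ∑ ν' : (G i).ι, if (G j).T0 ν = (G i).T0 ν' then
              (G j).mm (x (s j)) (x n) ν ^ 4 else 0)
              (fun i _ => sum_nonneg fun ν' _ => h5 i ν') (mem_filter.2 ⟨mem_univ i, hij⟩)
    have h3 : ∑ ν ∈ univ.filter (fun i => ¬ p j i), ∑ i ∈ univ.filter (fun i => i < j),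
        ∑ ν' : (G i).ι,
          (if (G j).T0 ν = (G i).T0 ν' then (G j).mm (x (s j)) (x n) ν ^ 4 else 0) =
        ∑ i ∈ univ.filter (fun i => i < j), ∑ ν' : (G i).ι,
          ∑ ν ∈ (univ.filter (fun i => ¬ p j i)).filter (fun ν => (G j).T0 ν = (G i).T0 ν'),
          (G j).mm (x (s j)) (x n) ν ^ 4 := by
      rw [sum_comm]
      refine sum_congr rfl fun i _ => ?_
      rw [sum_comm]
      refine sum_congr rfl fun ν' _ => ?_
      exact (sum_filter _ _).symm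
    have h4 : ∑ i ∈ univ.filter (fun i => i < j), ∑ ν' : (G i).ι,
          ∑ ν ∈ (univ.filter (fun i => ¬ p j i)).filter (fun ν => (G j).T0 ν = (G i).T0 ν'),
          (G j).mm (x (s j)) (x n) ν ^ 4 ≤ ∑ i : Fin r, ε / (2 * ((r : ℝ) + 1)) := by
      refine le_trans (sum_le_sum fun i hi => ?_)
        (sum_le_sum_of_subset_of_nonneg (filter_subset (fun i => i < j) univ)
          fun i _ _ => by positivity)
      have hij : i < j := (mem_filter.1 hi).2
      have hnc := hn2 j (mem_range.2 j.2) i (mem_range.2 i.2) hij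
      calc ∑ ν' : (G i).ι,
          ∑ ν ∈ (univ.filter (fun i => ¬ p j i)).filter (fun ν => (G j).T0 ν = (G i).T0 ν'),
          (G j).mm (x (s j)) (x n) ν ^ 4 ≤ ∑ ν' : (G i).ι, ρ (s i) := by
            refine sum_le_sum fun ν' _ => ?_
            exact cp_loss x F hx hF (G j) (s j) (hx n) _ ((G i).T0 ν')
              (fun ν hν => (mem_filter.1 hν).2) (ρ (s i)) (fun hb => hnc ⟨ν', hb⟩)
        _ = Fintype.card (G i).ι * ρ (s i) := by
            rw [sum_const, card_univ, nsmul_eq_mul]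
        _ ≤ ((F (s i)).card + 1) * ρ (s i) := by
            have h5 := cp_card (G i) (hF (s i)) (hG i).1
            have h6 : (Fintype.card (G i).ι : ℝ) ≤ (F (s i)).card := by exact_mod_cast h5
            exact mul_le_mul_of_nonneg_right (by linarith) (hρ _).le
        _ = ε / (2 * ((r : ℝ) + 1)) := by
            show ((F (s i)).card + 1) * (ε / (2 * ((r : ℝ) + 1) * ((F (s i)).card + 1))) = _
            field_simp
    have h5 : ∑ i : Fin r, ε / (2 * ((r : ℝ) + 1)) ≤ ε / 2 := by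
      rw [sum_const, card_univ, Fintype.card_fin, nsmul_eq_mul, ← mul_div_assoc, div_le_div_iff₀
        (by positivity) (by norm_num)]
      nlinarith
    have h6 := (hG j).2
    linarith
  have hfinal := cp_final (U := F n) (hx n) (hnm n) k0 r W w
    (fun j i => ((hG j).1 i.1).le) (fun j => by
      rw [hw4]
      refine le_trans (sum_le_sum_of_subset_of_nonneg (filter_subset _ _) fun i _ _ => ?_)
        (cp_mm_sum (G j) (hx (s j)) (hx n) (hF n) (hnm n))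
      have := (hG j).1 i
      positivity)
    (fun j i => by
      obtain ⟨a, ha1, ha2, ha3⟩ := cp_witness (G j) (hF (s j)) i.1 ((hG j).1 i.1)
      exact ((hsP j).2 a ha3).trans (sig_gt_sp ha2).le)
    (fun j k => by
      refine le_trans ?_ (cp_count (G j) (hF (s j)) (hG j).1 k)
      refine Finset.card_le_card_of_injOn (fun ν => ν.1) (fun ν hν => ?_)
        (Subtype.val_injective.injOn)
      exact mem_coe.2 (mem_filter.2 ⟨mem_univ _, (mem_filter.1 hν).2⟩))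
    (fun j j' hjj i i' heq => by
      have hT := sig_injective heq
      rcases lt_or_gt_of_ne hjj with hlt' | hlt'
      · exact i'.2 j hlt' i.1 hT
      · exact i.2 j' hlt' i'.1 hT.symm)
    hε (fun j => by
      refine (hdel j).trans ?_
      rw [← hw4, cp_mass_sum]
      refine sum_le_sum fun i _ => ?_
      have h1 : pr ((W j).A i ∩ F n) (R ((W j).T1 i) ((W j).B i)) (x n) =
          pr ((G j).A i.1) (R ((G j).T1 i.1) ((G j).B i.1)) (x n) := by
        unfold pr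
        apply sum_subset
        · exact inter_subset_left.trans inter_subset_left
        · intro l hl hl'
          have : l ∉ F n := fun hh => hl' (mem_inter.2 ⟨mem_inter.2 ⟨hl, hh⟩, hh⟩)
          rw [hF n l this, mul_zero]
      rw [h1]
      have h2 : w j i ≤ pr ((G j).A i.1) (R ((G j).T1 i.1) ((G j).B i.1)) (x n) := min_le_right _ _
      have h3 : 0 ≤ w j i := ((hG j).1 i.1).le
      calc w j i ^ 4 = w j i ^ 3 * w j i := by ring
        _ ≤ _ := mul_le_mul_of_nonneg_left h2 (by positivity))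
    (by
      have h1 : (1 / 2 : ℝ) ^ k0 * (64 * ((r : ℝ) + 1)) < ε / 4 := by
        rwa [lt_div_iff₀ (by positivity)] at hk0
      have h2 : (0 : ℝ) < (1 / 2) ^ k0 := by positivity
      nlinarith)
  have h7 : 0 < (ε / 4) ^ 4 := by positivity
  rw [div_lt_iff₀ h7] at hr
  linarith

end Pool.Agent.H51.SM
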