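import Mathlib

/-!
# Definitions for the construction behind S03934 (MP_1785cf_an)

See the `proofs` table entry (problem MP_1785cf_an) for the paper proof.
-/

set_option autoImplicit false

namespace Pool.Agent.H51.SM

open Finset

/-! ## Constants -/

/-- exponents `t_k = 2^{-k-2}` -/
noncomputable def tk (k : ℕ) : ℝ := (1 / 2) ^ (k + 2)

/-- threshold `η_k` -/
noncomputable def eta (k : ℕ) : ℝ := (1 / 256) * (64 / 81) ^ (2 ^ (k + 2))

/-- truncation level `K_k` -/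
noncomputable def KK (k : ℕ) : ℝ := 2 ^ (14 * k) / eta k ^ 2

/-- tolerance `tol_k` -/
noncomputable def tol (k : ℕ) : ℝ := (1 / 4) ^ k / KK k

/-- the demand sequence -/
noncomputable def dm (k : ℕ) : ℝ := 3 * KK k * 16 ^ k + 2 ^ (20 * k) / eta k

/-- Two finite sets are successive. -/
def Lt (A B : Finset ℕ) : Prop := ∀ a ∈ A, ∀ b ∈ B, a < b

/-! ## Label systems -/

/-- A label system with demand sequence `D`. `v k F h` is a functional of the restriction to the finite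
set `F` of the (on `F`) nonnegative function `h`. -/
structure LS (D : ℕ → ℝ) where
  /-- number of pieces minus one -/
  N : ℕ → ℕ
  ep : ℕ → ℝ
  v : ℕ → Finset ℕ → (ℕ → ℝ) → ℝ
  ep_pos : ∀ k, 0 < ep k
  v_nonneg : ∀ k F h, (∀ n ∈ F, 0 ≤ h n) → 0 ≤ v k F h
  v_le : ∀ k F h, (∀ n ∈ F, 0 ≤ h n) → v k F h ≤ ∑ n ∈ F, h n
  v_congr : ∀ k F g h, (∀ n ∈ F, g n = h n) → v k F g = v k F h
  v_smul : ∀ k F h (c : ℝ), 0 ≤ c → (∀ n ∈ F, 0 ≤ h n) → v k F (fun n => c * h n) = c * v k F h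
  v_add : ∀ k F g h, (∀ n ∈ F, 0 ≤ g n) → (∀ n ∈ F, 0 ≤ h n) →
    |v k F (fun n => g n + h n) - v k F g - v k F h| ≤ ep k * (∑ n ∈ F, g n + ∑ n ∈ F, h n)
  v_sub : ∀ k F F' h, F' ⊆ F → (∀ n ∈ F, 0 ≤ h n) → (∀ n ∈ F, n ∉ F' → h n = 0) → v k F h = v k F' h
  N_ge : ∀ k, D k ≤ N k
  ep_le : ∀ j, D j * ep j ≤ 1
  N_ep_le : ∀ k j, k < j → ((N k : ℝ) + 1) * (D j * ep j) ≤ 1
  avail : ∀ (k : ℕ) (τ : ℝ), 0 < τ → ∀ (g : ℕ → ℕ → ℝ) (F : ℕ → Finset ℕ),
    (∀ t, ∀ n ∈ F t, 0 < g t n) → (∀ t n, n ∉ F t → g t n = 0) →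
    (∀ t, ∑ n ∈ F t, g t n = 1) → (∀ s t, s < t → Lt (F s) (F t)) →
    ∀ t0 : ℕ, ∃ (l r ii : ℕ → ℕ), t0 ≤ l 0 ∧ (∀ i, l i < r i) ∧ (∀ i, r i ≤ l (i + 1)) ∧
      1 - ep k ≤ v k ((range (N k + 1)).biUnion fun i => (Ico (l i) (r i)).biUnion F)
        (fun n => ((N k : ℝ) + 1)⁻¹ * ∑ i ∈ range (N k + 1),
          ((r i : ℝ) - l i)⁻¹ * ∑ t ∈ Ico (l i) (r i), g t n) ∧
      ∀ j, k < j → ∀ i ≤ N k, i ≠ ii j →
        v j ((Ico (l i) (r i)).biUnion F)
          (fun n => ((r i : ℝ) - l i)⁻¹ * ∑ t ∈ Ico (l i) (r i), g t n) ≤ τ * (1 / 4) ^ j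

/-! ## The concave functions -/

noncomputable def Phi (S : Finset ℕ) (x : ℝ) : ℝ := x * ∏ k ∈ S, min (81 / 64) (x ^ (-(tk k)))

noncomputable def Psi (S : Finset ℕ) (x : ℝ) : ℝ := Real.sqrt (Real.sqrt (Phi S x))

/-! ## Trees -/

/-- Codes of the norming functionals. -/
inductive Tr
  | leaf (n : ℕ)
  | gen (q : ℚ) (s t : Tr)
  | cop (q : ℚ) (s t : Tr)
  | spec (s t : Tr)
  | rest (B : Finset ℕ) (t : Tr)

deriving instance Countable for Tr

/-- an injective coding -/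
noncomputable def enc : Tr → ℕ := Classical.choose (exists_injective_nat Tr)

theorem enc_injective : Function.Injective enc := Classical.choose_spec (exists_injective_nat Tr)

/-- support -/
def sp : Tr → Finset ℕ
  | Tr.leaf n => {n}
  | Tr.gen _ s t => sp s ∪ sp t
  | Tr.cop _ s t => sp s ∪ sp t
  | Tr.spec s t => sp s ∪ sp t
  | Tr.rest B _ => B

/-- keep the labels that exceed some element of `B` -/
def SB (S B : Finset ℕ) : Finset ℕ := S.filter (fun l => ∃ b ∈ B, b < l)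

/-- set of labels -/
noncomputable def lab : Tr → Finset ℕ
  | Tr.leaf _ => ∅
  | Tr.gen _ s t => lab s ∪ lab t
  | Tr.cop _ s t => lab s ∪ lab t
  | Tr.spec s t => insert (Nat.pair (enc s) ((sp s).sup id ⊔ (lab s).sup id) + 1) (lab s ∪ lab t)
  | Tr.rest B t => SB (lab t) B

/-- the label associated with a tree -/
noncomputable def sig (s : Tr) : ℕ := Nat.pair (enc s) ((sp s).sup id ⊔ (lab s).sup id) + 1

/-- the shadow (a probability with support `sp T`) -/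
noncomputable def h : Tr → ℕ → ℝ
  | Tr.leaf n => fun m => if m = n then 1 else 0
  | Tr.gen q s t => fun m => q * h s m + (1 - q) * h t m
  | Tr.cop q s t => fun m => q * h s m + (1 - q) * h t m
  | Tr.spec s t => fun m => (h s m + h t m) / 2
  | Tr.rest B t => fun m => if m ∈ B then h t m / ∑ n ∈ B, h t n else 0

/-- the functional -/
noncomputable def f : Tr → ℕ → ℝ
  | Tr.leaf n => fun m => if m = n then 1 else 0
  | Tr.gen q s t => fun m => Real.sqrt q * f s m + Real.sqrt (1 - q) * f t m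
  | Tr.cop q s t => fun m => Real.sqrt q * Real.sqrt (Real.sqrt q) * f s m +
      Real.sqrt (1 - q) * Real.sqrt (Real.sqrt (1 - q)) * f t m
  | Tr.spec s t => fun m => 3 / 4 * (f s m + f t m)
  | Tr.rest B t => fun m => if m ∈ B then f t m / Psi (SB (lab t) B) (∑ n ∈ B, h t n) else 0

/-- nested equal-weight combination of `P 0, …, P m` -/
def comb (P : ℕ → Tr) : ℕ → Tr
  | 0 => P 0
  | (m + 1) => Tr.gen (((m : ℚ) + 1) / ((m : ℚ) + 2)) (comb P m) (P (m + 1))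

/-- `t` may follow a functional with label `k`. -/
def Lab (L : LS dm) (k : ℕ) (t : Tr) : Prop :=
  ∃ P : ℕ → Tr, t = comb P (L.N k) ∧ 1 - L.ep k ≤ L.v k (sp t) (h t) ∧
    ∃ ii : ℕ → ℕ, ∀ j, k < j → ∀ i ≤ L.N k, i ≠ ii j → L.v j (sp (P i)) (h (P i)) ≤ tol k * (1 / 4) ^ j

/-- valid trees -/
def Valid (L : LS dm) : Tr → Prop
  | Tr.leaf _ => True
  | Tr.gen q s t => (0 < q ∧ q < 1) ∧ Valid L s ∧ Valid L t ∧ Lt (sp s) (sp t)
  | Tr.cop q s t => (0 < q ∧ q < 1) ∧ Valid L s ∧ Valid L t ∧ Disjoint (sp s) (sp t)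
  | Tr.spec s t => Valid L s ∧ Valid L t ∧ (∀ b ∈ sp t, sig s < b) ∧ Lab L (sig s) t
  | Tr.rest B t => Valid L t ∧ B ⊆ sp t ∧ B.Nonempty

/-- mass of the shadow on `B` -/
noncomputable def ms (T : Tr) (B : Finset ℕ) : ℝ := ∑ n ∈ B, h T n

/-- the normalising factor of the restriction to `B` -/
noncomputable def Th (T : Tr) (B : Finset ℕ) : ℝ := Psi (SB (lab T) (B ∩ sp T)) (ms T B)

/-- the normalised restriction of the functional of `T` to `B` -/
noncomputable def R (T : Tr) (B : Finset ℕ) (n : ℕ) : ℝ := if n ∈ B then f T n / Th T B else 0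

/-- pairing on a finite set -/
noncomputable def pr (A : Finset ℕ) (g x : ℕ → ℝ) : ℝ := ∑ n ∈ A, g n * x n

/-- the norm of `x` restricted to `A` (meant for `x ≥ 0`) -/
noncomputable def nm (L : LS dm) (A : Finset ℕ) (x : ℕ → ℝ) : ℝ :=
  ⨆ T : {T : Tr // Valid L T}, pr A (f T.1) x

end Pool.Agent.H51.SM
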