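import Pool.Agent.H51.SM.Norm

/-!
# Interaction families
-/

set_option autoImplicit false

namespace Pool.Agent.H51.SM

open Finset

/-- A finite family of nodes with disjoint sets `A i ⊆ U`. -/
structure Fam (L : LS dm) (U : Finset ℕ) where
  ι : Type
  fι : Fintype ι
  T0 : ι → Tr
  T1 : ι → Tr
  B : ι → Finset ℕ
  A : ι → Finset ℕ
  valid : ∀ i, Valid L (Tr.spec (T0 i) (T1 i))
  good : ∀ i, eta (sig (T0 i)) ≤ ms (T1 i) (B i)
  disj : ∀ i j, i ≠ j → Disjoint (A i) (A j)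
  sub : ∀ i, A i ⊆ U

attribute [instance] Fam.fι

/-- the interaction of one node -/
noncomputable def Fam.mm {L : LS dm} {U : Finset ℕ} (F : Fam L U) (x x' : ℕ → ℝ) (i : F.ι) : ℝ :=
  min (pr (F.A i) (R (F.T0 i) (F.B i)) x) (pr (F.A i) (R (F.T1 i) (F.B i)) x')

/-- the fourth power of the interaction -/
noncomputable def e4 (L : LS dm) (U : Finset ℕ) (x x' : ℕ → ℝ) : ℝ :=
  ⨆ F : Fam L U, ∑ i, F.mm x x' i ^ 4

end Pool.Agent.H51.SM
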