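import Pool.Agent.H51.SM.EDefs

/-!
# Module EST: the estimate (E) (paper proof, section 4)
-/

set_option autoImplicit false

namespace Pool.Agent.H51.SM

open Finset

variable {L : LS dm}

theorem mm_nonneg {U : Finset ℕ} {x x' : ℕ → ℝ} (hx : ∀ n, 0 ≤ x n) (hx' : ∀ n, 0 ≤ x' n) (F : Fam L U)
    (i : F.ι) : 0 ≤ F.mm x x' i :=
  le_min (pr_nonneg (fun n _ => R_nonneg (F.valid i).1 _ n) (fun n _ => hx n))
    (pr_nonneg (fun n _ => R_nonneg (F.valid i).2.1 _ n) (fun n _ => hx' n))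

theorem mm_le {U : Finset ℕ} {x x' : ℕ → ℝ} (hx : ∀ n, 0 ≤ x n) (F : Fam L U)
    (i : F.ι) : F.mm x x' i ≤ nm L (F.A i) x :=
  (min_le_left _ _).trans ((pr_R_le (F.valid i).1 _ _ hx).trans
    (nm_mono_set (subset_trans inter_subset_left inter_subset_left) hx))

theorem mm_le' {U : Finset ℕ} {x x' : ℕ → ℝ} (hx' : ∀ n, 0 ≤ x' n) (F : Fam L U)
    (i : F.ι) : F.mm x x' i ≤ nm L (F.A i) x' :=
  (min_le_right _ _).trans ((pr_R_le (F.valid i).2.1 _ _ hx').trans
    (nm_mono_set (subset_trans inter_subset_left inter_subset_left) hx'))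

theorem sum_mm_le {U : Finset ℕ} {x x' : ℕ → ℝ} (hx : ∀ n, 0 ≤ x n) (hx' : ∀ n, 0 ≤ x' n) (F : Fam L U) :
    ∑ i, F.mm x x' i ^ 4 ≤ nm L U x ^ 4 := by
  refine le_trans ?_ (nm_four_sum univ (A := F.A) (L := L) (U := U)
    (fun i _ j _ hij => F.disj i j hij) (fun i _ => F.sub i) hx)
  exact sum_le_sum fun i _ => pow_le_pow_left₀ (mm_nonneg hx hx' F i) (mm_le hx F i) 4

theorem e4_nonneg (U : Finset ℕ) (x x' : ℕ → ℝ) : 0 ≤ e4 L U x x' :=
  Real.iSup_nonneg fun F => sum_nonneg fun i _ => by positivity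

theorem e4_bdd {U : Finset ℕ} {x x' : ℕ → ℝ} (hx : ∀ n, 0 ≤ x n) (hx' : ∀ n, 0 ≤ x' n) :
    BddAbove (Set.range fun F : Fam L U => ∑ i, F.mm x x' i ^ 4) := by
  refine ⟨nm L U x ^ 4, ?_⟩
  rintro _ ⟨F, rfl⟩
  exact sum_mm_le hx hx' F

theorem le_e4 {U : Finset ℕ} {x x' : ℕ → ℝ} (hx : ∀ n, 0 ≤ x n) (hx' : ∀ n, 0 ≤ x' n) (F : Fam L U) :
    ∑ i, F.mm x x' i ^ 4 ≤ e4 L U x x' := le_ciSup (e4_bdd hx hx') F

/-- the empty family -/
def Fam.empty (L : LS dm) (U : Finset ℕ) : Fam L U where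
  ι := Empty
  fι := inferInstance
  T0 := fun i => i.elim
  T1 := fun i => i.elim
  B := fun i => i.elim
  A := fun i => i.elim
  valid := fun i => i.elim
  good := fun i => i.elim
  disj := fun i => i.elim
  sub := fun i => i.elim

instance (U : Finset ℕ) : Nonempty (Fam L U) := ⟨Fam.empty L U⟩

theorem e4_le {U : Finset ℕ} {x x' : ℕ → ℝ} {c : ℝ} (hc : ∀ F : Fam L U, ∑ i, F.mm x x' i ^ 4 ≤ c) :
    e4 L U x x' ≤ c := ciSup_le hc

/-- change of the ambient set -/
def Fam.mono {U V : Finset ℕ} (F : Fam L U) (h : U ⊆ V) : Fam L V where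
  ι := F.ι
  fι := F.fι
  T0 := F.T0
  T1 := F.T1
  B := F.B
  A := F.A
  valid := F.valid
  good := F.good
  disj := F.disj
  sub := fun i => subset_trans (F.sub i) h

theorem e4_mono {U V : Finset ℕ} (h : U ⊆ V) {x x' : ℕ → ℝ} (hx : ∀ n, 0 ≤ x n) (hx' : ∀ n, 0 ≤ x' n) :
    e4 L U x x' ≤ e4 L V x x' := e4_le fun F => le_e4 hx hx' (F.mono h)

/-- union of two families -/
def Fam.union {U V : Finset ℕ} (F : Fam L U) (G : Fam L V) (h : Disjoint U V) : Fam L (U ∪ V) where
  ι := F.ι ⊕ G.ι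
  fι := inferInstance
  T0 := Sum.elim F.T0 G.T0
  T1 := Sum.elim F.T1 G.T1
  B := Sum.elim F.B G.B
  A := Sum.elim F.A G.A
  valid := fun i => by
    rcases i with i | i
    · exact F.valid i
    · exact G.valid i
  good := fun i => by
    rcases i with i | i
    · exact F.good i
    · exact G.good i
  disj := fun i j hij => by
    rcases i with i | i <;> rcases j with j | j
    · exact F.disj i j (fun h => hij (by rw [h]))
    · exact Disjoint.mono (F.sub i) (G.sub j) h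
    · exact Disjoint.mono (G.sub i) (F.sub j) h.symm
    · exact G.disj i j (fun h => hij (by rw [h]))
  sub := fun i => by
    rcases i with i | i
    · exact subset_trans (F.sub i) subset_union_left
    · exact subset_trans (G.sub i) subset_union_right

theorem union_val {U V : Finset ℕ} (F : Fam L U) (G : Fam L V) (h : Disjoint U V) (x x' : ℕ → ℝ) :
    ∑ i, (F.union G h).mm x x' i ^ 4 = ∑ i, F.mm x x' i ^ 4 + ∑ i, G.mm x x' i ^ 4 := by
  show ∑ i : F.ι ⊕ G.ι, (F.union G h).mm x x' i ^ 4 = _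
  rw [Fintype.sum_sum_type]
  rfl

theorem e4_add {U V : Finset ℕ} (h : Disjoint U V) {x x' : ℕ → ℝ} (hx : ∀ n, 0 ≤ x n) (hx' : ∀ n, 0 ≤ x' n) :
    e4 L U x x' + e4 L V x x' ≤ e4 L (U ∪ V) x x' := by
  have h1 : ∀ G : Fam L V, ∑ i, G.mm x x' i ^ 4 ≤ e4 L (U ∪ V) x x' - e4 L U x x' := by
    intro G
    have : e4 L U x x' ≤ e4 L (U ∪ V) x x' - ∑ i, G.mm x x' i ^ 4 := e4_le fun F => by
      have := le_e4 hx hx' (F.union G h)
      rw [union_val] at this
      linarith
    linarith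
  linarith [e4_le h1]

theorem e4_zero_left {U : Finset ℕ} {x x' : ℕ → ℝ} (hx : ∀ n ∈ U, x n = 0) (hx0 : ∀ n, 0 ≤ x n)
    (hx' : ∀ n, 0 ≤ x' n) : e4 L U x x' = 0 := by
  apply le_antisymm _ (e4_nonneg _ _ _)
  apply e4_le
  intro F
  apply le_of_eq
  apply sum_eq_zero
  intro i _
  have h1 : pr (F.A i) (R (F.T0 i) (F.B i)) x = 0 :=
    sum_eq_zero fun n hn => by rw [hx n (F.sub i hn), mul_zero]
  have h2 : F.mm x x' i = 0 := le_antisymm ((min_le_left _ _).trans h1.le) (mm_nonneg hx0 hx' F i)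
  rw [h2]; norm_num

theorem e4_zero_right {U : Finset ℕ} {x x' : ℕ → ℝ} (hx : ∀ n, 0 ≤ x n) (hx0 : ∀ n ∈ U, x' n = 0)
    (hx' : ∀ n, 0 ≤ x' n) : e4 L U x x' = 0 := by
  apply le_antisymm _ (e4_nonneg _ _ _)
  apply e4_le
  intro F
  apply le_of_eq
  apply sum_eq_zero
  intro i _
  have h1 : pr (F.A i) (R (F.T1 i) (F.B i)) x' = 0 :=
    sum_eq_zero fun n hn => by rw [hx0 n (F.sub i hn), mul_zero]
  have h2 : F.mm x x' i = 0 := le_antisymm ((min_le_right _ _).trans h1.le) (mm_nonneg hx hx' F i)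
  rw [h2]; norm_num

/-- one node -/
def Fam.single (L : LS dm) (U B : Finset ℕ) (s t : Tr) (hv : Valid L (Tr.spec s t)) (hg : eta (sig s) ≤ ms t B) :
    Fam L U where
  ι := Unit
  fι := inferInstance
  T0 := fun _ => s
  T1 := fun _ => t
  B := fun _ => B
  A := fun _ => U
  valid := fun _ => hv
  good := fun _ => hg
  disj := fun i j hij => absurd (Subsingleton.elim i j) hij
  sub := fun _ => subset_rfl

theorem single_le_e4 {U B : Finset ℕ} {s t : Tr} (hv : Valid L (Tr.spec s t)) (hg : eta (sig s) ≤ ms t B)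
    {x x' : ℕ → ℝ} (hx : ∀ n, 0 ≤ x n) (hx' : ∀ n, 0 ≤ x' n) :
    min (pr U (R s B) x) (pr U (R t B) x') ^ 4 ≤ e4 L U x x' := by
  have := le_e4 hx hx' (Fam.single L U B s t hv hg)
  refine le_trans (le_of_eq ?_) this
  show _ = ∑ i : Unit, _
  simp [Fam.mm, Fam.single]

/-- the fourth root of `e4` -/
noncomputable def ee (L : LS dm) (U : Finset ℕ) (x x' : ℕ → ℝ) : ℝ := Real.sqrt (Real.sqrt (e4 L U x x'))

theorem ee_nonneg (U : Finset ℕ) (x x' : ℕ → ℝ) : 0 ≤ ee L U x x' := Real.sqrt_nonneg _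

theorem ee_pow (U : Finset ℕ) (x x' : ℕ → ℝ) : ee L U x x' ^ 4 = e4 L U x x' := by
  unfold ee
  rw [show Real.sqrt (Real.sqrt (e4 L U x x')) ^ 4 = (Real.sqrt (Real.sqrt (e4 L U x x')) ^ 2) ^ 2 by ring,
    Real.sq_sqrt (Real.sqrt_nonneg _), Real.sq_sqrt (e4_nonneg _ _ _)]

theorem ee_mono {U V : Finset ℕ} (h : U ⊆ V) {x x' : ℕ → ℝ} (hx : ∀ n, 0 ≤ x n) (hx' : ∀ n, 0 ≤ x' n) :
    ee L U x x' ≤ ee L V x x' :=
  Real.sqrt_le_sqrt (Real.sqrt_le_sqrt (e4_mono h hx hx'))

theorem comb_max (m : ℕ) (u v : ℕ → ℝ) (hu : ∀ i, 0 ≤ u i) (hv : ∀ i, 0 ≤ v i)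
    (h : ∀ i j, i < j → v i = 0 ∨ u j = 0) {μ K : ℝ} (hμ : 0 ≤ μ)
    (hmin : ∀ i j, i < j → j < m → min (u i) (v j) ≤ μ) (hKu : ∑ j ∈ range m, u j ≤ K)
    (hKv : ∑ j ∈ range m, v j ≤ K) (hK : ∀ j < m, u j + v j ≤ K) :
    ∑ j ∈ range m, u j + ∑ j ∈ range m, v j ≤ K + 2 * m * μ := by
  by_cases hu' : ∃ i < m, μ < u i
  · by_cases hv' : ∃ j < m, μ < v j
    · obtain ⟨i, hi, hui⟩ := hu'
      obtain ⟨j, hj, hvj⟩ := hv'
      -- any big `u i'` and big `v j'` have the same index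
      have key : ∀ i' < m, ∀ j' < m, μ < u i' → μ < v j' → i' = j' := by
        intro i' hi' j' hj' h1 h2
        rcases lt_trichotomy i' j' with hlt | heq | hgt
        · have := hmin i' j' hlt hj'
          exact absurd this (not_le.2 (lt_min h1 h2))
        · exact heq
        · rcases h j' i' hgt with h3 | h3 <;> linarith
      have hij := key i hi j hj hui hvj
      subst hij
      have bu : ∀ i' ∈ (range m).erase i, u i' ≤ μ := by
        intro i' hi'
        rw [mem_erase, mem_range] at hi'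
        by_contra hcon
        exact hi'.1 (key i' hi'.2 i hi (not_le.1 hcon) hvj)
      have bv : ∀ i' ∈ (range m).erase i, v i' ≤ μ := by
        intro i' hi'
        rw [mem_erase, mem_range] at hi'
        by_contra hcon
        exact hi'.1 (key i hi i' hi'.2 hui (not_le.1 hcon)).symm
      rw [← add_sum_erase _ _ (mem_range.2 hi), ← add_sum_erase (range m) v (mem_range.2 hi)]
      have c1 : ∑ j ∈ (range m).erase i, u j ≤ m * μ := by
        refine (sum_le_sum bu).trans ?_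
        rw [sum_const, nsmul_eq_mul]
        apply mul_le_mul_of_nonneg_right _ hμ
        have := card_le_card (erase_subset i (range m))
        rw [card_range] at this
        exact_mod_cast this
      have c2 : ∑ j ∈ (range m).erase i, v j ≤ m * μ := by
        refine (sum_le_sum bv).trans ?_
        rw [sum_const, nsmul_eq_mul]
        apply mul_le_mul_of_nonneg_right _ hμ
        have := card_le_card (erase_subset i (range m))
        rw [card_range] at this
        exact_mod_cast this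
      have := hK i hi
      linarith
    · push Not at hv'
      have c2 : ∑ j ∈ range m, v j ≤ m * μ := by
        refine (sum_le_sum (fun j hj => hv' j (mem_range.1 hj))).trans ?_
        rw [sum_const, nsmul_eq_mul, card_range]
      have : 0 ≤ (m : ℝ) * μ := by positivity
      linarith
  · push Not at hu'
    have c1 : ∑ j ∈ range m, u j ≤ m * μ := by
      refine (sum_le_sum (fun j hj => hu' j (mem_range.1 hj))).trans ?_
      rw [sum_const, nsmul_eq_mul, card_range]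
    have : 0 ≤ (m : ℝ) * μ := by positivity
    linarith

/-- data of the estimate -/
noncomputable def NN (L : LS dm) (m : ℕ) (x : ℕ → ℕ → ℝ) (A : Finset ℕ) : ℝ :=
  Real.sqrt (∑ j ∈ range m, nm L A (x j) ^ 2)

noncomputable def DD (L : LS dm) (m : ℕ) (x : ℕ → ℕ → ℝ) (A : Finset ℕ) : ℝ :=
  ∑ j ∈ range m, ∑ i ∈ range j, ee L A (x i) (x j)

theorem NN_nonneg (m : ℕ) (x : ℕ → ℕ → ℝ) (A : Finset ℕ) : 0 ≤ NN L m x A := Real.sqrt_nonneg _

theorem NN_sq (m : ℕ) (x : ℕ → ℕ → ℝ) (A : Finset ℕ) : NN L m x A ^ 2 = ∑ j ∈ range m, nm L A (x j) ^ 2 :=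
  Real.sq_sqrt (sum_nonneg fun j _ => by positivity)

theorem DD_nonneg (m : ℕ) (x : ℕ → ℕ → ℝ) (A : Finset ℕ) : 0 ≤ DD L m x A :=
  sum_nonneg fun j _ => sum_nonneg fun i _ => ee_nonneg _ _ _

theorem pr_split {s t T : Tr} (hs : Valid L s) (ht : Valid L t) {A B : Finset ℕ} {c0 c1 : ℝ}
    (hR : ∀ n, R T B n = c0 * R s B n + c1 * R t B n) (y : ℕ → ℝ) :
    pr A (R T B) y = c0 * pr (A ∩ sp s) (R s B) y + c1 * pr (A ∩ sp t) (R t B) y := by
  have h1 : ∀ u : Tr, Valid L u → pr (A ∩ sp u) (R u B) y = pr A (R u B) y := by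
    intro u hu
    unfold pr
    apply sum_subset inter_subset_left
    intro n hn hn'
    rw [R_eq_zero hu (fun hh => hn' (mem_inter.2 ⟨hn, (mem_inter.1 hh).2⟩)), zero_mul]
  rw [h1 s hs, h1 t ht]
  unfold pr
  rw [mul_sum, mul_sum, ← sum_add_distrib]
  apply sum_congr rfl
  intro n _
  rw [hR]; ring

theorem pr_sum {A : Finset ℕ} {g : ℕ → ℝ} {m : ℕ} {x : ℕ → ℕ → ℝ} :
    pr A g (fun n => ∑ j ∈ range m, x j n) = ∑ j ∈ range m, pr A g (x j) := by
  unfold pr
  rw [sum_comm]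
  apply sum_congr rfl
  intro n _
  rw [mul_sum]

theorem genlike (m : ℕ) (x : ℕ → ℕ → ℝ) (F : ℕ → Finset ℕ) (hx : ∀ j n, 0 ≤ x j n)
    (hF : ∀ j n, n ∉ F j → x j n = 0) (hlt : ∀ i j, i < j → Lt (F i) (F j)) {s t T : Tr}
    (hs : Valid L s) (ht : Valid L t) (hst : Lt (sp s) (sp t)) {A B : Finset ℕ} {c0 c1 : ℝ}
    (hc0 : 0 ≤ c0) (hc1 : 0 ≤ c1) (hc : c0 ^ 2 + c1 ^ 2 ≤ 1)
    (hR : ∀ n, R T B n = c0 * R s B n + c1 * R t B n)
    (Hs : ∀ A, pr A (R s B) (fun n => ∑ j ∈ range m, x j n) ≤ NN L m x A + 20 * m * DD L m x A)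
    (Ht : ∀ A, pr A (R t B) (fun n => ∑ j ∈ range m, x j n) ≤ NN L m x A + 20 * m * DD L m x A) :
    pr A (R T B) (fun n => ∑ j ∈ range m, x j n) ≤ NN L m x A + 20 * m * DD L m x A := by
  rw [pr_split hs ht hR]
  have h1 := mul_le_mul_of_nonneg_left (Hs (A ∩ sp s)) hc0
  have h2 := mul_le_mul_of_nonneg_left (Ht (A ∩ sp t)) hc1
  have hlt' : Lt (A ∩ sp s) (A ∩ sp t) := fun a ha b hb => hst a (mem_inter.1 ha).2 b (mem_inter.1 hb).2
  have hsub : A ∩ sp s ∪ A ∩ sp t ⊆ A := union_subset inter_subset_left inter_subset_left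
  have hN : c0 * NN L m x (A ∩ sp s) + c1 * NN L m x (A ∩ sp t) ≤ NN L m x A := by
    have h3 : (c0 * NN L m x (A ∩ sp s) + c1 * NN L m x (A ∩ sp t)) ^ 2 ≤ NN L m x A ^ 2 := by
      have h4 : NN L m x (A ∩ sp s) ^ 2 + NN L m x (A ∩ sp t) ^ 2 ≤ NN L m x A ^ 2 := by
        rw [NN_sq, NN_sq, NN_sq, ← sum_add_distrib]
        apply sum_le_sum
        intro j _
        exact (nm_sq_add hlt' (hx j)).trans (pow_le_pow_left₀ (nm_nonneg _ (hx j)) (nm_mono_set hsub (hx j)) 2)
      have h5 : (c0 * NN L m x (A ∩ sp s) + c1 * NN L m x (A ∩ sp t)) ^ 2 ≤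
          (c0 ^ 2 + c1 ^ 2) * (NN L m x (A ∩ sp s) ^ 2 + NN L m x (A ∩ sp t) ^ 2) := by
        nlinarith [sq_nonneg (c0 * NN L m x (A ∩ sp t) - c1 * NN L m x (A ∩ sp s))]
      refine h5.trans ?_
      calc (c0 ^ 2 + c1 ^ 2) * (NN L m x (A ∩ sp s) ^ 2 + NN L m x (A ∩ sp t) ^ 2) ≤
            1 * NN L m x A ^ 2 := mul_le_mul hc h4 (by positivity) (by norm_num)
        _ = _ := one_mul _
    exact (pow_le_pow_iff_left₀ (by have := NN_nonneg (L := L) m x (A ∩ sp s); have := NN_nonneg (L := L) m x (A ∩ sp t); positivity)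
      (NN_nonneg _ _ _) (by norm_num)).1 h3
  have hc01 : c0 ≤ 1 := by nlinarith [sq_nonneg c1]
  have hc11 : c1 ≤ 1 := by nlinarith [sq_nonneg c0]
  have hD : c0 * DD L m x (A ∩ sp s) + c1 * DD L m x (A ∩ sp t) ≤ DD L m x A := by
    unfold DD
    rw [mul_sum, mul_sum, ← sum_add_distrib]
    apply sum_le_sum
    intro j _
    rw [mul_sum, mul_sum, ← sum_add_distrib]
    apply sum_le_sum
    intro i hi
    have hij : i < j := mem_range.1 hi
    by_cases hj : (A ∩ sp s ∩ F j).Nonempty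
    · have hi' : ∀ n ∈ A ∩ sp t, x i n = 0 := by
        intro n hn
        apply hF
        intro hnF
        obtain ⟨a, ha⟩ := hj
        rw [mem_inter] at ha
        have e1 := hlt' a ha.1 n hn
        have e2 := hlt i j hij n hnF a ha.2
        omega
      have e3 : ee L (A ∩ sp t) (x i) (x j) = 0 := by
        unfold ee
        rw [e4_zero_left hi' (hx i) (hx j)]
        simp
      rw [e3, mul_zero, add_zero]
      have e4 := ee_mono (L := L) (inter_subset_left : A ∩ sp s ⊆ A) (hx i) (hx j)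
      have e5 := ee_nonneg (L := L) (A ∩ sp s) (x i) (x j)
      nlinarith
    · have hj' : ∀ n ∈ A ∩ sp s, x j n = 0 := by
        intro n hn
        apply hF
        intro hnF
        exact hj ⟨n, mem_inter.2 ⟨hn, hnF⟩⟩
      have e3 : ee L (A ∩ sp s) (x i) (x j) = 0 := by
        unfold ee
        rw [e4_zero_right (hx i) hj' (hx j)]
        simp
      rw [e3, mul_zero, zero_add]
      have e4 := ee_mono (L := L) (inter_subset_left : A ∩ sp t ⊆ A) (hx i) (hx j)
      have e5 := ee_nonneg (L := L) (A ∩ sp t) (x i) (x j)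
      nlinarith
  have hm : (0 : ℝ) ≤ 20 * m := by positivity
  have hD' := mul_le_mul_of_nonneg_left hD hm
  nlinarith

theorem cop_num {q a b u u' z : ℝ} (hq0 : 0 ≤ q) (hq1 : q ≤ 1) (ha : 0 ≤ a) (hb : 0 ≤ b)
    (hab : q * a ^ 4 + (1 - q) * b ^ 4 ≤ 1) (hu : 0 ≤ u) (hu' : 0 ≤ u') (hz : 0 ≤ z)
    (huz : u ^ 4 + u' ^ 4 ≤ z ^ 4) :
    Real.sqrt q * Real.sqrt (Real.sqrt q) * a * u +
      Real.sqrt (1 - q) * Real.sqrt (Real.sqrt (1 - q)) * b * u' ≤ z := by
  have h1q : 0 ≤ 1 - q := by linarith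
  set w := Real.sqrt (Real.sqrt q) with hw
  set v := Real.sqrt (Real.sqrt (1 - q)) with hv
  have hw0 : 0 ≤ w := Real.sqrt_nonneg _
  have hv0 : 0 ≤ v := Real.sqrt_nonneg _
  have hw2 : w ^ 2 = Real.sqrt q := Real.sq_sqrt (Real.sqrt_nonneg _)
  have hv2 : v ^ 2 = Real.sqrt (1 - q) := Real.sq_sqrt (Real.sqrt_nonneg _)
  have hw4 : w ^ 4 = q := by
    rw [show w ^ 4 = (w ^ 2) ^ 2 by ring, hw2, Real.sq_sqrt hq0]
  have hv4 : v ^ 4 = 1 - q := by
    rw [show v ^ 4 = (v ^ 2) ^ 2 by ring, hv2, Real.sq_sqrt h1q]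
  have h0 : (0 : ℝ) ≤ w ^ 2 * w * a * u + v ^ 2 * v * b * u' := by positivity
  have h2 : (w ^ 2 * w * a * u + v ^ 2 * v * b * u') ^ 4 ≤ z ^ 4 := by
    -- two applications of Cauchy-Schwarz
    have s1 : (w ^ 2 * w * a * u + v ^ 2 * v * b * u') ^ 2 ≤ ((w ^ 2) ^ 2 + (v ^ 2) ^ 2) *
        ((w * a * u) ^ 2 + (v * b * u') ^ 2) := by
      nlinarith [sq_nonneg (w ^ 2 * (v * b * u') - v ^ 2 * (w * a * u))]
    have s2 : (w ^ 2) ^ 2 + (v ^ 2) ^ 2 = 1 := by
      rw [show (w ^ 2) ^ 2 = w ^ 4 by ring, show (v ^ 2) ^ 2 = v ^ 4 by ring, hw4, hv4]; ring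
    rw [s2, one_mul] at s1
    have s3 : ((w * a * u) ^ 2 + (v * b * u') ^ 2) ^ 2 ≤ ((w * a) ^ 4 + (v * b) ^ 4) * (u ^ 4 + u' ^ 4) := by
      nlinarith [sq_nonneg ((w * a) ^ 2 * u' ^ 2 - (v * b) ^ 2 * u ^ 2)]
    have s4 : (w * a) ^ 4 + (v * b) ^ 4 ≤ 1 := by
      rw [mul_pow, mul_pow, hw4, hv4]; exact hab
    calc (w ^ 2 * w * a * u + v ^ 2 * v * b * u') ^ 4 = ((w ^ 2 * w * a * u + v ^ 2 * v * b * u') ^ 2) ^ 2 := by ring
      _ ≤ ((w * a * u) ^ 2 + (v * b * u') ^ 2) ^ 2 := pow_le_pow_left₀ (sq_nonneg _) s1 2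
      _ ≤ ((w * a) ^ 4 + (v * b) ^ 4) * (u ^ 4 + u' ^ 4) := s3
      _ ≤ 1 * z ^ 4 := mul_le_mul s4 huz (by positivity) (by norm_num)
      _ = z ^ 4 := one_mul _
  rw [← hw2, ← hv2]
  exact (pow_le_pow_iff_left₀ h0 hz (by norm_num)).1 h2

theorem mink_aux (m : ℕ) (u v w : ℕ → ℝ) (h : ∀ j, u j ^ 4 + v j ^ 4 ≤ w j ^ 4) (hw : ∀ j, 0 ≤ w j) :
    (∑ j ∈ range m, u j ^ 2) ^ 2 + (∑ j ∈ range m, v j ^ 2) ^ 2 ≤ (∑ j ∈ range m, w j ^ 2) ^ 2 := by
  simp only [sq (∑ j ∈ range m, _), sum_mul_sum]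
  rw [← sum_add_distrib]
  apply sum_le_sum
  intro i _
  rw [← sum_add_distrib]
  apply sum_le_sum
  intro j _
  have h1 : (u i ^ 2 * u j ^ 2 + v i ^ 2 * v j ^ 2) ^ 2 ≤ (w i ^ 2 * w j ^ 2) ^ 2 := by
    have h2 : (u i ^ 2 * u j ^ 2 + v i ^ 2 * v j ^ 2) ^ 2 ≤ (u i ^ 4 + v i ^ 4) * (u j ^ 4 + v j ^ 4) := by
      nlinarith [sq_nonneg (u i ^ 2 * v j ^ 2 - v i ^ 2 * u j ^ 2)]
    refine h2.trans ?_
    calc (u i ^ 4 + v i ^ 4) * (u j ^ 4 + v j ^ 4) ≤ w i ^ 4 * w j ^ 4 :=
          mul_le_mul (h i) (h j) (by positivity) (by have := hw i; positivity)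
      _ = _ := by ring
  exact (pow_le_pow_iff_left₀ (by positivity) (by positivity) (by norm_num)).1 h1

theorem est (m : ℕ) (x : ℕ → ℕ → ℝ) (F : ℕ → Finset ℕ) (hx : ∀ j n, 0 ≤ x j n)
    (hF : ∀ j n, n ∉ F j → x j n = 0) (hlt : ∀ i j, i < j → Lt (F i) (F j)) {T : Tr} (hT : Valid L T)
    (B A : Finset ℕ) :
    pr A (R T B) (fun n => ∑ j ∈ range m, x j n) ≤
      Real.sqrt (∑ j ∈ range m, nm L A (x j) ^ 2) +
        20 * m * ∑ j ∈ range m, ∑ i ∈ range j, Real.sqrt (Real.sqrt (e4 L A (x i) (x j))) := by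
  show pr A (R T B) (fun n => ∑ j ∈ range m, x j n) ≤ NN L m x A + 20 * m * DD L m x A
  have hNle : ∀ (A : Finset ℕ) (j : ℕ), j < m → nm L A (x j) ≤ NN L m x A := by
    intro A j hj
    have h1 : nm L A (x j) ^ 2 ≤ NN L m x A ^ 2 := by
      rw [NN_sq]
      exact single_le_sum (f := fun j => nm L A (x j) ^ 2) (fun i _ => by positivity) (mem_range.2 hj)
    exact (pow_le_pow_iff_left₀ (nm_nonneg _ (hx j)) (NN_nonneg _ _ _) (by norm_num)).1 h1
  have hD0 : ∀ A, 0 ≤ 20 * (m : ℝ) * DD L m x A := fun A => by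
    have := DD_nonneg (L := L) m x A
    positivity
  induction T generalizing B A with
  | leaf n =>
    by_cases hex : ∃ j < m, x j n ≠ 0
    · obtain ⟨j, hj, hjn⟩ := hex
      have hnF : n ∈ F j := by
        by_contra hh; exact hjn (hF j n hh)
      have h1 : ∀ i ∈ range m, i ≠ j → pr A (R (Tr.leaf n) B) (x i) = 0 := by
        intro i _ hij
        unfold pr
        apply sum_eq_zero
        intro l _
        rw [R_leaf]
        split_ifs with hl
        · rw [hl.1, hF i n, mul_zero]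
          intro hnFi
          rcases lt_or_gt_of_ne hij with h | h
          · exact lt_irrefl _ (hlt i j h n hnFi n hnF)
          · exact lt_irrefl _ (hlt j i h n hnF n hnFi)
        · rw [zero_mul]
      rw [pr_sum, sum_eq_single j h1 (fun h => absurd (mem_range.2 hj) h)]
      have h2 := pr_R_le hT A B (hx j)
      have h3 : nm L (A ∩ B ∩ sp (Tr.leaf n)) (x j) ≤ nm L A (x j) :=
        nm_mono_set (subset_trans inter_subset_left inter_subset_left) (hx j)
      linarith [hNle A j hj, hD0 A]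
    · push Not at hex
      rw [pr_sum]
      have h1 : ∑ j ∈ range m, pr A (R (Tr.leaf n) B) (x j) = 0 := by
        apply sum_eq_zero
        intro j hj
        unfold pr
        apply sum_eq_zero
        intro l _
        rw [R_leaf]
        split_ifs with hl
        · rw [hl.1, hex j (mem_range.1 hj), mul_zero]
        · rw [zero_mul]
      rw [h1]
      linarith [NN_nonneg (L := L) m x A, hD0 A]
  | gen q s t ihs iht =>
    obtain ⟨⟨hq0, hq1⟩, hs, ht, hst⟩ := id hT
    have hq0' : (0 : ℝ) < q := by exact_mod_cast hq0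
    have hq1' : (q : ℝ) < 1 := by exact_mod_cast hq1
    have h1q : (0 : ℝ) < 1 - q := by linarith
    obtain ⟨a, b, ha, hb, hab, hR⟩ := R_gen hT B
    refine genlike m x F hx hF hlt hs ht hst (c0 := Real.sqrt q * a) (c1 := Real.sqrt (1 - q) * b)
      (by positivity) (by positivity) ?_ hR (fun A => ihs hs B A) (fun A => iht ht B A)
    rw [mul_pow, mul_pow, Real.sq_sqrt hq0'.le, Real.sq_sqrt h1q.le]
    have h1 : (q * a ^ 2 + (1 - q) * b ^ 2) ^ 2 ≤ 1 := by
      nlinarith [mul_nonneg (mul_nonneg hq0'.le h1q.le) (sq_nonneg (a ^ 2 - b ^ 2))]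
    nlinarith [mul_nonneg hq0'.le (sq_nonneg a), mul_nonneg h1q.le (sq_nonneg b)]
  | cop q s t ihs iht =>
    obtain ⟨⟨hq0, hq1⟩, hs, ht, hdis⟩ := id hT
    have hq0' : (0 : ℝ) < q := by exact_mod_cast hq0
    have hq1' : (q : ℝ) < 1 := by exact_mod_cast hq1
    obtain ⟨a, b, ha, hb, hab, hR⟩ := R_cop hT B
    have hdis' : Disjoint (A ∩ sp s) (A ∩ sp t) := Disjoint.mono inter_subset_right inter_subset_right hdis
    have hsub : A ∩ sp s ∪ A ∩ sp t ⊆ A := union_subset inter_subset_left inter_subset_left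
    have hR' : ∀ n, R (Tr.cop q s t) B n = (Real.sqrt q * Real.sqrt (Real.sqrt q) * a) * R s B n +
        (Real.sqrt (1 - q) * Real.sqrt (Real.sqrt (1 - q)) * b) * R t B n := hR
    rw [pr_split hs ht hR']
    have hc0 : (0 : ℝ) ≤ Real.sqrt q * Real.sqrt (Real.sqrt q) * a := by positivity
    have hc1 : (0 : ℝ) ≤ Real.sqrt (1 - q) * Real.sqrt (Real.sqrt (1 - q)) * b := by positivity
    have h1 := mul_le_mul_of_nonneg_left (ihs hs B (A ∩ sp s)) hc0
    have h2 := mul_le_mul_of_nonneg_left (iht ht B (A ∩ sp t)) hc1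
    have hN := cop_num hq0'.le hq1'.le ha hb hab (NN_nonneg (L := L) m x (A ∩ sp s))
      (NN_nonneg (L := L) m x (A ∩ sp t)) (NN_nonneg (L := L) m x A) (by
        have h3 := mink_aux m (fun j => nm L (A ∩ sp s) (x j)) (fun j => nm L (A ∩ sp t) (x j))
          (fun j => nm L A (x j)) (fun j => (nm_four_add hdis' (hx j)).trans
            (pow_le_pow_left₀ (nm_nonneg _ (hx j)) (nm_mono_set hsub (hx j)) 4)) (fun j => nm_nonneg _ (hx j))
        rw [← NN_sq, ← NN_sq, ← NN_sq] at h3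
        calc NN L m x (A ∩ sp s) ^ 4 + NN L m x (A ∩ sp t) ^ 4 =
              (NN L m x (A ∩ sp s) ^ 2) ^ 2 + (NN L m x (A ∩ sp t) ^ 2) ^ 2 := by ring
          _ ≤ (NN L m x A ^ 2) ^ 2 := h3
          _ = _ := by ring)
    have hD : Real.sqrt q * Real.sqrt (Real.sqrt q) * a * DD L m x (A ∩ sp s) +
        Real.sqrt (1 - q) * Real.sqrt (Real.sqrt (1 - q)) * b * DD L m x (A ∩ sp t) ≤ DD L m x A := by
      unfold DD
      rw [mul_sum, mul_sum, ← sum_add_distrib]
      apply sum_le_sum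
      intro j _
      rw [mul_sum, mul_sum, ← sum_add_distrib]
      apply sum_le_sum
      intro i _
      apply cop_num hq0'.le hq1'.le ha hb hab (ee_nonneg _ _ _) (ee_nonneg _ _ _) (ee_nonneg _ _ _)
      rw [ee_pow, ee_pow, ee_pow]
      exact (e4_add hdis' (hx i) (hx j)).trans (e4_mono hsub (hx i) (hx j))
    have hm : (0 : ℝ) ≤ 20 * m := by positivity
    have hD' := mul_le_mul_of_nonneg_left hD hm
    nlinarith
  | spec s t ihs iht =>
    have hst := spec_lt hT
    obtain ⟨hs, ht, -, -⟩ := id hT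
    obtain ⟨a, b, ha, hb, ha9, hb9, hbad, hR⟩ := R_spec hT B
    by_cases hg : ms t B < eta (sig s)
    · exact genlike m x F hx hF hlt hs ht hst ha hb (hbad hg) hR (fun A => ihs hs B A) (fun A => iht ht B A)
    · have hg' := not_lt.1 hg
      set u : ℕ → ℝ := fun j => a * pr A (R s B) (x j) with hu
      set v : ℕ → ℝ := fun j => b * pr A (R t B) (x j) with hv
      have hpu : ∀ j, 0 ≤ pr A (R s B) (x j) := fun j =>
        pr_nonneg (fun n _ => R_nonneg hs _ n) (fun n _ => hx j n)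
      have hpv : ∀ j, 0 ≤ pr A (R t B) (x j) := fun j =>
        pr_nonneg (fun n _ => R_nonneg ht _ n) (fun n _ => hx j n)
      have hu0 : ∀ j, 0 ≤ u j := fun j => mul_nonneg ha (hpu j)
      have hv0 : ∀ j, 0 ≤ v j := fun j => mul_nonneg hb (hpv j)
      have huv : ∀ j, pr A (R (Tr.spec s t) B) (x j) = u j + v j := by
        intro j
        simp only [hu, hv]
        unfold pr
        rw [mul_sum, mul_sum, ← sum_add_distrib]
        apply sum_congr rfl
        intro n _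
        rw [hR]; ring
      rw [pr_sum]
      simp only [huv]
      rw [sum_add_distrib]
      have hDn := DD_nonneg (L := L) m x A
      have hNn := NN_nonneg (L := L) m x A
      have hmn : (0 : ℝ) ≤ m := Nat.cast_nonneg m
      have hmD : 0 ≤ (m : ℝ) * DD L m x A := by positivity
      have e1 : ∑ j ∈ range m, u j ≤ NN L m x A + 18 * m * DD L m x A := by
        have h1 : ∑ j ∈ range m, u j = a * pr A (R s B) (fun n => ∑ j ∈ range m, x j n) := by
          rw [pr_sum, mul_sum]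
        have h2 := ihs hs B A
        have h3 : 0 ≤ NN L m x A + 20 * m * DD L m x A := by positivity
        rw [h1]
        calc a * pr A (R s B) (fun n => ∑ j ∈ range m, x j n) ≤ a * (NN L m x A + 20 * m * DD L m x A) :=
              mul_le_mul_of_nonneg_left h2 ha
          _ ≤ 9 / 10 * (NN L m x A + 20 * m * DD L m x A) := mul_le_mul_of_nonneg_right ha9 h3
          _ ≤ _ := by nlinarith
      have e2 : ∑ j ∈ range m, v j ≤ NN L m x A + 18 * m * DD L m x A := by
        have h1 : ∑ j ∈ range m, v j = b * pr A (R t B) (fun n => ∑ j ∈ range m, x j n) := by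
          rw [pr_sum, mul_sum]
        have h2 := iht ht B A
        have h3 : 0 ≤ NN L m x A + 20 * m * DD L m x A := by positivity
        rw [h1]
        calc b * pr A (R t B) (fun n => ∑ j ∈ range m, x j n) ≤ b * (NN L m x A + 20 * m * DD L m x A) :=
              mul_le_mul_of_nonneg_left h2 hb
          _ ≤ 9 / 10 * (NN L m x A + 20 * m * DD L m x A) := mul_le_mul_of_nonneg_right hb9 h3
          _ ≤ _ := by nlinarith
      have e3 : ∀ j < m, u j + v j ≤ NN L m x A + 18 * m * DD L m x A := by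
        intro j hj
        rw [← huv]
        have h2 := pr_R_le hT A B (hx j)
        have h3 : nm L (A ∩ B ∩ sp (Tr.spec s t)) (x j) ≤ nm L A (x j) :=
          nm_mono_set (subset_trans inter_subset_left inter_subset_left) (hx j)
        have h4 := hNle A j hj
        nlinarith
      have e4 : ∀ i j, i < j → v i = 0 ∨ u j = 0 := by
        intro i j hij
        by_cases hi : (sp t ∩ F i).Nonempty
        · right
          obtain ⟨c, hc⟩ := hi
          rw [mem_inter] at hc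
          have : pr A (R s B) (x j) = 0 := by
            apply sum_eq_zero
            intro n _
            by_cases hn : n ∈ sp s
            · rw [hF j n, mul_zero]
              intro hnF
              have e5 := hst n hn c hc.1
              have e6 := hlt i j hij c hc.2 n hnF
              omega
            · rw [R_eq_zero hs (fun hh => hn (mem_inter.1 hh).2), zero_mul]
          simp only [hu]
          rw [this, mul_zero]
        · left
          have : pr A (R t B) (x i) = 0 := by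
            apply sum_eq_zero
            intro n _
            by_cases hn : n ∈ sp t
            · rw [hF i n, mul_zero]
              intro hnF
              exact hi ⟨n, mem_inter.2 ⟨hn, hnF⟩⟩
            · rw [R_eq_zero ht (fun hh => hn (mem_inter.1 hh).2), zero_mul]
          simp only [hv]
          rw [this, mul_zero]
      have e5 : ∀ i j, i < j → j < m → min (u i) (v j) ≤ DD L m x A := by
        intro i j hij hj
        have h1 : min (u i) (v j) ≤ min (pr A (R s B) (x i)) (pr A (R t B) (x j)) := by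
          apply min_le_min
          · simp only [hu]; nlinarith [hpu i]
          · simp only [hv]; nlinarith [hpv j]
        have h2 : min (pr A (R s B) (x i)) (pr A (R t B) (x j)) ≤ ee L A (x i) (x j) := by
          have h3 := single_le_e4 (U := A) hT hg' (hx i) (hx j)
          rw [← ee_pow] at h3
          exact (pow_le_pow_iff_left₀ (le_min (hpu i) (hpv j)) (ee_nonneg _ _ _) (by norm_num)).1 h3
        refine h1.trans (h2.trans ?_)
        unfold DD
        refine le_trans ?_ (single_le_sum (f := fun j => ∑ i ∈ range j, ee L A (x i) (x j))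
          (fun j _ => sum_nonneg fun i _ => ee_nonneg _ _ _) (mem_range.2 hj))
        exact single_le_sum (f := fun i => ee L A (x i) (x j)) (fun i _ => ee_nonneg _ _ _) (mem_range.2 hij)
      have := comb_max m u v hu0 hv0 e4 hDn e5 e1 e2 e3
      nlinarith
  | rest B0 t ih =>
    refine le_trans ?_ (ih hT.1 (B ∩ B0) A)
    exact pr_mono (fun n _ => R_nonneg hT _ n) (fun n _ => R_rest hT B n)
      (fun n _ => sum_nonneg fun j _ => hx j n) (fun n _ => le_rfl)

end Pool.Agent.H51.SM
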