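import Pool.Agent.H51.SM.Norm

/-!
# Module GAIN: the gain lemma (paper proof, section 7)
-/

set_option autoImplicit false

namespace Pool.Agent.H51.SM

open Finset

variable {L : LS dm}

/-- the property of the gain lemma -/
def Wit (L : LS dm) (G : ℕ → Tr) (x : ℕ → ℕ → ℝ) (c : ℝ) (s m : ℕ) (a : ℕ → ℝ) (T : Tr) : Prop :=
  (∀ i, 0 ≤ a i) ∧ (∀ i, i < s ∨ m ≤ i → a i = 0) ∧ ∑ i ∈ range m, a i ^ 2 ≤ 1 ∧ Valid L T ∧
    sp T ⊆ (Ico s m).biUnion (fun i => sp (G i)) ∧
      c ≤ pr (sp T) (f T) (fun n => ∑ i ∈ range m, a i * x i n)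

theorem gn_pr_sp {T : Tr} (hT : Valid L T) {V : Finset ℕ} (hV : sp T ⊆ V) (y : ℕ → ℝ) :
    pr (sp T) (f T) y = pr V (f T) y := by
  unfold pr
  apply sum_subset hV
  intro n _ hn
  rw [f_eq_zero hT hn, zero_mul]

theorem Wit.lt {G : ℕ → Tr} {x : ℕ → ℕ → ℝ} {c : ℝ} {s m : ℕ} {a : ℕ → ℝ} {T : Tr}
    (hW : Wit L G x c s m a T) : s < m := by
  obtain ⟨-, -, -, h4, h5, -⟩ := hW
  obtain ⟨n, hn⟩ := sp_nonempty h4
  have := h5 hn
  rw [mem_biUnion] at this
  obtain ⟨i, hi, -⟩ := this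
  have := mem_Ico.1 hi
  omega

theorem gn_ext {a : ℕ → ℝ} {s m m' : ℕ} (hm : m ≤ m') (h0 : ∀ i, i < s ∨ m ≤ i → a i = 0)
    (g : ℕ → ℝ → ℝ) (hg : ∀ i, g i 0 = 0) :
    ∑ i ∈ range m', g i (a i) = ∑ i ∈ range m, g i (a i) := by
  symm
  apply sum_subset (range_subset_range.2 hm)
  intro i _ hi
  rw [h0 i (Or.inr (by simpa using hi)), hg]

/-- equal-weight combinations -/
theorem gn_comb {G : ℕ → Tr} {x : ℕ → ℕ → ℝ} (hx : ∀ j n, 0 ≤ x j n)
    (hlt : ∀ i j, i < j → Lt (sp (G i)) (sp (G j))) {c : ℝ} {s m : ℕ → ℕ} {a : ℕ → ℕ → ℝ}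
    {T : ℕ → Tr} (M : ℕ) (hW : ∀ i ≤ M, Wit L G x c (s i) (m i) (a i) (T i))
    (hms : ∀ i < M, m i ≤ s (i + 1)) :
    Wit L G x c (s 0) (m M) (fun j => (Real.sqrt ((M : ℝ) + 1))⁻¹ * ∑ i ∈ range (M + 1), a i j)
      (comb T M) := by
  classical
  have hM0 : (0:ℝ) < (M : ℝ) + 1 := by positivity
  set q := Real.sqrt ((M : ℝ) + 1) with hq
  have hq0 : 0 < q := Real.sqrt_pos.2 hM0
  have hq2 : q ^ 2 = (M : ℝ) + 1 := Real.sq_sqrt hM0.le
  -- order of the intervals
  have hord : ∀ i j, i < j → j ≤ M → m i ≤ s j := by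
    intro i j hij
    induction j, hij using Nat.le_induction with
    | base => intro hj; exact hms i (by omega)
    | succ j hij ih =>
      intro hj
      have h1 := ih (by omega)
      have h2 := (hW j (by omega)).lt
      have h3 := hms j (by omega)
      omega
  have hs0 : ∀ i ≤ M, s 0 ≤ s i := by
    intro i hi
    rcases Nat.eq_zero_or_pos i with h0 | h0
    · rw [h0]
    · have h1 := hord 0 i h0 hi
      have h2 := (hW 0 (by omega)).lt
      omega
  have hmM : ∀ i ≤ M, m i ≤ m M := by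
    intro i hi
    rcases hi.eq_or_lt with h0 | h0
    · rw [h0]
    · have h1 := hord i M h0 le_rfl
      have h2 := (hW M le_rfl).lt
      omega
  have hr : ∀ i ∈ range (M + 1), i ≤ M := fun i hi => by have := mem_range.1 hi; omega
  have ha0 : ∀ i ∈ range (M + 1), ∀ j, 0 ≤ a i j := fun i hi j => (hW i (hr i hi)).1 j
  refine ⟨?_, ?_, ?_, ?_, ?_, ?_⟩
  · intro j
    exact mul_nonneg (inv_nonneg.2 hq0.le) (sum_nonneg fun i hi => ha0 i hi j)
  · intro j hj
    beta_reduce
    rw [sum_eq_zero, mul_zero]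
    intro i hi
    apply (hW i (hr i hi)).2.1
    have := hs0 i (hr i hi)
    have := hmM i (hr i hi)
    omega
  · -- norm of the coefficients
    have h1 : ∀ j, (q⁻¹ * ∑ i ∈ range (M + 1), a i j) ^ 2 =
        ((M : ℝ) + 1)⁻¹ * ∑ i ∈ range (M + 1), a i j ^ 2 := by
      intro j
      rw [mul_pow, inv_pow, hq2]
      congr 1
      by_cases hex : ∃ i ∈ range (M + 1), a i j ≠ 0
      · obtain ⟨i, hi, hij⟩ := hex
        have hz : ∀ i' ∈ range (M + 1), i' ≠ i → a i' j = 0 := by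
          intro i' hi' hne
          have h2 : ¬ (j < s i ∨ m i ≤ j) := fun hh => hij ((hW i (hr i hi)).2.1 j hh)
          apply (hW i' (hr i' hi')).2.1
          rcases lt_or_gt_of_ne hne with hlt' | hlt'
          · have := hord i' i hlt' (hr i hi)
            omega
          · have := hord i i' hlt' (hr i' hi')
            omega
        rw [sum_eq_single_of_mem i hi hz, sum_eq_single_of_mem i hi]
        intro i' hi' hne
        rw [hz i' hi' hne]
        ring
      · have hz : ∀ i ∈ range (M + 1), a i j = 0 := fun i hi => by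
          by_contra hcon
          exact hex ⟨i, hi, hcon⟩
        rw [sum_eq_zero hz, sum_eq_zero fun i hi => by rw [hz i hi]; ring]
        ring
    simp only [h1]
    rw [← mul_sum, sum_comm]
    have h2 : ∑ i ∈ range (M + 1), ∑ j ∈ range (m M), a i j ^ 2 ≤ ∑ i ∈ range (M + 1), (1:ℝ) := by
      apply sum_le_sum
      intro i hi
      have h3 := gn_ext (hmM i (hr i hi)) (hW i (hr i hi)).2.1 (fun _ t => t ^ 2) (fun _ => by simp)
      rw [h3]
      exact (hW i (hr i hi)).2.2.1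
    rw [sum_const, card_range, nsmul_eq_mul, mul_one] at h2
    push_cast at h2
    rw [inv_mul_le_iff₀ hM0, mul_one]
    exact h2
  · -- validity
    rw [valid_comb]
    refine ⟨fun i hi => (hW i hi).2.2.2.1, fun i j hij hj => ?_⟩
    intro u hu v hv
    have h1 := (hW i (by omega)).2.2.2.2.1 hu
    have h2 := (hW j hj).2.2.2.2.1 hv
    rw [mem_biUnion] at h1 h2
    obtain ⟨i1, hi1, hu1⟩ := h1
    obtain ⟨j1, hj1, hv1⟩ := h2
    rw [mem_Ico] at hi1 hj1
    have := hord i j hij hj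
    exact hlt i1 j1 (by omega) u hu1 v hv1
  · -- support
    intro n hn
    rw [sp_comb, mem_biUnion] at hn
    obtain ⟨i, hi, hn⟩ := hn
    have h1 := (hW i (hr i hi)).2.2.2.2.1 hn
    rw [mem_biUnion] at h1 ⊢
    obtain ⟨i1, hi1, hn1⟩ := h1
    rw [mem_Ico] at hi1
    have := hs0 i (hr i hi)
    have := hmM i (hr i hi)
    exact ⟨i1, mem_Ico.2 ⟨by omega, by omega⟩, hn1⟩
  · -- pairing
    set V := sp (comb T M) with hV
    have hVi : ∀ i ∈ range (M + 1), sp (T i) ⊆ V := by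
      intro i hi n hn
      rw [hV, sp_comb, mem_biUnion]
      exact ⟨i, hi, hn⟩
    set y : ℕ → ℕ → ℝ := fun i n => ∑ j ∈ range (m M), a i j * x j n with hy
    have hy0 : ∀ i ∈ range (M + 1), ∀ n, 0 ≤ y i n := fun i hi n =>
      sum_nonneg fun j _ => mul_nonneg (ha0 i hi j) (hx j n)
    have h1 : ∀ n, ∑ j ∈ range (m M), (q⁻¹ * ∑ i ∈ range (M + 1), a i j) * x j n =
        q⁻¹ * ∑ i ∈ range (M + 1), y i n := by
      intro n
      rw [hy]
      dsimp only
      rw [sum_comm, mul_sum]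
      refine sum_congr rfl fun j _ => ?_
      rw [mul_assoc, sum_mul]
    have h2 : ∀ i ∈ range (M + 1), c ≤ pr V (f (T i)) (y i) := by
      intro i hi
      have hWi := hW i (hr i hi)
      have h3 := hWi.2.2.2.2.2
      rw [gn_pr_sp hWi.2.2.2.1 (hVi i hi)] at h3
      refine h3.trans (le_of_eq ?_)
      apply pr_congr
      intro n _
      exact (gn_ext (hmM i (hr i hi)) hWi.2.1 (fun j t => t * x j n) (fun _ => by simp)).symm
    have h3 : pr V (f (comb T M)) (fun n => ∑ j ∈ range (m M),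
        (q⁻¹ * ∑ i ∈ range (M + 1), a i j) * x j n) ≥
        ((M : ℝ) + 1)⁻¹ * ∑ i ∈ range (M + 1), pr V (f (T i)) (y i) := by
      unfold pr
      rw [sum_comm, mul_sum]
      apply sum_le_sum
      intro n _
      beta_reduce
      rw [h1, f_comb, ← hq]
      have e1 : q⁻¹ * ∑ i ∈ range (M + 1), f (T i) n * (q⁻¹ * ∑ i ∈ range (M + 1), y i n) =
          ((M : ℝ) + 1)⁻¹ * ∑ i ∈ range (M + 1), f (T i) n * ∑ i ∈ range (M + 1), y i n := by
        rw [← hq2]
        simp only [mul_sum, sum_mul]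
        refine sum_congr rfl fun i _ => ?_
        refine sum_congr rfl fun i' _ => ?_
        field_simp
      have e2 : q⁻¹ * (∑ i ∈ range (M + 1), f (T i) n) * (q⁻¹ * ∑ i ∈ range (M + 1), y i n) =
          q⁻¹ * ∑ i ∈ range (M + 1), f (T i) n * (q⁻¹ * ∑ i ∈ range (M + 1), y i n) := by
        rw [mul_assoc, sum_mul]
      rw [e2, e1]
      apply mul_le_mul_of_nonneg_left _ (by positivity)
      apply sum_le_sum
      intro i hi
      apply mul_le_mul_of_nonneg_left _ (f_nonneg (hW i (hr i hi)).2.2.2.1 n)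
      exact single_le_sum (f := fun i => y i n) (fun i hi => hy0 i hi n) hi
    refine le_trans ?_ h3
    have h4 : ∑ i ∈ range (M + 1), c ≤ ∑ i ∈ range (M + 1), pr V (f (T i)) (y i) := sum_le_sum h2
    rw [sum_const, card_range, nsmul_eq_mul] at h4
    push_cast at h4
    rw [le_inv_mul_iff₀ hM0]
    exact h4

theorem gn_sqrt : Real.sqrt (9 / 8) = 3 / 2 * (Real.sqrt 2)⁻¹ := by
  have h2 : (0:ℝ) < Real.sqrt 2 := Real.sqrt_pos.2 (by norm_num)
  have h3 : Real.sqrt 2 ^ 2 = 2 := Real.sq_sqrt (by norm_num)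
  rw [Real.sqrt_eq_iff_mul_self_eq (by norm_num) (by positivity)]
  have : 3 / 2 * (Real.sqrt 2)⁻¹ * (3 / 2 * (Real.sqrt 2)⁻¹) = 9 / 4 * (Real.sqrt 2 ^ 2)⁻¹ := by
    field_simp
    norm_num
  rw [this, h3]
  norm_num

/-- the special step -/
theorem gn_spec {G : ℕ → Tr} {x : ℕ → ℕ → ℝ} (hx : ∀ j n, 0 ≤ x j n) {c : ℝ} {s0 m0 s1 m1 : ℕ}
    {a0 a1 : ℕ → ℝ} {T0 T1 : Tr} (hW0 : Wit L G x c s0 m0 a0 T0) (hW1 : Wit L G x c s1 m1 a1 T1)
    (hms : m0 ≤ s1) (hT : Valid L (Tr.spec T0 T1)) :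
    Wit L G x (Real.sqrt (9 / 8) * c) s0 m1 (fun j => (Real.sqrt 2)⁻¹ * (a0 j + a1 j))
      (Tr.spec T0 T1) := by
  have hl0 := hW0.lt
  have hl1 := hW1.lt
  obtain ⟨b1, b2, b3, b4, b5, b6⟩ := hW0
  obtain ⟨c1, c2, c3, c4, c5, c6⟩ := hW1
  have hm01 : m0 ≤ m1 := by omega
  have h2 : (0:ℝ) < Real.sqrt 2 := Real.sqrt_pos.2 (by norm_num)
  have h3 : Real.sqrt 2 ^ 2 = 2 := Real.sq_sqrt (by norm_num)
  refine ⟨?_, ?_, ?_, hT, ?_, ?_⟩
  · intro j
    exact mul_nonneg (by positivity) (add_nonneg (b1 j) (c1 j))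
  · intro j hj
    beta_reduce
    rw [b2 j (by omega), c2 j (by omega)]
    simp
  · have h4 : ∀ j, ((Real.sqrt 2)⁻¹ * (a0 j + a1 j)) ^ 2 = 1 / 2 * (a0 j ^ 2 + a1 j ^ 2) := by
      intro j
      rw [mul_pow, inv_pow, h3]
      rcases lt_or_ge j m0 with hj | hj
      · rw [c2 j (by omega)]; ring
      · rw [b2 j (by omega)]; ring
    simp only [h4]
    rw [← mul_sum, sum_add_distrib]
    have h5 := gn_ext hm01 b2 (fun _ t => t ^ 2) (fun _ => by simp)
    rw [h5]
    linarith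
  · intro n hn
    simp only [sp, mem_union] at hn
    rw [mem_biUnion]
    rcases hn with hn | hn
    · have := b5 hn
      rw [mem_biUnion] at this
      obtain ⟨i, hi, hni⟩ := this
      rw [mem_Ico] at hi
      exact ⟨i, mem_Ico.2 ⟨by omega, by omega⟩, hni⟩
    · have := c5 hn
      rw [mem_biUnion] at this
      obtain ⟨i, hi, hni⟩ := this
      rw [mem_Ico] at hi
      exact ⟨i, mem_Ico.2 ⟨by omega, by omega⟩, hni⟩
  · set V := sp (Tr.spec T0 T1) with hV
    have hV0 : sp T0 ⊆ V := subset_union_left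
    have hV1 : sp T1 ⊆ V := subset_union_right
    rw [gn_pr_sp b4 hV0] at b6
    rw [gn_pr_sp c4 hV1] at c6
    set y0 : ℕ → ℝ := fun n => ∑ i ∈ range m1, a0 i * x i n with hy0
    set y1 : ℕ → ℝ := fun n => ∑ i ∈ range m1, a1 i * x i n with hy1
    have e0 : pr V (f T0) (fun n => ∑ i ∈ range m0, a0 i * x i n) = pr V (f T0) y0 := by
      apply pr_congr
      intro n _
      exact (gn_ext hm01 b2 (fun j t => t * x j n) (fun _ => by simp)).symm
    rw [e0] at b6
    have hy00 : ∀ n, 0 ≤ y0 n := fun n => sum_nonneg fun j _ => mul_nonneg (b1 j) (hx j n)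
    have hy10 : ∀ n, 0 ≤ y1 n := fun n => sum_nonneg fun j _ => mul_nonneg (c1 j) (hx j n)
    have h5 : 3 / 4 * (Real.sqrt 2)⁻¹ * (pr V (f T0) y0 + pr V (f T1) y1) ≤
        pr V (f (Tr.spec T0 T1)) (fun n => ∑ i ∈ range m1, (Real.sqrt 2)⁻¹ * (a0 i + a1 i) * x i n) := by
      unfold pr
      rw [← sum_add_distrib, mul_sum]
      apply sum_le_sum
      intro n _
      have e1 : ∑ i ∈ range m1, (Real.sqrt 2)⁻¹ * (a0 i + a1 i) * x i n =
          (Real.sqrt 2)⁻¹ * (y0 n + y1 n) := by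
        rw [hy0, hy1]
        dsimp only
        rw [← sum_add_distrib, mul_sum]
        refine sum_congr rfl fun i _ => ?_
        ring
      beta_reduce
      rw [e1]
      simp only [f]
      have g0 := f_nonneg b4 n
      have g1 := f_nonneg c4 n
      have k0 := hy00 n
      have k1 := hy10 n
      have h6 : 0 ≤ (Real.sqrt 2)⁻¹ := by positivity
      have h7 : f T0 n * y0 n + f T1 n * y1 n ≤ (f T0 n + f T1 n) * (y0 n + y1 n) := by
        have := mul_nonneg g0 k1
        have := mul_nonneg g1 k0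
        linarith
      calc 3 / 4 * (Real.sqrt 2)⁻¹ * (f T0 n * y0 n + f T1 n * y1 n) ≤
            3 / 4 * (Real.sqrt 2)⁻¹ * ((f T0 n + f T1 n) * (y0 n + y1 n)) :=
            mul_le_mul_of_nonneg_left h7 (by positivity)
        _ = _ := by ring
    refine le_trans ?_ h5
    rw [gn_sqrt]
    have h6 : 0 ≤ 3 / 4 * (Real.sqrt 2)⁻¹ := by positivity
    have h7 := mul_le_mul_of_nonneg_left (add_le_add b6 c6) h6
    linarith

theorem gn_step {G : ℕ → Tr} {x : ℕ → ℕ → ℝ} (hx : ∀ j n, 0 ≤ x j n) (hG : ∀ i, Valid L (G i))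
    (hlt : ∀ i j, i < j → Lt (sp (G i)) (sp (G j))) {c : ℝ}
    (IH : ∀ s, ∃ m a T, Wit L G x c s m a T) (s : ℕ) :
    ∃ m a T, Wit L G x (Real.sqrt (9 / 8) * c) s m a T := by
  classical
  obtain ⟨m0, a0, F0, hW0⟩ := IH s
  choose mm aa TT hWW using IH
  set k := sig F0 with hk
  -- elements of `sp (G i)` are at least `i`
  have hge : ∀ i, ∀ b ∈ sp (G i), i ≤ b := by
    intro i
    induction i with
    | zero => intro b _; exact Nat.zero_le b
    | succ i ih =>
      intro b hb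
      obtain ⟨b', hb'⟩ := sp_nonempty (hG i)
      have h1 := ih b' hb'
      have h2 := hlt i (i + 1) (Nat.lt_succ_self i) b' hb' b hb
      omega
  let st : ℕ → ℕ := fun t => Nat.rec (max m0 (k + 1)) (fun _ s => mm s) t
  have hst0 : st 0 = max m0 (k + 1) := rfl
  have hsts : ∀ t, st (t + 1) = mm (st t) := fun t => rfl
  have hstlt : ∀ t, st t < st (t + 1) := fun t => by
    rw [hsts]; exact (hWW (st t)).lt
  have hmono : StrictMono st := strictMono_nat_of_lt_succ hstlt
  set F : ℕ → Tr := fun t => TT (st t) with hF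
  set av : ℕ → ℕ → ℝ := fun t => aa (st t) with hav
  have hWF : ∀ t, Wit L G x c (st t) (st (t + 1)) (av t) (F t) := fun t => by
    have := hWW (st t)
    rw [← hsts] at this
    exact this
  have hFv : ∀ t, Valid L (F t) := fun t => (hWF t).2.2.2.1
  have hFlt : ∀ t t', t < t' → Lt (sp (F t)) (sp (F t')) := by
    intro t t' htt u hu v hv
    have h1 := (hWF t).2.2.2.2.1 hu
    have h2 := (hWF t').2.2.2.2.1 hv
    rw [mem_biUnion] at h1 h2
    obtain ⟨i1, hi1, hu1⟩ := h1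
    obtain ⟨j1, hj1, hv1⟩ := h2
    rw [mem_Ico] at hi1 hj1
    have h3 : st (t + 1) ≤ st t' := hmono.monotone htt
    exact hlt i1 j1 (by omega) u hu1 v hv1
  have htol : 0 < tol k := by
    unfold tol KK
    have := eta_pos k
    positivity
  obtain ⟨l, r, ii, -, hlr, hrl, hv, hvj⟩ := L.avail k (tol k) htol (fun t => h (F t))
    (fun t => sp (F t)) (fun t n hn => h_pos (hFv t) hn) (fun t n hn => h_eq_zero (hFv t) hn)
    (fun t => sum_h (hFv t)) hFlt 0
  -- the pieces
  set P : ℕ → Tr := fun i => comb (fun u => F (l i + u)) (r i - l i - 1) with hP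
  have hlen : ∀ i, r i - l i - 1 + 1 = r i - l i := fun i => by have := hlr i; omega
  have hspP : ∀ i, sp (P i) = (Ico (l i) (r i)).biUnion fun t => sp (F t) := by
    intro i
    rw [hP]
    dsimp only
    rw [sp_comb, hlen]
    ext n
    simp only [mem_biUnion, mem_range, mem_Ico]
    constructor
    · rintro ⟨u, hu, hn⟩
      exact ⟨l i + u, by omega, hn⟩
    · rintro ⟨t, ht, hn⟩
      refine ⟨t - l i, by omega, ?_⟩
      rw [show l i + (t - l i) = t by omega]
      exact hn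
  have hhP : ∀ i n, h (P i) n = ((r i : ℝ) - l i)⁻¹ * ∑ t ∈ Ico (l i) (r i), h (F t) n := by
    intro i n
    rw [hP]
    dsimp only
    rw [h_comb, hlen, sum_Ico_eq_sum_range]
    congr 2
    have h1 := hlr i
    have h2 : ((r i - l i - 1 : ℕ) : ℝ) + 1 = ((r i - l i : ℕ) : ℝ) := by
      rw [← hlen i]; push_cast; rfl
    rw [h2, Nat.cast_sub h1.le]
  have hWP : ∀ i, Wit L G x c (st (l i)) (st (r i))
      (fun j => (Real.sqrt (((r i - l i - 1 : ℕ) : ℝ) + 1))⁻¹ *
        ∑ u ∈ range (r i - l i - 1 + 1), av (l i + u) j) (P i) := by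
    intro i
    have h1 := gn_comb (s := fun u => st (l i + u)) (m := fun u => st (l i + u + 1))
      (a := fun u => av (l i + u)) (T := fun u => F (l i + u)) hx hlt (r i - l i - 1)
      (fun u _ => hWF (l i + u)) (fun u _ => le_rfl)
    have h2 : l i + (r i - l i - 1) + 1 = r i := by have := hlr i; omega
    simp only [h2, add_zero] at h1
    exact h1
  set T1 := comb P (L.N k) with hT1
  have hWT := gn_comb (s := fun i => st (l i)) (m := fun i => st (r i)) (T := P) hx hlt (L.N k)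
    (fun i _ => hWP i) (fun i _ => hmono.monotone (hrl i))
  have hT1v : Valid L T1 := hWT.2.2.2.1
  have hlab : Lab L k T1 := by
    refine ⟨P, rfl, ?_, ii, fun j hj i hi hne => ?_⟩
    · refine hv.trans (le_of_eq ?_)
      congr 1
      · rw [hT1, sp_comb]
        exact biUnion_congr rfl fun i _ => (hspP i).symm
      · funext n
        rw [hT1, h_comb]
        congr 1
        exact sum_congr rfl fun i _ => (hhP i n).symm
    · have h1 := hvj j hj i hi hne
      refine le_trans (le_of_eq ?_) h1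
      congr 1
      · exact hspP i
      · funext n
        exact hhP i n
  have hbig : ∀ b ∈ sp T1, k < b := by
    intro b hb
    have h1 := hWT.2.2.2.2.1 hb
    rw [mem_biUnion] at h1
    obtain ⟨i, hi, hbi⟩ := h1
    rw [mem_Ico] at hi
    have h2 := hge i b hbi
    have h3 : st 0 ≤ st (l 0) := hmono.monotone (Nat.zero_le _)
    rw [hst0] at h3
    have h4 : k + 1 ≤ max m0 (k + 1) := le_max_right _ _
    omega
  have hval : Valid L (Tr.spec F0 T1) := ⟨hW0.2.2.2.1, hT1v, hbig, hlab⟩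
  have hms : m0 ≤ st (l 0) := by
    have h3 : st 0 ≤ st (l 0) := hmono.monotone (Nat.zero_le _)
    rw [hst0] at h3
    exact (le_max_left _ _).trans h3
  exact ⟨_, _, _, gn_spec hx hW0 hWT hms hval⟩

theorem gain (x : ℕ → ℕ → ℝ) (hx : ∀ j n, 0 ≤ x j n) (G : ℕ → Tr) (hG : ∀ i, Valid L (G i))
    (hlt : ∀ i j, i < j → Lt (sp (G i)) (sp (G j))) (h1 : ∀ i, 1 ≤ pr (sp (G i)) (f (G i)) (x i))
    (d t0 : ℕ) :
    ∃ (m : ℕ) (a : ℕ → ℝ) (T : Tr), (∀ i, 0 ≤ a i) ∧ (∀ i, i < t0 ∨ m ≤ i → a i = 0) ∧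
      ∑ i ∈ range m, a i ^ 2 ≤ 1 ∧ Valid L T ∧ sp T ⊆ (Ico t0 m).biUnion (fun i => sp (G i)) ∧
      Real.sqrt (9 / 8) ^ d ≤ pr (sp T) (f T) (fun n => ∑ i ∈ range m, a i * x i n) := by
  have key : ∀ d : ℕ, ∀ s, ∃ m a T, Wit L G x (Real.sqrt (9 / 8) ^ d) s m a T := by
    intro d
    induction d with
    | zero =>
      intro s
      refine ⟨s + 1, fun i => if i = s then 1 else 0, G s, ?_, ?_, ?_, hG s, ?_, ?_⟩
      · intro i
        dsimp only
        split_ifs <;> norm_num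
      · intro i hi
        dsimp only
        rw [if_neg (by omega)]
      · rw [sum_eq_single_of_mem s (by simp) (fun i _ hi => by beta_reduce; rw [if_neg hi]; norm_num)]
        simp
      · intro n hn
        rw [mem_biUnion]
        exact ⟨s, by simp, hn⟩
      · rw [pow_zero]
        refine (h1 s).trans (le_of_eq ?_)
        apply pr_congr
        intro n _
        rw [sum_eq_single_of_mem s (by simp) (fun i _ hi => by beta_reduce; rw [if_neg hi]; ring)]
        simp
    | succ d ih =>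
      intro s
      have := gn_step hx hG hlt ih s
      rw [pow_succ, mul_comm]
      exact this
  obtain ⟨m, a, T, h2, h3, h4, h5, h6, h7⟩ := key d t0
  exact ⟨m, a, T, h2, h3, h4, h5, h6, h7⟩

end Pool.Agent.H51.SM
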