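import Pool.Agent.H51.SM.Defs

/-!
# Module LSX: existence of label systems

Paper proof, section 0 (proofs table, MP_1785cf_an).
-/

set_option autoImplicit false

namespace Pool.Agent.H51.SM

open Finset

namespace LSXM

/-! ### Parameters -/

/-- the constants of the basic inequality -/
def Cc (p : ℕ) : ℕ → ℕ
  | 0 => 0
  | d + 1 => 3 + p * (Cc p d + 2)

/-- the parameters -/
structure Par where
  a : ℕ → ℕ
  n : ℕ → ℕ
  p : ℕ → ℕ
  a_gt : ∀ k, k < a k
  n_gt : ∀ k, k < n k
  n_le : ∀ j k, j < k → n j ≤ p k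
  p_le : ∀ k, p k ≤ a k
  big : ∀ k, 2 * 4 ^ a k * Cc (p k) (2 * a k) ≤ n k
  tight : ∀ (N : ℕ) (δ : ℝ), 1 ≤ N → 0 < δ → ∃ j L : ℕ, N ^ L ≤ n j ∧ (a j : ℝ) * Real.log 4 < L * δ

/-- choice of `a_k` given the previous `n` -/
def aa (c : ℕ → ℕ) (k p : ℕ) : ℕ := p + k + 1 + (p + 1) * c k

/-- choice of `n_k` given the previous `n` -/
def nn (c : ℕ → ℕ) (k p : ℕ) : ℕ :=
  p + k + 2 + c k + (k + 2) ^ ((k + 1) * aa c k p) + 2 * 4 ^ aa c k p * Cc p (2 * aa c k p)

/-- the sequence of the previous `n` -/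
def pp (c : ℕ → ℕ) : ℕ → ℕ
  | 0 => 0
  | k + 1 => nn c k (pp c k)

lemma pp_le_succ (c : ℕ → ℕ) (k : ℕ) : pp c k ≤ pp c (k + 1) := by
  change pp c k ≤ nn c k (pp c k)
  unfold nn
  omega

lemma pp_mono (c : ℕ → ℕ) : Monotone (pp c) := monotone_nat_of_le_succ (pp_le_succ c)

theorem exists_par (D : ℕ → ℝ) : ∃ P : Par, (∀ k, D k ≤ ((P.n k - 1 : ℕ) : ℝ)) ∧
    (∀ j, D j ≤ P.a j) ∧ ∀ k j, k < j → (P.n k : ℝ) * D j ≤ P.a j := by
  set c : ℕ → ℕ := fun k => ⌈|D k|⌉₊ with hc
  have hcD : ∀ k, D k ≤ c k := fun k => (le_abs_self _).trans (Nat.le_ceil _)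
  refine ⟨⟨fun k => aa c k (pp c k), fun k => pp c (k + 1), pp c, ?_, ?_, ?_, ?_, ?_, ?_⟩, ?_, ?_, ?_⟩
  · intro k
    unfold aa
    nlinarith [Nat.zero_le ((pp c k + 1) * c k)]
  · intro k
    change k < nn c k (pp c k)
    unfold nn
    omega
  · intro j k hjk
    exact pp_mono c hjk
  · intro k
    unfold aa
    nlinarith [Nat.zero_le ((pp c k + 1) * c k)]
  · intro k
    change _ ≤ nn c k (pp c k)
    unfold nn
    omega
  · intro N δ hN hδ
    obtain ⟨j, hj⟩ := exists_nat_gt (max (N : ℝ) (Real.log 4 / δ))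
    have hj1 : (N : ℝ) < j := (le_max_left _ _).trans_lt hj
    have hj2 : Real.log 4 / δ < j := (le_max_right _ _).trans_lt hj
    refine ⟨j, (j + 1) * aa c j (pp c j), ?_, ?_⟩
    · have h1 : N ≤ j + 2 := by
        have : N < j := by exact_mod_cast hj1
        omega
      change _ ≤ nn c j (pp c j)
      have h2 := Nat.pow_le_pow_left h1 ((j + 1) * aa c j (pp c j))
      unfold nn
      omega
    · rw [div_lt_iff₀ hδ] at hj2
      have ha : (0 : ℝ) < aa c j (pp c j) := by
        have : 0 < aa c j (pp c j) := by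
          unfold aa
          nlinarith [Nat.zero_le ((pp c j + 1) * c j)]
        exact_mod_cast this
      push_cast
      nlinarith [mul_pos ha hδ]
  · intro k
    change D k ≤ ((nn c k (pp c k) - 1 : ℕ) : ℝ)
    refine (hcD k).trans ?_
    have : c k ≤ nn c k (pp c k) - 1 := by
      unfold nn
      omega
    exact_mod_cast this
  · intro j
    refine (hcD j).trans ?_
    change ((c j : ℕ) : ℝ) ≤ (aa c j (pp c j) : ℕ)
    have : c j ≤ aa c j (pp c j) := by
      unfold aa
      nlinarith [Nat.zero_le ((pp c j) * c j)]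
    exact_mod_cast this
  · intro k j hkj
    change ((pp c (k + 1) : ℕ) : ℝ) * D j ≤ (aa c j (pp c j) : ℕ)
    have h1 : ((pp c (k + 1) : ℕ) : ℝ) * D j ≤ ((pp c (k + 1) : ℕ) : ℝ) * c j :=
      mul_le_mul_of_nonneg_left (hcD j) (Nat.cast_nonneg _)
    refine h1.trans ?_
    have h2 : pp c (k + 1) ≤ pp c j := pp_mono c hkj
    have h3 : pp c (k + 1) * c j ≤ aa c j (pp c j) := by
      have h4 := Nat.mul_le_mul_right (c j) h2
      unfold aa
      nlinarith
    exact_mod_cast h3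

/-! ### The norming set -/

/-- The first `q` functions have successive supports. -/
def Suc (q : ℕ) (z : ℕ → ℕ → ℝ) : Prop :=
  ∀ i j, i < j → j < q → ∀ x y, z i x ≠ 0 → z j y ≠ 0 → x < y

/-- The norming set of a mixed Tsirelson space. -/
inductive Z (P : Par) : (ℕ → ℝ) → Prop
  | zero : Z P (fun _ => 0)
  | unit (m : ℕ) : Z P (fun x => if x = m then 1 else 0)
  | comb (j q : ℕ) (z : ℕ → ℕ → ℝ) (hq : q ≤ P.n j) (hz : ∀ i, i < q → Z P (z i))
      (hs : Suc q z) : Z P (fun x => (4 ^ P.a j : ℝ)⁻¹ * ∑ i ∈ range q, z i x)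

/-- The norming set augmented by heavier averages of weight `k`. -/
def Zk (P : Par) (k : ℕ) (w : ℕ → ℝ) : Prop :=
  Z P w ∨ ∃ (q : ℕ) (z : ℕ → ℕ → ℝ), q ≤ P.n k ∧ (∀ i, i < q → Z P (z i)) ∧ Suc q z ∧
    w = fun x => (2 ^ P.a k : ℝ)⁻¹ * ∑ i ∈ range q, z i x

lemma sum_suc_le {q : ℕ} {z : ℕ → ℕ → ℝ} (hs : Suc q z) (x : ℕ)
    (h1 : ∀ i < q, z i x ≤ 1) : ∑ i ∈ range q, z i x ≤ 1 := by
  by_cases h : ∃ i < q, z i x ≠ 0
  · obtain ⟨i, hi, hix⟩ := h
    rw [Finset.sum_eq_single_of_mem i (mem_range.2 hi)]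
    · exact h1 i hi
    · intro j hj hji
      by_contra hjx
      have hj' := mem_range.1 hj
      rcases lt_or_gt_of_ne hji with h2 | h2
      · exact lt_irrefl _ (hs j i h2 hi x x hjx hix)
      · exact lt_irrefl _ (hs i j h2 hj' x x hix hjx)
  · push Not at h
    rw [Finset.sum_eq_zero fun i hi => h i (mem_range.1 hi)]
    exact zero_le_one

lemma Z.bd {P : Par} {z : ℕ → ℝ} (hz : Z P z) : ∀ x, 0 ≤ z x ∧ z x ≤ 1 := by
  induction hz with
  | zero => exact fun x => ⟨le_rfl, zero_le_one⟩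
  | unit m =>
    intro x
    by_cases h : x = m <;> simp [h]
  | comb j q z hq hz hs ih =>
    intro x
    have h4 : (1 : ℝ) ≤ 4 ^ P.a j := one_le_pow₀ (by norm_num)
    have h5 : (4 ^ P.a j : ℝ)⁻¹ ≤ 1 := inv_le_one_of_one_le₀ h4
    have h6 : (0 : ℝ) ≤ (4 ^ P.a j : ℝ)⁻¹ := by positivity
    have h7 : 0 ≤ ∑ i ∈ range q, z i x :=
      Finset.sum_nonneg fun i hi => (ih i (mem_range.1 hi) x).1
    have h8 := sum_suc_le hs x fun i hi => (ih i hi x).2
    exact ⟨mul_nonneg h6 h7, mul_le_one₀ h5 h7 h8⟩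

lemma Z.restr {P : Par} {z : ℕ → ℝ} (hz : Z P z) (A : Finset ℕ) :
    Z P (fun x => if x ∈ A then z x else 0) := by
  induction hz with
  | zero =>
    have : (fun x : ℕ => if x ∈ A then (0 : ℝ) else 0) = fun _ => 0 := by
      funext x; simp
    rw [this]
    exact Z.zero
  | unit m =>
    by_cases h : m ∈ A
    · have : (fun x : ℕ => if x ∈ A then (if x = m then (1 : ℝ) else 0) else 0) =
          fun x => if x = m then 1 else 0 := by
        funext x
        by_cases hx : x = m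
        · subst hx; simp [h]
        · simp [hx]
      rw [this]
      exact Z.unit m
    · have : (fun x : ℕ => if x ∈ A then (if x = m then (1 : ℝ) else 0) else 0) = fun _ => 0 := by
        funext x
        by_cases hx : x = m
        · subst hx; simp [h]
        · simp [hx]
      rw [this]
      exact Z.zero
  | comb j q z hq hz hs ih =>
    have h1 := Z.comb (P := P) j q (fun i x => if x ∈ A then z i x else 0) hq ih
      (by
        intro i i' hii' hi' x y hx hy
        refine hs i i' hii' hi' x y ?_ ?_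
        · intro h; apply hx; simp [h]
        · intro h; apply hy; simp [h])
    have : (fun x : ℕ => if x ∈ A then (4 ^ P.a j : ℝ)⁻¹ * ∑ i ∈ range q, z i x else 0) =
        fun x => (4 ^ P.a j : ℝ)⁻¹ * ∑ i ∈ range q, if x ∈ A then z i x else 0 := by
      funext x
      by_cases hx : x ∈ A <;> simp [hx]
    rw [this]
    exact h1

/-- A set of functions suitable as a norming set. -/
structure Gd (W : (ℕ → ℝ) → Prop) : Prop where
  bd : ∀ z, W z → ∀ x, 0 ≤ z x ∧ z x ≤ 1
  unit : ∀ m, W (fun x => if x = m then 1 else 0)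

lemma gd_Z (P : Par) : Gd (Z P) := ⟨fun _ hz => hz.bd, fun m => Z.unit m⟩

lemma Zk_bd (P : Par) (k : ℕ) {w : ℕ → ℝ} (hw : Zk P k w) (x : ℕ) : 0 ≤ w x ∧ w x ≤ 1 := by
  rcases hw with hw | ⟨q, z, hq, hz, hs, rfl⟩
  · exact hw.bd x
  · have h4 : (1 : ℝ) ≤ 2 ^ P.a k := one_le_pow₀ (by norm_num)
    have h5 : (2 ^ P.a k : ℝ)⁻¹ ≤ 1 := inv_le_one_of_one_le₀ h4
    have h6 : (0 : ℝ) ≤ (2 ^ P.a k : ℝ)⁻¹ := by positivity
    have h7 : 0 ≤ ∑ i ∈ range q, z i x :=
      Finset.sum_nonneg fun i hi => ((hz i (mem_range.1 hi)).bd x).1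
    have h8 := sum_suc_le hs x fun i hi => ((hz i hi).bd x).2
    exact ⟨mul_nonneg h6 h7, mul_le_one₀ h5 h7 h8⟩

lemma gd_Zk (P : Par) (k : ℕ) : Gd (Zk P k) :=
  ⟨fun _ hz => Zk_bd P k hz, fun m => Or.inl (Z.unit m)⟩

/-! ### Feasible functions and the entropy functional -/

/-- `y` is positive on `F` and in the polar of `W`. -/
def Feas (W : (ℕ → ℝ) → Prop) (F : Finset ℕ) (y : ℕ → ℝ) : Prop :=
  (∀ n ∈ F, 0 < y n) ∧ ∀ z, W z → pr F z y ≤ 1

lemma pr_mono_set {F F' : Finset ℕ} (h : F' ⊆ F) {z y : ℕ → ℝ} (hz : ∀ n, 0 ≤ z n)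
    (hy : ∀ n ∈ F, 0 < y n) : pr F' z y ≤ pr F z y := by
  unfold pr
  exact Finset.sum_le_sum_of_subset_of_nonneg h fun n hn _ => mul_nonneg (hz n) (hy n hn).le

lemma Feas.mono {W : (ℕ → ℝ) → Prop} (hW : Gd W) {F F' : Finset ℕ} (h : F' ⊆ F) {y : ℕ → ℝ}
    (hy : Feas W F y) : Feas W F' y :=
  ⟨fun n hn => hy.1 n (h hn), fun z hz =>
    (pr_mono_set h (fun n => (hW.bd z hz n).1) hy.1).trans (hy.2 z hz)⟩

lemma Feas.le_one {W : (ℕ → ℝ) → Prop} (hW : Gd W) {F : Finset ℕ} {y : ℕ → ℝ}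
    (hy : Feas W F y) {n : ℕ} (hn : n ∈ F) : y n ≤ 1 := by
  have h := hy.2 _ (hW.unit n)
  unfold pr at h
  rw [Finset.sum_eq_single_of_mem n hn] at h
  · simpa using h
  · intro m _ hm
    simp [hm]

lemma feas_const {W : (ℕ → ℝ) → Prop} (hW : Gd W) (F : Finset ℕ) :
    Feas W F fun _ => ((F.card : ℝ) + 1)⁻¹ := by
  have h0 : (0 : ℝ) < (F.card : ℝ) + 1 := by positivity
  refine ⟨fun n _ => by positivity, fun z hz => ?_⟩
  unfold pr
  rw [← Finset.sum_mul]
  have h1 : ∑ n ∈ F, z n ≤ F.card := by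
    calc ∑ n ∈ F, z n ≤ ∑ _n ∈ F, (1 : ℝ) := Finset.sum_le_sum fun n _ => (hW.bd z hz n).2
      _ = F.card := by simp
  rw [← div_eq_mul_inv, div_le_one h0]
  linarith

/-- The set of values of the entropy functional. -/
def GS (W : (ℕ → ℝ) → Prop) (F : Finset ℕ) (h : ℕ → ℝ) : Set ℝ :=
  {x | ∃ y, Feas W F y ∧ x = ∑ n ∈ F, h n * Real.log (y n)}

/-- The entropy functional. -/
noncomputable def G (W : (ℕ → ℝ) → Prop) (F : Finset ℕ) (h : ℕ → ℝ) : ℝ := sSup (GS W F h)

lemma GS_nonempty {W : (ℕ → ℝ) → Prop} (hW : Gd W) (F : Finset ℕ) (h : ℕ → ℝ) :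
    (GS W F h).Nonempty := ⟨_, _, feas_const hW F, rfl⟩

lemma GS_bdd {W : (ℕ → ℝ) → Prop} (hW : Gd W) {F : Finset ℕ} {h : ℕ → ℝ}
    (hh : ∀ n ∈ F, 0 ≤ h n) : BddAbove (GS W F h) := by
  refine ⟨0, ?_⟩
  rintro x ⟨y, hy, rfl⟩
  apply Finset.sum_nonpos
  intro n hn
  exact mul_nonpos_of_nonneg_of_nonpos (hh n hn)
    (Real.log_nonpos (hy.1 n hn).le (hy.le_one hW hn))

lemma le_G {W : (ℕ → ℝ) → Prop} (hW : Gd W) {F : Finset ℕ} {h : ℕ → ℝ}
    (hh : ∀ n ∈ F, 0 ≤ h n) {y : ℕ → ℝ} (hy : Feas W F y) :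
    ∑ n ∈ F, h n * Real.log (y n) ≤ G W F h :=
  le_csSup (GS_bdd hW hh) ⟨y, hy, rfl⟩

lemma G_le {W : (ℕ → ℝ) → Prop} (hW : Gd W) {F : Finset ℕ} {h : ℕ → ℝ} {c : ℝ}
    (hc : ∀ y, Feas W F y → ∑ n ∈ F, h n * Real.log (y n) ≤ c) : G W F h ≤ c := by
  apply csSup_le (GS_nonempty hW F h)
  rintro x ⟨y, hy, rfl⟩
  exact hc y hy

lemma exists_near {W : (ℕ → ℝ) → Prop} (hW : Gd W) (F : Finset ℕ) (h : ℕ → ℝ) {δ : ℝ}
    (hδ : 0 < δ) : ∃ y, Feas W F y ∧ G W F h - δ < ∑ n ∈ F, h n * Real.log (y n) := by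
  obtain ⟨x, ⟨y, hy, rfl⟩, hx⟩ := exists_lt_of_lt_csSup (GS_nonempty hW F h)
    (show G W F h - δ < sSup (GS W F h) by unfold G; linarith)
  exact ⟨y, hy, hx⟩

lemma G_congr {W : (ℕ → ℝ) → Prop} {F : Finset ℕ} {g h : ℕ → ℝ} (hgh : ∀ n ∈ F, g n = h n) :
    G W F g = G W F h := by
  unfold G GS
  congr 1
  ext x
  constructor
  · rintro ⟨y, hy, rfl⟩
    exact ⟨y, hy, Finset.sum_congr rfl fun n hn => by rw [hgh n hn]⟩
  · rintro ⟨y, hy, rfl⟩
    exact ⟨y, hy, Finset.sum_congr rfl fun n hn => by rw [hgh n hn]⟩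

/-- the exact support of `h` inside `F` -/
noncomputable def su (F : Finset ℕ) (h : ℕ → ℝ) : Finset ℕ := F.filter fun n => h n ≠ 0

lemma mem_su {F : Finset ℕ} {h : ℕ → ℝ} {n : ℕ} : n ∈ su F h ↔ n ∈ F ∧ h n ≠ 0 := by
  unfold su
  exact Finset.mem_filter

lemma su_sub (F : Finset ℕ) (h : ℕ → ℝ) : su F h ⊆ F := Finset.filter_subset _ _

lemma sum_su {F A : Finset ℕ} {h : ℕ → ℝ} (hA : su F h ⊆ A) (hA' : A ⊆ F) (φ : ℕ → ℝ) :
    ∑ n ∈ A, h n * φ n = ∑ n ∈ su F h, h n * φ n := by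
  symm
  apply Finset.sum_subset hA
  intro n hn hn'
  have : h n = 0 := by
    by_contra h0
    exact hn' (mem_su.2 ⟨hA' hn, h0⟩)
  rw [this, zero_mul]

lemma su_eq_self {F : Finset ℕ} {h : ℕ → ℝ} (hh : ∀ n ∈ F, 0 < h n) : su F h = F :=
  Finset.filter_true_of_mem fun n hn => (hh n hn).ne'

lemma su_add_left {F : Finset ℕ} {g h : ℕ → ℝ} (hg : ∀ n ∈ F, 0 ≤ g n) (hh : ∀ n ∈ F, 0 ≤ h n) :
    su F g ⊆ su F fun n => g n + h n := by
  intro n hn
  obtain ⟨h1, h2⟩ := mem_su.1 hn
  refine mem_su.2 ⟨h1, ?_⟩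
  have h3 : 0 < g n := lt_of_le_of_ne (hg n h1) (Ne.symm h2)
  have h4 := hh n h1
  linarith

lemma su_add_right {F : Finset ℕ} {g h : ℕ → ℝ} (hg : ∀ n ∈ F, 0 ≤ g n)
    (hh : ∀ n ∈ F, 0 ≤ h n) : su F h ⊆ su F fun n => g n + h n := by
  intro n hn
  obtain ⟨h1, h2⟩ := mem_su.1 hn
  refine mem_su.2 ⟨h1, ?_⟩
  have h3 : 0 < h n := lt_of_le_of_ne (hh n h1) (Ne.symm h2)
  have h4 := hg n h1
  linarith

lemma G_add_le {W : (ℕ → ℝ) → Prop} (hW : Gd W) {F : Finset ℕ} {g h : ℕ → ℝ}
    (hg : ∀ n ∈ F, 0 ≤ g n) (hh : ∀ n ∈ F, 0 ≤ h n) :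
    G W (su F fun n => g n + h n) (fun n => g n + h n) ≤ G W (su F g) g + G W (su F h) h := by
  apply G_le hW
  intro y hy
  have hs := su_sub F fun n => g n + h n
  have e1 : ∑ n ∈ su F (fun n => g n + h n), (g n + h n) * Real.log (y n) =
      ∑ n ∈ su F g, g n * Real.log (y n) + ∑ n ∈ su F h, h n * Real.log (y n) := by
    rw [← sum_su (su_add_left hg hh) hs, ← sum_su (su_add_right hg hh) hs,
      ← Finset.sum_add_distrib]
    exact Finset.sum_congr rfl fun n _ => by ring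
  rw [e1]
  have h1 := le_G hW (fun n hn => hg n (su_sub F g hn)) (hy.mono hW (su_add_left hg hh))
  have h2 := le_G hW (fun n hn => hh n (su_sub F h hn)) (hy.mono hW (su_add_right hg hh))
  linarith

lemma le_G_add {W : (ℕ → ℝ) → Prop} (hW : Gd W) {F : Finset ℕ} {g h : ℕ → ℝ}
    (hg : ∀ n ∈ F, 0 ≤ g n) (hh : ∀ n ∈ F, 0 ≤ h n) :
    G W (su F g) g + G W (su F h) h - (∑ n ∈ F, g n + ∑ n ∈ F, h n) * Real.log 2 ≤
      G W (su F fun n => g n + h n) (fun n => g n + h n) := by
  set A := su F g with hA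
  set B := su F h with hB
  set C := su F (fun n => g n + h n) with hC
  have hAC : A ⊆ C := su_add_left hg hh
  have hBC : B ⊆ C := su_add_right hg hh
  have hCF : C ⊆ F := su_sub _ _
  have hlog2 : 0 ≤ Real.log 2 := Real.log_nonneg (by norm_num)
  have hsg : ∑ n ∈ A, g n = ∑ n ∈ F, g n := by
    have := sum_su (F := F) (A := F) (h := g) (su_sub F g) subset_rfl (fun _ => 1)
    simpa using this.symm
  have hsh : ∑ n ∈ B, h n = ∑ n ∈ F, h n := by
    have := sum_su (F := F) (A := F) (h := h) (su_sub F h) subset_rfl (fun _ => 1)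
    simpa using this.symm
  apply le_of_forall_pos_le_add
  intro ε hε
  obtain ⟨y1, hy1, h1⟩ := exists_near hW A g (half_pos hε)
  obtain ⟨y2, hy2, h2⟩ := exists_near hW B h (half_pos hε)
  set y : ℕ → ℝ := fun n => ((if n ∈ A then y1 n else 0) + (if n ∈ B then y2 n else 0)) / 2
    with hy
  have hfe : Feas W C y := by
    constructor
    · intro n hn
      have h3 := (mem_su.1 hn)
      have h4 : n ∈ A ∨ n ∈ B := by
        by_contra hcon
        push Not at hcon
        apply h3.2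
        have h5 : g n = 0 := by
          by_contra h0
          exact hcon.1 (mem_su.2 ⟨h3.1, h0⟩)
        have h6 : h n = 0 := by
          by_contra h0
          exact hcon.2 (mem_su.2 ⟨h3.1, h0⟩)
        simp [h5, h6]
      have h7 : 0 ≤ if n ∈ A then y1 n else 0 := by
        split_ifs with h8
        · exact (hy1.1 n h8).le
        · exact le_rfl
      have h9 : 0 ≤ if n ∈ B then y2 n else 0 := by
        split_ifs with h8
        · exact (hy2.1 n h8).le
        · exact le_rfl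
      simp only [hy]
      rcases h4 with h4 | h4
      · have h10 : 0 < if n ∈ A then y1 n else 0 := by rw [if_pos h4]; exact hy1.1 n h4
        linarith
      · have h10 : 0 < if n ∈ B then y2 n else 0 := by rw [if_pos h4]; exact hy2.1 n h4
        linarith
    · intro z hz
      have e1 : pr C z y = (pr A z y1 + pr B z y2) / 2 := by
        unfold pr
        have e2 : ∑ n ∈ A, z n * y1 n = ∑ n ∈ C, z n * (if n ∈ A then y1 n else 0) := by
          rw [← Finset.sum_subset hAC]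
          · exact Finset.sum_congr rfl fun n hn => by rw [if_pos hn]
          · intro n _ hn
            rw [if_neg hn, mul_zero]
        have e3 : ∑ n ∈ B, z n * y2 n = ∑ n ∈ C, z n * (if n ∈ B then y2 n else 0) := by
          rw [← Finset.sum_subset hBC]
          · exact Finset.sum_congr rfl fun n hn => by rw [if_pos hn]
          · intro n _ hn
            rw [if_neg hn, mul_zero]
        rw [e2, e3, ← Finset.sum_add_distrib, Finset.sum_div]
        refine Finset.sum_congr rfl fun n _ => ?_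
        simp only [hy]
        ring
      rw [e1]
      have h3 := hy1.2 z hz
      have h4 := hy2.2 z hz
      linarith
  have h3 := le_G hW (h := fun n => g n + h n)
    (fun n hn => add_nonneg (hg n (hCF hn)) (hh n (hCF hn))) hfe
  have e4 : ∑ n ∈ C, (g n + h n) * Real.log (y n) =
      ∑ n ∈ A, g n * Real.log (y n) + ∑ n ∈ B, h n * Real.log (y n) := by
    rw [hA, hB, ← sum_su (su_add_left hg hh) hCF, ← sum_su (su_add_right hg hh) hCF,
      ← Finset.sum_add_distrib]
    exact Finset.sum_congr rfl fun n _ => by ring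
  have h5 : ∑ n ∈ A, g n * Real.log (y1 n) - (∑ n ∈ A, g n) * Real.log 2 ≤
      ∑ n ∈ A, g n * Real.log (y n) := by
    rw [Finset.sum_mul, ← Finset.sum_sub_distrib]
    refine Finset.sum_le_sum fun n hn => ?_
    rw [← mul_sub, ← Real.log_div (hy1.1 n hn).ne' (by norm_num)]
    refine mul_le_mul_of_nonneg_left (Real.log_le_log (by have := hy1.1 n hn; positivity) ?_)
      (hg n (su_sub F g hn))
    have h9 : 0 ≤ if n ∈ B then y2 n else 0 := by
      split_ifs with h8
      · exact (hy2.1 n h8).le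
      · exact le_rfl
    simp only [hy]
    rw [if_pos hn]
    linarith
  have h6 : ∑ n ∈ B, h n * Real.log (y2 n) - (∑ n ∈ B, h n) * Real.log 2 ≤
      ∑ n ∈ B, h n * Real.log (y n) := by
    rw [Finset.sum_mul, ← Finset.sum_sub_distrib]
    refine Finset.sum_le_sum fun n hn => ?_
    rw [← mul_sub, ← Real.log_div (hy2.1 n hn).ne' (by norm_num)]
    refine mul_le_mul_of_nonneg_left (Real.log_le_log (by have := hy2.1 n hn; positivity) ?_)
      (hh n (su_sub F h hn))
    have h9 : 0 ≤ if n ∈ A then y1 n else 0 := by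
      split_ifs with h8
      · exact (hy1.1 n h8).le
      · exact le_rfl
    simp only [hy]
    rw [if_pos hn]
    linarith
  rw [e4] at h3
  rw [hsg] at h5
  rw [hsh] at h6
  linarith

lemma G_smul {W : (ℕ → ℝ) → Prop} (hW : Gd W) {F : Finset ℕ} {h : ℕ → ℝ}
    (hh : ∀ n ∈ F, 0 ≤ h n) {c : ℝ} (hc : 0 < c) :
    G W F (fun n => c * h n) = c * G W F h := by
  apply le_antisymm
  · apply G_le hW
    intro y hy
    have h1 := le_G hW hh hy
    have e : ∑ n ∈ F, c * h n * Real.log (y n) = c * ∑ n ∈ F, h n * Real.log (y n) := by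
      rw [Finset.mul_sum]
      exact Finset.sum_congr rfl fun n _ => by ring
    rw [e]
    exact mul_le_mul_of_nonneg_left h1 hc.le
  · rw [← le_div_iff₀' hc]
    apply G_le hW
    intro y hy
    rw [le_div_iff₀' hc]
    have h1 := le_G hW (h := fun n => c * h n) (fun n hn => mul_nonneg hc.le (hh n hn)) hy
    have e : ∑ n ∈ F, c * h n * Real.log (y n) = c * ∑ n ∈ F, h n * Real.log (y n) := by
      rw [Finset.mul_sum]
      exact Finset.sum_congr rfl fun n _ => by ring
    rw [← e]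
    exact h1

lemma G_empty {W : (ℕ → ℝ) → Prop} (hW : Gd W) (h : ℕ → ℝ) : G W ∅ h = 0 := by
  apply le_antisymm
  · exact G_le hW fun y _ => by simp
  · have := le_G hW (F := ∅) (h := h) (fun n hn => by simp at hn) (feas_const hW ∅)
    simpa using this

/-- `G` is monotone (decreasing) in the norming set. -/
lemma G_anti {W W' : (ℕ → ℝ) → Prop} (hW : Gd W) (hW' : Gd W') (hsub : ∀ z, W z → W' z)
    {F : Finset ℕ} {h : ℕ → ℝ} (hh : ∀ n ∈ F, 0 ≤ h n) : G W' F h ≤ G W F h := by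
  apply G_le hW'
  intro y hy
  exact le_G hW hh ⟨hy.1, fun z hz => hy.2 z (hsub z hz)⟩

/-- `G` for `Z_k` is at least `G` for `Z` minus `|h| log 2^{a_k}`. -/
lemma G_Zk_ge (P : Par) (k : ℕ) {F : Finset ℕ} {h : ℕ → ℝ} (hh : ∀ n ∈ F, 0 ≤ h n) :
    G (Z P) F h - (∑ n ∈ F, h n) * (P.a k * Real.log 2) ≤ G (Zk P k) F h := by
  have hc : (0 : ℝ) < 2 ^ P.a k := by positivity
  have h1 : G (Z P) F h ≤ G (Zk P k) F h + (∑ n ∈ F, h n) * (P.a k * Real.log 2) := by
    apply G_le (gd_Z P)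
    intro y hy
    have hfe : Feas (Zk P k) F fun n => y n / 2 ^ P.a k := by
      refine ⟨fun n hn => div_pos (hy.1 n hn) hc, ?_⟩
      intro w hw
      have e : ∀ w : ℕ → ℝ, pr F w (fun n => y n / 2 ^ P.a k) = pr F w y / 2 ^ P.a k := by
        intro w
        unfold pr
        rw [Finset.sum_div]
        exact Finset.sum_congr rfl fun n _ => by ring
      rcases hw with hw | ⟨q, z, hq, hz, hs, rfl⟩
      · rw [e, div_le_one hc]
        refine (hy.2 w hw).trans (one_le_pow₀ (by norm_num))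
      · have h2 := hy.2 _ (Z.comb k q z hq hz hs)
        rw [e, div_le_one hc]
        have e2 : pr F (fun x => (2 ^ P.a k : ℝ)⁻¹ * ∑ i ∈ range q, z i x) y =
            2 ^ P.a k * pr F (fun x => (4 ^ P.a k : ℝ)⁻¹ * ∑ i ∈ range q, z i x) y := by
          unfold pr
          rw [Finset.mul_sum]
          refine Finset.sum_congr rfl fun n _ => ?_
          have e3 : (2 ^ P.a k : ℝ)⁻¹ = 2 ^ P.a k * (4 ^ P.a k : ℝ)⁻¹ := by
            have : (4 : ℝ) ^ P.a k = 2 ^ P.a k * 2 ^ P.a k := by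
              rw [← mul_pow]; norm_num
            rw [this, mul_inv]
            field_simp
          rw [e3]
          ring
        rw [e2]
        nlinarith
    have h3 := le_G (gd_Zk P k) hh hfe
    have e4 : ∑ n ∈ F, h n * Real.log (y n / 2 ^ P.a k) =
        ∑ n ∈ F, h n * Real.log (y n) - (∑ n ∈ F, h n) * (P.a k * Real.log 2) := by
      rw [Finset.sum_mul, ← Finset.sum_sub_distrib]
      refine Finset.sum_congr rfl fun n hn => ?_
      rw [Real.log_div (hy.1 n hn).ne' hc.ne', Real.log_pow]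
      ring
    rw [e4] at h3
    linarith
  linarith

/-- the functional `v_k` -/
noncomputable def vv (P : Par) (k : ℕ) (F : Finset ℕ) (h : ℕ → ℝ) : ℝ :=
  (G (Z P) (su F h) h - G (Zk P k) (su F h) h) / (P.a k * Real.log 2)

lemma den_pos (P : Par) (k : ℕ) : 0 < (P.a k : ℝ) * Real.log 2 := by
  have h1 : (0 : ℝ) < P.a k := by
    have := P.a_gt k
    have : 0 < P.a k := by omega
    exact_mod_cast this
  exact mul_pos h1 (Real.log_pos (by norm_num))

lemma vv_nonneg (P : Par) (k : ℕ) (F : Finset ℕ) (h : ℕ → ℝ) (hh : ∀ n ∈ F, 0 ≤ h n) :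
    0 ≤ vv P k F h := by
  unfold vv
  apply div_nonneg _ (den_pos P k).le
  have := G_anti (gd_Z P) (gd_Zk P k) (fun z hz => Or.inl hz) (F := su F h) (h := h)
    (fun n hn => hh n (su_sub F h hn))
  linarith

lemma vv_le (P : Par) (k : ℕ) (F : Finset ℕ) (h : ℕ → ℝ) (hh : ∀ n ∈ F, 0 ≤ h n) :
    vv P k F h ≤ ∑ n ∈ F, h n := by
  unfold vv
  rw [div_le_iff₀ (den_pos P k)]
  have h1 := G_Zk_ge P k (F := su F h) (h := h) (fun n hn => hh n (su_sub F h hn))
  have hsg : ∑ n ∈ su F h, h n = ∑ n ∈ F, h n := by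
    have := sum_su (F := F) (A := F) (h := h) (su_sub F h) subset_rfl (fun _ => 1)
    simpa using this.symm
  rw [hsg] at h1
  linarith

lemma vv_congr (P : Par) (k : ℕ) (F : Finset ℕ) (g h : ℕ → ℝ) (hgh : ∀ n ∈ F, g n = h n) :
    vv P k F g = vv P k F h := by
  have h1 : su F g = su F h := by
    unfold su
    exact Finset.filter_congr fun n hn => by rw [hgh n hn]
  unfold vv
  rw [h1, G_congr (fun n hn => hgh n (su_sub F h hn)), G_congr (fun n hn => hgh n (su_sub F h hn))]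

lemma vv_sub (P : Par) (k : ℕ) (F F' : Finset ℕ) (h : ℕ → ℝ) (hF : F' ⊆ F)
    (h0 : ∀ n ∈ F, n ∉ F' → h n = 0) : vv P k F h = vv P k F' h := by
  have h1 : su F h = su F' h := by
    ext n
    rw [mem_su, mem_su]
    constructor
    · rintro ⟨h2, h3⟩
      refine ⟨?_, h3⟩
      by_contra h4
      exact h3 (h0 n h2 h4)
    · rintro ⟨h2, h3⟩
      exact ⟨hF h2, h3⟩
  unfold vv
  rw [h1]

lemma vv_smul (P : Par) (k : ℕ) (F : Finset ℕ) (h : ℕ → ℝ) (c : ℝ) (hc : 0 ≤ c)
    (hh : ∀ n ∈ F, 0 ≤ h n) : vv P k F (fun n => c * h n) = c * vv P k F h := by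
  rcases hc.eq_or_lt with rfl | hc
  · have h1 : su F (fun n => (0 : ℝ) * h n) = ∅ := by
      unfold su
      apply Finset.filter_false_of_mem
      intro n _
      simp
    unfold vv
    rw [h1, G_empty (gd_Z P), G_empty (gd_Zk P k)]
    simp
  · have h1 : su F (fun n => c * h n) = su F h := by
      unfold su
      apply Finset.filter_congr
      intro n _
      simp [hc.ne']
    unfold vv
    rw [h1, G_smul (gd_Z P) (fun n hn => hh n (su_sub F h hn)) hc,
      G_smul (gd_Zk P k) (fun n hn => hh n (su_sub F h hn)) hc]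
    ring

lemma vv_add (P : Par) (k : ℕ) (F : Finset ℕ) (g h : ℕ → ℝ) (hg : ∀ n ∈ F, 0 ≤ g n)
    (hh : ∀ n ∈ F, 0 ≤ h n) :
    |vv P k F (fun n => g n + h n) - vv P k F g - vv P k F h| ≤
      (P.a k : ℝ)⁻¹ * (∑ n ∈ F, g n + ∑ n ∈ F, h n) := by
  have a1 := G_add_le (gd_Z P) hg hh
  have a2 := le_G_add (gd_Z P) hg hh
  have b1 := G_add_le (gd_Zk P k) hg hh
  have b2 := le_G_add (gd_Zk P k) hg hh
  have hd := den_pos P k
  have ha : (0 : ℝ) < P.a k := by
    have := P.a_gt k
    have : 0 < P.a k := by omega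
    exact_mod_cast this
  have hl : 0 < Real.log 2 := Real.log_pos (by norm_num)
  unfold vv
  rw [← sub_div, ← sub_div, abs_div, abs_of_pos hd, div_le_iff₀ hd]
  have e : (P.a k : ℝ)⁻¹ * (∑ n ∈ F, g n + ∑ n ∈ F, h n) * (P.a k * Real.log 2) =
      (∑ n ∈ F, g n + ∑ n ∈ F, h n) * Real.log 2 := by
    field_simp
  rw [e, abs_le]
  constructor <;> linarith

/-! ### Averages -/

lemma lt_disj {F : ℕ → Finset ℕ} {q : ℕ} (hF : ∀ i j, i < j → j < q → Lt (F i) (F j))
    {i j n : ℕ} (hi : i < q) (hj : j < q) (hni : n ∈ F i) (hnj : n ∈ F j) : i = j := by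
  by_contra hne
  rcases lt_or_gt_of_ne hne with h | h
  · exact lt_irrefl _ (hF i j h hj n hni n hnj)
  · exact lt_irrefl _ (hF j i h hi n hnj n hni)

lemma exists_glue {F : ℕ → Finset ℕ} {q : ℕ} (hF : ∀ i j, i < j → j < q → Lt (F i) (F j))
    (y : ℕ → ℕ → ℝ) : ∃ Y : ℕ → ℝ, ∀ i < q, ∀ n ∈ F i, Y n = y i n := by
  classical
  refine ⟨fun n => if h : ∃ i, i < q ∧ n ∈ F i then y (Classical.choose h) n else 0, ?_⟩
  intro i hi n hn
  have h : ∃ i, i < q ∧ n ∈ F i := ⟨i, hi, hn⟩
  have h1 := Classical.choose_spec h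
  have h2 : Classical.choose h = i := lt_disj hF h1.1 hi h1.2 hn
  simp only [dif_pos h]
  rw [h2]

lemma avg_sum {F : ℕ → Finset ℕ} {q : ℕ} {h : ℕ → ℕ → ℝ}
    (h1 : ∀ i < q, ∀ n, n ∉ F i → h i n = 0) (φ : ℕ → ℝ) :
    ∑ n ∈ (range q).biUnion F, ((q : ℝ)⁻¹ * ∑ i ∈ range q, h i n) * φ n =
      (q : ℝ)⁻¹ * ∑ i ∈ range q, ∑ n ∈ F i, h i n * φ n := by
  have e1 : ∀ i ∈ range q, ∑ n ∈ F i, h i n * φ n =
      ∑ n ∈ (range q).biUnion F, h i n * φ n := by
    intro i hi
    apply Finset.sum_subset (Finset.subset_biUnion_of_mem F hi)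
    intro n _ hn
    rw [h1 i (mem_range.1 hi) n hn, zero_mul]
  rw [Finset.sum_congr rfl e1, Finset.sum_comm, Finset.mul_sum]
  refine Finset.sum_congr rfl fun n _ => ?_
  rw [mul_assoc, Finset.sum_mul]

lemma pr_biUnion {F : ℕ → Finset ℕ} {q : ℕ} (hF : ∀ i j, i < j → j < q → Lt (F i) (F j))
    (z y : ℕ → ℝ) : pr ((range q).biUnion F) z y = ∑ i ∈ range q, pr (F i) z y := by
  unfold pr
  apply Finset.sum_biUnion
  intro i hi j hj hij
  rw [Function.onFun, Finset.disjoint_left]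
  intro n hni hnj
  exact hij (lt_disj hF (mem_range.1 hi) (mem_range.1 hj) hni hnj)

lemma pr_restr {F U : Finset ℕ} (hFU : F ⊆ U) (z y : ℕ → ℝ) :
    pr U (fun x => if x ∈ F then z x else 0) y = pr F z y := by
  unfold pr
  rw [← Finset.sum_subset hFU]
  · exact Finset.sum_congr rfl fun n hn => by simp [hn]
  · intro n _ hn
    simp [hn]

lemma pr_comb (U : Finset ℕ) (c : ℝ) (q : ℕ) (z : ℕ → ℕ → ℝ) (y : ℕ → ℝ) :
    pr U (fun x => c * ∑ i ∈ range q, z i x) y = c * ∑ i ∈ range q, pr U (z i) y := by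
  unfold pr
  rw [Finset.sum_comm, Finset.mul_sum]
  refine Finset.sum_congr rfl fun n _ => ?_
  rw [mul_assoc, Finset.sum_mul]

/-- The averaging inequality (1). -/
lemma G_avg {P : Par} {W : (ℕ → ℝ) → Prop} (hW : Gd W) {c : ℝ} (hc : 0 < c) {q : ℕ} (hq : 0 < q)
    {F : ℕ → Finset ℕ} {h : ℕ → ℕ → ℝ} (hF : ∀ i j, i < j → j < q → Lt (F i) (F j))
    (h0 : ∀ i < q, ∀ n ∈ F i, 0 ≤ h i n) (h1 : ∀ i < q, ∀ n, n ∉ F i → h i n = 0)
    (h2 : ∀ i < q, ∑ n ∈ F i, h i n = 1)
    (hcomb : ∀ z : ℕ → ℕ → ℝ, (∀ i < q, Z P (z i)) → Suc q z →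
      W (fun x => c * ∑ i ∈ range q, z i x)) :
    G W ((range q).biUnion F) (fun n => (q : ℝ)⁻¹ * ∑ i ∈ range q, h i n) ≤
      (q : ℝ)⁻¹ * ∑ i ∈ range q, G (Z P) (F i) (h i) - Real.log (c * q) := by
  have hq' : (0 : ℝ) < q := by exact_mod_cast hq
  apply G_le hW
  intro y hy
  set U := (range q).biUnion F with hU
  have hFU : ∀ i < q, F i ⊆ U := fun i hi => Finset.subset_biUnion_of_mem F (mem_range.2 hi)
  -- [A]
  have hA : ∀ z : ℕ → ℕ → ℝ, (∀ i < q, Z P (z i)) → ∑ i ∈ range q, pr (F i) (z i) y ≤ c⁻¹ := by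
    intro z hz
    have h3 := hy.2 _ (hcomb (fun i x => if x ∈ F i then z i x else 0)
      (fun i hi => (hz i hi).restr (F i)) (by
        intro i j hij hj x x' hx hx'
        have hxi : x ∈ F i := by
          by_contra h; apply hx; simp [h]
        have hxj : x' ∈ F j := by
          by_contra h; apply hx'; simp [h]
        exact hF i j hij hj x hxi x' hxj))
    rw [pr_comb] at h3
    rw [Finset.sum_congr rfl fun i hi => pr_restr (hFU i (mem_range.1 hi)) (z i) y] at h3
    rw [← one_div, le_div_iff₀' hc]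
    exact h3
  have hbd : ∀ i < q, ∀ z, Z P z → pr (F i) z y ≤ c⁻¹ := by
    intro i hi z hz
    have h3 := hA (fun j => if j = i then z else fun _ => 0) (by
      intro j _
      by_cases hji : j = i
      · simp only [hji, if_true]; exact hz
      · simp only [hji, if_false]; exact Z.zero)
    rw [Finset.sum_eq_single_of_mem i (mem_range.2 hi)] at h3
    · simpa using h3
    · intro j _ hji
      unfold pr
      simp [hji]
  set s : ℕ → ℝ := fun i => sSup {x | ∃ z, Z P z ∧ x = pr (F i) z y} with hs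
  have hle : ∀ i < q, ∀ z, Z P z → pr (F i) z y ≤ s i := by
    intro i hi z hz
    apply le_csSup
    · refine ⟨c⁻¹, ?_⟩
      rintro x ⟨z, hz, rfl⟩
      exact hbd i hi z hz
    · exact ⟨z, hz, rfl⟩
  have hne : ∀ i, {x | ∃ z, Z P z ∧ x = pr (F i) z y}.Nonempty := fun i => ⟨_, _, Z.zero, rfl⟩
  have hspos : ∀ i < q, 0 < s i := by
    intro i hi
    have h3 : (F i).Nonempty := by
      rw [Finset.nonempty_iff_ne_empty]
      intro he
      have := h2 i hi
      rw [he] at this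
      simp at this
    obtain ⟨n, hn⟩ := h3
    have h4 := hle i hi _ (Z.unit (P := P) n)
    have h5 : pr (F i) (fun x => if x = n then 1 else 0) y = y n := by
      unfold pr
      rw [Finset.sum_eq_single_of_mem n hn]
      · simp
      · intro m _ hm
        simp [hm]
    rw [h5] at h4
    exact (hy.1 n (hFU i hi hn)).trans_le h4
  have hsum : ∑ i ∈ range q, s i ≤ c⁻¹ := by
    apply le_of_forall_pos_le_add
    intro ε hε
    have hex : ∀ i : ℕ, ∃ z, Z P z ∧ s i - ε / q < pr (F i) z y := by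
      intro i
      obtain ⟨x, ⟨z, hz, rfl⟩, hx⟩ := exists_lt_of_lt_csSup (hne i)
        (show s i - ε / q < sSup {x | ∃ z, Z P z ∧ x = pr (F i) z y} by
          have : 0 < ε / q := by positivity
          simp only [hs]
          linarith)
      exact ⟨z, hz, hx⟩
    choose z hz hz' using hex
    have h3 := hA z fun i _ => hz i
    have h4 : ∑ i ∈ range q, (s i - ε / q) ≤ ∑ i ∈ range q, pr (F i) (z i) y :=
      Finset.sum_le_sum fun i _ => (hz' i).le
    rw [Finset.sum_sub_distrib, Finset.sum_const, card_range, nsmul_eq_mul] at h4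
    have h5 : (q : ℝ) * (ε / q) = ε := by field_simp
    rw [h5] at h4
    linarith
  -- the key estimate on each piece
  have hkey : ∀ i < q, ∑ n ∈ F i, h i n * Real.log (y n) ≤
      G (Z P) (F i) (h i) + Real.log (s i) := by
    intro i hi
    have hsi := hspos i hi
    have hfe : Feas (Z P) (F i) fun n => y n / s i := by
      refine ⟨fun n hn => div_pos (hy.1 n (hFU i hi hn)) hsi, fun z hz => ?_⟩
      have e : pr (F i) z (fun n => y n / s i) = pr (F i) z y / s i := by
        unfold pr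
        rw [Finset.sum_div]
        exact Finset.sum_congr rfl fun n _ => by ring
      rw [e, div_le_one hsi]
      exact hle i hi z hz
    have h3 := le_G (gd_Z P) (h0 i hi) hfe
    have e : ∑ n ∈ F i, h i n * Real.log (y n / s i) =
        ∑ n ∈ F i, h i n * Real.log (y n) - Real.log (s i) := by
      have e2 : Real.log (s i) = (∑ n ∈ F i, h i n) * Real.log (s i) := by rw [h2 i hi, one_mul]
      rw [e2, Finset.sum_mul, ← Finset.sum_sub_distrib]
      refine Finset.sum_congr rfl fun n hn => ?_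
      rw [Real.log_div (hy.1 n (hFU i hi hn)).ne' hsi.ne']
      ring
    rw [e] at h3
    linarith
  have hlog : ∑ i ∈ range q, Real.log (s i) ≤ -(q * Real.log (c * q)) := by
    have h3 : ∀ i ∈ range q, Real.log (s i) ≤ s i * (c * q) - 1 - Real.log (c * q) := by
      intro i hi
      have hsi := hspos i (mem_range.1 hi)
      have h4 := Real.log_le_sub_one_of_pos (mul_pos hsi (mul_pos hc hq'))
      rw [Real.log_mul hsi.ne' (mul_pos hc hq').ne'] at h4
      linarith
    refine (Finset.sum_le_sum h3).trans ?_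
    rw [Finset.sum_sub_distrib, Finset.sum_sub_distrib, Finset.sum_const, Finset.sum_const,
      card_range, nsmul_eq_mul, nsmul_eq_mul, ← Finset.sum_mul]
    have h5 : (∑ i ∈ range q, s i) * (c * q) ≤ c⁻¹ * (c * q) :=
      mul_le_mul_of_nonneg_right hsum (by positivity)
    have h6 : c⁻¹ * (c * q) = q := by field_simp
    rw [h6] at h5
    linarith
  rw [avg_sum h1]
  have h3 : ∑ i ∈ range q, ∑ n ∈ F i, h i n * Real.log (y n) ≤
      ∑ i ∈ range q, G (Z P) (F i) (h i) + ∑ i ∈ range q, Real.log (s i) := by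
    rw [← Finset.sum_add_distrib]
    exact Finset.sum_le_sum fun i hi => hkey i (mem_range.1 hi)
  have h4 := mul_le_mul_of_nonneg_left (h3.trans (add_le_add_right hlog _))
    (inv_nonneg.2 hq'.le)
  refine h4.trans (le_of_eq ?_)
  field_simp
  ring

/-! ### Blocks of a sequence of probabilities -/

/-- union of the supports in a block -/
def UF (F : ℕ → Finset ℕ) (l r : ℕ) : Finset ℕ := (Ico l r).biUnion F

/-- flat average over a block -/
noncomputable def av (g : ℕ → ℕ → ℝ) (l r : ℕ) : ℕ → ℝ :=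
  fun n => ((r : ℝ) - l)⁻¹ * ∑ t ∈ Ico l r, g t n

/-- a sequence of probabilities with successive supports -/
structure Dat (g : ℕ → ℕ → ℝ) (F : ℕ → Finset ℕ) : Prop where
  pos : ∀ t, ∀ n ∈ F t, 0 < g t n
  zero : ∀ t n, n ∉ F t → g t n = 0
  sum : ∀ t, ∑ n ∈ F t, g t n = 1
  suc : ∀ s t, s < t → Lt (F s) (F t)

lemma UF_lt {g : ℕ → ℕ → ℝ} {F : ℕ → Finset ℕ} (hd : Dat g F) {l r l' r' : ℕ} (h : r ≤ l') :
    Lt (UF F l r) (UF F l' r') := by
  intro a ha b hb
  unfold UF at ha hb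
  rw [Finset.mem_biUnion] at ha hb
  obtain ⟨s, hs, ha⟩ := ha
  obtain ⟨t, ht, hb⟩ := hb
  rw [Finset.mem_Ico] at hs ht
  exact hd.suc s t (by omega) a ha b hb

lemma UF_eq_range (F : ℕ → Finset ℕ) (l q : ℕ) :
    UF F l (l + q) = (range q).biUnion fun i => F (l + i) := by
  unfold UF
  ext n
  simp only [Finset.mem_biUnion, Finset.mem_Ico, Finset.mem_range]
  constructor
  · rintro ⟨t, ⟨h1, h2⟩, h3⟩
    exact ⟨t - l, by omega, by rwa [Nat.add_sub_cancel' h1]⟩
  · rintro ⟨i, h1, h2⟩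
    exact ⟨l + i, ⟨by omega, by omega⟩, h2⟩

lemma av_eq_range (g : ℕ → ℕ → ℝ) (l q : ℕ) :
    av g l (l + q) = fun n => (q : ℝ)⁻¹ * ∑ i ∈ range q, g (l + i) n := by
  funext n
  unfold av
  rw [Finset.sum_Ico_eq_sum_range, Nat.add_sub_cancel_left]
  push_cast
  rw [add_sub_cancel_left]

lemma av_pos {g : ℕ → ℕ → ℝ} {F : ℕ → Finset ℕ} (hd : Dat g F) {l r : ℕ} (h : l < r) {n : ℕ}
    (hn : n ∈ UF F l r) : 0 < av g l r n := by
  unfold UF at hn
  rw [Finset.mem_biUnion] at hn
  obtain ⟨t, ht, hn⟩ := hn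
  have h1 : (0 : ℝ) < (r : ℝ) - l := by
    have : (l : ℝ) < r := by exact_mod_cast h
    linarith
  unfold av
  apply mul_pos (inv_pos.2 h1)
  apply Finset.sum_pos' _ ⟨t, ht, hd.pos t n hn⟩
  intro s _
  by_cases hs : n ∈ F s
  · exact (hd.pos s n hs).le
  · rw [hd.zero s n hs]

lemma av_zero {g : ℕ → ℕ → ℝ} {F : ℕ → Finset ℕ} (hd : Dat g F) {l r : ℕ} {n : ℕ}
    (hn : n ∉ UF F l r) : av g l r n = 0 := by
  unfold av
  rw [Finset.sum_eq_zero, mul_zero]
  intro t ht
  apply hd.zero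
  intro h
  exact hn (Finset.mem_biUnion.2 ⟨t, ht, h⟩)

lemma av_sum {g : ℕ → ℕ → ℝ} {F : ℕ → Finset ℕ} (hd : Dat g F) {l r : ℕ} (h : l < r) :
    ∑ n ∈ UF F l r, av g l r n = 1 := by
  obtain ⟨q, rfl⟩ := Nat.exists_eq_add_of_lt h
  have hq : l + q + 1 = l + (q + 1) := by ring
  rw [hq, UF_eq_range, av_eq_range]
  have h1 := avg_sum (F := fun i => F (l + i)) (q := q + 1) (h := fun i => g (l + i))
    (fun i _ n hn => hd.zero _ n hn) (fun _ => 1)
  simp only [mul_one] at h1
  rw [h1, Finset.sum_congr rfl fun i _ => hd.sum (l + i)]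
  rw [Finset.sum_const, card_range, nsmul_eq_mul, mul_one]
  have : ((q + 1 : ℕ) : ℝ) ≠ 0 := by positivity
  field_simp

lemma G_avg_block (P : Par) {g : ℕ → ℕ → ℝ} {F : ℕ → Finset ℕ} (hd : Dat g F) (j l q : ℕ)
    (hq : 0 < q) (hqn : q ≤ P.n j) :
    G (Z P) (UF F l (l + q)) (av g l (l + q)) ≤
      (q : ℝ)⁻¹ * ∑ t ∈ Ico l (l + q), G (Z P) (F t) (g t) + P.a j * Real.log 4 - Real.log q := by
  rw [UF_eq_range, av_eq_range, Finset.sum_Ico_eq_sum_range, Nat.add_sub_cancel_left]
  have h4 : (0 : ℝ) < 4 ^ P.a j := by positivity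
  have hq' : (0 : ℝ) < q := by exact_mod_cast hq
  have h := G_avg (P := P) (W := Z P) (gd_Z P) (inv_pos.2 h4) hq (F := fun i => F (l + i))
    (h := fun i => g (l + i)) (fun i i' hii' _ => hd.suc _ _ (by omega))
    (fun i _ n hn => (hd.pos _ n hn).le) (fun i _ n hn => hd.zero _ n hn)
    (fun i _ => hd.sum _) (fun z hz hs => Z.comb j q z hqn hz hs)
  refine h.trans (le_of_eq ?_)
  rw [Real.log_mul (inv_pos.2 h4).ne' hq'.ne', Real.log_inv, Real.log_pow]
  ring

lemma sum_blocks (φ : ℕ → ℝ) (c K : ℕ) : ∀ N : ℕ,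
    ∑ s ∈ range N, ∑ t ∈ Ico (c + s * K) (c + s * K + K), φ t = ∑ t ∈ Ico c (c + N * K), φ t
  | 0 => by simp
  | N + 1 => by
    rw [Finset.sum_range_succ, sum_blocks φ c K N,
      Finset.sum_Ico_consecutive φ (by omega) (by omega)]
    congr 2
    ring

/-- A node of a tree where the averaging inequality is almost sharp. -/
lemma exists_node (P : Par) {g : ℕ → ℕ → ℝ} {F : ℕ → Finset ℕ} (hd : Dat g F) {N : ℕ}
    (hN : 1 ≤ N) {δ : ℝ} (hδ : 0 < δ) (t0 : ℕ) : ∃ c e, t0 ≤ c ∧
      G (Z P) (UF F c (c + N ^ (e + 1))) (av g c (c + N ^ (e + 1))) ≤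
        (N : ℝ)⁻¹ * ∑ s ∈ range N, G (Z P) (UF F (c + s * N ^ e) (c + s * N ^ e + N ^ e))
          (av g (c + s * N ^ e) (c + s * N ^ e + N ^ e)) - Real.log N + δ := by
  by_contra hcon
  push Not at hcon
  obtain ⟨j, L, hL, hlog⟩ := P.tight N δ hN hδ
  have hN' : (0 : ℝ) < N := by exact_mod_cast (show 0 < N by omega)
  have claim : ∀ e c : ℕ, t0 ≤ c → ((N : ℝ) ^ e)⁻¹ * ∑ t ∈ Ico c (c + N ^ e), G (Z P) (F t) (g t) +
      e * (δ - Real.log N) ≤ G (Z P) (UF F c (c + N ^ e)) (av g c (c + N ^ e)) := by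
    intro e
    induction e with
    | zero =>
      intro c _
      have e1 : UF F c (c + N ^ 0) = F c := by
        rw [pow_zero]
        unfold UF
        rw [Nat.Ico_succ_singleton]
        exact Finset.singleton_biUnion
      have e2 : av g c (c + N ^ 0) = g c := by
        funext n
        rw [pow_zero]
        unfold av
        rw [Nat.Ico_succ_singleton, Finset.sum_singleton]
        push_cast
        rw [add_sub_cancel_left, inv_one, one_mul]
      rw [e1, e2, pow_zero, pow_zero, Nat.Ico_succ_singleton, Finset.sum_singleton]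
      simp
    | succ e ih =>
      intro c hc
      refine le_trans ?_ (hcon c e hc).le
      have h1 : ∑ s ∈ range N, (((N : ℝ) ^ e)⁻¹ *
          ∑ t ∈ Ico (c + s * N ^ e) (c + s * N ^ e + N ^ e), G (Z P) (F t) (g t) +
          e * (δ - Real.log N)) ≤
          ∑ s ∈ range N, G (Z P) (UF F (c + s * N ^ e) (c + s * N ^ e + N ^ e))
          (av g (c + s * N ^ e) (c + s * N ^ e + N ^ e)) :=
        Finset.sum_le_sum fun s _ => ih _ (by omega)
      rw [Finset.sum_add_distrib, ← Finset.mul_sum, sum_blocks, Finset.sum_const, card_range,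
        nsmul_eq_mul, show N * N ^ e = N ^ (e + 1) by ring] at h1
      have h2 := mul_le_mul_of_nonneg_left h1 (inv_nonneg.2 hN'.le)
      have e3 : (N : ℝ)⁻¹ * (((N : ℝ) ^ e)⁻¹ * ∑ t ∈ Ico c (c + N ^ (e + 1)), G (Z P) (F t) (g t) +
          N * (e * (δ - Real.log N))) = ((N : ℝ) ^ (e + 1))⁻¹ *
          ∑ t ∈ Ico c (c + N ^ (e + 1)), G (Z P) (F t) (g t) + e * (δ - Real.log N) := by
        generalize (∑ t ∈ Ico c (c + N ^ (e + 1)), G (Z P) (F t) (g t)) = Sg
        rw [pow_succ, mul_inv]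
        field_simp
      rw [e3] at h2
      push_cast
      linarith
  have h1 := claim L t0 le_rfl
  have h2 := G_avg_block P hd j t0 (N ^ L) (by positivity) hL
  push_cast at h2
  rw [Real.log_pow] at h2
  linarith

/-- `y` is an `N`-average on `A`. -/
def Blk (P : Par) (N : ℕ) (A : Finset ℕ) (y : ℕ → ℝ) : Prop :=
  (∀ n ∈ A, 0 < y n) ∧ ∃ Fs : ℕ → Finset ℕ, (∀ i j, i < j → j < N → Lt (Fs i) (Fs j)) ∧
    A = (range N).biUnion Fs ∧ ∀ s < N, ∀ z, Z P z → pr (Fs s) z y ≤ 1 / N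

lemma Blk.congr {P : Par} {N : ℕ} {A : Finset ℕ} {y y' : ℕ → ℝ} (h : Blk P N A y)
    (hy : ∀ n ∈ A, y' n = y n) : Blk P N A y' := by
  obtain ⟨h1, Fs, h2, h3, h4⟩ := h
  refine ⟨fun n hn => by rw [hy n hn]; exact h1 n hn, Fs, h2, h3, fun s hs z hz => ?_⟩
  have e : pr (Fs s) z y' = pr (Fs s) z y := by
    unfold pr
    refine Finset.sum_congr rfl fun n hn => ?_
    rw [hy n]
    rw [h3]
    exact Finset.subset_biUnion_of_mem Fs (mem_range.2 hs) hn
  rw [e]
  exact h4 s hs z hz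

/-- Tight averages (2). -/
lemma exists_tight (P : Par) {g : ℕ → ℕ → ℝ} {F : ℕ → Finset ℕ} (hd : Dat g F) {N : ℕ}
    (hN : 1 ≤ N) {δ : ℝ} (hδ : 0 < δ) (t0 : ℕ) : ∃ (l r : ℕ) (y : ℕ → ℝ), t0 ≤ l ∧ l < r ∧
      Blk P N (UF F l r) y ∧ G (Z P) (UF F l r) (av g l r) - 2 * δ ≤
        ∑ n ∈ UF F l r, av g l r n * Real.log (y n) := by
  obtain ⟨c, e, hc, hG⟩ := exists_node P hd hN hδ t0
  have hN' : (0 : ℝ) < N := by exact_mod_cast (show 0 < N by omega)
  set K := N ^ e with hK
  have hKpos : 0 < K := by positivity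
  have hNK : N ^ (e + 1) = N * K := by rw [hK]; ring
  rw [hNK] at hG
  set Fs : ℕ → Finset ℕ := fun s => UF F (c + s * K) (c + s * K + K) with hFs
  have hlt : ∀ i j, i < j → j < N → Lt (Fs i) (Fs j) := by
    intro i j hij _
    apply UF_lt hd
    have : (i + 1) * K ≤ j * K := Nat.mul_le_mul_right K hij
    nlinarith
  have hUF : UF F c (c + N * K) = (range N).biUnion Fs := by
    ext n
    simp only [UF, hFs, Finset.mem_biUnion, Finset.mem_Ico, Finset.mem_range]
    constructor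
    · rintro ⟨t, ⟨h1, h2⟩, h3⟩
      refine ⟨(t - c) / K, ?_, t, ⟨?_, ?_⟩, h3⟩
      · rw [Nat.div_lt_iff_lt_mul hKpos]
        omega
      · have := Nat.div_mul_le_self (t - c) K
        omega
      · have := Nat.lt_div_mul_add hKpos (a := t - c)
        omega
    · rintro ⟨s, hs, t, ⟨h1, h2⟩, h3⟩
      refine ⟨t, ⟨by omega, ?_⟩, h3⟩
      have : (s + 1) * K ≤ N * K := Nat.mul_le_mul_right K hs
      nlinarith
  have hav : av g c (c + N * K) =
      fun n => (N : ℝ)⁻¹ * ∑ s ∈ range N, av g (c + s * K) (c + s * K + K) n := by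
    funext n
    have hK' : (0 : ℝ) < K := by exact_mod_cast hKpos
    unfold av
    have e1 : ∀ s ∈ range N, (((c + s * K + K : ℕ) : ℝ) - ((c + s * K : ℕ) : ℝ))⁻¹ *
        ∑ t ∈ Ico (c + s * K) (c + s * K + K), g t n =
        (K : ℝ)⁻¹ * ∑ t ∈ Ico (c + s * K) (c + s * K + K), g t n := by
      intro s _
      congr 2
      push_cast
      ring
    rw [Finset.sum_congr rfl e1, ← Finset.mul_sum, sum_blocks]
    push_cast
    rw [add_sub_cancel_left, mul_inv, mul_assoc]
  -- near optimal functions on the children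
  choose ys hys1 hys2 using fun s : ℕ => exists_near (gd_Z P) (Fs s)
    (av g (c + s * K) (c + s * K + K)) hδ
  obtain ⟨Y, hY⟩ := exists_glue hlt fun s n => ys s n / N
  refine ⟨c, c + N * K, Y, hc, by have := Nat.mul_pos (show 0 < N by omega) hKpos; omega, ⟨?_, Fs, hlt, hUF, ?_⟩, ?_⟩
  · intro n hn
    rw [hUF, Finset.mem_biUnion] at hn
    obtain ⟨s, hs, hn⟩ := hn
    rw [hY s (mem_range.1 hs) n hn]
    exact div_pos ((hys1 s).1 n hn) hN'
  · intro s hs z hz
    have e1 : pr (Fs s) z Y = pr (Fs s) z (ys s) / N := by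
      unfold pr
      rw [Finset.sum_div]
      refine Finset.sum_congr rfl fun n hn => ?_
      rw [hY s hs n hn]
      ring
    rw [e1]
    exact div_le_div_of_nonneg_right ((hys1 s).2 z hz) hN'.le
  · have h0 := avg_sum (F := Fs) (q := N) (h := fun s => av g (c + s * K) (c + s * K + K))
      (fun s _ n hn => av_zero hd hn) (fun n => Real.log (Y n))
    rw [hav, hUF]
    rw [hav, hUF] at hG
    beta_reduce
    rw [h0]
    have h1 : ∀ s ∈ range N, G (Z P) (Fs s) (av g (c + s * K) (c + s * K + K)) - δ -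
        Real.log N ≤ ∑ n ∈ Fs s, av g (c + s * K) (c + s * K + K) n * Real.log (Y n) := by
      intro s hs
      have h2 := hys2 s
      have h3 : ∑ n ∈ Fs s, av g (c + s * K) (c + s * K + K) n * Real.log (Y n) =
          ∑ n ∈ Fs s, av g (c + s * K) (c + s * K + K) n * Real.log (ys s n) - Real.log N := by
        have h4 : Real.log N = (∑ n ∈ Fs s, av g (c + s * K) (c + s * K + K) n) * Real.log N := by
          rw [av_sum hd (by omega), one_mul]
        rw [h4, Finset.sum_mul, ← Finset.sum_sub_distrib]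
        refine Finset.sum_congr rfl fun n hn => ?_
        rw [hY s (mem_range.1 hs) n hn, Real.log_div ((hys1 s).1 n hn).ne' hN'.ne']
        ring
      rw [h3]
      linarith
    have h5 := Finset.sum_le_sum h1
    rw [Finset.sum_sub_distrib, Finset.sum_sub_distrib, Finset.sum_const, Finset.sum_const,
      card_range, nsmul_eq_mul, nsmul_eq_mul] at h5
    have h6 := mul_le_mul_of_nonneg_left h5 (inv_nonneg.2 hN'.le)
    have e2 : (N : ℝ)⁻¹ * (∑ s ∈ range N, G (Z P) (Fs s) (av g (c + s * K) (c + s * K + K)) -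
        N * δ - N * Real.log N) = (N : ℝ)⁻¹ *
        ∑ s ∈ range N, G (Z P) (Fs s) (av g (c + s * K) (c + s * K + K)) - δ - Real.log N := by
      field_simp
    rw [e2] at h6
    linarith

/-! ### The basic inequality -/

/-- (3): successive elements of `Z` against an `N`-average. -/
lemma Blk.sum_le {P : Par} {N : ℕ} {A : Finset ℕ} {y : ℕ → ℝ} (h : Blk P N A y) (hN : 1 ≤ N)
    {q : ℕ} {z : ℕ → ℕ → ℝ} (hz : ∀ l < q, Z P (z l)) (hs : Suc q z) :
    ∑ l ∈ range q, pr A (z l) y ≤ 1 + q / N := by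
  classical
  obtain ⟨h1, Fs, h2, rfl, h4⟩ := h
  have hN' : (0 : ℝ) < N := by exact_mod_cast (show 0 < N by omega)
  rw [Finset.sum_congr rfl fun l _ => pr_biUnion h2 (z l) y]
  rw [← Finset.sum_product']
  set I := (range q ×ˢ range N).filter fun p => ∃ n ∈ Fs p.2, z p.1 n ≠ 0 with hI
  have e1 : ∑ p ∈ range q ×ˢ range N, pr (Fs p.2) (z p.1) y = ∑ p ∈ I, pr (Fs p.2) (z p.1) y := by
    symm
    apply Finset.sum_subset (Finset.filter_subset _ _)
    intro p hp hp'
    unfold pr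
    apply Finset.sum_eq_zero
    intro n hn
    have : z p.1 n = 0 := by
      by_contra h0
      exact hp' (Finset.mem_filter.2 ⟨hp, n, hn, h0⟩)
    rw [this, zero_mul]
  rw [e1]
  have h5 : ∑ p ∈ I, pr (Fs p.2) (z p.1) y ≤ ∑ _p ∈ I, (1 / N : ℝ) := by
    apply Finset.sum_le_sum
    intro p hp
    obtain ⟨hp1, _⟩ := Finset.mem_filter.1 hp
    obtain ⟨hp2, hp3⟩ := Finset.mem_product.1 hp1
    exact h4 p.2 (mem_range.1 hp3) (z p.1) (hz p.1 (mem_range.1 hp2))
  have h6 : I.card ≤ q + N := by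
    rw [← card_range (q + N)]
    apply Finset.card_le_card_of_injOn (fun p => p.1 + p.2)
    · intro p hp
      obtain ⟨hp1, _⟩ := Finset.mem_filter.1 hp
      obtain ⟨hp2, hp3⟩ := Finset.mem_product.1 hp1
      have := mem_range.1 hp2
      have := mem_range.1 hp3
      simp only [Finset.coe_range, Set.mem_Iio]
      omega
    · intro p hp p' hp' heq
      obtain ⟨hp1, n, hn, hzn⟩ := Finset.mem_filter.1 hp
      obtain ⟨hp2, hp3⟩ := Finset.mem_product.1 hp1
      obtain ⟨hp1', n', hn', hzn'⟩ := Finset.mem_filter.1 hp'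
      obtain ⟨hp2', hp3'⟩ := Finset.mem_product.1 hp1'
      simp only at heq
      rcases lt_trichotomy p.1 p'.1 with h7 | h7 | h7
      · have h8 := hs p.1 p'.1 h7 (mem_range.1 hp2') n n' hzn hzn'
        have h9 := h2 p'.2 p.2 (by omega) (mem_range.1 hp3) n' hn' n hn
        omega
      · exact Prod.ext h7 (by omega)
      · have h8 := hs p'.1 p.1 h7 (mem_range.1 hp2) n' n hzn' hzn
        have h9 := h2 p.2 p'.2 (by omega) (mem_range.1 hp3') n hn n' hn'
        omega
  refine h5.trans ?_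
  rw [Finset.sum_const, nsmul_eq_mul]
  have h7 : (I.card : ℝ) ≤ q + N := by exact_mod_cast h6
  calc (I.card : ℝ) * (1 / N) ≤ (q + N) * (1 / N) :=
        mul_le_mul_of_nonneg_right h7 (by positivity)
    _ = 1 + q / N := by field_simp; ring

lemma Blk.le_one {P : Par} {N : ℕ} {A : Finset ℕ} {y : ℕ → ℝ} (h : Blk P N A y)
    {z : ℕ → ℝ} (hz : Z P z) : pr A z y ≤ 1 := by
  obtain ⟨h1, Fs, h2, rfl, h4⟩ := h
  rw [pr_biUnion h2]
  refine (Finset.sum_le_sum fun s hs => h4 s (mem_range.1 hs) z hz).trans ?_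
  rw [Finset.sum_const, card_range, nsmul_eq_mul]
  rcases Nat.eq_zero_or_pos N with rfl | hN
  · simp
  · have hN' : (0 : ℝ) < N := by exact_mod_cast hN
    rw [mul_one_div_cancel hN'.ne']

lemma Blk.feas {P : Par} {N : ℕ} {A : Finset ℕ} {y : ℕ → ℝ} (h : Blk P N A y) :
    Feas (Z P) A y := ⟨h.1, fun _ hz => h.le_one hz⟩

lemma pr_nonneg {A : Finset ℕ} {z y : ℕ → ℝ} (hz : ∀ n, 0 ≤ z n) (hy : ∀ n ∈ A, 0 < y n) :
    0 ≤ pr A z y := by
  unfold pr
  exact Finset.sum_nonneg fun n hn => mul_nonneg (hz n) (hy n hn).le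

lemma ppos (P : Par) (k : ℕ) : 0 < P.a k := lt_of_le_of_lt (Nat.zero_le k) (P.a_gt k)

lemma four_eq (m : ℕ) : (4 : ℝ) ^ m = 2 ^ m * 2 ^ m := by
  rw [← mul_pow]; norm_num

/-- (4), the basic inequality for rapidly increasing sequences of averages. -/
lemma basic (P : Par) (k : ℕ) {A : ℕ → Finset ℕ} {Y : ℕ → ℝ} {Nn : ℕ → ℕ}
    (hA : ∀ i j, i < j → j < P.n k → Lt (A i) (A j))
    (hB : ∀ i < P.n k, Blk P (Nn i) (A i) Y) (hN : ∀ i < P.n k, P.n k ^ 2 ≤ Nn i)
    {ii : ℕ → ℕ} (hE : ∀ j, k < j → ∀ i < P.n k, i ≠ ii j →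
      2 * P.n j ≤ Nn i ∨ (A i).card ≤ 2 ^ P.a j) :
    ∀ d : ℕ, ∀ z, Z P z → ∀ Q ⊆ range (P.n k), ∀ M : ℝ, 1 ≤ M → M ≤ 2 ^ d → M ≤ 4 ^ P.a k →
      ∑ i ∈ Q, pr (A i) z Y ≤ Q.card / M + Cc (P.p k) d := by
  classical
  have hnk : 0 < P.n k := lt_of_le_of_lt (Nat.zero_le k) (P.n_gt k)
  have hN1 : ∀ i < P.n k, 1 ≤ Nn i := fun i hi => le_trans (Nat.one_le_pow _ _ hnk) (hN i hi)
  have hone : ∀ i < P.n k, ∀ z, Z P z → pr (A i) z Y ≤ 1 := fun i hi z hz => (hB i hi).le_one hz
  have hnn : ∀ i < P.n k, ∀ z, Z P z → 0 ≤ pr (A i) z Y := fun i hi z hz =>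
    pr_nonneg (fun n => (hz.bd n).1) (hB i hi).1
  intro d
  induction d with
  | zero =>
    intro z hz Q hQ M hM1 hM2 _
    rw [pow_zero] at hM2
    have hM : M = 1 := le_antisymm hM2 hM1
    rw [hM, div_one]
    have h1 : ∑ i ∈ Q, pr (A i) z Y ≤ ∑ _i ∈ Q, (1 : ℝ) :=
      Finset.sum_le_sum fun i hi => hone i (mem_range.1 (hQ hi)) z hz
    rw [Finset.sum_const, nsmul_eq_mul, mul_one] at h1
    simp only [Cc, Nat.cast_zero, add_zero]
    exact h1
  | succ d ih =>
    intro z hz Q hQ M hM1 hM2 hM3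
    have hMpos : 0 < M := by linarith
    have hQM : 0 ≤ (Q.card : ℝ) / M := by positivity
    have hQk : Q.card ≤ P.n k := by
      have := Finset.card_le_card hQ
      rwa [card_range] at this
    have hCc : (Cc (P.p k) (d + 1) : ℝ) = 3 + P.p k * (Cc (P.p k) d + 2) := by
      simp only [Cc]
      push_cast
      ring
    have hCc0 : (0 : ℝ) ≤ Cc (P.p k) d := Nat.cast_nonneg _
    have hp0 : (0 : ℝ) ≤ P.p k := Nat.cast_nonneg _
    have hC3 : (3 : ℝ) ≤ Cc (P.p k) (d + 1) := by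
      rw [hCc]
      have : 0 ≤ (P.p k : ℝ) * (Cc (P.p k) d + 2) := by positivity
      linarith
    cases hz with
    | zero =>
      have h1 : ∑ i ∈ Q, pr (A i) (fun _ => 0) Y = 0 := by
        apply Finset.sum_eq_zero
        intro i _
        unfold pr
        simp
      rw [h1]
      positivity
    | unit m =>
      -- at most one block contains `m`
      have h1 : ∑ i ∈ Q, pr (A i) (fun x => if x = m then 1 else 0) Y ≤ 1 := by
        by_cases h : ∃ i ∈ Q, m ∈ A i
        · obtain ⟨i, hi, him⟩ := h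
          rw [Finset.sum_eq_single_of_mem i hi]
          · exact hone i (mem_range.1 (hQ hi)) _ (Z.unit m)
          · intro j hj hji
            unfold pr
            apply Finset.sum_eq_zero
            intro n hn
            have : n ≠ m := by
              rintro rfl
              exact hji (lt_disj hA (mem_range.1 (hQ hj)) (mem_range.1 (hQ hi)) hn him)
            simp [this]
        · push Not at h
          rw [Finset.sum_eq_zero]
          · exact zero_le_one
          · intro i hi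
            unfold pr
            apply Finset.sum_eq_zero
            intro n hn
            have : n ≠ m := by
              rintro rfl
              exact h i hi hn
            simp [this]
      linarith
    | comb j q z hq hz hs =>
      have h4 : (0 : ℝ) < 4 ^ P.a j := by positivity
      have h41 : (1 : ℝ) ≤ 4 ^ P.a j := one_le_pow₀ (by norm_num)
      have hcomb : ∀ i, pr (A i) (fun x => (4 ^ P.a j : ℝ)⁻¹ * ∑ l ∈ range q, z l x) Y =
          (4 ^ P.a j : ℝ)⁻¹ * ∑ l ∈ range q, pr (A i) (z l) Y := fun i => pr_comb _ _ _ _ _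
      rcases lt_trichotomy k j with hkj | hkj | hkj
      · -- heavier weights
        have h2j : (0 : ℝ) < 2 ^ P.a j := by positivity
        have hb : ∀ i ∈ Q, pr (A i) (fun x => (4 ^ P.a j : ℝ)⁻¹ * ∑ l ∈ range q, z l x) Y ≤
            (if i = ii j then 1 else 0) + 3 / 2 * (2 ^ P.a j : ℝ)⁻¹ := by
          intro i hi
          have hik := mem_range.1 (hQ hi)
          by_cases hii : i = ii j
          · rw [if_pos hii]
            have h5 := hone i hik _ (Z.comb j q z hq hz hs)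
            have : (0 : ℝ) ≤ 3 / 2 * (2 ^ P.a j : ℝ)⁻¹ := by positivity
            linarith
          · rw [if_neg hii, zero_add]
            rcases hE j hkj i hik hii with h5 | h5
            · rw [hcomb]
              have h6 := (hB i hik).sum_le (hN1 i hik) hz hs
              have hNi : (0 : ℝ) < Nn i := by exact_mod_cast hN1 i hik
              have h7 : (q : ℝ) / Nn i ≤ 1 / 2 := by
                rw [div_le_iff₀ hNi]
                have h8 : 2 * q ≤ Nn i := by omega
                have h9 : 2 * (q : ℝ) ≤ Nn i := by exact_mod_cast h8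
                linarith
              have h8 : (4 ^ P.a j : ℝ)⁻¹ ≤ (2 ^ P.a j : ℝ)⁻¹ := by
                apply inv_anti₀ h2j
                rw [four_eq]
                have : (1 : ℝ) ≤ 2 ^ P.a j := one_le_pow₀ (by norm_num)
                nlinarith
              calc (4 ^ P.a j : ℝ)⁻¹ * ∑ l ∈ range q, pr (A i) (z l) Y
                  ≤ (4 ^ P.a j : ℝ)⁻¹ * (3 / 2) :=
                    mul_le_mul_of_nonneg_left (by linarith) (by positivity)
                _ ≤ 3 / 2 * (2 ^ P.a j : ℝ)⁻¹ := by nlinarith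
            · -- few coordinates
              have h6 : pr (A i) (fun x => (4 ^ P.a j : ℝ)⁻¹ * ∑ l ∈ range q, z l x) Y ≤
                  ∑ _n ∈ A i, (4 ^ P.a j : ℝ)⁻¹ := by
                unfold pr
                apply Finset.sum_le_sum
                intro n hn
                have h7 : ∑ l ∈ range q, z l n ≤ 1 := sum_suc_le hs n fun l hl => ((hz l hl).bd n).2
                have h8 : 0 ≤ ∑ l ∈ range q, z l n :=
                  Finset.sum_nonneg fun l hl => ((hz l (mem_range.1 hl)).bd n).1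
                have h9 : Y n ≤ 1 := (hB i hik).feas.le_one (gd_Z P) hn
                have h10 : 0 < Y n := (hB i hik).1 n hn
                have h11 : (∑ l ∈ range q, z l n) * Y n ≤ 1 := mul_le_one₀ h7 h10.le h9
                rw [mul_assoc]
                calc (4 ^ P.a j : ℝ)⁻¹ * ((∑ l ∈ range q, z l n) * Y n)
                    ≤ (4 ^ P.a j : ℝ)⁻¹ * 1 := mul_le_mul_of_nonneg_left h11 (by positivity)
                  _ = (4 ^ P.a j : ℝ)⁻¹ := mul_one _
              rw [Finset.sum_const, nsmul_eq_mul] at h6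
              refine h6.trans ?_
              have h7 : ((A i).card : ℝ) ≤ 2 ^ P.a j := by exact_mod_cast h5
              have h8 : ((A i).card : ℝ) * (4 ^ P.a j : ℝ)⁻¹ ≤ 2 ^ P.a j * (4 ^ P.a j : ℝ)⁻¹ :=
                mul_le_mul_of_nonneg_right h7 (by positivity)
              refine h8.trans ?_
              have h9 : (2 : ℝ) ^ P.a j * (4 ^ P.a j : ℝ)⁻¹ = (2 ^ P.a j : ℝ)⁻¹ := by
                rw [four_eq, mul_inv]
                field_simp
              rw [h9]
              have : (0 : ℝ) < (2 ^ P.a j : ℝ)⁻¹ := by positivity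
              linarith
        have h5 := Finset.sum_le_sum hb
        rw [Finset.sum_add_distrib, Finset.sum_const, nsmul_eq_mul] at h5
        have h6 : ∑ i ∈ Q, (if i = ii j then (1 : ℝ) else 0) ≤ 1 := by
          rw [Finset.sum_ite_eq' Q (ii j)]
          split_ifs <;> norm_num
        have h7 : (Q.card : ℝ) * (3 / 2 * (2 ^ P.a j : ℝ)⁻¹) ≤ 3 / 2 := by
          have h8 : Q.card ≤ P.a j := hQk.trans ((P.n_le k j hkj).trans (P.p_le j))
          have h9 : (Q.card : ℝ) ≤ P.a j := by exact_mod_cast h8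
          have h10 : (P.a j : ℝ) ≤ 2 ^ P.a j := by
            exact_mod_cast (Nat.lt_two_pow_self (n := P.a j)).le
          have h11 : (Q.card : ℝ) * (2 ^ P.a j : ℝ)⁻¹ ≤ 1 := by
            rw [← div_eq_mul_inv, div_le_one h2j]
            linarith
          linarith
        linarith
      · -- same weight
        subst hkj
        have hb : ∀ i ∈ Q, pr (A i) (fun x => (4 ^ P.a k : ℝ)⁻¹ * ∑ l ∈ range q, z l x) Y ≤
            (4 ^ P.a k : ℝ)⁻¹ * (1 + (P.n k : ℝ)⁻¹) := by
          intro i hi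
          have hik := mem_range.1 (hQ hi)
          rw [hcomb]
          apply mul_le_mul_of_nonneg_left _ (by positivity)
          refine ((hB i hik).sum_le (hN1 i hik) hz hs).trans ?_
          have hnk' : (0 : ℝ) < P.n k := by exact_mod_cast hnk
          have h5 : (P.n k : ℝ) ^ 2 ≤ Nn i := by exact_mod_cast hN i hik
          have h6 : (q : ℝ) ≤ P.n k := by exact_mod_cast hq
          have h7 : (q : ℝ) / Nn i ≤ P.n k / (P.n k : ℝ) ^ 2 := by
            apply div_le_div₀ hnk'.le h6 (by positivity) h5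
          have h8 : (P.n k : ℝ) / (P.n k : ℝ) ^ 2 = (P.n k : ℝ)⁻¹ := by field_simp
          linarith
        have h5 := Finset.sum_le_sum hb
        rw [Finset.sum_const, nsmul_eq_mul] at h5
        have hnk' : (0 : ℝ) < P.n k := by exact_mod_cast hnk
        have h6 : (Q.card : ℝ) * (P.n k : ℝ)⁻¹ ≤ 1 := by
          rw [← div_eq_mul_inv, div_le_one hnk']
          exact_mod_cast hQk
        have h7 : (Q.card : ℝ) * ((4 ^ P.a k : ℝ)⁻¹ * (1 + (P.n k : ℝ)⁻¹)) ≤
            (Q.card + 1) * (4 ^ P.a k : ℝ)⁻¹ := by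
          have h8 : (Q.card : ℝ) * ((4 ^ P.a k : ℝ)⁻¹ * (1 + (P.n k : ℝ)⁻¹)) =
            (Q.card + Q.card * (P.n k : ℝ)⁻¹) * (4 ^ P.a k : ℝ)⁻¹ := by ring
          rw [h8]
          exact mul_le_mul_of_nonneg_right (by linarith) (by positivity)
        have h8 : (Q.card : ℝ) * (4 ^ P.a k : ℝ)⁻¹ ≤ Q.card / M := by
          rw [← div_eq_mul_inv]
          exact div_le_div_of_nonneg_left (Nat.cast_nonneg _) hMpos hM3
        have h9 : (4 ^ P.a k : ℝ)⁻¹ ≤ 1 := inv_le_one_of_one_le₀ h41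
        linarith
      · -- lighter weights
        have hqp : q ≤ P.p k := hq.trans (P.n_le j k hkj)
        set meets : ℕ → ℕ → Prop := fun l i => ∃ x ∈ A i, z l x ≠ 0 with hmeets
        set T := Q.filter fun i => ∃ l l', l < l' ∧ l' < q ∧ meets l i ∧ meets l' i with hT
        -- few exceptional blocks
        have hTcard : T.card ≤ q := by
          rw [← card_range q]
          apply Finset.card_le_card_of_injOn
            (fun i => if h : ∃ l, meets l i then Nat.find h else 0)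
          · intro i hi
            obtain ⟨hi1, l, l', hll', hl', hm, hm'⟩ := Finset.mem_filter.1 hi
            have hex : ∃ l, meets l i := ⟨l, hm⟩
            simp only [dif_pos hex, Finset.coe_range, Set.mem_Iio]
            have := Nat.find_min' hex hm
            omega
          · intro i hi i' hi' heq
            obtain ⟨hi1, l, l', hll', hl', hm, hm'⟩ := Finset.mem_filter.1 hi
            obtain ⟨hi1', r, r', hrr', hr', hn, hn'⟩ := Finset.mem_filter.1 hi'
            have hex : ∃ l, meets l i := ⟨l, hm⟩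
            have hex' : ∃ l, meets l i' := ⟨r, hn⟩
            simp only [dif_pos hex, dif_pos hex'] at heq
            have hf1 := Nat.find_min' hex hm
            have hf2 := Nat.find_min' hex' hn
            have hs1 := Nat.find_spec hex
            have hs2 := Nat.find_spec hex'
            have hik := mem_range.1 (hQ hi1)
            have hik' := mem_range.1 (hQ hi1')
            by_contra hne
            rcases lt_or_gt_of_ne hne with hlt | hlt
            · -- `i < i'`, `l'` meets `i`, the common minimum meets `i'`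
              obtain ⟨x, hx, hzx⟩ := hm'
              obtain ⟨x', hx', hzx'⟩ := hs2
              have h5 := hA i i' hlt hik' x hx x' hx'
              have h6 := hs (Nat.find hex') l' (by omega) hl' x' x hzx' hzx
              omega
            · obtain ⟨x, hx, hzx⟩ := hn'
              obtain ⟨x', hx', hzx'⟩ := hs1
              have h5 := hA i' i hlt hik x hx x' hx'
              have h6 := hs (Nat.find hex) r' (by omega) hr' x' x hzx' hzx
              omega
        set Q' := Q \ T with hQ'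
        set Ql : ℕ → Finset ℕ := fun l => Q'.filter fun i => meets l i with hQl
        have hQlsum : ∑ l ∈ range q, (Ql l).card ≤ Q.card := by
          rw [← Finset.card_biUnion]
          · apply Finset.card_le_card
            intro i hi
            rw [Finset.mem_biUnion] at hi
            obtain ⟨l, _, hi⟩ := hi
            exact (Finset.mem_sdiff.1 (Finset.mem_filter.1 hi).1).1
          · intro l hl l' hl' hne
            rw [Function.onFun, Finset.disjoint_left]
            intro i hi hi'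
            obtain ⟨h5, h6⟩ := Finset.mem_filter.1 hi
            obtain ⟨_, h7⟩ := Finset.mem_filter.1 hi'
            obtain ⟨h8, h9⟩ := Finset.mem_sdiff.1 h5
            apply h9
            rcases lt_or_gt_of_ne hne with hlt | hlt
            · exact Finset.mem_filter.2 ⟨h8, l, l', hlt, mem_range.1 hl', h6, h7⟩
            · exact Finset.mem_filter.2 ⟨h8, l', l, hlt, mem_range.1 hl, h7, h6⟩
        -- the main part
        set M' : ℝ := max 1 (M / 4 ^ P.a j) with hM'
        have hM'1 : 1 ≤ M' := le_max_left _ _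
        have hM'2 : M' ≤ 2 ^ d := by
          apply max_le (one_le_pow₀ (by norm_num))
          rw [div_le_iff₀ h4]
          have h5 : (4 : ℝ) ≤ 4 ^ P.a j := by
            calc (4 : ℝ) = 4 ^ 1 := by norm_num
              _ ≤ 4 ^ P.a j := pow_le_pow_right₀ (by norm_num) (ppos P j)
          rw [pow_succ] at hM2
          have h6 : (0 : ℝ) < 2 ^ d := by positivity
          nlinarith
        have hM'3 : M' ≤ 4 ^ P.a k := by
          apply max_le (one_le_pow₀ (by norm_num))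
          refine (div_le_self hMpos.le h41).trans hM3
        have hmain : ∑ i ∈ Q', pr (A i) (fun x => (4 ^ P.a j : ℝ)⁻¹ * ∑ l ∈ range q, z l x) Y ≤
            Q.card / M + q * Cc (P.p k) d := by
          have e1 : ∑ i ∈ Q', pr (A i) (fun x => (4 ^ P.a j : ℝ)⁻¹ * ∑ l ∈ range q, z l x) Y =
              (4 ^ P.a j : ℝ)⁻¹ * ∑ l ∈ range q, ∑ i ∈ Ql l, pr (A i) (z l) Y := by
            rw [Finset.sum_congr rfl fun i _ => hcomb i, ← Finset.mul_sum, Finset.sum_comm]
            congr 1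
            refine Finset.sum_congr rfl fun l _ => ?_
            symm
            apply Finset.sum_subset (Finset.filter_subset _ _)
            intro i hi hi'
            unfold pr
            apply Finset.sum_eq_zero
            intro n hn
            have : z l n = 0 := by
              by_contra h0
              exact hi' (Finset.mem_filter.2 ⟨hi, n, hn, h0⟩)
            rw [this, zero_mul]
          rw [e1]
          have h5 : ∀ l ∈ range q, ∑ i ∈ Ql l, pr (A i) (z l) Y ≤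
              (Ql l).card / M' + Cc (P.p k) d := by
            intro l hl
            refine ih (z l) (hz l (mem_range.1 hl)) (Ql l) ?_ M' hM'1 hM'2 hM'3
            intro i hi
            exact hQ (Finset.mem_sdiff.1 (Finset.mem_filter.1 hi).1).1
          have h6 := Finset.sum_le_sum h5
          rw [Finset.sum_add_distrib, Finset.sum_const, card_range, nsmul_eq_mul,
            ← Finset.sum_div] at h6
          have h7 : (∑ l ∈ range q, ((Ql l).card : ℝ)) ≤ Q.card := by exact_mod_cast hQlsum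
          have hM'pos : 0 < M' := by linarith
          have h8 : (∑ l ∈ range q, ((Ql l).card : ℝ)) / M' ≤ Q.card / M' :=
            div_le_div_of_nonneg_right h7 hM'pos.le
          have h9 : (4 ^ P.a j : ℝ)⁻¹ * (Q.card / M') ≤ Q.card / M := by
            have h10 : M ≤ 4 ^ P.a j * M' := by
              have := le_max_right 1 (M / 4 ^ P.a j)
              rw [div_le_iff₀ h4] at this
              linarith
            rw [inv_mul_eq_div, div_div, mul_comm M']
            exact div_le_div_of_nonneg_left (Nat.cast_nonneg _) hMpos h10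
          have h10 : (4 ^ P.a j : ℝ)⁻¹ ≤ 1 := inv_le_one_of_one_le₀ h41
          have h11 : 0 ≤ (q : ℝ) * Cc (P.p k) d := by positivity
          calc (4 ^ P.a j : ℝ)⁻¹ * ∑ l ∈ range q, ∑ i ∈ Ql l, pr (A i) (z l) Y
              ≤ (4 ^ P.a j : ℝ)⁻¹ * (Q.card / M' + q * Cc (P.p k) d) :=
                mul_le_mul_of_nonneg_left (by linarith) (by positivity)
            _ = (4 ^ P.a j : ℝ)⁻¹ * (Q.card / M') + (4 ^ P.a j : ℝ)⁻¹ * (q * Cc (P.p k) d) := by
                ring
            _ ≤ Q.card / M + 1 * (q * Cc (P.p k) d) :=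
                add_le_add h9 (mul_le_mul_of_nonneg_right h10 h11)
            _ = Q.card / M + q * Cc (P.p k) d := by ring
        have hexc : ∑ i ∈ T, pr (A i) (fun x => (4 ^ P.a j : ℝ)⁻¹ * ∑ l ∈ range q, z l x) Y ≤
            q := by
          have h5 : ∑ i ∈ T, pr (A i) (fun x => (4 ^ P.a j : ℝ)⁻¹ * ∑ l ∈ range q, z l x) Y ≤
              ∑ _i ∈ T, (1 : ℝ) := Finset.sum_le_sum fun i hi =>
            hone i (mem_range.1 (hQ (Finset.mem_filter.1 hi).1)) _ (Z.comb j q z hq hz hs)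
          rw [Finset.sum_const, nsmul_eq_mul, mul_one] at h5
          refine h5.trans ?_
          exact_mod_cast hTcard
        have hsplit := Finset.sum_sdiff (Finset.filter_subset
          (fun i => ∃ l l', l < l' ∧ l' < q ∧ meets l i ∧ meets l' i) Q)
          (f := fun i => pr (A i) (fun x => (4 ^ P.a j : ℝ)⁻¹ * ∑ l ∈ range q, z l x) Y)
        rw [← hsplit, hCc]
        have hqp' : (q : ℝ) ≤ P.p k := by exact_mod_cast hqp
        have h5 : (q : ℝ) * (Cc (P.p k) d + 1) ≤ P.p k * (Cc (P.p k) d + 2) := by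
          apply mul_le_mul hqp' (by linarith) (by positivity) hp0
        have h6 : (q : ℝ) * (Cc (P.p k) d + 1) = q * Cc (P.p k) d + q := by ring
        have h7 := add_le_add hmain hexc
        refine h7.trans ?_
        linarith

/-! ### Values of `v` on averages -/

lemma G_Zk_eq_of_card (P : Par) (j : ℕ) {A : Finset ℕ} (hA : A.card ≤ 2 ^ P.a j) {h : ℕ → ℝ}
    (hh : ∀ n ∈ A, 0 ≤ h n) : G (Z P) A h ≤ G (Zk P j) A h := by
  apply G_le (gd_Z P)
  intro y hy
  refine le_G (gd_Zk P j) hh ⟨hy.1, fun w hw => ?_⟩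
  rcases hw with hw | ⟨q, z, hq, hz, hs, rfl⟩
  · exact hy.2 w hw
  · have h2 : (0 : ℝ) < 2 ^ P.a j := by positivity
    have h6 : pr A (fun x => (2 ^ P.a j : ℝ)⁻¹ * ∑ l ∈ range q, z l x) y ≤
        ∑ _n ∈ A, (2 ^ P.a j : ℝ)⁻¹ := by
      unfold pr
      apply Finset.sum_le_sum
      intro n hn
      have h7 : ∑ l ∈ range q, z l n ≤ 1 := sum_suc_le hs n fun l hl => ((hz l hl).bd n).2
      have h9 : y n ≤ 1 := hy.le_one (gd_Z P) hn
      have h10 : 0 < y n := hy.1 n hn
      have h11 : (∑ l ∈ range q, z l n) * y n ≤ 1 := mul_le_one₀ h7 h10.le h9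
      rw [mul_assoc]
      calc (2 ^ P.a j : ℝ)⁻¹ * ((∑ l ∈ range q, z l n) * y n)
          ≤ (2 ^ P.a j : ℝ)⁻¹ * 1 := mul_le_mul_of_nonneg_left h11 (by positivity)
        _ = (2 ^ P.a j : ℝ)⁻¹ := mul_one _
    rw [Finset.sum_const, nsmul_eq_mul] at h6
    refine h6.trans ?_
    have h7 : (A.card : ℝ) ≤ 2 ^ P.a j := by exact_mod_cast hA
    rw [← div_eq_mul_inv, div_le_one h2]
    exact h7

lemma vv_small_card (P : Par) (j : ℕ) {A : Finset ℕ} (hA : A.card ≤ 2 ^ P.a j) {h : ℕ → ℝ}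
    (hh : ∀ n ∈ A, 0 ≤ h n) : vv P j A h ≤ 0 := by
  unfold vv
  apply div_nonpos_of_nonpos_of_nonneg _ (den_pos P j).le
  have h1 : (su A h).card ≤ 2 ^ P.a j := (Finset.card_le_card (su_sub A h)).trans hA
  have := G_Zk_eq_of_card P j h1 (h := h) fun n hn => hh n (su_sub A h hn)
  linarith

lemma vv_small_blk (P : Par) (j : ℕ) {N : ℕ} {A : Finset ℕ} {h y : ℕ → ℝ} (hB : Blk P N A y)
    (hN : 1 ≤ N) (hj : 2 * P.n j ≤ N) (hh : ∀ n ∈ A, 0 < h n) {δ : ℝ}
    (hG : G (Z P) A h - 2 * δ ≤ ∑ n ∈ A, h n * Real.log (y n)) :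
    vv P j A h ≤ 2 * δ / (P.a j * Real.log 2) := by
  unfold vv
  rw [su_eq_self hh]
  apply div_le_div_of_nonneg_right _ (den_pos P j).le
  have hfe : Feas (Zk P j) A y := by
    refine ⟨hB.1, fun w hw => ?_⟩
    rcases hw with hw | ⟨q, z, hq, hz, hs, rfl⟩
    · exact hB.le_one hw
    · rw [pr_comb]
      have h1 := hB.sum_le hN hz hs
      have hNi : (0 : ℝ) < N := by exact_mod_cast hN
      have h7 : (q : ℝ) / N ≤ 1 / 2 := by
        rw [div_le_iff₀ hNi]
        have h8 : 2 * q ≤ N := by omega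
        have h9 : 2 * (q : ℝ) ≤ N := by exact_mod_cast h8
        linarith
      have h2 : (2 ^ P.a j : ℝ)⁻¹ ≤ 1 / 2 := by
        rw [one_div]
        apply inv_anti₀ (by norm_num)
        calc (2 : ℝ) = 2 ^ 1 := by norm_num
          _ ≤ 2 ^ P.a j := pow_le_pow_right₀ (by norm_num) (ppos P j)
      calc (2 ^ P.a j : ℝ)⁻¹ * ∑ i ∈ range q, pr A (z i) y ≤ (2 ^ P.a j : ℝ)⁻¹ * (3 / 2) :=
            mul_le_mul_of_nonneg_left (by linarith) (by positivity)
        _ ≤ 1 := by linarith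
  have h3 := le_G (gd_Zk P j) (fun n hn => (hh n hn).le) hfe
  linarith

/-- Lower bound for `v_k` on the average of a rapidly increasing sequence. -/
lemma vv_large (P : Par) (k : ℕ) {A : ℕ → Finset ℕ} {Y : ℕ → ℝ} {Nn : ℕ → ℕ} {h : ℕ → ℕ → ℝ}
    (hA : ∀ i j, i < j → j < P.n k → Lt (A i) (A j))
    (hB : ∀ i < P.n k, Blk P (Nn i) (A i) Y) (hN : ∀ i < P.n k, P.n k ^ 2 ≤ Nn i)
    {ii : ℕ → ℕ} (hE : ∀ j, k < j → ∀ i < P.n k, i ≠ ii j →
      2 * P.n j ≤ Nn i ∨ (A i).card ≤ 2 ^ P.a j)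
    (h0 : ∀ i < P.n k, ∀ n ∈ A i, 0 < h i n) (h1 : ∀ i < P.n k, ∀ n, n ∉ A i → h i n = 0)
    (h2 : ∀ i < P.n k, ∑ n ∈ A i, h i n = 1)
    (hG : ∀ i < P.n k, G (Z P) (A i) (h i) - 1 / 10 ≤ ∑ n ∈ A i, h i n * Real.log (Y n)) :
    1 - (P.a k : ℝ)⁻¹ ≤ vv P k ((range (P.n k)).biUnion A)
      (fun n => (P.n k : ℝ)⁻¹ * ∑ i ∈ range (P.n k), h i n) := by
  have hnk : 0 < P.n k := lt_of_le_of_lt (Nat.zero_le k) (P.n_gt k)
  have hnk' : (0 : ℝ) < P.n k := by exact_mod_cast hnk
  set K := P.n k with hK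
  set U := (range K).biUnion A with hU
  set H : ℕ → ℝ := fun n => (K : ℝ)⁻¹ * ∑ i ∈ range K, h i n with hH
  have hHpos : ∀ n ∈ U, 0 < H n := by
    intro n hn
    rw [hU, Finset.mem_biUnion] at hn
    obtain ⟨i, hi, hn⟩ := hn
    simp only [hH]
    apply mul_pos (inv_pos.2 hnk')
    apply Finset.sum_pos' _ ⟨i, hi, h0 i (mem_range.1 hi) n hn⟩
    intro j hj
    by_cases hjn : n ∈ A j
    · exact (h0 j (mem_range.1 hj) n hjn).le
    · rw [h1 j (mem_range.1 hj) n hjn]
  have hHsum : ∑ n ∈ U, H n = 1 := by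
    have e := avg_sum h1 (fun _ => 1)
    simp only [mul_one] at e
    rw [hU, hH]
    rw [e, Finset.sum_congr rfl fun i hi => h2 i (mem_range.1 hi), Finset.sum_const, card_range,
      nsmul_eq_mul, mul_one]
    field_simp
  -- the feasible function
  have h4 : (0 : ℝ) < 4 ^ P.a k := by positivity
  set c : ℝ := 2 / 3 * 4 ^ P.a k / K with hc
  have hcpos : 0 < c := by positivity
  have hYpos : ∀ n ∈ U, 0 < Y n := by
    intro n hn
    rw [hU, Finset.mem_biUnion] at hn
    obtain ⟨i, hi, hn⟩ := hn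
    exact (hB i (mem_range.1 hi)).1 n hn
  have hfe : Feas (Z P) U fun n => c * Y n := by
    refine ⟨fun n hn => mul_pos hcpos (hYpos n hn), fun z hz => ?_⟩
    have e : pr U z (fun n => c * Y n) = c * pr U z Y := by
      unfold pr
      rw [Finset.mul_sum]
      exact Finset.sum_congr rfl fun n _ => by ring
    rw [e, hU, pr_biUnion hA]
    have h5 := basic P k hA hB hN hE (2 * P.a k) z hz (range K) subset_rfl (4 ^ P.a k)
      (one_le_pow₀ (by norm_num)) (by rw [pow_mul]; norm_num) le_rfl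
    rw [card_range] at h5
    have h6 : 2 * 4 ^ P.a k * (Cc (P.p k) (2 * P.a k) : ℝ) ≤ K := by exact_mod_cast P.big k
    have h7 : (Cc (P.p k) (2 * P.a k) : ℝ) ≤ K / (2 * 4 ^ P.a k) := by
      rw [le_div_iff₀ (by positivity)]
      linarith
    have h8 : ∑ i ∈ range K, pr (A i) z Y ≤ 3 / 2 * (K / 4 ^ P.a k) := by
      refine h5.trans ?_
      have h9 : (K : ℝ) / (2 * 4 ^ P.a k) = 1 / 2 * (K / 4 ^ P.a k) := by
        field_simp
      rw [h9] at h7
      linarith
    calc c * ∑ i ∈ range K, pr (A i) z Y ≤ c * (3 / 2 * (K / 4 ^ P.a k)) :=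
          mul_le_mul_of_nonneg_left h8 hcpos.le
      _ = 1 := by rw [hc]; field_simp
  have h5 := le_G (gd_Z P) (fun n hn => (hHpos n hn).le) hfe
  have e1 : ∑ n ∈ U, H n * Real.log (c * Y n) =
      Real.log c + (K : ℝ)⁻¹ * ∑ i ∈ range K, ∑ n ∈ A i, h i n * Real.log (Y n) := by
    have e2 : Real.log c = (∑ n ∈ U, H n) * Real.log c := by rw [hHsum, one_mul]
    rw [e2, ← avg_sum h1 (fun n => Real.log (Y n)), Finset.sum_mul, ← Finset.sum_add_distrib]
    refine Finset.sum_congr rfl fun n hn => ?_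
    rw [Real.log_mul hcpos.ne' (hYpos n hn).ne']
    simp only [hH]
    ring
  rw [e1] at h5
  have h6 := Finset.sum_le_sum fun i hi => hG i (mem_range.1 hi)
  rw [Finset.sum_sub_distrib, Finset.sum_const, card_range, nsmul_eq_mul] at h6
  have h7 := mul_le_mul_of_nonneg_left h6 (inv_nonneg.2 hnk'.le)
  have e3 : (K : ℝ)⁻¹ * (∑ i ∈ range K, G (Z P) (A i) (h i) - K * (1 / 10)) =
      (K : ℝ)⁻¹ * ∑ i ∈ range K, G (Z P) (A i) (h i) - 1 / 10 := by
    field_simp
  rw [e3] at h7
  -- the upper bound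
  have h2k : (0 : ℝ) < 2 ^ P.a k := by positivity
  have h8 := G_avg (P := P) (W := Zk P k) (gd_Zk P k) (inv_pos.2 h2k) hnk hA
    (fun i hi n hn => (h0 i hi n hn).le) h1 h2
    (fun z hz hs => Or.inr ⟨K, z, le_rfl, hz, hs, rfl⟩)
  -- conclusion
  have hl2 : (0.6931471803 : ℝ) < Real.log 2 := Real.log_two_gt_d9
  have ha : (0 : ℝ) < P.a k := by exact_mod_cast ppos P k
  have h23 : -(1 / 2 : ℝ) ≤ Real.log (2 / 3) := by
    rw [show (2 / 3 : ℝ) = (3 / 2)⁻¹ by norm_num, Real.log_inv]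
    have := Real.log_le_sub_one_of_pos (show (0 : ℝ) < 3 / 2 by norm_num)
    linarith
  have e4 : Real.log c = Real.log (2 / 3) + P.a k * (2 * Real.log 2) - Real.log K := by
    rw [hc, Real.log_div (by positivity) hnk'.ne', Real.log_mul (by norm_num) h4.ne',
      Real.log_pow, show (4 : ℝ) = 2 ^ 2 by norm_num, Real.log_pow]
    push_cast
    ring
  have e5 : Real.log ((2 ^ P.a k : ℝ)⁻¹ * K) = Real.log K - P.a k * Real.log 2 := by
    rw [Real.log_mul (inv_pos.2 h2k).ne' hnk'.ne', Real.log_inv, Real.log_pow]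
    ring
  have hdiff : (P.a k - 1) * Real.log 2 ≤ G (Z P) U H - G (Zk P k) U H := by
    rw [e4] at h5
    rw [e5] at h8
    linarith
  unfold vv
  rw [su_eq_self hHpos, le_div_iff₀ (den_pos P k)]
  refine le_trans (le_of_eq ?_) hdiff
  field_simp

/-- availability -/
lemma avail (P : Par) (k : ℕ) {τ : ℝ} (hτ : 0 < τ) {g : ℕ → ℕ → ℝ} {F : ℕ → Finset ℕ}
    (hd : Dat g F) (t0 : ℕ) : ∃ (l r ii : ℕ → ℕ), t0 ≤ l 0 ∧ (∀ i, l i < r i) ∧
      (∀ i, r i ≤ l (i + 1)) ∧
      1 - (P.a k : ℝ)⁻¹ ≤ vv P k ((range (P.n k)).biUnion fun i => UF F (l i) (r i))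
        (fun n => (P.n k : ℝ)⁻¹ * ∑ i ∈ range (P.n k), av g (l i) (r i) n) ∧
      ∀ j, k < j → ∀ i < P.n k, i ≠ ii j →
        vv P j (UF F (l i) (r i)) (av g (l i) (r i)) ≤ τ * (1 / 4) ^ j := by
  classical
  set dl : ℕ → ℝ := fun N => min (1 / 20) (τ * (1 / 4) ^ N / 4) with hdl
  have hdlpos : ∀ N, 0 < dl N := fun N => lt_min (by norm_num) (by positivity)
  have key : ∀ σ : ℕ × ℕ, ∃ (l r : ℕ) (y : ℕ → ℝ), σ.1 ≤ l ∧ l < r ∧
      Blk P (σ.2 + 1) (UF F l r) y ∧ G (Z P) (UF F l r) (av g l r) - 2 * dl (σ.2 + 1) ≤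
        ∑ n ∈ UF F l r, av g l r n * Real.log (y n) :=
    fun σ => exists_tight P hd (by omega) (hdlpos _) σ.1
  choose l r y k1 k2 k3 k4 using key
  set nx : ℕ × ℕ → ℕ × ℕ := fun σ =>
    (r σ, max σ.2 (2 * ∑ j ∈ range (UF F (l σ) (r σ)).card, P.n j)) with hnx
  set st : ℕ → ℕ × ℕ := fun i => Nat.rec (t0, P.n k ^ 2) (fun _ σ => nx σ) i with hst
  have hst0 : st 0 = (t0, P.n k ^ 2) := rfl
  have hsts : ∀ i, st (i + 1) = nx (st i) := fun _ => rfl
  have hmono : Monotone fun i => (st i).2 := by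
    apply monotone_nat_of_le_succ
    intro i
    rw [hsts]
    exact le_max_left _ _
  have hlr : ∀ i j, i < j → r (st i) ≤ l (st j) := by
    intro i j hij
    obtain ⟨d, rfl⟩ := Nat.exists_eq_add_of_lt hij
    clear hij
    induction d with
    | zero =>
      have := k1 (st (i + 1))
      rw [hsts] at this
      exact this
    | succ d ih =>
      have h1 := k1 (st (i + (d + 1) + 1))
      have h2 := k2 (st (i + d + 1))
      rw [hsts] at h1
      exact (ih.trans h2.le).trans h1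
  have hAlt : ∀ i j, i < j → j < P.n k →
      Lt (UF F (l (st i)) (r (st i))) (UF F (l (st j)) (r (st j))) :=
    fun i j hij _ => UF_lt hd (hlr i j hij)
  obtain ⟨Y, hY⟩ := exists_glue hAlt fun i n => y (st i) n
  have hB : ∀ i < P.n k, Blk P ((st i).2 + 1) (UF F (l (st i)) (r (st i))) Y :=
    fun i hi => (k3 (st i)).congr (hY i hi)
  have hN : ∀ i < P.n k, P.n k ^ 2 ≤ (st i).2 + 1 := by
    intro i _
    have := hmono (Nat.zero_le i)
    simp only [hst0] at this
    omega
  set ii : ℕ → ℕ := fun j => if h : ∃ i, 2 ^ P.a j < (UF F (l (st i)) (r (st i))).card then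
    Nat.find h else 0 with hii
  have hE : ∀ j, k < j → ∀ i < P.n k, i ≠ ii j →
      2 * P.n j ≤ (st i).2 + 1 ∨ (UF F (l (st i)) (r (st i))).card ≤ 2 ^ P.a j := by
    intro j _ i _ hne
    by_cases hc : (UF F (l (st i)) (r (st i))).card ≤ 2 ^ P.a j
    · exact Or.inr hc
    · left
      have hex : ∃ i, 2 ^ P.a j < (UF F (l (st i)) (r (st i))).card := ⟨i, not_le.1 hc⟩
      have h1 : ii j = Nat.find hex := by simp only [hii, dif_pos hex]
      have h2 := Nat.find_spec hex
      have h3 := Nat.find_min' hex (not_le.1 hc)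
      rw [h1] at hne
      have h4 : Nat.find hex + 1 ≤ i := by omega
      have h5 := hmono h4
      simp only at h5
      rw [hsts] at h5
      have h6 : 2 * ∑ j ∈ range (UF F (l (st (Nat.find hex))) (r (st (Nat.find hex)))).card,
          P.n j ≤ (st i).2 := (le_max_right _ _).trans h5
      have h7 : j ∈ range (UF F (l (st (Nat.find hex))) (r (st (Nat.find hex)))).card := by
        rw [mem_range]
        have h8 := P.a_gt j
        have h9 := Nat.lt_two_pow_self (n := P.a j)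
        omega
      have h8 : P.n j ≤ ∑ j ∈ range (UF F (l (st (Nat.find hex))) (r (st (Nat.find hex)))).card,
          P.n j := Finset.single_le_sum (f := fun j => P.n j) (fun _ _ => Nat.zero_le _) h7
      omega
  have h0 : ∀ i < P.n k, ∀ n ∈ UF F (l (st i)) (r (st i)), 0 < av g (l (st i)) (r (st i)) n :=
    fun i _ n hn => av_pos hd (k2 _) hn
  have hGY : ∀ i < P.n k, G (Z P) (UF F (l (st i)) (r (st i))) (av g (l (st i)) (r (st i))) -
      2 * dl ((st i).2 + 1) ≤ ∑ n ∈ UF F (l (st i)) (r (st i)),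
        av g (l (st i)) (r (st i)) n * Real.log (Y n) := by
    intro i hi
    refine (k4 (st i)).trans (le_of_eq ?_)
    exact Finset.sum_congr rfl fun n hn => by rw [hY i hi n hn]
  refine ⟨fun i => l (st i), fun i => r (st i), ii, ?_, fun i => k2 _,
    fun i => hlr i (i + 1) (Nat.lt_succ_self i), ?_, ?_⟩
  · have := k1 (st 0)
    rw [hst0] at this
    exact this
  · refine vv_large P k hAlt hB hN hE h0 (fun i _ n hn => av_zero hd hn)
      (fun i _ => av_sum hd (k2 _)) ?_
    intro i hi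
    have h1 := hGY i hi
    have h2 : dl ((st i).2 + 1) ≤ 1 / 20 := min_le_left _ _
    linarith
  · intro j hkj i hi hne
    rcases hE j hkj i hi hne with h1 | h1
    · have h2 := vv_small_blk P j (hB i hi) (by omega) h1 (h0 i hi) (hGY i hi)
      refine h2.trans ?_
      have h3 : dl ((st i).2 + 1) ≤ τ * (1 / 4) ^ ((st i).2 + 1) / 4 := min_le_right _ _
      have h4 : ((1 / 4 : ℝ)) ^ ((st i).2 + 1) ≤ (1 / 4) ^ j := by
        apply pow_le_pow_of_le_one (by norm_num) (by norm_num)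
        have := P.n_gt j
        omega
      have h5 : 2 * dl ((st i).2 + 1) ≤ τ * (1 / 4) ^ j / 2 := by
        have h6 : τ * (1 / 4) ^ ((st i).2 + 1) ≤ τ * (1 / 4) ^ j :=
          mul_le_mul_of_nonneg_left h4 hτ.le
        linarith
      rw [div_le_iff₀ (den_pos P j)]
      have h6 : (1 / 2 : ℝ) ≤ P.a j * Real.log 2 := by
        have h7 : (1 : ℝ) ≤ P.a j := by exact_mod_cast ppos P j
        have hl2 : (0.6931471803 : ℝ) < Real.log 2 := Real.log_two_gt_d9
        nlinarith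
      have h7 : 0 < τ * (1 / 4) ^ j := by positivity
      nlinarith
    · exact (vv_small_card P j h1 fun n hn => (h0 i hi n hn).le).trans (by positivity)

end LSXM

open LSXM in
theorem exists_LS (D : ℕ → ℝ) : Nonempty (LS D) := by
  obtain ⟨P, hP1, hP2, hP3⟩ := exists_par D
  have ha : ∀ k, (0 : ℝ) < P.a k := fun k => by exact_mod_cast ppos P k
  have hn1 : ∀ k, 0 < P.n k := fun k => lt_of_le_of_lt (Nat.zero_le k) (P.n_gt k)
  have hNn : ∀ k, ((P.n k - 1 : ℕ) : ℝ) + 1 = P.n k := by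
    intro k
    have := hn1 k
    rw [Nat.cast_sub (by omega)]
    push_cast
    ring
  refine ⟨{
    N := fun k => P.n k - 1
    ep := fun k => (P.a k : ℝ)⁻¹
    v := vv P
    ep_pos := fun k => inv_pos.2 (ha k)
    v_nonneg := vv_nonneg P
    v_le := vv_le P
    v_congr := vv_congr P
    v_smul := fun k F h c hc hh => vv_smul P k F h c hc hh
    v_add := vv_add P
    v_sub := fun k F F' h hF _ h0 => vv_sub P k F F' h hF h0
    N_ge := hP1
    ep_le := ?_
    N_ep_le := ?_
    avail := ?_ }⟩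
  · intro j
    rw [← div_eq_mul_inv, div_le_one (ha j)]
    exact hP2 j
  · intro k j hkj
    rw [hNn, ← mul_assoc, ← div_eq_mul_inv, div_le_one (ha j)]
    exact hP3 k j hkj
  · intro k τ hτ g F h1 h2 h3 h4 t0
    obtain ⟨l, r, ii, a1, a2, a3, a4, a5⟩ := LSXM.avail P k hτ (g := g) (F := F) ⟨h1, h2, h3, h4⟩ t0
    refine ⟨l, r, ii, a1, a2, a3, ?_, ?_⟩
    · rw [hNn]
      have h5 : P.n k - 1 + 1 = P.n k := Nat.sub_add_cancel (hn1 k)
      rw [h5]
      exact a4
    · intro j hkj i hi hne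
      have := hn1 k
      exact a5 j hkj i (by omega) hne

end Pool.Agent.H51.SM
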