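import Pool.Agent.H51.SM.Upper
import Pool.Agent.H51.SM.Gain
import Pool.Agent.H51.SM.Assemble
import Pool.Agent.H51.SM.LSX

/-!
# Module FINAL: the frozen statement S03934
-/

set_option autoImplicit false

namespace Pool.Agent.H51.SM

open Finset

/-- the norm on finitely supported sequences -/
noncomputable def NX (L : LS dm) (x : ℕ →₀ ℝ) : ℝ := nm L x.support fun n => |x n|

section

variable {L : LS dm}

theorem NX_eq {x : ℕ →₀ ℝ} {U : Finset ℕ} (hU : x.support ⊆ U) : nm L U (fun n => |x n|) = NX L x := by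
  unfold NX
  rw [nm_inter (A := U) (F := x.support) (fun n hn => by
    rw [Finsupp.notMem_support_iff.1 hn, abs_zero]), inter_eq_right.2 hU]

theorem NX_add (x y : ℕ →₀ ℝ) : NX L (x + y) ≤ NX L x + NX L y := by
  classical
  set U := (x + y).support ∪ x.support ∪ y.support with hU
  rw [← NX_eq (U := U) (x := x + y) (subset_trans subset_union_left subset_union_left),
    ← NX_eq (U := U) (x := x) (subset_trans subset_union_right subset_union_left),
    ← NX_eq (U := U) (x := y) subset_union_right]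
  refine le_trans ?_ (nm_add (fun n => abs_nonneg _) (fun n => abs_nonneg _))
  exact nm_mono (fun n => abs_nonneg _) (fun n _ => by rw [Finsupp.add_apply]; exact abs_add_le _ _)
    (fun _ => by positivity)

theorem NX_smul (c : ℝ) (x : ℕ →₀ ℝ) : NX L (c • x) = |c| * NX L x := by
  rw [← NX_eq (U := x.support) (x := c • x) Finsupp.support_smul]
  have : nm L x.support (fun n => |(c • x) n|) = nm L x.support (fun n => |c| * |x n|) :=
    nm_congr fun n _ => by rw [Finsupp.smul_apply, smul_eq_mul, abs_mul]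
  rw [this]
  exact nm_smul (fun n => abs_nonneg _) (abs_nonneg c)

theorem NX_nonneg (x : ℕ →₀ ℝ) : 0 ≤ NX L x := nm_nonneg _ fun n => abs_nonneg _

theorem NX_coord (x : ℕ →₀ ℝ) (n : ℕ) : |x n| ≤ NX L x := by
  by_cases hn : n ∈ x.support
  · exact coord_le_nm (fun n => abs_nonneg _) hn
  · rw [Finsupp.notMem_support_iff.1 hn, abs_zero]
    exact NX_nonneg x

theorem NX_filter (x : ℕ →₀ ℝ) (m : ℕ) : NX L (x.filter fun i => i < m) ≤ NX L x := by
  classical
  rw [← NX_eq (U := x.support) (x := x.filter fun i => i < m) (by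
    rw [Finsupp.support_filter]; exact filter_subset _ _)]
  refine nm_mono (fun n => abs_nonneg _) (fun n _ => ?_) (fun n => abs_nonneg _)
  rw [Finsupp.filter_apply]
  split_ifs
  · exact le_rfl
  · rw [abs_zero]; exact abs_nonneg _

/-- absolute value of a combination of disjointly supported vectors -/
theorem abs_sum_disj {ι : Type*} (s : Finset ι) (a : ι → ℝ) (z : ι → (ℕ →₀ ℝ))
    (hd : ∀ i ∈ s, ∀ j ∈ s, i ≠ j → Disjoint (z i).support (z j).support) (n : ℕ) :
    |(∑ i ∈ s, a i • z i) n| = ∑ i ∈ s, |a i| * |z i n| := by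
  classical
  rw [Finsupp.finsetSum_apply]
  by_cases hex : ∃ i ∈ s, z i n ≠ 0
  · obtain ⟨i, hi, hin⟩ := hex
    have hz : ∀ j ∈ s, j ≠ i → z j n = 0 := by
      intro j hj hji
      by_contra hcon
      exact Finset.disjoint_left.1 (hd j hj i hi hji) (Finsupp.mem_support_iff.2 hcon)
        (Finsupp.mem_support_iff.2 hin)
    rw [sum_eq_single i (fun j hj hji => by rw [Finsupp.smul_apply, hz j hj hji, smul_zero])
      (fun h => absurd hi h), sum_eq_single i (fun j hj hji => by rw [hz j hj hji, abs_zero, mul_zero])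
      (fun h => absurd hi h), Finsupp.smul_apply, smul_eq_mul, abs_mul]
  · push Not at hex
    rw [sum_eq_zero (fun j hj => by rw [Finsupp.smul_apply, hex j hj, smul_zero]), abs_zero,
      sum_eq_zero (fun j hj => by rw [hex j hj, abs_zero, mul_zero])]

theorem succ_disj {x : ℕ → (ℕ →₀ ℝ)}
    (hx : ∀ s t, s < t → ∀ i ∈ (x s).support, ∀ j ∈ (x t).support, i < j) {s t : ℕ} (hst : s ≠ t) :
    Disjoint (x s).support (x t).support := by
  rw [Finset.disjoint_left]
  intro i hi hj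
  rcases lt_or_gt_of_ne hst with h | h
  · exact lt_irrefl _ (hx s t h i hi i hj)
  · exact lt_irrefl _ (hx t s h i hj i hi)

theorem F1_aux (x : ℕ → (ℕ →₀ ℝ))
    (hx : ∀ s t, s < t → ∀ i ∈ (x s).support, ∀ j ∈ (x t).support, i < j)
    (h1 : ∀ n, NX L (x n) = 1) (k : ℕ) (a : Fin k → ℝ) (ε : ℝ) (hε : 0 < ε) (N0 : ℕ) :
    ∃ n : Fin k → ℕ, StrictMono n ∧ (∀ i, N0 ≤ n i) ∧
      |NX L (∑ i, a i • x (n i)) - (∑ i, |a i| ^ (2 : ℝ)) ^ (1 / (2 : ℝ))| ≤ ε := by
  classical
  obtain ⟨n, hn, hN, hU⟩ := upper (L := L) (fun j l => |x j l|) (fun j => (x j).support)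
    (fun j l => abs_nonneg _) (fun j l hl => by
      rw [Finsupp.notMem_support_iff.1 hl, abs_zero])
    (fun i j hij => hx i j hij) (fun j => h1 j) k (fun i => |a i|) (fun i => abs_nonneg _) ε hε N0
  refine ⟨n, hn, hN, ?_⟩
  have e1 : (∑ i, |a i| ^ (2 : ℝ)) ^ (1 / (2 : ℝ)) = Real.sqrt (∑ i, |a i| ^ 2) := by
    rw [Real.sqrt_eq_rpow]
    congr 1
    apply sum_congr rfl
    intro i _
    exact Real.rpow_natCast _ 2
  rw [e1]
  set y := ∑ i, a i • x (n i) with hy
  set U : Finset ℕ := y.support ∪ univ.biUnion fun i => (x (n i)).support with hUdef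
  have h2 := hU U (fun i => subset_trans (subset_biUnion_of_mem (fun i => (x (n i)).support) (mem_univ i))
    subset_union_right)
  have h3 : nm L U (fun l => ∑ i, |a i| * |x (n i) l|) = NX L y := by
    rw [← NX_eq (U := U) (x := y) subset_union_left]
    apply nm_congr
    intro l _
    rw [hy, abs_sum_disj univ a (fun i => x (n i))]
    intro i _ j _ hij
    exact succ_disj hx (fun h => hij (hn.injective h))
  rw [h3] at h2
  exact h2

theorem F2_aux (z : ℕ → (ℕ →₀ ℝ))
    (hz : ∀ s t, s < t → ∀ i ∈ (z s).support, ∀ j ∈ (z t).support, i < j) (c C : ℝ) (hc : 0 < c)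
    (hcz : ∀ j, c ≤ NX L (z j)) :
    ¬ (∀ (m : ℕ) (a : ℕ → ℝ), NX L (∑ j ∈ range m, a j • z j) ≤ C * Real.sqrt (∑ j ∈ range m, a j ^ 2)) := by
  classical
  intro hup
  -- norming trees
  have hT : ∀ j, ∃ T : Tr, Valid L T ∧ c / 2 ≤ pr (z j).support (f T) (fun n => |z j n|) := by
    intro j
    by_contra hcon
    push Not at hcon
    have : NX L (z j) ≤ c / 2 := nm_le fun T hT => (hcon T hT).le
    linarith [hcz j]
  choose T hTv hTn using hT
  have hne : ∀ j, ((z j).support ∩ sp (T j)).Nonempty := fun j =>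
    pr_inter_nonempty (hTv j) (lt_of_lt_of_le (by linarith) (hTn j))
  set G : ℕ → Tr := fun j => Tr.rest ((z j).support ∩ sp (T j)) (T j) with hG
  have hGv : ∀ j, Valid L (G j) := fun j => (rest_valid (hTv j) (hne j)).1
  have hGf : ∀ j n, f (G j) n = R (T j) (z j).support n := fun j n => (rest_valid (hTv j) (hne j)).2 n
  have hGsp : ∀ j, sp (G j) = (z j).support ∩ sp (T j) := fun j => rfl
  have hlt : ∀ i j, i < j → Lt (sp (G i)) (sp (G j)) := by
    intro i j hij a ha b hb
    rw [hGsp, mem_inter] at ha hb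
    exact hz i j hij a ha.1 b hb.1
  have h1 : ∀ i, 1 ≤ pr (sp (G i)) (f (G i)) (fun n => 2 / c * |z i n|) := by
    intro i
    rw [pr_smul]
    have h2 : c / 2 ≤ pr (sp (G i)) (f (G i)) (fun n => |z i n|) := by
      refine (hTn i).trans ?_
      have h3 : pr (z i).support (f (T i)) (fun n => |z i n|) = pr (sp (G i)) (f (T i)) (fun n => |z i n|) := by
        unfold pr
        symm
        rw [hGsp]
        apply sum_subset inter_subset_left
        intro n hn hn'
        rw [f_eq_zero (hTv i) (fun hh => hn' (mem_inter.2 ⟨hn, hh⟩)), zero_mul]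
      rw [h3]
      apply pr_mono (fun n _ => f_nonneg (hTv i) n) (fun n hn => ?_) (fun n _ => abs_nonneg _) (fun n _ => le_rfl)
      rw [hGf]
      rw [hGsp, mem_inter] at hn
      exact f_le_R (hTv i) hn.1
    calc (1 : ℝ) = 2 / c * (c / 2) := by field_simp
      _ ≤ _ := mul_le_mul_of_nonneg_left h2 (by positivity)
  -- growth
  have hgrow : ∀ d : ℕ, Real.sqrt (9 / 8) ^ d ≤ 2 / c * |C| := by
    intro d
    obtain ⟨m, a, W, ha, -, hsum, hW, -, hlow⟩ := gain (L := L) (fun j n => 2 / c * |z j n|)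
      (fun j n => by positivity) G hGv hlt h1 d 0
    refine hlow.trans ?_
    set y := ∑ i ∈ range m, a i • z i with hy
    set U : Finset ℕ := y.support ∪ sp W with hUdef
    have h2 : pr (sp W) (f W) (fun n => ∑ i ∈ range m, a i * (2 / c * |z i n|)) ≤ 2 / c * NX L y := by
      have h3 : (fun n => ∑ i ∈ range m, a i * (2 / c * |z i n|)) = fun n => 2 / c * |y n| := by
        ext n
        rw [hy, abs_sum_disj (range m) a z (fun i _ j _ hij => succ_disj hz hij), mul_sum]
        apply sum_congr rfl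
        intro i _
        rw [abs_of_nonneg (ha i)]
        ring
      rw [h3, pr_smul]
      apply mul_le_mul_of_nonneg_left _ (by positivity)
      rw [← NX_eq (U := U) (x := y) subset_union_left]
      exact (le_nm hW (sp W) (fun n => abs_nonneg _)).trans (nm_mono_set subset_union_right (fun n => abs_nonneg _))
    refine h2.trans ?_
    apply mul_le_mul_of_nonneg_left _ (by positivity)
    refine (hup m a).trans ?_
    have h4 : Real.sqrt (∑ j ∈ range m, a j ^ 2) ≤ 1 := Real.sqrt_le_iff.2 ⟨by norm_num, by simpa using hsum⟩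
    have h5 : 0 ≤ Real.sqrt (∑ j ∈ range m, a j ^ 2) := Real.sqrt_nonneg _
    calc C * Real.sqrt (∑ j ∈ range m, a j ^ 2) ≤ |C| * Real.sqrt (∑ j ∈ range m, a j ^ 2) :=
          mul_le_mul_of_nonneg_right (le_abs_self C) h5
      _ ≤ |C| * 1 := mul_le_mul_of_nonneg_left h4 (abs_nonneg C)
      _ = |C| := mul_one _
  have hb : 1 < Real.sqrt (9 / 8) := by
    rw [show (1 : ℝ) = Real.sqrt 1 by simp]
    exact Real.sqrt_lt_sqrt (by norm_num) (by norm_num)
  obtain ⟨d, hd⟩ := pow_unbounded_of_one_lt (2 / c * |C|) hb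
  linarith [hgrow d]

end

theorem final : ¬ (∀ (X : Type) [NormedAddCommGroup X] [NormedSpace ℝ X] [CompleteSpace X] (p : ℝ), 1 < p →
  ∀ (e : ℕ → X) (f : ℕ → X →L[ℝ] ℝ),
    (∀ i j, f i (e j) = if i = j then 1 else 0) →
    (∀ x : X, Filter.Tendsto (fun n => ∑ i ∈ Finset.range n, f i x • e i) Filter.atTop (nhds x)) →
    (∀ (x : ℕ → X),
      (∃ m : ℕ → ℕ, StrictMono m ∧ ∃ c : ℕ → ℝ,
        ∀ n, x n = ∑ i ∈ Finset.Ico (m n) (m (n + 1)), c i • e i) →
      (∀ n, ‖x n‖ = 1) →
      ∀ L : (k : ℕ) → (Fin k → ℝ) → ℝ,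
        (∀ (k : ℕ) (a : Fin k → ℝ), ∀ ε > 0, ∃ N : ℕ, ∀ n : Fin k → ℕ, StrictMono n →
          (∀ i, N ≤ n i) → |‖∑ i, a i • x (n i)‖ - L k a| < ε) →
        ∀ (k : ℕ) (a : Fin k → ℝ), L k a = (∑ i, |a i| ^ p) ^ (1 / p)) →
    ∃ (y : ℕ → X) (C : ℝ), 0 < C ∧ ∀ (n : ℕ) (a : ℕ → ℝ),
      (∑ i ∈ Finset.range n, |a i| ^ p) ^ (1 / p) ≤ C * ‖∑ i ∈ Finset.range n, a i • y i‖ ∧
      ‖∑ i ∈ Finset.range n, a i • y i‖ ≤ C * (∑ i ∈ Finset.range n, |a i| ^ p) ^ (1 / p)) := by
  obtain ⟨L⟩ := exists_LS dm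
  exact assemble (NX L) NX_add NX_smul NX_coord NX_filter F1_aux F2_aux

end Pool.Agent.H51.SM
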