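import Pool.Agent.H51.SM.Tree

/-!
# Module NORM: the norm `nm`, lower estimates
-/

set_option autoImplicit false

namespace Pool.Agent.H51.SM

open Finset

variable {L : LS dm}

theorem coef_aux {q a : ℝ} (hq0 : 0 ≤ q) (hq1 : q ≤ 1) (_ha : 0 ≤ a) (h : q * a ^ 4 ≤ 1) :
    Real.sqrt q * a ≤ 1 := by
  have h1 : (Real.sqrt q * a) ^ 4 ≤ 1 := by
    have h2 : Real.sqrt q ^ 2 = q := Real.sq_sqrt hq0
    have h3 : (Real.sqrt q * a) ^ 4 = q * (q * a ^ 4) := by
      calc (Real.sqrt q * a) ^ 4 = (Real.sqrt q ^ 2) ^ 2 * a ^ 4 := by ring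
        _ = q * (q * a ^ 4) := by rw [h2]; ring
    rw [h3]
    have h4 : 0 ≤ q * a ^ 4 := by positivity
    nlinarith
  by_contra hcon
  push Not at hcon
  have := one_lt_pow₀ hcon (by norm_num : 4 ≠ 0)
  linarith

theorem R_single_le_one {T : Tr} (hT : Valid L T) (n : ℕ) : R T {n} n ≤ 1 := by
  induction T with
  | leaf m =>
    rw [R_leaf]
    split_ifs <;> norm_num
  | gen q s t ihs iht =>
    obtain ⟨a, b, ha, hb, hab, hR⟩ := R_gen hT {n}
    obtain ⟨⟨hq0, hq1⟩, hs, ht, hlt⟩ := id hT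
    have hq0' : (0 : ℝ) < q := by exact_mod_cast hq0
    have hq1' : (q : ℝ) < 1 := by exact_mod_cast hq1
    have h1q : (0 : ℝ) ≤ 1 - q := by linarith
    have e1 : Real.sqrt q * a ≤ 1 := coef_aux hq0'.le hq1'.le ha (by
      have : 0 ≤ (1 - (q : ℝ)) * b ^ 4 := by positivity
      linarith)
    have e2 : Real.sqrt (1 - q) * b ≤ 1 := coef_aux h1q (by linarith) hb (by
      have : 0 ≤ (q : ℝ) * a ^ 4 := by positivity
      linarith)
    rw [hR]
    have hsn := R_nonneg hs {n} n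
    have htn := R_nonneg ht {n} n
    have := ihs hs
    have := iht ht
    by_cases hns : n ∈ sp s
    · have hnt : n ∉ sp t := fun hh => lt_irrefl _ (hlt n hns n hh)
      rw [R_eq_zero ht (fun hh => hnt (mem_inter.1 hh).2), mul_zero, add_zero]
      exact mul_le_one₀ e1 hsn (ihs hs)
    · rw [R_eq_zero hs (fun hh => hns (mem_inter.1 hh).2), mul_zero, zero_add]
      exact mul_le_one₀ e2 htn (iht ht)
  | cop q s t ihs iht =>
    obtain ⟨a, b, ha, hb, hab, hR⟩ := R_cop hT {n}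
    obtain ⟨⟨hq0, hq1⟩, hs, ht, hdis⟩ := id hT
    have hq0' : (0 : ℝ) < q := by exact_mod_cast hq0
    have hq1' : (q : ℝ) < 1 := by exact_mod_cast hq1
    have h1q : (0 : ℝ) ≤ 1 - q := by linarith
    have e1 : Real.sqrt q * a ≤ 1 := coef_aux hq0'.le hq1'.le ha (by
      have : 0 ≤ (1 - (q : ℝ)) * b ^ 4 := by positivity
      linarith)
    have e2 : Real.sqrt (1 - q) * b ≤ 1 := coef_aux h1q (by linarith) hb (by
      have : 0 ≤ (q : ℝ) * a ^ 4 := by positivity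
      linarith)
    have f1 : Real.sqrt (Real.sqrt q) ≤ 1 :=
      Real.sqrt_le_iff.2 ⟨by norm_num, Real.sqrt_le_iff.2 ⟨by norm_num, by linarith⟩⟩
    have f2 : Real.sqrt (Real.sqrt (1 - q)) ≤ 1 :=
      Real.sqrt_le_iff.2 ⟨by norm_num, Real.sqrt_le_iff.2 ⟨by norm_num, by linarith⟩⟩
    have g1 : Real.sqrt q * Real.sqrt (Real.sqrt q) * a ≤ 1 := by
      calc Real.sqrt q * Real.sqrt (Real.sqrt q) * a = Real.sqrt (Real.sqrt q) * (Real.sqrt q * a) := by ring
        _ ≤ 1 := mul_le_one₀ f1 (by positivity) e1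
    have g2 : Real.sqrt (1 - q) * Real.sqrt (Real.sqrt (1 - q)) * b ≤ 1 := by
      calc Real.sqrt (1 - q) * Real.sqrt (Real.sqrt (1 - q)) * b =
            Real.sqrt (Real.sqrt (1 - q)) * (Real.sqrt (1 - q) * b) := by ring
        _ ≤ 1 := mul_le_one₀ f2 (by positivity) e2
    rw [hR]
    have hsn := R_nonneg hs {n} n
    have htn := R_nonneg ht {n} n
    by_cases hns : n ∈ sp s
    · have hnt : n ∉ sp t := Finset.disjoint_left.1 hdis hns
      rw [R_eq_zero ht (fun hh => hnt (mem_inter.1 hh).2), mul_zero, add_zero]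
      exact mul_le_one₀ g1 hsn (ihs hs)
    · rw [R_eq_zero hs (fun hh => hns (mem_inter.1 hh).2), mul_zero, zero_add]
      exact mul_le_one₀ g2 htn (iht ht)
  | spec s t ihs iht =>
    obtain ⟨a, b, ha, hb, ha9, hb9, -, hR⟩ := R_spec hT {n}
    have hlt := spec_lt hT
    obtain ⟨hs, ht, -, -⟩ := id hT
    rw [hR]
    have hsn := R_nonneg hs {n} n
    have htn := R_nonneg ht {n} n
    by_cases hns : n ∈ sp s
    · have hnt : n ∉ sp t := fun hh => lt_irrefl _ (hlt n hns n hh)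
      rw [R_eq_zero ht (fun hh => hnt (mem_inter.1 hh).2), mul_zero, add_zero]
      exact mul_le_one₀ (by linarith) hsn (ihs hs)
    · rw [R_eq_zero hs (fun hh => hns (mem_inter.1 hh).2), mul_zero, zero_add]
      exact mul_le_one₀ (by linarith) htn (iht ht)
  | rest B t ih =>
    refine le_trans (R_rest hT {n} n) ?_
    by_cases hn : n ∈ B
    · have : ({n} : Finset ℕ) ∩ B = {n} := by
        ext m; simp only [mem_inter, mem_singleton]
        constructor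
        · exact fun hh => hh.1
        · intro hh; exact ⟨hh, hh ▸ hn⟩
      rw [this]
      exact ih hT.1
    · rw [R_eq_zero hT.1 (fun hh => hn (mem_inter.1 (mem_inter.1 hh).1).2)]
      norm_num

theorem f_le_one {T : Tr} (hT : Valid L T) (n : ℕ) : f T n ≤ 1 := by
  rw [f_eq hT (mem_singleton_self n)]
  exact mul_le_one₀ (Th_le_one hT _) (R_nonneg hT _ _) (R_single_le_one hT n)

theorem pr_mono {A : Finset ℕ} {g g' x x' : ℕ → ℝ} (hg : ∀ n ∈ A, 0 ≤ g n) (hgg : ∀ n ∈ A, g n ≤ g' n)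
    (hx : ∀ n ∈ A, 0 ≤ x n) (hxx : ∀ n ∈ A, x n ≤ x' n) : pr A g x ≤ pr A g' x' := by
  unfold pr
  apply sum_le_sum
  intro n hn
  exact mul_le_mul (hgg n hn) (hxx n hn) (hx n hn) ((hg n hn).trans (hgg n hn))

theorem pr_nonneg {A : Finset ℕ} {g x : ℕ → ℝ} (hg : ∀ n ∈ A, 0 ≤ g n) (hx : ∀ n ∈ A, 0 ≤ x n) :
    0 ≤ pr A g x := sum_nonneg fun n hn => mul_nonneg (hg n hn) (hx n hn)

theorem pr_f_le_sum {T : Tr} (hT : Valid L T) (A : Finset ℕ) {x : ℕ → ℝ} (hx : ∀ n, 0 ≤ x n) :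
    pr A (f T) x ≤ ∑ n ∈ A, x n := by
  unfold pr
  apply sum_le_sum
  intro n _
  have h1 := f_le_one hT n
  have h2 := hx n
  nlinarith

theorem nm_bdd (A : Finset ℕ) {x : ℕ → ℝ} (hx : ∀ n, 0 ≤ x n) :
    BddAbove (Set.range fun T : {T : Tr // Valid L T} => pr A (f T.1) x) := by
  refine ⟨∑ n ∈ A, x n, ?_⟩
  rintro _ ⟨T, rfl⟩
  exact pr_f_le_sum T.2 A hx

theorem le_nm {T : Tr} (hT : Valid L T) (A : Finset ℕ) {x : ℕ → ℝ} (hx : ∀ n, 0 ≤ x n) :
    pr A (f T) x ≤ nm L A x :=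
  le_ciSup (nm_bdd A hx) (⟨T, hT⟩ : {T : Tr // Valid L T})

instance : Nonempty {T : Tr // Valid L T} := ⟨⟨Tr.leaf 0, trivial⟩⟩

theorem nm_le {A : Finset ℕ} {x : ℕ → ℝ} {c : ℝ} (hc : ∀ T, Valid L T → pr A (f T) x ≤ c) :
    nm L A x ≤ c := ciSup_le fun T => hc T.1 T.2

theorem nm_nonneg (A : Finset ℕ) {x : ℕ → ℝ} (hx : ∀ n, 0 ≤ x n) : 0 ≤ nm L A x :=
  le_trans (pr_nonneg (fun n _ => f_nonneg (valid_leaf (L := L) 0) n) (fun n _ => hx n))
    (le_nm (valid_leaf (L := L) 0) A hx)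

theorem nm_le_sum (A : Finset ℕ) {x : ℕ → ℝ} (hx : ∀ n, 0 ≤ x n) : nm L A x ≤ ∑ n ∈ A, x n :=
  nm_le fun _ hT => pr_f_le_sum hT A hx

theorem coord_le_nm {A : Finset ℕ} {x : ℕ → ℝ} (hx : ∀ n, 0 ≤ x n) {n : ℕ} (hn : n ∈ A) :
    x n ≤ nm L A x := by
  refine le_trans ?_ (le_nm (valid_leaf n) A hx)
  unfold pr
  simp only [f]
  rw [sum_eq_single n]
  · simp
  · intro m _ hm; simp [hm]
  · intro hh; exact absurd hn hh

theorem nm_mono_set {A B : Finset ℕ} (hAB : A ⊆ B) {x : ℕ → ℝ} (hx : ∀ n, 0 ≤ x n) :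
    nm L A x ≤ nm L B x := by
  apply nm_le
  intro T hT
  refine le_trans ?_ (le_nm hT B hx)
  exact sum_le_sum_of_subset_of_nonneg hAB fun n _ _ => mul_nonneg (f_nonneg hT n) (hx n)

theorem nm_mono {A : Finset ℕ} {x y : ℕ → ℝ} (hx : ∀ n, 0 ≤ x n) (hxy : ∀ n ∈ A, x n ≤ y n)
    (hy : ∀ n, 0 ≤ y n) : nm L A x ≤ nm L A y := by
  apply nm_le
  intro T hT
  refine le_trans ?_ (le_nm hT A hy)
  exact pr_mono (fun n _ => f_nonneg hT n) (fun n _ => le_rfl) (fun n _ => hx n) hxy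

theorem pr_congr {A : Finset ℕ} {g x y : ℕ → ℝ} (hxy : ∀ n ∈ A, x n = y n) : pr A g x = pr A g y :=
  sum_congr rfl fun n hn => by rw [hxy n hn]

theorem nm_congr {A : Finset ℕ} {x y : ℕ → ℝ} (hxy : ∀ n ∈ A, x n = y n) : nm L A x = nm L A y := by
  unfold nm
  congr 1
  ext T
  exact pr_congr hxy

theorem pr_inter {A F : Finset ℕ} {g x : ℕ → ℝ} (hF : ∀ n, n ∉ F → x n = 0) :
    pr A g x = pr (A ∩ F) g x := by
  unfold pr
  symm
  apply sum_subset inter_subset_left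
  intro n hn hn'
  rw [hF n (fun hh => hn' (mem_inter.2 ⟨hn, hh⟩)), mul_zero]

/-- coordinates outside the support do not matter -/
theorem nm_inter {A F : Finset ℕ} {x : ℕ → ℝ} (hF : ∀ n, n ∉ F → x n = 0) :
    nm L A x = nm L (A ∩ F) x := by
  unfold nm
  congr 1
  ext T
  exact pr_inter hF

theorem nm_add {A : Finset ℕ} {x y : ℕ → ℝ} (hx : ∀ n, 0 ≤ x n) (hy : ∀ n, 0 ≤ y n) :
    nm L A (fun n => x n + y n) ≤ nm L A x + nm L A y := by
  apply nm_le
  intro T hT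
  have h1 : pr A (f T) (fun n => x n + y n) = pr A (f T) x + pr A (f T) y := by
    unfold pr
    rw [← sum_add_distrib]
    apply sum_congr rfl
    intro n _
    ring
  rw [h1]
  exact add_le_add (le_nm hT A hx) (le_nm hT A hy)

theorem pr_smul {A : Finset ℕ} {g x : ℕ → ℝ} (c : ℝ) : pr A g (fun n => c * x n) = c * pr A g x := by
  unfold pr
  rw [mul_sum]
  apply sum_congr rfl
  intro n _
  ring

theorem nm_smul {A : Finset ℕ} {x : ℕ → ℝ} (hx : ∀ n, 0 ≤ x n) {c : ℝ} (hc : 0 ≤ c) :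
    nm L A (fun n => c * x n) = c * nm L A x := by
  apply le_antisymm
  · apply nm_le
    intro T hT
    rw [pr_smul]
    exact mul_le_mul_of_nonneg_left (le_nm hT A hx) hc
  · rcases hc.eq_or_lt with hc0 | hc0
    · rw [← hc0, zero_mul]
      exact nm_nonneg A (fun n => by simp)
    · have : nm L A x ≤ c⁻¹ * nm L A (fun n => c * x n) := by
        apply nm_le
        intro T hT
        have h1 : pr A (f T) x = c⁻¹ * pr A (f T) (fun n => c * x n) := by
          rw [pr_smul]; field_simp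
        rw [h1]
        exact mul_le_mul_of_nonneg_left (le_nm hT A (fun n => mul_nonneg hc (hx n))) (inv_nonneg.2 hc)
      calc c * nm L A x ≤ c * (c⁻¹ * nm L A (fun n => c * x n)) := mul_le_mul_of_nonneg_left this hc
        _ = nm L A (fun n => c * x n) := by field_simp

/-- `R T B` has norm at most one, localised -/
theorem pr_R_le {T : Tr} (hT : Valid L T) (A B : Finset ℕ) {x : ℕ → ℝ} (hx : ∀ n, 0 ≤ x n) :
    pr A (R T B) x ≤ nm L (A ∩ B ∩ sp T) x := by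
  have h1 : pr A (R T B) x = pr (A ∩ B ∩ sp T) (R T B) x := by
    unfold pr
    symm
    apply sum_subset (subset_trans inter_subset_left inter_subset_left)
    intro n hn hn'
    rw [R_eq_zero hT, zero_mul]
    intro hh
    exact hn' (mem_inter.2 ⟨mem_inter.2 ⟨hn, (mem_inter.1 hh).1⟩, (mem_inter.1 hh).2⟩)
  rw [h1]
  by_cases hB : (B ∩ sp T).Nonempty
  · obtain ⟨hv, hf⟩ := rest_valid hT hB
    refine le_trans (le_of_eq ?_) (le_nm hv _ hx)
    unfold pr
    apply sum_congr rfl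
    intro n _
    rw [hf]
  · have : pr (A ∩ B ∩ sp T) (R T B) x = 0 := by
      apply sum_eq_zero
      intro n hn
      exfalso
      apply hB
      simp only [mem_inter] at hn
      exact ⟨n, mem_inter.2 ⟨hn.1.2, hn.2⟩⟩
    rw [this]
    exact nm_nonneg _ hx

theorem nm_pow_le {A : Finset ℕ} {x : ℕ → ℝ} (hx : ∀ n, 0 ≤ x n) {p : ℕ} (hp : p ≠ 0) {K : ℝ}
    (hK : ∀ T, Valid L T → pr A (f T) x ^ p ≤ K) : nm L A x ^ p ≤ K := by
  have hpn : ∀ T, Valid L T → 0 ≤ pr A (f T) x := fun T hT =>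
    pr_nonneg (fun n _ => f_nonneg hT n) (fun n _ => hx n)
  have hK0 : 0 ≤ K := le_trans (pow_nonneg (hpn _ (valid_leaf 0)) p) (hK _ (valid_leaf 0))
  have h1 : nm L A x ≤ K ^ ((p : ℝ)⁻¹) := by
    apply nm_le
    intro T hT
    rw [← Real.pow_rpow_inv_natCast (hpn T hT) hp]
    exact Real.rpow_le_rpow (pow_nonneg (hpn T hT) p) (hK T hT) (by positivity)
  calc nm L A x ^ p ≤ (K ^ ((p : ℝ)⁻¹)) ^ p := pow_le_pow_left₀ (nm_nonneg A hx) h1 p
    _ = K := Real.rpow_inv_natCast_pow hK0 hp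

theorem nm_pow_add {A B : Finset ℕ} {x : ℕ → ℝ} (hx : ∀ n, 0 ≤ x n) {p : ℕ} (hp : p ≠ 0) {K : ℝ}
    (hK : ∀ T T', Valid L T → Valid L T' → pr A (f T) x ^ p + pr B (f T') x ^ p ≤ K) :
    nm L A x ^ p + nm L B x ^ p ≤ K := by
  have h1 : ∀ T', Valid L T' → pr B (f T') x ^ p ≤ K - nm L A x ^ p := by
    intro T' hT'
    have : nm L A x ^ p ≤ K - pr B (f T') x ^ p := nm_pow_le hx hp fun T hT => by
      linarith [hK T T' hT hT']
    linarith
  linarith [nm_pow_le hx hp h1]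

theorem density_aux {g : ℝ → ℝ} (hg : Continuous g) {c : ℝ} (hc : ∀ q : ℚ, 0 < q → q < 1 → g q ≤ c) {t : ℝ}
    (ht0 : 0 < t) (ht1 : t < 1) : g t ≤ c := by
  have h1 : Set.Ioo (0 : ℝ) 1 ⊆ closure (Set.Ioo (0 : ℝ) 1 ∩ Set.range ((↑) : ℚ → ℝ)) :=
    Dense.open_subset_closure_inter Rat.denseRange_cast isOpen_Ioo
  have h2 : IsClosed {t : ℝ | g t ≤ c} := isClosed_le hg continuous_const
  have h3 : Set.Ioo (0 : ℝ) 1 ∩ Set.range ((↑) : ℚ → ℝ) ⊆ {t : ℝ | g t ≤ c} := by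
    rintro _ ⟨⟨h0, h1⟩, q, rfl⟩
    exact hc q (by exact_mod_cast h0) (by exact_mod_cast h1)
  exact h2.closure_subset_iff.2 h3 (h1 ⟨ht0, ht1⟩)

theorem pr_inter_nonempty {T : Tr} (hT : Valid L T) {A : Finset ℕ} {x : ℕ → ℝ}
    (h : 0 < pr A (f T) x) : (A ∩ sp T).Nonempty := by
  by_contra hcon
  rw [not_nonempty_iff_eq_empty] at hcon
  have : pr A (f T) x = 0 := by
    apply sum_eq_zero
    intro n hn
    rw [f_eq_zero hT, zero_mul]
    intro hs
    have : n ∈ A ∩ sp T := mem_inter.2 ⟨hn, hs⟩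
    rw [hcon] at this
    simp at this
  linarith

theorem f_le_R {T : Tr} (hT : Valid L T) {A : Finset ℕ} {n : ℕ} (hn : n ∈ A) : f T n ≤ R T A n := by
  rw [f_eq hT hn]
  have h1 := Th_le_one hT A
  have h2 := R_nonneg hT A n
  nlinarith

theorem union_aux {A B : Finset ℕ} (hAB : Disjoint A B) {g g' w x : ℕ → ℝ} {u v : ℝ}
    (hA : ∀ n ∈ A, u * g n ≤ w n) (hB : ∀ n ∈ B, v * g' n ≤ w n) (hx : ∀ n, 0 ≤ x n) :
    u * pr A g x + v * pr B g' x ≤ pr (A ∪ B) w x := by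
  unfold pr
  rw [sum_union hAB, mul_sum, mul_sum]
  apply add_le_add
  · apply sum_le_sum
    intro n hn
    rw [← mul_assoc]
    exact mul_le_mul_of_nonneg_right (hA n hn) (hx n)
  · apply sum_le_sum
    intro n hn
    rw [← mul_assoc]
    exact mul_le_mul_of_nonneg_right (hB n hn) (hx n)

theorem nm_sq_add {A B : Finset ℕ} (hAB : Lt A B) {x : ℕ → ℝ} (hx : ∀ n, 0 ≤ x n) :
    nm L A x ^ 2 + nm L B x ^ 2 ≤ nm L (A ∪ B) x ^ 2 := by
  apply nm_pow_add hx (by norm_num)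
  intro T T' hT hT'
  set α := pr A (f T) x with hα
  set β := pr B (f T') x with hβ
  have hα0 : 0 ≤ α := pr_nonneg (fun n _ => f_nonneg hT n) (fun n _ => hx n)
  have hβ0 : 0 ≤ β := pr_nonneg (fun n _ => f_nonneg hT' n) (fun n _ => hx n)
  have hα1 : α ≤ nm L (A ∪ B) x := (le_nm hT A hx).trans (nm_mono_set subset_union_left hx)
  have hβ1 : β ≤ nm L (A ∪ B) x := (le_nm hT' B hx).trans (nm_mono_set subset_union_right hx)
  rcases hα0.eq_or_lt with hα2 | hα2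
  · rw [← hα2]; nlinarith
  rcases hβ0.eq_or_lt with hβ2 | hβ2
  · rw [← hβ2]; nlinarith
  have hdis : Disjoint A B := by
    rw [Finset.disjoint_left]
    intro a ha hb
    exact lt_irrefl _ (hAB a ha a hb)
  have hA := pr_inter_nonempty hT hα2
  have hB := pr_inter_nonempty hT' hβ2
  obtain ⟨v1, f1⟩ := rest_valid hT hA
  obtain ⟨v2, f2⟩ := rest_valid hT' hB
  have key : ∀ q : ℚ, 0 < q → q < 1 →
      (fun t : ℝ => Real.sqrt t * α + Real.sqrt (1 - t) * β) q ≤ nm L (A ∪ B) x := by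
    intro q hq0 hq1
    have hv : Valid L (Tr.gen q (Tr.rest (A ∩ sp T) T) (Tr.rest (B ∩ sp T') T')) := by
      refine ⟨⟨hq0, hq1⟩, v1, v2, ?_⟩
      intro a ha b hb
      exact hAB a (mem_inter.1 ha).1 b (mem_inter.1 hb).1
    refine le_trans ?_ (le_nm hv (A ∪ B) hx)
    refine union_aux hdis ?_ ?_ hx
    · intro n hn
      simp only [f.eq_2]
      rw [f1, f2]
      have := f_le_R hT hn
      have h3 := R_nonneg hT' B n
      have h4 := Real.sqrt_nonneg (q : ℝ)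
      have h5 := Real.sqrt_nonneg (1 - (q : ℝ))
      nlinarith [mul_le_mul_of_nonneg_left this h4, mul_nonneg h5 h3]
    · intro n hn
      simp only [f.eq_2]
      rw [f1, f2]
      have := f_le_R hT' hn
      have h3 := R_nonneg hT A n
      have h4 := Real.sqrt_nonneg (q : ℝ)
      have h5 := Real.sqrt_nonneg (1 - (q : ℝ))
      nlinarith [mul_le_mul_of_nonneg_left this h5, mul_nonneg h4 h3]
  have hs : 0 < α ^ 2 + β ^ 2 := by positivity
  have hcont : Continuous (fun t : ℝ => Real.sqrt t * α + Real.sqrt (1 - t) * β) := by fun_prop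
  have := density_aux hcont key (t := α ^ 2 / (α ^ 2 + β ^ 2)) (by positivity)
    (by rw [div_lt_one hs]; nlinarith [pow_pos hβ2 2])
  have e1 : (1 : ℝ) - α ^ 2 / (α ^ 2 + β ^ 2) = β ^ 2 / (α ^ 2 + β ^ 2) := by field_simp; ring
  simp only [e1] at this
  rw [Real.sqrt_div (by positivity), Real.sqrt_div (by positivity), Real.sqrt_sq hα0, Real.sqrt_sq hβ0] at this
  have e2 : α / Real.sqrt (α ^ 2 + β ^ 2) * α + β / Real.sqrt (α ^ 2 + β ^ 2) * β =
      Real.sqrt (α ^ 2 + β ^ 2) := by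
    have h6 : 0 < Real.sqrt (α ^ 2 + β ^ 2) := Real.sqrt_pos.2 hs
    have h7 := Real.sq_sqrt hs.le
    field_simp
    linarith
  rw [e2] at this
  calc α ^ 2 + β ^ 2 = Real.sqrt (α ^ 2 + β ^ 2) ^ 2 := (Real.sq_sqrt hs.le).symm
    _ ≤ _ := pow_le_pow_left₀ (Real.sqrt_nonneg _) this 2

theorem nm_four_add {A B : Finset ℕ} (hAB : Disjoint A B) {x : ℕ → ℝ} (hx : ∀ n, 0 ≤ x n) :
    nm L A x ^ 4 + nm L B x ^ 4 ≤ nm L (A ∪ B) x ^ 4 := by
  apply nm_pow_add hx (by norm_num)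
  intro T T' hT hT'
  set α := pr A (f T) x with hα
  set β := pr B (f T') x with hβ
  have hα0 : 0 ≤ α := pr_nonneg (fun n _ => f_nonneg hT n) (fun n _ => hx n)
  have hβ0 : 0 ≤ β := pr_nonneg (fun n _ => f_nonneg hT' n) (fun n _ => hx n)
  have hα1 : α ≤ nm L (A ∪ B) x := (le_nm hT A hx).trans (nm_mono_set subset_union_left hx)
  have hβ1 : β ≤ nm L (A ∪ B) x := (le_nm hT' B hx).trans (nm_mono_set subset_union_right hx)
  rcases hα0.eq_or_lt with hα2 | hα2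
  · rw [← hα2]
    have := pow_le_pow_left₀ hβ0 hβ1 4
    simpa using this
  rcases hβ0.eq_or_lt with hβ2 | hβ2
  · rw [← hβ2]
    have := pow_le_pow_left₀ hα0 hα1 4
    simpa using this
  have hA := pr_inter_nonempty hT hα2
  have hB := pr_inter_nonempty hT' hβ2
  obtain ⟨v1, f1⟩ := rest_valid hT hA
  obtain ⟨v2, f2⟩ := rest_valid hT' hB
  have key : ∀ q : ℚ, 0 < q → q < 1 →
      (fun t : ℝ => Real.sqrt t * Real.sqrt (Real.sqrt t) * α +
        Real.sqrt (1 - t) * Real.sqrt (Real.sqrt (1 - t)) * β) q ≤ nm L (A ∪ B) x := by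
    intro q hq0 hq1
    have hv : Valid L (Tr.cop q (Tr.rest (A ∩ sp T) T) (Tr.rest (B ∩ sp T') T')) := by
      refine ⟨⟨hq0, hq1⟩, v1, v2, ?_⟩
      exact Disjoint.mono inter_subset_left inter_subset_left hAB
    refine le_trans ?_ (le_nm hv (A ∪ B) hx)
    refine union_aux hAB ?_ ?_ hx
    · intro n hn
      simp only [f.eq_3]
      rw [f1, f2]
      have := f_le_R hT hn
      have h3 := R_nonneg hT' B n
      have h4 : 0 ≤ Real.sqrt (q : ℝ) * Real.sqrt (Real.sqrt (q : ℝ)) := by positivity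
      have h5 : 0 ≤ Real.sqrt (1 - (q : ℝ)) * Real.sqrt (Real.sqrt (1 - (q : ℝ))) := by positivity
      nlinarith [mul_le_mul_of_nonneg_left this h4, mul_nonneg h5 h3]
    · intro n hn
      simp only [f.eq_3]
      rw [f1, f2]
      have := f_le_R hT' hn
      have h3 := R_nonneg hT A n
      have h4 : 0 ≤ Real.sqrt (q : ℝ) * Real.sqrt (Real.sqrt (q : ℝ)) := by positivity
      have h5 : 0 ≤ Real.sqrt (1 - (q : ℝ)) * Real.sqrt (Real.sqrt (1 - (q : ℝ))) := by positivity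
      nlinarith [mul_le_mul_of_nonneg_left this h5, mul_nonneg h4 h3]
  have hs : 0 < α ^ 4 + β ^ 4 := by positivity
  have hcont : Continuous (fun t : ℝ => Real.sqrt t * Real.sqrt (Real.sqrt t) * α +
        Real.sqrt (1 - t) * Real.sqrt (Real.sqrt (1 - t)) * β) := by fun_prop
  have := density_aux hcont key (t := α ^ 4 / (α ^ 4 + β ^ 4)) (by positivity)
    (by rw [div_lt_one hs]; nlinarith [pow_pos hβ2 4])
  have e1 : (1 : ℝ) - α ^ 4 / (α ^ 4 + β ^ 4) = β ^ 4 / (α ^ 4 + β ^ 4) := by field_simp; ring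
  simp only [e1] at this
  have e3 : ∀ a : ℝ, 0 ≤ a → Real.sqrt (a ^ 4 / (α ^ 4 + β ^ 4)) = a ^ 2 / Real.sqrt (α ^ 4 + β ^ 4) := by
    intro a ha
    rw [Real.sqrt_div (by positivity)]
    congr 1
    rw [show a ^ 4 = (a ^ 2) ^ 2 by ring]
    exact Real.sqrt_sq (by positivity)
  have e4 : ∀ a : ℝ, 0 ≤ a → Real.sqrt (Real.sqrt (a ^ 4 / (α ^ 4 + β ^ 4))) =
      a / Real.sqrt (Real.sqrt (α ^ 4 + β ^ 4)) := by
    intro a ha
    rw [e3 a ha, Real.sqrt_div (by positivity), Real.sqrt_sq ha]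
  rw [e4 α hα0, e4 β hβ0, e3 α hα0, e3 β hβ0] at this
  set s := α ^ 4 + β ^ 4 with hsdef
  have h6 : 0 < Real.sqrt s := Real.sqrt_pos.2 hs
  have h7 : 0 < Real.sqrt (Real.sqrt s) := Real.sqrt_pos.2 h6
  have h8 := Real.sq_sqrt hs.le
  have h9 := Real.sq_sqrt h6.le
  have e2 : α ^ 2 / Real.sqrt s * (α / Real.sqrt (Real.sqrt s)) * α +
      β ^ 2 / Real.sqrt s * (β / Real.sqrt (Real.sqrt s)) * β = Real.sqrt (Real.sqrt s) := by
    have : Real.sqrt (Real.sqrt s) * (Real.sqrt s * Real.sqrt (Real.sqrt s)) = s := by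
      calc Real.sqrt (Real.sqrt s) * (Real.sqrt s * Real.sqrt (Real.sqrt s)) =
          Real.sqrt (Real.sqrt s) ^ 2 * Real.sqrt s := by ring
        _ = s := by rw [h9, ← sq, h8]
    rw [eq_comm, ← sub_eq_zero]
    field_simp
    have h10 : Real.sqrt (Real.sqrt s) ^ 2 * Real.sqrt s = s := by rw [h9, ← sq, h8]
    linarith
  rw [e2] at this
  calc s = Real.sqrt (Real.sqrt s) ^ 4 := by
        rw [show Real.sqrt (Real.sqrt s) ^ 4 = (Real.sqrt (Real.sqrt s) ^ 2) ^ 2 by ring, h9, h8]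
    _ ≤ _ := pow_le_pow_left₀ (Real.sqrt_nonneg _) this 4

theorem nm_sq_sum {A : ℕ → Finset ℕ} {m : ℕ} (hA : ∀ i j, i < j → j < m → Lt (A i) (A j)) {U : Finset ℕ}
    (hU : ∀ i < m, A i ⊆ U) {x : ℕ → ℝ} (hx : ∀ n, 0 ≤ x n) :
    ∑ i ∈ range m, nm L (A i) x ^ 2 ≤ nm L U x ^ 2 := by
  have h1 : ∀ l ≤ m, ∑ i ∈ range l, nm L (A i) x ^ 2 ≤ nm L ((range l).biUnion A) x ^ 2 := by
    intro l
    induction l with
    | zero => intro _; simp; positivity
    | succ l ih =>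
      intro hl
      rw [sum_range_succ, range_add_one, biUnion_insert, union_comm]
      have h2 : Lt ((range l).biUnion A) (A l) := by
        intro a ha b hb
        rw [mem_biUnion] at ha
        obtain ⟨i, hi, ha⟩ := ha
        exact hA i l (mem_range.1 hi) (by omega) a ha b hb
      exact le_trans (add_le_add (ih (by omega)) le_rfl) (nm_sq_add h2 hx)
  refine le_trans (h1 m le_rfl) ?_
  apply pow_le_pow_left₀ (nm_nonneg _ hx)
  apply nm_mono_set _ hx
  intro n hn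
  rw [mem_biUnion] at hn
  obtain ⟨i, hi, hn⟩ := hn
  exact hU i (mem_range.1 hi) hn

theorem nm_four_sum {ι : Type*} (s : Finset ι) {A : ι → Finset ℕ}
    (hA : ∀ i ∈ s, ∀ j ∈ s, i ≠ j → Disjoint (A i) (A j)) {U : Finset ℕ}
    (hU : ∀ i ∈ s, A i ⊆ U) {x : ℕ → ℝ} (hx : ∀ n, 0 ≤ x n) :
    ∑ i ∈ s, nm L (A i) x ^ 4 ≤ nm L U x ^ 4 := by
  classical
  have h1 : ∑ i ∈ s, nm L (A i) x ^ 4 ≤ nm L (s.biUnion A) x ^ 4 := by
    clear hU
    induction s using Finset.induction_on with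
    | empty => simp; positivity
    | insert a s has ih =>
      rw [sum_insert has, biUnion_insert]
      have h2 : Disjoint (A a) (s.biUnion A) := by
        rw [disjoint_biUnion_right]
        intro i hi
        exact hA a (mem_insert_self _ _) i (mem_insert_of_mem hi) (fun hh => has (hh ▸ hi))
      have h3 := ih (fun i hi j hj hij => hA i (mem_insert_of_mem hi) j (mem_insert_of_mem hj) hij)
      exact le_trans (add_le_add le_rfl h3) (nm_four_add h2 hx)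
  refine le_trans h1 ?_
  apply pow_le_pow_left₀ (nm_nonneg _ hx)
  apply nm_mono_set _ hx
  intro n hn
  rw [mem_biUnion] at hn
  obtain ⟨i, hi, hn⟩ := hn
  exact hU i hi hn

end Pool.Agent.H51.SM
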