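import Pool.Agent.H51.SM.Defs

/-!
# Module PSI: the concave functions `Phi`, `Psi`

Paper proof, section 1 (proofs table, MP_1785cf_an).
-/

set_option autoImplicit false

namespace Pool.Agent.H51.SM

open Finset

theorem tk_pos (k : ℕ) : 0 < tk k := by unfold tk; positivity

theorem sum_tk_le (S : Finset ℕ) : ∑ k ∈ S, tk k ≤ 1 / 2 := by
  have h1 : Summable (fun k : ℕ => tk k) := by
    unfold tk
    simp_rw [pow_add]
    exact (summable_geometric_of_lt_one (by norm_num) (by norm_num)).mul_right _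
  have h2 : ∑' k : ℕ, tk k = 1 / 2 := by
    unfold tk
    simp_rw [pow_add]
    rw [tsum_mul_right, tsum_geometric_of_lt_one (by norm_num) (by norm_num)]
    norm_num
  rw [← h2]
  exact h1.sum_le_tsum S (fun k _ => (tk_pos k).le)

/-- the factor -/
noncomputable def fac (k : ℕ) (x : ℝ) : ℝ := min (81 / 64) (x ^ (-(tk k)))

theorem Phi_eq (S : Finset ℕ) (x : ℝ) : Phi S x = x * ∏ k ∈ S, fac k x := rfl

theorem Phi_zero (S : Finset ℕ) : Phi S 0 = 0 := by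
  unfold Phi; simp

theorem Phi_one (S : Finset ℕ) : Phi S 1 = 1 := by
  unfold Phi
  simp only [Real.one_rpow, one_mul]
  apply prod_eq_one
  intro k _
  norm_num

theorem fac_pos {k : ℕ} {x : ℝ} (hx : 0 < x) : 0 < fac k x := by
  unfold fac
  exact lt_min (by norm_num) (Real.rpow_pos_of_pos hx _)

theorem fac_nonneg {k : ℕ} {x : ℝ} (hx : 0 ≤ x) : 0 ≤ fac k x := by
  unfold fac
  exact le_min (by norm_num) (Real.rpow_nonneg hx _)

theorem one_le_fac {k : ℕ} {x : ℝ} (hx : 0 < x) (hx1 : x ≤ 1) : 1 ≤ fac k x := by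
  unfold fac
  refine le_min (by norm_num) ?_
  exact Real.one_le_rpow_of_pos_of_le_one_of_nonpos hx hx1 (by linarith [tk_pos k])

theorem fac_le {k : ℕ} {x : ℝ} : fac k x ≤ x ^ (-(tk k)) := min_le_right _ _

theorem Phi_nonneg {S : Finset ℕ} {x : ℝ} (hx : 0 ≤ x) : 0 ≤ Phi S x := by
  rw [Phi_eq]
  exact mul_nonneg hx (prod_nonneg fun k _ => fac_nonneg hx)

theorem Phi_pos {S : Finset ℕ} {x : ℝ} (hx : 0 < x) : 0 < Phi S x := by
  rw [Phi_eq]
  exact mul_pos hx (prod_pos fun k _ => fac_pos hx)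

theorem le_Phi {S : Finset ℕ} {x : ℝ} (hx : 0 ≤ x) (hx1 : x ≤ 1) : x ≤ Phi S x := by
  rcases hx.eq_or_lt with h0 | h0
  · rw [← h0, Phi_zero]
  · rw [Phi_eq]
    have : 1 ≤ ∏ k ∈ S, fac k x := Finset.one_le_prod fun k _ => one_le_fac h0 hx1
    nlinarith

/-- uses `∑ t_k ≤ 1/2` -/
theorem Phi_le_sqrt {S : Finset ℕ} {x : ℝ} (hx : 0 ≤ x) (hx1 : x ≤ 1) : Phi S x ≤ Real.sqrt x := by
  rcases hx.eq_or_lt with h0 | h0
  · rw [← h0, Phi_zero, Real.sqrt_zero]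
  · rw [Phi_eq]
    have h1 : ∏ k ∈ S, fac k x ≤ x ^ (-(∑ k ∈ S, tk k)) := by
      rw [← sum_neg_distrib, Real.rpow_sum_of_pos h0]
      exact prod_le_prod (fun k _ => fac_nonneg hx) (fun k _ => fac_le)
    have h2 : x ^ (-(∑ k ∈ S, tk k)) ≤ x ^ (-(1 / 2) : ℝ) :=
      Real.rpow_le_rpow_of_exponent_ge h0 hx1 (by linarith [sum_tk_le S])
    calc x * ∏ k ∈ S, fac k x ≤ x * x ^ (-(1 / 2) : ℝ) := mul_le_mul_of_nonneg_left (h1.trans h2) hx
      _ = x ^ (1 : ℝ) * x ^ (-(1 / 2) : ℝ) := by rw [Real.rpow_one]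
      _ = Real.sqrt x := by
        rw [← Real.rpow_add h0, Real.sqrt_eq_rpow]
        norm_num

theorem Phi_mono_set {S S' : Finset ℕ} (h : S ⊆ S') {x : ℝ} (hx : 0 ≤ x) (hx1 : x ≤ 1) :
    Phi S x ≤ Phi S' x := by
  rcases hx.eq_or_lt with h0 | h0
  · rw [← h0, Phi_zero, Phi_zero]
  · rw [Phi_eq, Phi_eq]
    apply mul_le_mul_of_nonneg_left _ hx
    exact Finset.prod_le_prod_of_subset_of_one_le h (fun k _ => (fac_nonneg hx)) (fun k _ _ => one_le_fac h0 hx1)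

/-- the branch of `Phi` that is active at `z` -/
theorem Phi_branch (S : Finset ℕ) {z : ℝ} (hz : 0 < z) :
    ∃ C p : ℝ, 0 ≤ C ∧ 1 / 2 ≤ p ∧ p ≤ 1 ∧ Phi S z = C * z ^ p ∧ ∀ x, 0 ≤ x → Phi S x ≤ C * x ^ p := by
  set A := S.filter (fun k => z ^ (-(tk k)) ≤ 81 / 64) with hA
  set A' := S.filter (fun k => ¬ z ^ (-(tk k)) ≤ 81 / 64) with hA'
  have hform : ∀ x : ℝ, 0 < x → x * ∏ k ∈ S, (if z ^ (-(tk k)) ≤ 81 / 64 then x ^ (-(tk k)) else (81 / 64 : ℝ)) =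
      (∏ _k ∈ A', (81 / 64 : ℝ)) * x ^ (1 - ∑ k ∈ A, tk k) := by
    intro x hx
    rw [prod_ite, sub_eq_add_neg, Real.rpow_add hx, Real.rpow_one, ← sum_neg_distrib, Real.rpow_sum_of_pos hx]
    ring
  refine ⟨∏ _k ∈ A', (81 / 64 : ℝ), 1 - ∑ k ∈ A, tk k, ?_, ?_, ?_, ?_, ?_⟩
  · exact prod_nonneg fun _ _ => by norm_num
  · linarith [sum_tk_le A]
  · have : 0 ≤ ∑ k ∈ A, tk k := sum_nonneg fun k _ => (tk_pos k).le
    linarith
  · rw [← hform z hz, Phi_eq]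
    congr 1
    apply prod_congr rfl
    intro k _
    unfold fac
    split_ifs with hk
    · exact min_eq_right hk
    · exact min_eq_left (not_le.1 hk).le
  · intro x hx
    rcases hx.eq_or_lt with h0 | h0
    · rw [← h0, Phi_zero]
      have : 0 ≤ ∏ _k ∈ A', (81 / 64 : ℝ) := prod_nonneg fun _ _ => by norm_num
      positivity
    · rw [← hform x h0, Phi_eq]
      apply mul_le_mul_of_nonneg_left _ hx
      apply prod_le_prod (fun k _ => fac_nonneg hx)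
      intro k _
      unfold fac
      split_ifs
      · exact min_le_right _ _
      · exact min_le_left _ _

theorem Phi_concave {S : Finset ℕ} {q x y : ℝ} (hq0 : 0 ≤ q) (hq1 : q ≤ 1) (hx0 : 0 ≤ x) (_hx1 : x ≤ 1)
    (hy0 : 0 ≤ y) (_hy1 : y ≤ 1) :
    q * Phi S x + (1 - q) * Phi S y ≤ Phi S (q * x + (1 - q) * y) := by
  have h1q : 0 ≤ 1 - q := by linarith
  have hz0 : 0 ≤ q * x + (1 - q) * y := by positivity
  rcases hz0.eq_or_lt with h0 | h0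
  · have e1 : q * x = 0 := by nlinarith [mul_nonneg hq0 hx0, mul_nonneg h1q hy0]
    have e2 : (1 - q) * y = 0 := by nlinarith [mul_nonneg hq0 hx0, mul_nonneg h1q hy0]
    rw [← h0, Phi_zero]
    have f1 : q * Phi S x = 0 := by
      rcases mul_eq_zero.1 e1 with h | h
      · rw [h, zero_mul]
      · rw [h, Phi_zero, mul_zero]
    have f2 : (1 - q) * Phi S y = 0 := by
      rcases mul_eq_zero.1 e2 with h | h
      · rw [h, zero_mul]
      · rw [h, Phi_zero, mul_zero]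
    rw [f1, f2]; norm_num
  · obtain ⟨C, p, hC, hp, hp1, hz, hle⟩ := Phi_branch S h0
    rw [hz]
    have h2 := (Real.concaveOn_rpow (by linarith : 0 ≤ p) hp1).2 (Set.mem_Ici.2 hx0) (Set.mem_Ici.2 hy0) hq0 h1q
      (by ring)
    simp only [smul_eq_mul] at h2
    calc q * Phi S x + (1 - q) * Phi S y ≤ q * (C * x ^ p) + (1 - q) * (C * y ^ p) :=
          add_le_add (mul_le_mul_of_nonneg_left (hle x hx0) hq0) (mul_le_mul_of_nonneg_left (hle y hy0) h1q)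
      _ = C * (q * x ^ p + (1 - q) * y ^ p) := by ring
      _ ≤ _ := mul_le_mul_of_nonneg_left h2 hC

theorem Phi_mono {S : Finset ℕ} {x y : ℝ} (hx0 : 0 ≤ x) (hxy : x ≤ y) (_hy1 : y ≤ 1) :
    Phi S x ≤ Phi S y := by
  rcases (hx0.trans hxy).eq_or_lt with h0 | h0
  · have : x = 0 := le_antisymm (hxy.trans h0.symm.le) hx0
    rw [this, ← h0]
  · obtain ⟨C, p, hC, hp, hp1, hz, hle⟩ := Phi_branch S h0
    rw [hz]
    refine (hle x hx0).trans (mul_le_mul_of_nonneg_left ?_ hC)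
    exact Real.rpow_le_rpow hx0 hxy (by linarith)

theorem Phi_submul {S : Finset ℕ} {x y : ℝ} (hx0 : 0 ≤ x) (hx1 : x ≤ 1) (hy0 : 0 ≤ y) (hy1 : y ≤ 1) :
    Phi S (x * y) ≤ Phi S x * Phi S y := by
  rcases hx0.eq_or_lt with h0 | hx
  · rw [← h0, zero_mul, Phi_zero, zero_mul]
  rcases hy0.eq_or_lt with h0 | hy
  · rw [← h0, mul_zero, Phi_zero, mul_zero]
  rw [Phi_eq, Phi_eq, Phi_eq]
  have h1 : ∏ k ∈ S, fac k (x * y) ≤ (∏ k ∈ S, fac k x) * ∏ k ∈ S, fac k y := by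
    rw [← prod_mul_distrib]
    apply prod_le_prod (fun k _ => fac_nonneg (mul_nonneg hx0 hy0))
    intro k _
    have hax : 1 ≤ x ^ (-(tk k)) :=
      Real.one_le_rpow_of_pos_of_le_one_of_nonpos hx hx1 (by linarith [tk_pos k])
    have hay : 1 ≤ y ^ (-(tk k)) :=
      Real.one_le_rpow_of_pos_of_le_one_of_nonpos hy hy1 (by linarith [tk_pos k])
    unfold fac
    rw [Real.mul_rpow hx0 hy0]
    rcases le_total (x ^ (-(tk k))) (81 / 64) with h1 | h1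
    · rcases le_total (y ^ (-(tk k))) (81 / 64) with h2 | h2
      · rw [min_eq_right h1, min_eq_right h2]
        exact min_le_right _ _
      · rw [min_eq_right h1, min_eq_left h2]
        refine (min_le_left _ _).trans ?_
        nlinarith
    · refine (min_le_left _ _).trans ?_
      rw [min_eq_left h1]
      have : 1 ≤ min (81 / 64) (y ^ (-(tk k))) := le_min (by norm_num) hay
      nlinarith
  calc x * y * ∏ k ∈ S, fac k (x * y) ≤ x * y * ((∏ k ∈ S, fac k x) * ∏ k ∈ S, fac k y) :=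
        mul_le_mul_of_nonneg_left h1 (mul_nonneg hx0 hy0)
    _ = _ := by ring

theorem Phi_insert {S : Finset ℕ} {k : ℕ} (hk : k ∉ S) (x : ℝ) :
    Phi (insert k S) x = Phi S x * min (81 / 64) (x ^ (-(tk k))) := by
  unfold Phi
  rw [prod_insert hk]
  ring

theorem fac_eq {k : ℕ} {x : ℝ} (hx0 : 0 < x) (hx : x ≤ 256 * eta k) :
    min (81 / 64) (x ^ (-(tk k))) = 81 / 64 := by
  apply min_eq_left
  have h1 : x ≤ (64 / 81 : ℝ) ^ (2 ^ (k + 2)) := by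
    unfold eta at hx
    linarith
  have h2 : ((64 / 81 : ℝ) ^ (2 ^ (k + 2))) ^ (-(tk k)) ≤ x ^ (-(tk k)) :=
    Real.rpow_le_rpow_of_nonpos hx0 h1 (by linarith [tk_pos k])
  refine le_trans (le_of_eq ?_) h2
  have h3 : ((2 ^ (k + 2) : ℕ) : ℝ) * (-(tk k)) = -1 := by
    unfold tk
    push_cast
    rw [mul_neg, ← mul_pow]
    norm_num
  rw [← Real.rpow_natCast, ← Real.rpow_mul (by norm_num), h3, Real.rpow_neg_one]
  norm_num

theorem eta_pos (k : ℕ) : 0 < eta k := by unfold eta; positivity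

theorem eta_le_one (k : ℕ) : eta k ≤ 1 := by
  unfold eta
  have : (64 / 81 : ℝ) ^ (2 ^ (k + 2)) ≤ 1 := pow_le_one₀ (by norm_num) (by norm_num)
  linarith

theorem eta_anti {j k : ℕ} (h : j ≤ k) : eta k ≤ eta j := by
  unfold eta
  have : (64 / 81 : ℝ) ^ (2 ^ (k + 2)) ≤ (64 / 81 : ℝ) ^ (2 ^ (j + 2)) :=
    pow_le_pow_of_le_one (by norm_num) (by norm_num) (Nat.pow_le_pow_right (by norm_num) (by omega))
  linarith

theorem Psi_nonneg (S : Finset ℕ) (x : ℝ) : 0 ≤ Psi S x := Real.sqrt_nonneg _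

theorem Psi_pow_four {S : Finset ℕ} {x : ℝ} (hx : 0 ≤ x) : Psi S x ^ 4 = Phi S x := by
  unfold Psi
  rw [show Real.sqrt (Real.sqrt (Phi S x)) ^ 4 = (Real.sqrt (Real.sqrt (Phi S x)) ^ 2) ^ 2 by ring,
    Real.sq_sqrt (Real.sqrt_nonneg _), Real.sq_sqrt (Phi_nonneg hx)]

theorem Psi_pos {S : Finset ℕ} {x : ℝ} (hx : 0 < x) : 0 < Psi S x :=
  Real.sqrt_pos.2 (Real.sqrt_pos.2 (Phi_pos hx))

theorem Psi_zero (S : Finset ℕ) : Psi S 0 = 0 := by
  unfold Psi; rw [Phi_zero]; simp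

theorem Psi_one (S : Finset ℕ) : Psi S 1 = 1 := by
  unfold Psi; rw [Phi_one]; simp

theorem Psi_mono {S S' : Finset ℕ} (h : S ⊆ S') {x y : ℝ} (hx0 : 0 ≤ x) (hxy : x ≤ y) (hy1 : y ≤ 1) :
    Psi S x ≤ Psi S' y := by
  unfold Psi
  apply Real.sqrt_le_sqrt
  apply Real.sqrt_le_sqrt
  exact (Phi_mono hx0 hxy hy1).trans (Phi_mono_set h (hx0.trans hxy) hy1)

theorem Psi_submul {S : Finset ℕ} {x y : ℝ} (hx0 : 0 ≤ x) (hx1 : x ≤ 1) (hy0 : 0 ≤ y) (hy1 : y ≤ 1) :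
    Psi S (x * y) ≤ Psi S x * Psi S y := by
  unfold Psi
  rw [← Real.sqrt_mul (Real.sqrt_nonneg _), ← Real.sqrt_mul (Phi_nonneg hx0)]
  apply Real.sqrt_le_sqrt
  apply Real.sqrt_le_sqrt
  exact Phi_submul hx0 hx1 hy0 hy1

theorem Psi_le_one {S : Finset ℕ} {x : ℝ} (hx : 0 ≤ x) (hx1 : x ≤ 1) : Psi S x ≤ 1 := by
  rw [← Psi_one S]
  exact Psi_mono subset_rfl hx hx1 le_rfl

/-- `Psi ≤ x^{1/8}` -/
theorem Psi_pow_eight_le {S : Finset ℕ} {x : ℝ} (hx : 0 ≤ x) (hx1 : x ≤ 1) : Psi S x ^ 8 ≤ x := by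
  rw [show Psi S x ^ 8 = (Psi S x ^ 4) ^ 2 by ring, Psi_pow_four hx]
  calc Phi S x ^ 2 ≤ Real.sqrt x ^ 2 := pow_le_pow_left₀ (Phi_nonneg hx) (Phi_le_sqrt hx hx1) 2
    _ = x := Real.sq_sqrt hx

/-- `x^{1/4} ≤ Psi` -/
theorem le_Psi_pow_four {S : Finset ℕ} {x : ℝ} (hx : 0 ≤ x) (hx1 : x ≤ 1) : x ≤ Psi S x ^ 4 := by
  rw [Psi_pow_four hx]
  exact le_Phi hx hx1

/-- The gain of the label factor (the bad case). Here `x = (x0+x1)/2`, `k ∉ S'`. -/
theorem bad_case {S' : Finset ℕ} {k : ℕ} (hk : k ∉ S') {x0 x1 : ℝ} (h00 : 0 < x0) (h01 : x0 ≤ 1)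
    (h10 : 0 < x1) (h11 : x1 ≤ 1) (hbad : x1 < eta k) :
    (3 / 4 * (Psi S' x0 / Psi (insert k S') ((x0 + x1) / 2))) ^ 2 +
      (3 / 4 * (Psi S' x1 / Psi (insert k S') ((x0 + x1) / 2))) ^ 2 ≤ 1 := by
  set x := (x0 + x1) / 2 with hx
  have hx0 : 0 < x := by positivity
  have hx1 : x ≤ 1 := by rw [hx]; linarith
  have hconc := Phi_concave (S := S') (q := 1 / 2) (by norm_num) (by norm_num) h00.le h01 h10.le h11
  rw [show (1 / 2 : ℝ) * x0 + (1 - 1 / 2) * x1 = x by rw [hx]; ring] at hconc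
  rw [← Psi_pow_four h00.le, ← Psi_pow_four h10.le, ← Psi_pow_four hx0.le] at hconc
  have hPi : Psi (insert k S') x ^ 4 = Psi S' x ^ 4 * min (81 / 64) (x ^ (-(tk k))) := by
    rw [Psi_pow_four hx0.le, Psi_pow_four hx0.le, Phi_insert hk]
  have hPile : Psi S' x ≤ Psi (insert k S') x := Psi_mono (subset_insert _ _) hx0.le le_rfl hx1
  have hP0 : 0 < Psi S' x0 := Psi_pos h00
  have hP1 : 0 < Psi S' x1 := Psi_pos h10
  have hP : 0 < Psi S' x := Psi_pos hx0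
  have hPip : 0 < Psi (insert k S') x := Psi_pos hx0
  have hsmall : 256 * eta k < x → Psi S' x1 ^ 4 ≤ Psi S' x ^ 4 / 16 := by
    intro hcase
    have h1 : x1 ≤ x * (1 / 256) := by linarith
    rw [Psi_pow_four h10.le, Psi_pow_four hx0.le]
    have h2 := Phi_mono (S := S') h10.le h1 (by nlinarith)
    have h3 := Phi_submul (S := S') hx0.le hx1 (by norm_num : (0 : ℝ) ≤ 1 / 256) (by norm_num)
    have h4 := Phi_le_sqrt (S := S') (by norm_num : (0 : ℝ) ≤ 1 / 256) (by norm_num)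
    have h5 : Real.sqrt (1 / 256 : ℝ) = 1 / 16 := by
      rw [show (1 / 256 : ℝ) = (1 / 16) ^ 2 by norm_num]
      exact Real.sqrt_sq (by norm_num)
    rw [h5] at h4
    have h6 := Phi_nonneg (S := S') hx0.le
    nlinarith
  generalize Psi S' x0 = P0 at *
  generalize Psi S' x1 = P1 at *
  generalize Psi S' x = P at *
  generalize hPid : Psi (insert k S') x = Pi at *
  have goal_iff : 9 / 16 * (P0 ^ 2 + P1 ^ 2) ≤ Pi ^ 2 →
      (3 / 4 * (P0 / Pi)) ^ 2 + (3 / 4 * (P1 / Pi)) ^ 2 ≤ 1 := by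
    intro h
    have : (3 / 4 * (P0 / Pi)) ^ 2 + (3 / 4 * (P1 / Pi)) ^ 2 = (9 / 16 * (P0 ^ 2 + P1 ^ 2)) / Pi ^ 2 := by
      field_simp
      ring
    rw [this, div_le_one (by positivity)]
    exact h
  apply goal_iff
  rcases le_or_gt x (256 * eta k) with hcase | hcase
  · rw [fac_eq hx0 hcase] at hPi
    have h1 : Pi ^ 2 = P ^ 2 * (9 / 8) := by
      have h2 : (Pi ^ 2) ^ 2 = (P ^ 2 * (9 / 8)) ^ 2 := by
        rw [show (Pi ^ 2) ^ 2 = Pi ^ 4 by ring, hPi]; ring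
      exact (pow_left_inj₀ (by positivity) (by positivity) (by norm_num)).1 h2
    rw [h1]
    have h3 : (P0 ^ 2 + P1 ^ 2) ^ 2 ≤ (2 * P ^ 2) ^ 2 := by
      nlinarith [sq_nonneg (P0 ^ 2 - P1 ^ 2)]
    have h4 : P0 ^ 2 + P1 ^ 2 ≤ 2 * P ^ 2 := (pow_le_pow_iff_left₀ (by positivity) (by positivity) (by norm_num)).1 h3
    linarith
  · have h1 := hsmall hcase
    have h2 : P1 ^ 2 ≤ P ^ 2 / 4 := by
      have : (P1 ^ 2) ^ 2 ≤ (P ^ 2 / 4) ^ 2 := by
        rw [show (P1 ^ 2) ^ 2 = P1 ^ 4 by ring, show (P ^ 2 / 4) ^ 2 = P ^ 4 / 16 by ring]; exact h1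
      exact (pow_le_pow_iff_left₀ (by positivity) (by positivity) (by norm_num)).1 this
    have h3 : P0 ^ 2 ≤ 1.4143 * P ^ 2 := by
      have : (P0 ^ 2) ^ 2 ≤ (1.4143 * P ^ 2) ^ 2 := by
        have hP4 : 0 < P ^ 4 := by positivity
        have hP14 : 0 < P1 ^ 4 := by positivity
        rw [show (P0 ^ 2) ^ 2 = P0 ^ 4 by ring, show (1.4143 * P ^ 2) ^ 2 = 1.4143 ^ 2 * P ^ 4 by ring]
        nlinarith
      exact (pow_le_pow_iff_left₀ (by positivity) (by positivity) (by norm_num)).1 this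
    have h4 : P ^ 2 ≤ Pi ^ 2 := pow_le_pow_left₀ hP.le hPile 2
    have h5 : 0 < P ^ 2 := by positivity
    nlinarith

end Pool.Agent.H51.SM
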