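import Pool.Agent.H51.SM.Psi

/-!
# Module TREE: basic facts on trees, and decompositions of the normalised restrictions `R T B`
-/

set_option autoImplicit false

namespace Pool.Agent.H51.SM

open Finset

variable {L : LS dm}

theorem sig_gt_sp {T : Tr} {n : ℕ} (hn : n ∈ sp T) : n < sig T := by
  have h1 : n ≤ (sp T).sup id := Finset.le_sup (f := id) hn
  have h2 : (sp T).sup id ⊔ (lab T).sup id ≤ Nat.pair (enc T) ((sp T).sup id ⊔ (lab T).sup id) :=
    Nat.right_le_pair _ _
  have h3 : (sp T).sup id ≤ (sp T).sup id ⊔ (lab T).sup id := le_sup_left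
  unfold sig
  omega

theorem sig_gt_lab {T : Tr} {l : ℕ} (hl : l ∈ lab T) : l < sig T := by
  have h1 : l ≤ (lab T).sup id := Finset.le_sup (f := id) hl
  have h2 : (sp T).sup id ⊔ (lab T).sup id ≤ Nat.pair (enc T) ((sp T).sup id ⊔ (lab T).sup id) :=
    Nat.right_le_pair _ _
  have h3 : (lab T).sup id ≤ (sp T).sup id ⊔ (lab T).sup id := le_sup_right
  unfold sig
  omega

theorem sig_injective : Function.Injective sig := by
  intro s t hst
  unfold sig at hst
  have h1 := Nat.succ.inj hst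
  rw [Nat.pair_eq_pair] at h1
  exact enc_injective h1.1

theorem sp_nonempty {T : Tr} (hT : Valid L T) : (sp T).Nonempty := by
  induction T with
  | leaf n => exact ⟨n, by simp [sp]⟩
  | gen q s t ihs iht => exact (ihs hT.2.1).mono subset_union_left
  | cop q s t ihs iht => exact (ihs hT.2.1).mono subset_union_left
  | spec s t ihs iht => exact (ihs hT.1).mono subset_union_left
  | rest B t ih => exact hT.2.2

theorem spec_lt {s t : Tr} (hT : Valid L (Tr.spec s t)) : Lt (sp s) (sp t) := by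
  intro a ha b hb
  exact (sig_gt_sp ha).trans (hT.2.2.1 b hb)

theorem h_facts {T : Tr} (hT : Valid L T) :
    (∀ n ∈ sp T, 0 < h T n) ∧ (∀ n, n ∉ sp T → h T n = 0) ∧ ∑ n ∈ sp T, h T n = 1 := by
  induction T with
  | leaf n =>
    refine ⟨?_, ?_, ?_⟩
    · intro m hm
      simp only [sp, mem_singleton] at hm
      simp [h, hm]
    · intro m hm
      simp only [sp, mem_singleton] at hm
      simp [h, hm]
    · simp [sp, h]
  | gen q s t ihs iht =>
    obtain ⟨⟨hq0, hq1⟩, hs, ht, hlt⟩ := hT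
    obtain ⟨s1, s2, s3⟩ := ihs hs
    obtain ⟨t1, t2, t3⟩ := iht ht
    have hq0' : (0 : ℝ) < q := by exact_mod_cast hq0
    have hq1' : (0 : ℝ) < 1 - q := by
      have : (q : ℝ) < 1 := by exact_mod_cast hq1
      linarith
    have hdis : Disjoint (sp s) (sp t) := by
      rw [Finset.disjoint_left]
      intro a ha hb
      exact lt_irrefl _ (hlt a ha a hb)
    have s1' : ∀ n, 0 ≤ h s n := fun n => by
      by_cases hn : n ∈ sp s
      · exact (s1 n hn).le
      · rw [s2 n hn]
    have t1' : ∀ n, 0 ≤ h t n := fun n => by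
      by_cases hn : n ∈ sp t
      · exact (t1 n hn).le
      · rw [t2 n hn]
    refine ⟨?_, ?_, ?_⟩
    · intro n hn
      simp only [sp, mem_union] at hn
      simp only [h]
      rcases hn with hn | hn
      · have := s1 n hn
        have := t1' n
        positivity
      · have := t1 n hn
        have := s1' n
        positivity
    · intro n hn
      simp only [sp, mem_union, not_or] at hn
      simp only [h]
      rw [s2 n hn.1, t2 n hn.2]
      ring
    · simp only [sp, h]
      rw [sum_union hdis, sum_add_distrib, sum_add_distrib, ← mul_sum, ← mul_sum, ← mul_sum, ← mul_sum, s3, t3]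
      have e1 : ∑ n ∈ sp s, h t n = 0 := sum_eq_zero fun n hn => t2 n (Finset.disjoint_left.1 hdis hn)
      have e2 : ∑ n ∈ sp t, h s n = 0 := sum_eq_zero fun n hn => s2 n (Finset.disjoint_right.1 hdis hn)
      rw [e1, e2]
      ring
  | cop q s t ihs iht =>
    obtain ⟨⟨hq0, hq1⟩, hs, ht, hdis⟩ := hT
    obtain ⟨s1, s2, s3⟩ := ihs hs
    obtain ⟨t1, t2, t3⟩ := iht ht
    have hq0' : (0 : ℝ) < q := by exact_mod_cast hq0
    have hq1' : (0 : ℝ) < 1 - q := by
      have : (q : ℝ) < 1 := by exact_mod_cast hq1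
      linarith
    have s1' : ∀ n, 0 ≤ h s n := fun n => by
      by_cases hn : n ∈ sp s
      · exact (s1 n hn).le
      · rw [s2 n hn]
    have t1' : ∀ n, 0 ≤ h t n := fun n => by
      by_cases hn : n ∈ sp t
      · exact (t1 n hn).le
      · rw [t2 n hn]
    refine ⟨?_, ?_, ?_⟩
    · intro n hn
      simp only [sp, mem_union] at hn
      simp only [h]
      rcases hn with hn | hn
      · have := s1 n hn
        have := t1' n
        positivity
      · have := t1 n hn
        have := s1' n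
        positivity
    · intro n hn
      simp only [sp, mem_union, not_or] at hn
      simp only [h]
      rw [s2 n hn.1, t2 n hn.2]
      ring
    · simp only [sp, h]
      rw [sum_union hdis, sum_add_distrib, sum_add_distrib, ← mul_sum, ← mul_sum, ← mul_sum, ← mul_sum, s3, t3]
      have e1 : ∑ n ∈ sp s, h t n = 0 := sum_eq_zero fun n hn => t2 n (Finset.disjoint_left.1 hdis hn)
      have e2 : ∑ n ∈ sp t, h s n = 0 := sum_eq_zero fun n hn => s2 n (Finset.disjoint_right.1 hdis hn)
      rw [e1, e2]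
      ring
  | spec s t ihs iht =>
    have hlt := spec_lt hT
    obtain ⟨hs, ht, -, -⟩ := hT
    obtain ⟨s1, s2, s3⟩ := ihs hs
    obtain ⟨t1, t2, t3⟩ := iht ht
    have hdis : Disjoint (sp s) (sp t) := by
      rw [Finset.disjoint_left]
      intro a ha hb
      exact lt_irrefl _ (hlt a ha a hb)
    have s1' : ∀ n, 0 ≤ h s n := fun n => by
      by_cases hn : n ∈ sp s
      · exact (s1 n hn).le
      · rw [s2 n hn]
    have t1' : ∀ n, 0 ≤ h t n := fun n => by
      by_cases hn : n ∈ sp t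
      · exact (t1 n hn).le
      · rw [t2 n hn]
    refine ⟨?_, ?_, ?_⟩
    · intro n hn
      simp only [sp, mem_union] at hn
      simp only [h]
      rcases hn with hn | hn
      · have := s1 n hn
        have := t1' n
        positivity
      · have := t1 n hn
        have := s1' n
        positivity
    · intro n hn
      simp only [sp, mem_union, not_or] at hn
      simp only [h]
      rw [s2 n hn.1, t2 n hn.2]
      ring
    · simp only [sp, h]
      rw [sum_union hdis, ← sum_div, ← sum_div, sum_add_distrib, sum_add_distrib, s3, t3]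
      have e1 : ∑ n ∈ sp s, h t n = 0 := sum_eq_zero fun n hn => t2 n (Finset.disjoint_left.1 hdis hn)
      have e2 : ∑ n ∈ sp t, h s n = 0 := sum_eq_zero fun n hn => s2 n (Finset.disjoint_right.1 hdis hn)
      rw [e1, e2]
      ring
  | rest B t ih =>
    obtain ⟨ht, hB, hne⟩ := hT
    obtain ⟨t1, t2, t3⟩ := ih ht
    have hpos : 0 < ∑ n ∈ B, h t n := sum_pos (fun n hn => t1 n (hB hn)) hne
    refine ⟨?_, ?_, ?_⟩
    · intro n hn
      simp only [sp] at hn
      simp only [h, if_pos hn]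
      exact div_pos (t1 n (hB hn)) hpos
    · intro n hn
      simp only [sp] at hn
      simp only [h, if_neg hn]
    · simp only [sp, h]
      rw [sum_congr rfl (fun n hn => if_pos hn), ← sum_div, div_self hpos.ne']

theorem h_pos {T : Tr} (hT : Valid L T) {n : ℕ} (hn : n ∈ sp T) : 0 < h T n := (h_facts hT).1 n hn

theorem h_eq_zero {T : Tr} (hT : Valid L T) {n : ℕ} (hn : n ∉ sp T) : h T n = 0 := (h_facts hT).2.1 n hn

theorem h_nonneg {T : Tr} (hT : Valid L T) (n : ℕ) : 0 ≤ h T n := by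
  by_cases hn : n ∈ sp T
  · exact (h_pos hT hn).le
  · rw [h_eq_zero hT hn]

theorem sum_h {T : Tr} (hT : Valid L T) : ∑ n ∈ sp T, h T n = 1 := (h_facts hT).2.2

theorem f_nonneg {T : Tr} (hT : Valid L T) (n : ℕ) : 0 ≤ f T n := by
  induction T with
  | leaf m => simp only [f]; split_ifs <;> norm_num
  | gen q s t ihs iht =>
    have := ihs hT.2.1
    have := iht hT.2.2.1
    simp only [f]
    positivity
  | cop q s t ihs iht =>
    have := ihs hT.2.1
    have := iht hT.2.2.1
    simp only [f]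
    positivity
  | spec s t ihs iht =>
    have := ihs hT.1
    have := iht hT.2.1
    simp only [f]
    positivity
  | rest B t ih =>
    simp only [f]
    split_ifs
    · exact div_nonneg (ih hT.1) (Psi_nonneg _ _)
    · exact le_rfl

theorem f_eq_zero {T : Tr} (hT : Valid L T) {n : ℕ} (hn : n ∉ sp T) : f T n = 0 := by
  induction T with
  | leaf m =>
    simp only [sp, mem_singleton] at hn
    simp [f, hn]
  | gen q s t ihs iht =>
    simp only [sp, mem_union, not_or] at hn
    simp only [f]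
    rw [ihs hT.2.1 hn.1, iht hT.2.2.1 hn.2]
    ring
  | cop q s t ihs iht =>
    simp only [sp, mem_union, not_or] at hn
    simp only [f]
    rw [ihs hT.2.1 hn.1, iht hT.2.2.1 hn.2]
    ring
  | spec s t ihs iht =>
    simp only [sp, mem_union, not_or] at hn
    simp only [f]
    rw [ihs hT.1 hn.1, iht hT.2.1 hn.2]
    ring
  | rest B t ih =>
    simp only [sp] at hn
    simp only [f, if_neg hn]

/-- all labels of a valid tree exceed the minimum of its support -/
theorem lab_gt {T : Tr} (hT : Valid L T) {l : ℕ} (hl : l ∈ lab T) : ∃ b ∈ sp T, b < l := by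
  induction T with
  | leaf n => simp [lab] at hl
  | gen q s t ihs iht =>
    simp only [lab, mem_union] at hl
    simp only [sp, mem_union]
    rcases hl with hl | hl
    · obtain ⟨b, hb, hbl⟩ := ihs hT.2.1 hl
      exact ⟨b, Or.inl hb, hbl⟩
    · obtain ⟨b, hb, hbl⟩ := iht hT.2.2.1 hl
      exact ⟨b, Or.inr hb, hbl⟩
  | cop q s t ihs iht =>
    simp only [lab, mem_union] at hl
    simp only [sp, mem_union]
    rcases hl with hl | hl
    · obtain ⟨b, hb, hbl⟩ := ihs hT.2.1 hl
      exact ⟨b, Or.inl hb, hbl⟩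
    · obtain ⟨b, hb, hbl⟩ := iht hT.2.2.1 hl
      exact ⟨b, Or.inr hb, hbl⟩
  | spec s t ihs iht =>
    simp only [lab, mem_insert, mem_union] at hl
    simp only [sp, mem_union]
    rcases hl with hl | hl | hl
    · obtain ⟨b, hb⟩ := sp_nonempty hT.1
      refine ⟨b, Or.inl hb, ?_⟩
      have := sig_gt_sp hb
      unfold sig at this
      rw [hl]
      exact this
    · obtain ⟨b, hb, hbl⟩ := ihs hT.1 hl
      exact ⟨b, Or.inl hb, hbl⟩
    · obtain ⟨b, hb, hbl⟩ := iht hT.2.1 hl
      exact ⟨b, Or.inr hb, hbl⟩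
  | rest B t ih =>
    simp only [lab, SB, mem_filter] at hl
    exact hl.2

theorem sig_notMem {s t : Tr} (hT : Valid L (Tr.spec s t)) : sig s ∉ lab s ∪ lab t := by
  intro hm
  rw [mem_union] at hm
  rcases hm with hm | hm
  · exact lt_irrefl _ (sig_gt_lab hm)
  · obtain ⟨b, hb, hbl⟩ := lab_gt hT.2.1 hm
    have := hT.2.2.1 b hb
    omega

theorem lab_spec (s t : Tr) : lab (Tr.spec s t) = insert (sig s) (lab s ∪ lab t) := rfl

/-! ### equal-weight combinations -/

theorem sp_comb (P : ℕ → Tr) (m : ℕ) : sp (comb P m) = (range (m + 1)).biUnion fun i => sp (P i) := by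
  induction m with
  | zero => simp [comb]
  | succ m ih =>
    rw [comb, sp, ih]
    rw [range_add_one (n := m + 1), biUnion_insert, union_comm]

theorem h_comb (P : ℕ → Tr) (m n : ℕ) :
    h (comb P m) n = ((m : ℝ) + 1)⁻¹ * ∑ i ∈ range (m + 1), h (P i) n := by
  induction m with
  | zero => simp [comb]
  | succ m ih =>
    simp only [comb, h]
    rw [ih, sum_range_succ (n := m + 1)]
    have h1 : ((m : ℝ) + 1) ≠ 0 := by positivity
    have h2 : ((m : ℝ) + 2) ≠ 0 := by positivity
    push_cast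
    have h3 : (m : ℝ) + 1 + 1 = m + 2 := by ring
    rw [h3]
    field_simp
    ring

theorem f_comb (P : ℕ → Tr) (m n : ℕ) :
    f (comb P m) n = (Real.sqrt ((m : ℝ) + 1))⁻¹ * ∑ i ∈ range (m + 1), f (P i) n := by
  induction m with
  | zero => simp [comb]
  | succ m ih =>
    simp only [comb, f]
    rw [ih, sum_range_succ (n := m + 1)]
    have h1 : (0 : ℝ) < (m : ℝ) + 1 := by positivity
    have h2 : (0 : ℝ) < (m : ℝ) + 2 := by positivity
    push_cast
    have h3 : (m : ℝ) + 1 + 1 = m + 2 := by ring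
    rw [h3]
    have h4 : (1 : ℝ) - ((m : ℝ) + 1) / (m + 2) = 1 / (m + 2) := by field_simp; ring
    rw [h4, Real.sqrt_div h1.le, Real.sqrt_div zero_le_one, Real.sqrt_one]
    have h5 : 0 < Real.sqrt ((m : ℝ) + 1) := Real.sqrt_pos.2 h1
    have h6 : 0 < Real.sqrt ((m : ℝ) + 2) := Real.sqrt_pos.2 h2
    field_simp

theorem valid_comb (P : ℕ → Tr) (m : ℕ) :
    Valid L (comb P m) ↔ (∀ i ≤ m, Valid L (P i)) ∧ ∀ i j, i < j → j ≤ m → Lt (sp (P i)) (sp (P j)) := by
  induction m with
  | zero =>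
    simp only [comb]
    constructor
    · intro hv
      refine ⟨fun i hi => ?_, fun i j hij hj => ?_⟩
      · rw [Nat.le_zero.1 hi]; exact hv
      · omega
    · intro hv
      exact hv.1 0 le_rfl
  | succ m ih =>
    rw [comb, Valid, ih]
    constructor
    · rintro ⟨-, ⟨h1, h2⟩, h3, h4⟩
      refine ⟨fun i hi => ?_, fun i j hij hj => ?_⟩
      · rcases Nat.lt_or_ge i (m + 1) with hi' | hi'
        · exact h1 i (by omega)
        · have : i = m + 1 := by omega
          rw [this]; exact h3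
      · rcases Nat.lt_or_ge j (m + 1) with hj' | hj'
        · exact h2 i j hij (by omega)
        · have hjm : j = m + 1 := by omega
          rw [hjm]
          intro a ha b hb
          apply h4 a _ b hb
          rw [sp_comb, mem_biUnion]
          exact ⟨i, mem_range.2 (by omega), ha⟩
    · rintro ⟨h1, h2⟩
      refine ⟨⟨?_, ?_⟩, ⟨fun i hi => h1 i (by omega), fun i j hij hj => h2 i j hij (by omega)⟩,
        h1 (m + 1) le_rfl, ?_⟩
      · positivity
      · rw [div_lt_one (by positivity)]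
        linarith
      · intro a ha b hb
        rw [sp_comb, mem_biUnion] at ha
        obtain ⟨i, hi, ha⟩ := ha
        exact h2 i (m + 1) (by simpa using hi) le_rfl a ha b hb

/-! ### masses and normalising factors -/

theorem ms_nonneg {T : Tr} (hT : Valid L T) (B : Finset ℕ) : 0 ≤ ms T B :=
  sum_nonneg fun n _ => h_nonneg hT n

theorem ms_mono {T : Tr} (hT : Valid L T) {A B : Finset ℕ} (hAB : A ⊆ B) : ms T A ≤ ms T B :=
  sum_le_sum_of_subset_of_nonneg hAB fun n _ _ => h_nonneg hT n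

theorem ms_inter {T : Tr} (hT : Valid L T) (B : Finset ℕ) : ms T (B ∩ sp T) = ms T B := by
  unfold ms
  apply sum_subset inter_subset_left
  intro n hn hn'
  apply h_eq_zero hT
  intro hns
  exact hn' (mem_inter.2 ⟨hn, hns⟩)

theorem ms_le_one {T : Tr} (hT : Valid L T) (B : Finset ℕ) : ms T B ≤ 1 := by
  rw [← ms_inter hT, ← sum_h hT]
  exact ms_mono hT inter_subset_right

theorem ms_pos {T : Tr} (hT : Valid L T) {B : Finset ℕ} (hB : (B ∩ sp T).Nonempty) : 0 < ms T B := by
  rw [← ms_inter hT]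
  exact sum_pos (fun n hn => h_pos hT (mem_inter.1 hn).2) hB

theorem ms_sp {T : Tr} (hT : Valid L T) : ms T (sp T) = 1 := sum_h hT

theorem SB_mono {S S' A B : Finset ℕ} (hS : S ⊆ S') (hAB : A ⊆ B) : SB S A ⊆ SB S' B := by
  intro l hl
  unfold SB at hl ⊢
  rw [mem_filter] at hl ⊢
  obtain ⟨h1, b, hb, hbl⟩ := hl
  exact ⟨hS h1, b, hAB hb, hbl⟩

theorem Th_nonneg (T : Tr) (B : Finset ℕ) : 0 ≤ Th T B := Psi_nonneg _ _

theorem Th_le_one {T : Tr} (hT : Valid L T) (B : Finset ℕ) : Th T B ≤ 1 :=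
  Psi_le_one (ms_nonneg hT B) (ms_le_one hT B)

theorem Th_pos {T : Tr} (hT : Valid L T) {B : Finset ℕ} (hB : (B ∩ sp T).Nonempty) : 0 < Th T B :=
  Psi_pos (ms_pos hT hB)

theorem Th_pow_eight_le {T : Tr} (hT : Valid L T) (B : Finset ℕ) : Th T B ^ 8 ≤ ms T B :=
  Psi_pow_eight_le (ms_nonneg hT B) (ms_le_one hT B)

theorem ms_le_Th_pow_four {T : Tr} (hT : Valid L T) (B : Finset ℕ) : ms T B ≤ Th T B ^ 4 :=
  le_Psi_pow_four (ms_nonneg hT B) (ms_le_one hT B)

theorem Th_mono {T : Tr} (hT : Valid L T) {A B : Finset ℕ} (hAB : A ⊆ B) : Th T A ≤ Th T B :=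
  Psi_mono (SB_mono subset_rfl (inter_subset_inter_right hAB)) (ms_nonneg hT A) (ms_mono hT hAB)
    (ms_le_one hT B)

theorem Th_pow_four {T : Tr} (hT : Valid L T) (B : Finset ℕ) :
    Th T B ^ 4 = Phi (SB (lab T) (B ∩ sp T)) (ms T B) := Psi_pow_four (ms_nonneg hT B)

/-! ### the normalised restrictions -/

theorem R_nonneg {T : Tr} (hT : Valid L T) (B : Finset ℕ) (n : ℕ) : 0 ≤ R T B n := by
  unfold R
  split_ifs
  · exact div_nonneg (f_nonneg hT n) (Th_nonneg _ _)
  · exact le_rfl

theorem R_eq_zero {T : Tr} (hT : Valid L T) {B : Finset ℕ} {n : ℕ} (hn : n ∉ B ∩ sp T) : R T B n = 0 := by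
  unfold R
  split_ifs with hB
  · rw [f_eq_zero hT (fun hs => hn (mem_inter.2 ⟨hB, hs⟩)), zero_div]
  · rfl

theorem f_eq {T : Tr} (hT : Valid L T) {B : Finset ℕ} {n : ℕ} (hn : n ∈ B) : f T n = Th T B * R T B n := by
  by_cases hs : n ∈ sp T
  · have hpos : 0 < Th T B := Th_pos hT ⟨n, mem_inter.2 ⟨hn, hs⟩⟩
    unfold R
    rw [if_pos hn]
    field_simp
  · rw [f_eq_zero hT hs, R_eq_zero hT (fun hh => hs (mem_inter.1 hh).2), mul_zero]

theorem Th_sp {T : Tr} (hT : Valid L T) : Th T (sp T) = 1 := by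
  unfold Th
  rw [ms_sp hT, Psi_one]

theorem R_sp {T : Tr} (hT : Valid L T) (n : ℕ) : R T (sp T) n = f T n := by
  by_cases hs : n ∈ sp T
  · rw [f_eq hT hs, Th_sp hT, one_mul]
  · rw [f_eq_zero hT hs, R_eq_zero hT (fun hh => hs (mem_inter.1 hh).2)]

/-- `R T B` is the functional of the valid tree `rest (B ∩ sp T) T` -/
theorem rest_valid {T : Tr} (hT : Valid L T) {B : Finset ℕ} (hB : (B ∩ sp T).Nonempty) :
    Valid L (Tr.rest (B ∩ sp T) T) ∧ ∀ n, f (Tr.rest (B ∩ sp T) T) n = R T B n := by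
  refine ⟨⟨hT, inter_subset_right, hB⟩, fun n => ?_⟩
  simp only [f]
  split_ifs with hn
  · unfold R Th
    rw [if_pos (mem_inter.1 hn).1]
    have := ms_inter hT B
    unfold ms at this ⊢
    rw [this]
  · rw [R_eq_zero hT hn]

/-- quantitative version -/
theorem R_eq_R {T : Tr} (hT : Valid L T) {A B : Finset ℕ} (hAB : A ⊆ B) {n : ℕ} (hn : n ∈ A) :
    Th T B * R T B n = Th T A * R T A n := by
  rw [← f_eq hT hn, ← f_eq hT (hAB hn)]

/-- restricting to a smaller set increases the normalised restriction -/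
theorem R_le_R {T : Tr} (hT : Valid L T) {A B : Finset ℕ} (hAB : A ⊆ B) {n : ℕ} (hn : n ∈ A) :
    R T B n ≤ R T A n := by
  by_cases hs : n ∈ sp T
  · have hpos : 0 < Th T A := Th_pos hT ⟨n, mem_inter.2 ⟨hn, hs⟩⟩
    unfold R
    rw [if_pos hn, if_pos (hAB hn)]
    exact div_le_div_of_nonneg_left (f_nonneg hT n) hpos (Th_mono hT hAB)
  · rw [R_eq_zero hT (fun hh => hs (mem_inter.1 hh).2)]
    exact R_nonneg hT A n

theorem valid_leaf (m : ℕ) : Valid L (Tr.leaf m) := trivial

theorem R_leaf (m : ℕ) (B : Finset ℕ) (n : ℕ) : R (Tr.leaf m) B n = if n = m ∧ m ∈ B then 1 else 0 := by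
  by_cases hn : n ∈ B
  · unfold R
    rw [if_pos hn]
    by_cases hnm : n = m
    · subst hnm
      rw [if_pos ⟨rfl, hn⟩]
      have h1 : ms (Tr.leaf n) B = 1 := by
        unfold ms
        simp only [h]
        rw [sum_ite_eq' B n (fun _ => (1 : ℝ)), if_pos hn]
      unfold Th
      rw [h1, Psi_one]
      simp [f]
    · rw [if_neg (fun hh => hnm hh.1)]
      simp [f, hnm]
  · unfold R
    rw [if_neg hn, if_neg]
    rintro ⟨rfl, hm⟩
    exact hn hm

/-- common part of the decompositions: the ratios of normalising factors -/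
theorem ratio_aux {T s t : Tr} (hT : Valid L T) (hs : Valid L s) (ht : Valid L t)
    (hsp : sp T = sp s ∪ sp t) (hls : lab s ⊆ lab T) (hlt : lab t ⊆ lab T) {q : ℝ} (hq0 : 0 ≤ q)
    (hq1 : q ≤ 1) (hms : ∀ B, ms T B = q * ms s B + (1 - q) * ms t B) (B : Finset ℕ) :
    q * Th s B ^ 4 + (1 - q) * Th t B ^ 4 ≤ Th T B ^ 4 := by
  rw [Th_pow_four hT, Th_pow_four hs, Th_pow_four ht, hms B]
  refine le_trans ?_ (Phi_concave hq0 hq1 (ms_nonneg hs B) (ms_le_one hs B) (ms_nonneg ht B)
    (ms_le_one ht B))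
  have h1 : SB (lab s) (B ∩ sp s) ⊆ SB (lab T) (B ∩ sp T) :=
    SB_mono hls (inter_subset_inter_left (by rw [hsp]; exact subset_union_left))
  have h2 : SB (lab t) (B ∩ sp t) ⊆ SB (lab T) (B ∩ sp T) :=
    SB_mono hlt (inter_subset_inter_left (by rw [hsp]; exact subset_union_right))
  have h3 := Phi_mono_set h1 (ms_nonneg hs B) (ms_le_one hs B)
  have h4 := Phi_mono_set h2 (ms_nonneg ht B) (ms_le_one ht B)
  have h5 : 0 ≤ 1 - q := by linarith
  nlinarith [mul_le_mul_of_nonneg_left h3 hq0, mul_le_mul_of_nonneg_left h4 h5]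

/-- common part of the decompositions -/
theorem decomp_aux {T s t : Tr} (hT : Valid L T) (hs : Valid L s) (ht : Valid L t)
    (hsp : sp T = sp s ∪ sp t) (B : Finset ℕ) {u v : ℝ} (hf : ∀ n, f T n = u * f s n + v * f t n) (n : ℕ) :
    R T B n = u * (Th s B / Th T B) * R s B n + v * (Th t B / Th T B) * R t B n := by
  by_cases hn : n ∈ B ∩ sp T
  · have hB := (mem_inter.1 hn).1
    have hpos : 0 < Th T B := Th_pos hT ⟨n, hn⟩
    have h1 := f_eq hT hB
    have h2 := hf n
    rw [h1, f_eq hs hB, f_eq ht hB] at h2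
    field_simp
    linarith
  · have hn1 : n ∉ B ∩ sp s := by
      intro hh
      apply hn
      rw [hsp]
      exact mem_inter.2 ⟨(mem_inter.1 hh).1, mem_union_left _ (mem_inter.1 hh).2⟩
    have hn2 : n ∉ B ∩ sp t := by
      intro hh
      apply hn
      rw [hsp]
      exact mem_inter.2 ⟨(mem_inter.1 hh).1, mem_union_right _ (mem_inter.1 hh).2⟩
    rw [R_eq_zero hT hn, R_eq_zero hs hn1, R_eq_zero ht hn2]
    ring

theorem R_gen {q : ℚ} {s t : Tr} (hT : Valid L (Tr.gen q s t)) (B : Finset ℕ) :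
    ∃ a b : ℝ, 0 ≤ a ∧ 0 ≤ b ∧ q * a ^ 4 + (1 - q) * b ^ 4 ≤ 1 ∧
      ∀ n, R (Tr.gen q s t) B n = Real.sqrt q * a * R s B n + Real.sqrt (1 - q) * b * R t B n := by
  obtain ⟨⟨hq0, hq1⟩, hs, ht, hlt⟩ := id hT
  have hq0' : (0 : ℝ) < q := by exact_mod_cast hq0
  have hq1' : (q : ℝ) < 1 := by exact_mod_cast hq1
  refine ⟨Th s B / Th (Tr.gen q s t) B, Th t B / Th (Tr.gen q s t) B, div_nonneg (Th_nonneg _ _) (Th_nonneg _ _),
    div_nonneg (Th_nonneg _ _) (Th_nonneg _ _), ?_, ?_⟩
  · have h1 := ratio_aux hT hs ht rfl subset_union_left subset_union_right hq0'.le hq1'.le (fun B => by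
      unfold ms
      simp only [h]
      rw [sum_add_distrib, ← mul_sum, ← mul_sum]) B
    rw [div_pow, div_pow]
    by_cases h0 : Th (Tr.gen q s t) B = 0
    · rw [h0]; norm_num
    · have hpos : 0 < Th (Tr.gen q s t) B ^ 4 := by
        have := (Th_nonneg (Tr.gen q s t) B).lt_of_ne (Ne.symm h0)
        positivity
      rw [← mul_div_assoc, ← mul_div_assoc, ← add_div, div_le_one hpos]
      exact h1
  · intro n
    exact decomp_aux hT hs ht rfl B (fun n => rfl) n

theorem R_cop {q : ℚ} {s t : Tr} (hT : Valid L (Tr.cop q s t)) (B : Finset ℕ) :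
    ∃ a b : ℝ, 0 ≤ a ∧ 0 ≤ b ∧ q * a ^ 4 + (1 - q) * b ^ 4 ≤ 1 ∧
      ∀ n, R (Tr.cop q s t) B n = Real.sqrt q * Real.sqrt (Real.sqrt q) * a * R s B n +
        Real.sqrt (1 - q) * Real.sqrt (Real.sqrt (1 - q)) * b * R t B n := by
  obtain ⟨⟨hq0, hq1⟩, hs, ht, hlt⟩ := id hT
  have hq0' : (0 : ℝ) < q := by exact_mod_cast hq0
  have hq1' : (q : ℝ) < 1 := by exact_mod_cast hq1
  refine ⟨Th s B / Th (Tr.cop q s t) B, Th t B / Th (Tr.cop q s t) B, div_nonneg (Th_nonneg _ _) (Th_nonneg _ _),
    div_nonneg (Th_nonneg _ _) (Th_nonneg _ _), ?_, ?_⟩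
  · have h1 := ratio_aux hT hs ht rfl subset_union_left subset_union_right hq0'.le hq1'.le (fun B => by
      unfold ms
      simp only [h]
      rw [sum_add_distrib, ← mul_sum, ← mul_sum]) B
    rw [div_pow, div_pow]
    by_cases h0 : Th (Tr.cop q s t) B = 0
    · rw [h0]; norm_num
    · have hpos : 0 < Th (Tr.cop q s t) B ^ 4 := by
        have := (Th_nonneg (Tr.cop q s t) B).lt_of_ne (Ne.symm h0)
        positivity
      rw [← mul_div_assoc, ← mul_div_assoc, ← add_div, div_le_one hpos]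
      exact h1
  · intro n
    exact decomp_aux hT hs ht rfl B (fun n => rfl) n

theorem R_spec {s t : Tr} (hT : Valid L (Tr.spec s t)) (B : Finset ℕ) :
    ∃ a b : ℝ, 0 ≤ a ∧ 0 ≤ b ∧ a ≤ 9 / 10 ∧ b ≤ 9 / 10 ∧ (ms t B < eta (sig s) → a ^ 2 + b ^ 2 ≤ 1) ∧
      ∀ n, R (Tr.spec s t) B n = a * R s B n + b * R t B n := by
  obtain ⟨hs, ht, hbb, hlab⟩ := id hT
  have hlt := spec_lt hT
  set T := Tr.spec s t with hTdef
  have hTs := Th_nonneg s B
  have hTt := Th_nonneg t B
  have hTT := Th_nonneg T B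
  have hmsT : ∀ B, ms T B = (1 / 2 : ℝ) * ms s B + (1 - 1 / 2) * ms t B := fun B => by
    unfold ms
    rw [hTdef]
    simp only [h]
    rw [← sum_div, sum_add_distrib]
    ring
  have h1 := ratio_aux hT hs ht rfl (by rw [hTdef, lab_spec]; exact subset_trans subset_union_left (subset_insert _ _))
      (by rw [hTdef, lab_spec]; exact subset_trans subset_union_right (subset_insert _ _))
      (by norm_num : (0 : ℝ) ≤ 1 / 2) (by norm_num) hmsT B
  set a := 3 / 4 * (Th s B / Th T B) with ha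
  set b := 3 / 4 * (Th t B / Th T B) with hb
  have ha0 : 0 ≤ a := by positivity
  have hb0 : 0 ≤ b := by positivity
  -- the fourth powers
  have h4 : (Th s B / Th T B) ^ 4 + (Th t B / Th T B) ^ 4 ≤ 2 := by
    rw [div_pow, div_pow]
    by_cases h0 : Th T B = 0
    · rw [h0]; norm_num
    · have hpos : 0 < Th T B ^ 4 := by
        have := hTT.lt_of_ne (Ne.symm h0)
        positivity
      rw [← add_div, div_le_iff₀ hpos]
      linarith
  have hbound : ∀ y : ℝ, 0 ≤ y → y ^ 4 ≤ 2 → 3 / 4 * y ≤ 9 / 10 := by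
    intro y hy hy4
    by_contra hcon
    push Not at hcon
    have h6 : 6 / 5 < y := by linarith
    have : (6 / 5 : ℝ) ^ 4 < y ^ 4 := pow_lt_pow_left₀ h6 (by norm_num) (by norm_num)
    norm_num at this
    linarith
  have hxs : (0 : ℝ) ≤ Th s B / Th T B := by positivity
  have hxt : (0 : ℝ) ≤ Th t B / Th T B := by positivity
  have ha9 : a ≤ 9 / 10 := hbound _ hxs (by
    have : 0 ≤ (Th t B / Th T B) ^ 4 := by positivity
    linarith)
  have hb9 : b ≤ 9 / 10 := hbound _ hxt (by
    have : 0 ≤ (Th s B / Th T B) ^ 4 := by positivity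
    linarith)
  refine ⟨a, b, ha0, hb0, ha9, hb9, ?_, ?_⟩
  · intro hbad
    by_cases hBs : (B ∩ sp s).Nonempty
    · by_cases hBt : (B ∩ sp t).Nonempty
      · -- both children present
        set S' := SB (lab s ∪ lab t) (B ∩ sp T) with hS'
        have hkn : sig s ∉ S' := by
          intro hh
          exact sig_notMem hT (mem_filter.1 hh).1
        have hins : SB (lab T) (B ∩ sp T) = insert (sig s) S' := by
          have hex : ∃ b ∈ B ∩ sp T, b < sig s := by
            obtain ⟨n, hn⟩ := hBs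
            exact ⟨n, mem_inter.2 ⟨(mem_inter.1 hn).1, mem_union_left _ (mem_inter.1 hn).2⟩,
              sig_gt_sp (mem_inter.1 hn).2⟩
          have e1 : lab T = insert (sig s) (lab s ∪ lab t) := rfl
          rw [e1, hS']
          unfold SB
          rw [filter_insert, if_pos hex]
        have hbc := bad_case hkn (ms_pos hs hBs) (ms_le_one hs B) (ms_pos ht hBt) (ms_le_one ht B) hbad
        have hThT : Th T B = Psi (insert (sig s) S') ((ms s B + ms t B) / 2) := by
          unfold Th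
          rw [hins, hmsT B]
          congr 1
          ring
        rw [← hThT] at hbc
        have hle1 : Th s B ≤ Psi S' (ms s B) :=
          Psi_mono (SB_mono subset_union_left (inter_subset_inter_left (by
            rw [hTdef]; exact subset_union_left))) (ms_nonneg hs B) le_rfl (ms_le_one hs B)
        have hle2 : Th t B ≤ Psi S' (ms t B) :=
          Psi_mono (SB_mono subset_union_right (inter_subset_inter_left (by
            rw [hTdef]; exact subset_union_right))) (ms_nonneg ht B) le_rfl (ms_le_one ht B)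
        have hle3 : a ≤ 3 / 4 * (Psi S' (ms s B) / Th T B) := by
          rw [ha]; gcongr
        have hle4 : b ≤ 3 / 4 * (Psi S' (ms t B) / Th T B) := by
          rw [hb]; gcongr
        calc a ^ 2 + b ^ 2 ≤ (3 / 4 * (Psi S' (ms s B) / Th T B)) ^ 2 +
              (3 / 4 * (Psi S' (ms t B) / Th T B)) ^ 2 := by gcongr
          _ ≤ 1 := hbc
      · have hz : ms t B = 0 := by
          rw [← ms_inter ht, not_nonempty_iff_eq_empty.1 hBt]
          simp [ms]
        have hThz : Th t B = 0 := by unfold Th; rw [hz, Psi_zero]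
        have hbz : b = 0 := by rw [hb, hThz]; simp
        rw [hbz]
        nlinarith
    · have hz : ms s B = 0 := by
        rw [← ms_inter hs, not_nonempty_iff_eq_empty.1 hBs]
        simp [ms]
      have hThz : Th s B = 0 := by unfold Th; rw [hz, Psi_zero]
      have haz : a = 0 := by rw [ha, hThz]; simp
      rw [haz]
      nlinarith
  · intro n
    exact decomp_aux (u := 3 / 4) (v := 3 / 4) hT hs ht rfl B (fun n => by rw [hTdef]; simp only [f]; ring) n

theorem R_rest {B0 : Finset ℕ} {t : Tr} (hT : Valid L (Tr.rest B0 t)) (B : Finset ℕ) (n : ℕ) :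
    R (Tr.rest B0 t) B n ≤ R t (B ∩ B0) n := by
  obtain ⟨ht, hB0, hne⟩ := id hT
  by_cases hn : n ∈ B ∩ B0
  · have hnB := (mem_inter.1 hn).1
    have hnB0 := (mem_inter.1 hn).2
    have hsp : n ∈ sp t := hB0 hnB0
    set m0 := ∑ n ∈ B0, h t n with hm0
    have hm0pos : 0 < m0 := sum_pos (fun n hn => h_pos ht (hB0 hn)) hne
    have hm0le : m0 ≤ 1 := ms_le_one ht B0
    have hms : ms t (B ∩ B0) = m0 * ms (Tr.rest B0 t) B := by
      rw [← ms_inter hT B]
      unfold ms
      simp only [sp, h]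
      rw [sum_congr rfl (fun n hn => if_pos (mem_inter.1 hn).2), ← sum_div, ← hm0]
      field_simp
    have hT1 : Th t (B ∩ B0) ≤ Psi (SB (lab t) B0) m0 * Th (Tr.rest B0 t) B := by
      unfold Th
      rw [hms]
      set S'' := SB (lab t) (B ∩ B0 ∩ sp t) with hS''
      have hsub1 : S'' ⊆ SB (lab t) B0 :=
        SB_mono subset_rfl (subset_trans inter_subset_left inter_subset_right)
      have hsub2 : S'' ⊆ SB (lab (Tr.rest B0 t)) (B ∩ sp (Tr.rest B0 t)) := by
        intro l hl
        rw [hS''] at hl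
        unfold SB at hl
        rw [mem_filter] at hl
        obtain ⟨hl1, b, hb, hbl⟩ := hl
        have hb1 := (mem_inter.1 (mem_inter.1 hb).1)
        show l ∈ SB (SB (lab t) B0) (B ∩ B0)
        unfold SB
        rw [mem_filter, mem_filter]
        exact ⟨⟨hl1, b, hb1.2, hbl⟩, b, mem_inter.2 hb1, hbl⟩
      refine le_trans (Psi_submul hm0pos.le hm0le (ms_nonneg hT B) (ms_le_one hT B)) ?_
      refine mul_le_mul (Psi_mono hsub1 hm0pos.le le_rfl hm0le)
        (Psi_mono hsub2 (ms_nonneg hT B) le_rfl (ms_le_one hT B)) (Psi_nonneg _ _) (Psi_nonneg _ _)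
    have hpos1 : 0 < Th t (B ∩ B0) := Th_pos ht ⟨n, mem_inter.2 ⟨hn, hsp⟩⟩
    have hpos2 : 0 < Th (Tr.rest B0 t) B := Th_pos hT ⟨n, mem_inter.2 ⟨hnB, hnB0⟩⟩
    have hpos3 : 0 < Psi (SB (lab t) B0) m0 := Psi_pos hm0pos
    have hR1 : R (Tr.rest B0 t) B n = f t n / (Psi (SB (lab t) B0) m0 * Th (Tr.rest B0 t) B) := by
      conv_lhs => unfold R
      rw [if_pos hnB]
      simp only [f]
      rw [if_pos hnB0, div_div]
    have hR2 : R t (B ∩ B0) n = f t n / Th t (B ∩ B0) := by
      unfold R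
      rw [if_pos hn]
    rw [hR1, hR2]
    exact div_le_div_of_nonneg_left (f_nonneg ht n) hpos1 hT1
  · rw [R_eq_zero hT (by exact hn)]
    exact R_nonneg ht _ n

end Pool.Agent.H51.SM
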