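import Pool.Agent.H51.SM.ClaimP

/-!
# Module UPPER: block sequences have subsequences with almost isometric `ℓ_2` behaviour
-/

set_option autoImplicit false

namespace Pool.Agent.H51.SM

open Finset

variable {L : LS dm}

theorem up_min {u v α β C : ℝ} (hu : 0 ≤ u) (hv : 0 ≤ v) (hα : α ≤ C) (hβ : β ≤ C) :
    min (α * u) (β * v) ≤ C * min u v := by
  rcases le_total u v with h | h
  · rw [min_eq_left h]
    exact (min_le_left _ _).trans (mul_le_mul_of_nonneg_right hα hu)
  · rw [min_eq_right h]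
    exact (min_le_right _ _).trans (mul_le_mul_of_nonneg_right hβ hv)

/-- scaling of the interaction -/
theorem up_e4 {U : Finset ℕ} {x x' : ℕ → ℝ} (hx : ∀ n, 0 ≤ x n) (hx' : ∀ n, 0 ≤ x' n) {α β C : ℝ}
    (hα0 : 0 ≤ α) (hβ0 : 0 ≤ β) (hα : α ≤ C) (hβ : β ≤ C) :
    e4 L U (fun n => α * x n) (fun n => β * x' n) ≤ C ^ 4 * e4 L U x x' := by
  haveI : Nonempty (Fam L U) := ⟨Fam.empty L U⟩
  unfold e4
  apply ciSup_le
  intro F
  have h1 := le_e4 hx hx' F
  unfold e4 at h1
  refine le_trans ?_ (mul_le_mul_of_nonneg_left h1 (by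
    have : 0 ≤ C := hα0.trans hα
    positivity))
  rw [mul_sum]
  apply sum_le_sum
  intro i _
  have hu : 0 ≤ pr (F.A i) (R (F.T0 i) (F.B i)) x :=
    pr_nonneg (fun n _ => R_nonneg (F.valid i).1 _ n) (fun n _ => hx n)
  have hv : 0 ≤ pr (F.A i) (R (F.T1 i) (F.B i)) x' :=
    pr_nonneg (fun n _ => R_nonneg (F.valid i).2.1 _ n) (fun n _ => hx' n)
  unfold Fam.mm
  rw [pr_smul, pr_smul, ← mul_pow]
  apply pow_le_pow_left₀
  · exact le_min (mul_nonneg hα0 hu) (mul_nonneg hβ0 hv)
  · exact up_min hu hv hα hβ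

theorem up_seq {P : ℕ → ℕ → Prop} (h : ∀ᶠ m in (Filter.hyperfilter ℕ : Filter ℕ),
    ∀ᶠ n in (Filter.hyperfilter ℕ : Filter ℕ), P m n) (N0 : ℕ) :
    ∃ n : ℕ → ℕ, StrictMono n ∧ (∀ i, N0 ≤ n i) ∧ ∀ i j, i < j → P (n i) (n j) := by
  obtain ⟨n, hn1, hn2⟩ := exists_seq_of_forall_finset_exists
    (fun m : ℕ => N0 ≤ m ∧ ∀ᶠ n in (Filter.hyperfilter ℕ : Filter ℕ), P m n)
    (fun m n => m < n ∧ P m n) (fun s hs => by
      have hge : ∀ N : ℕ, ∀ᶠ n in (Filter.hyperfilter ℕ : Filter ℕ), N ≤ n := fun N =>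
        Nat.hyperfilter_le_atTop (Filter.eventually_ge_atTop N)
      have h1 : ∀ᶠ y in (Filter.hyperfilter ℕ : Filter ℕ), ∀ x ∈ s, x < y ∧ P x y := by
        rw [Filter.eventually_all_finset]
        intro x hx
        exact (hge (x + 1)).and (hs x hx).2
      obtain ⟨y, hy⟩ := ((hge N0).and (h.and h1)).exists
      exact ⟨y, ⟨hy.1, hy.2.1⟩, hy.2.2⟩)
  exact ⟨n, fun i j hij => (hn2 i j hij).1, fun i => (hn1 i).1, fun i j hij => (hn2 i j hij).2⟩

/-- `F j` contains the support of `x j`; `U` any finite set containing all supports involved. -/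
theorem upper (x : ℕ → ℕ → ℝ) (F : ℕ → Finset ℕ) (hx : ∀ j n, 0 ≤ x j n)
    (hF : ∀ j n, n ∉ F j → x j n = 0) (hlt : ∀ i j, i < j → Lt (F i) (F j))
    (hnm : ∀ j, nm L (F j) (x j) = 1) (k : ℕ) (a : Fin k → ℝ) (ha : ∀ i, 0 ≤ a i) (ε : ℝ) (hε : 0 < ε)
    (N0 : ℕ) :
    ∃ n : Fin k → ℕ, StrictMono n ∧ (∀ i, N0 ≤ n i) ∧
      ∀ U : Finset ℕ, (∀ i, F (n i) ⊆ U) →
        |nm L U (fun l => ∑ i, a i * x (n i) l) - Real.sqrt (∑ i, a i ^ 2)| ≤ ε := by
  classical
  set C : ℝ := 1 + ∑ i, a i with hC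
  have haC : ∀ i, a i ≤ C := fun i => by
    have := single_le_sum (f := a) (fun i _ => ha i) (mem_univ i)
    linarith
  have hC1 : 1 ≤ C := by
    have : 0 ≤ ∑ i, a i := sum_nonneg fun i _ => ha i
    linarith
  have hC0 : 0 < C := by linarith
  set δ : ℝ := ε / (20 * k * (k * k) * C + 1) with hδ
  have hden : (0:ℝ) < 20 * k * (k * k) * C + 1 := by positivity
  have hδ0 : 0 < δ := div_pos hε hden
  obtain ⟨ν, hν, hνN, hνP⟩ := up_seq (claimP (L := L) x F hx hF hlt (fun j => (hnm j).le) (δ ^ 4)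
    (by positivity)) N0
  refine ⟨fun i => ν i, fun i j hij => hν hij, fun i => hνN i, fun U hU => ?_⟩
  -- the sequence of pieces
  set x' : ℕ → ℕ → ℝ := fun j l => if hj : j < k then a ⟨j, hj⟩ * x (ν j) l else 0 with hx'
  set F' : ℕ → Finset ℕ := fun j => if j < k then F (ν j) else ∅ with hF'
  have hx'j : ∀ j (hj : j < k), x' j = fun l => a ⟨j, hj⟩ * x (ν j) l := fun j hj => by
    funext l; simp only [hx', dif_pos hj]
  have hF'j : ∀ j, j < k → F' j = F (ν j) := fun j hj => by simp only [hF', if_pos hj]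
  have hx'0 : ∀ j n, 0 ≤ x' j n := by
    intro j n
    simp only [hx']
    split_ifs with hj
    · exact mul_nonneg (ha _) (hx _ _)
    · exact le_rfl
  have hF'0 : ∀ j n, n ∉ F' j → x' j n = 0 := by
    intro j n hn
    simp only [hx']
    split_ifs with hj
    · rw [hF'j j hj] at hn
      rw [hF _ _ hn, mul_zero]
    · rfl
  have hF'lt : ∀ i j, i < j → Lt (F' i) (F' j) := by
    intro i j hij u hu v hv
    simp only [hF'] at hu hv
    split_ifs at hu hv with h1 h2
    · exact hlt _ _ (hν hij) u hu v hv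
    · exact absurd hv (notMem_empty _)
    · exact absurd hu (notMem_empty _)
    · exact absurd hu (notMem_empty _)
  have hy : (fun l => ∑ i : Fin k, a i * x (ν i) l) = fun l => ∑ j ∈ range k, x' j l := by
    funext l
    rw [sum_range]
    refine sum_congr rfl fun i _ => ?_
    simp only [hx', dif_pos i.2]
  have hy0 : ∀ l, 0 ≤ ∑ j ∈ range k, x' j l := fun l => sum_nonneg fun j _ => hx'0 j l
  have hnmx : ∀ A j (hj : j < k), nm L A (x' j) ≤ a ⟨j, hj⟩ := by
    intro A j hj
    rw [hx'j j hj, nm_smul (hx _) (ha _)]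
    have h1 : nm L A (x (ν j)) ≤ 1 := by
      rw [nm_inter (hF (ν j)), ← hnm (ν j)]
      exact nm_mono_set inter_subset_right (hx _)
    have := mul_le_mul_of_nonneg_left h1 (ha ⟨j, hj⟩)
    linarith
  have hsum2 : ∑ i, a i ^ 2 = ∑ j ∈ range k, (if hj : j < k then a ⟨j, hj⟩ else 0) ^ 2 := by
    rw [sum_range]
    refine sum_congr rfl fun i _ => ?_
    rw [dif_pos i.2]
  show |nm L U (fun l => ∑ i : Fin k, a i * x (ν i) l) - Real.sqrt (∑ i, a i ^ 2)| ≤ ε
  rw [hy, abs_le]
  constructor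
  · -- lower estimate
    have h1 := nm_sq_sum (L := L) (A := F') (m := k) (fun i j hij _ => hF'lt i j hij) (U := U)
      (fun i hi => by rw [hF'j i hi]; exact hU ⟨i, hi⟩) hy0
    have h2 : ∑ i, a i ^ 2 ≤ nm L U (fun l => ∑ j ∈ range k, x' j l) ^ 2 := by
      refine le_trans ?_ h1
      rw [hsum2]
      apply sum_le_sum
      intro j hj
      have hj' := mem_range.1 hj
      rw [dif_pos hj']
      apply pow_le_pow_left₀ (ha _)
      have h3 : a ⟨j, hj'⟩ = nm L (F' j) (x' j) := by
        rw [hx'j j hj', nm_smul (hx _) (ha _), hF'j j hj', hnm, mul_one]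
      rw [h3]
      apply nm_mono (hx'0 j) _ hy0
      intro n _
      exact single_le_sum (f := fun j => x' j n) (fun j _ => hx'0 j n) hj
    have h3 := Real.sqrt_le_sqrt h2
    rw [Real.sqrt_sq (nm_nonneg U hy0)] at h3
    linarith
  · -- upper estimate
    have h1 : nm L U (fun l => ∑ j ∈ range k, x' j l) ≤ Real.sqrt (∑ i, a i ^ 2) + ε := by
      apply nm_le
      intro T hT
      have h2 := est k x' F' hx'0 hF'0 hF'lt hT (sp T) U
      have h3 : pr U (f T) (fun l => ∑ j ∈ range k, x' j l) =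
          pr U (R T (sp T)) (fun l => ∑ j ∈ range k, x' j l) := by
        unfold pr
        exact sum_congr rfl fun n _ => by rw [R_sp hT]
      rw [h3]
      refine h2.trans (add_le_add (Real.sqrt_le_sqrt ?_) ?_)
      · rw [hsum2]
        apply sum_le_sum
        intro j hj
        have hj' := mem_range.1 hj
        rw [dif_pos hj']
        exact pow_le_pow_left₀ (nm_nonneg _ (hx'0 j)) (hnmx U j hj') 2
      · have h4 : ∀ j ∈ range k, ∑ i ∈ range j, Real.sqrt (Real.sqrt (e4 L U (x' i) (x' j))) ≤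
            k * (C * δ) := by
          intro j hj
          have hj' := mem_range.1 hj
          have h5 : ∀ i ∈ range j, Real.sqrt (Real.sqrt (e4 L U (x' i) (x' j))) ≤ C * δ := by
            intro i hi
            have hi' := mem_range.1 hi
            have h6 := up_e4 (L := L) (U := U) (hx (ν i)) (hx (ν j)) (ha ⟨i, hi'.trans hj'⟩)
              (ha ⟨j, hj'⟩) (haC _) (haC _)
            rw [← hx'j i (hi'.trans hj'), ← hx'j j hj'] at h6
            have h7 := hνP i j hi' U
            have h8 : e4 L U (x' i) (x' j) ≤ (C * δ) ^ 4 := by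
              refine h6.trans ?_
              rw [mul_pow]
              exact mul_le_mul_of_nonneg_left h7 (by positivity)
            have h9 : Real.sqrt ((C * δ) ^ 4) = (C * δ) ^ 2 := by
              rw [show (C * δ) ^ 4 = ((C * δ) ^ 2) ^ 2 by ring]
              exact Real.sqrt_sq (by positivity)
            calc Real.sqrt (Real.sqrt (e4 L U (x' i) (x' j))) ≤
                  Real.sqrt (Real.sqrt ((C * δ) ^ 4)) := Real.sqrt_le_sqrt (Real.sqrt_le_sqrt h8)
              _ = C * δ := by rw [h9]; exact Real.sqrt_sq (by positivity)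
          refine (sum_le_sum h5).trans ?_
          rw [sum_const, card_range, nsmul_eq_mul]
          apply mul_le_mul_of_nonneg_right _ (by positivity)
          exact_mod_cast hj'.le
        have h5 := sum_le_sum h4
        rw [sum_const, card_range, nsmul_eq_mul] at h5
        have h6 : 20 * (k:ℝ) * ∑ j ∈ range k, ∑ i ∈ range j,
            Real.sqrt (Real.sqrt (e4 L U (x' i) (x' j))) ≤ 20 * k * (k * (k * (C * δ))) :=
          mul_le_mul_of_nonneg_left h5 (by positivity)
        refine h6.trans ?_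
        have h7 : δ * (20 * k * (k * k) * C + 1) = ε := by rw [hδ]; field_simp
        have : 20 * (k:ℝ) * (k * (k * (C * δ))) = δ * (20 * k * (k * k) * C + 1) - δ := by ring
        rw [this, h7]
        linarith
    linarith

end Pool.Agent.H51.SM
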